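import Pool.Agent.Lib.MP_690138_an.Words

set_option autoImplicit false
set_option linter.unusedSectionVars false
set_option linter.deprecated false

open scoped InnerProductSpace
open Filter Topology

namespace Pool.Agent.Lib.MP_690138_an

variable {H : Type*} [NormedAddCommGroup H] [InnerProductSpace ℂ H] [CompleteSpace H]

/-- Sequences that are asymptotically approximated by the span of `G`. -/
def Approx (G : Set (ℕ → H)) (v : ℕ → H) : Prop :=
  ∀ η : ℝ, 0 < η → ∃ w ∈ Submodule.span ℂ G, ∀ᶠ k in atTop, ‖v k - w k‖ ≤ η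

theorem Approx.add {G : Set (ℕ → H)} {u v : ℕ → H} (hu : Approx G u) (hv : Approx G v) :
    Approx G (u + v) := by
  intro η hη
  obtain ⟨w1, hw1, h1⟩ := hu (η / 2) (by positivity)
  obtain ⟨w2, hw2, h2⟩ := hv (η / 2) (by positivity)
  refine ⟨w1 + w2, Submodule.add_mem _ hw1 hw2, ?_⟩
  filter_upwards [h1, h2] with k h1 h2
  have : (u + v) k - (w1 + w2) k = (u k - w1 k) + (v k - w2 k) := by
    simp only [Pi.add_apply]
    abel
  rw [this]
  exact (norm_add_le _ _).trans (by linarith)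

theorem Approx.smul {G : Set (ℕ → H)} {u : ℕ → H} (hu : Approx G u) (c : ℂ) :
    Approx G (c • u) := by
  intro η hη
  obtain ⟨w1, hw1, h1⟩ := hu (η / (‖c‖ + 1)) (by positivity)
  refine ⟨c • w1, Submodule.smul_mem _ _ hw1, ?_⟩
  filter_upwards [h1] with k h1
  have : (c • u) k - (c • w1) k = c • (u k - w1 k) := by
    simp only [Pi.smul_apply, smul_sub]
  rw [this, norm_smul]
  have hc : 0 < ‖c‖ + 1 := by positivity
  calc ‖c‖ * ‖u k - w1 k‖ ≤ (‖c‖ + 1) * (η / (‖c‖ + 1)) := by
        apply mul_le_mul (by linarith) h1 (norm_nonneg _) hc.le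
    _ = η := by field_simp

theorem Approx.zero (G : Set (ℕ → H)) : Approx G 0 := by
  intro η hη
  exact ⟨0, Submodule.zero_mem _, Eventually.of_forall fun k => by simpa using hη.le⟩

theorem Approx.map {G G' : Set (ℕ → H)} (Z : H →L[ℂ] H)
    (hG : ∀ g ∈ G, Approx G' (fun k => Z (g k))) {v : ℕ → H} (hv : Approx G v) :
    Approx G' (fun k => Z (v k)) := by
  have h1 : ∀ w ∈ Submodule.span ℂ G, Approx G' (fun k => Z (w k)) := by
    intro w hw
    induction hw using Submodule.span_induction with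
    | mem x hx => exact hG x hx
    | zero =>
      have : (fun k => Z ((0 : ℕ → H) k)) = 0 := by
        funext k
        simp
      rw [this]
      exact Approx.zero G'
    | add x y _ _ hx hy =>
      have : (fun k => Z ((x + y) k)) = (fun k => Z (x k)) + (fun k => Z (y k)) := by
        funext k
        simp
      rw [this]
      exact hx.add hy
    | smul a x _ hx =>
      have : (fun k => Z ((a • x) k)) = a • (fun k => Z (x k)) := by
        funext k
        simp
      rw [this]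
      exact hx.smul a
  intro η hη
  have hc : 0 < ‖Z‖ + 1 := by positivity
  obtain ⟨w, hw, h2⟩ := hv (η / 2 / (‖Z‖ + 1)) (by positivity)
  obtain ⟨w', hw', h3⟩ := h1 w hw (η / 2) (by positivity)
  refine ⟨w', hw', ?_⟩
  filter_upwards [h2, h3] with k h2 h3
  have : Z (v k) - w' k = Z (v k - w k) + (Z (w k) - w' k) := by
    rw [map_sub]
    abel
  rw [this]
  have h4 : ‖Z (v k - w k)‖ ≤ η / 2 := by
    calc ‖Z (v k - w k)‖ ≤ ‖Z‖ * ‖v k - w k‖ := Z.le_opNorm _
      _ ≤ (‖Z‖ + 1) * (η / 2 / (‖Z‖ + 1)) := by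
          apply mul_le_mul (by linarith) h2 (norm_nonneg _) hc.le
      _ = η / 2 := by field_simp
  exact (norm_add_le _ _).trans (by linarith)

theorem Approx.tendsto {G : Set (ℕ → H)} (t t' : ℕ → H) (ht : ∀ k, ‖t k‖ ≤ 1)
    (ht' : ∀ k, ‖t' k‖ ≤ 1) (Z : H →L[ℂ] H) (c : ℂ)
    (hG : ∀ g ∈ G, Tendsto (fun k => ⟪t k, Z (g k)⟫_ℂ - c * ⟪t' k, g k⟫_ℂ) atTop (𝓝 0))
    {v : ℕ → H} (hv : Approx G v) :
    Tendsto (fun k => ⟪t k, Z (v k)⟫_ℂ - c * ⟪t' k, v k⟫_ℂ) atTop (𝓝 0) := by
  have h1 : ∀ w ∈ Submodule.span ℂ G,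
      Tendsto (fun k => ⟪t k, Z (w k)⟫_ℂ - c * ⟪t' k, w k⟫_ℂ) atTop (𝓝 0) := by
    intro w hw
    induction hw using Submodule.span_induction with
    | mem x hx => exact hG x hx
    | zero => simp
    | add x y _ _ hx hy =>
      have := hx.add hy
      rw [add_zero] at this
      refine this.congr fun k => ?_
      simp only [Pi.add_apply, map_add, inner_add_right]
      ring
    | smul a x _ hx =>
      have := hx.const_mul a
      rw [mul_zero] at this
      refine this.congr fun k => ?_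
      simp only [Pi.smul_apply, map_smul, inner_smul_right]
      ring
  rw [Metric.tendsto_nhds]
  intro η hη
  have hc : 0 < ‖Z‖ + ‖c‖ + 1 := by positivity
  obtain ⟨w, hw, h2⟩ := hv (η / 2 / (‖Z‖ + ‖c‖ + 1)) (by positivity)
  have h3 := Metric.tendsto_nhds.mp (h1 w hw) (η / 2) (by positivity)
  filter_upwards [h2, h3] with k h2 h3
  rw [dist_zero_right] at h3 ⊢
  have h4 : ⟪t k, Z (v k)⟫_ℂ - c * ⟪t' k, v k⟫_ℂ =
      (⟪t k, Z (w k)⟫_ℂ - c * ⟪t' k, w k⟫_ℂ) +
        (⟪t k, Z (v k - w k)⟫_ℂ - c * ⟪t' k, v k - w k⟫_ℂ) := by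
    simp only [map_sub, inner_sub_right]
    ring
  have h5 : ‖⟪t k, Z (v k - w k)⟫_ℂ‖ ≤ ‖Z‖ * ‖v k - w k‖ := by
    calc ‖⟪t k, Z (v k - w k)⟫_ℂ‖ ≤ ‖t k‖ * ‖Z (v k - w k)‖ := norm_inner_le_norm _ _
      _ ≤ 1 * (‖Z‖ * ‖v k - w k‖) :=
          mul_le_mul (ht k) (Z.le_opNorm _) (norm_nonneg _) zero_le_one
      _ = _ := one_mul _
  have h6 : ‖c * ⟪t' k, v k - w k⟫_ℂ‖ ≤ ‖c‖ * ‖v k - w k‖ := by
    rw [norm_mul]
    apply mul_le_mul_of_nonneg_left _ (norm_nonneg _)
    calc ‖⟪t' k, v k - w k⟫_ℂ‖ ≤ ‖t' k‖ * ‖v k - w k‖ := norm_inner_le_norm _ _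
      _ ≤ 1 * ‖v k - w k‖ := mul_le_mul_of_nonneg_right (ht' k) (norm_nonneg _)
      _ = _ := one_mul _
  have h7 : (‖Z‖ + ‖c‖ + 1) * ‖v k - w k‖ ≤ η / 2 := by
    calc (‖Z‖ + ‖c‖ + 1) * ‖v k - w k‖ ≤ (‖Z‖ + ‖c‖ + 1) * (η / 2 / (‖Z‖ + ‖c‖ + 1)) :=
          mul_le_mul_of_nonneg_left h2 hc.le
      _ = η / 2 := by field_simp
  rw [h4]
  have h8 := norm_add_le (⟪t k, Z (w k)⟫_ℂ - c * ⟪t' k, w k⟫_ℂ)
    (⟪t k, Z (v k - w k)⟫_ℂ - c * ⟪t' k, v k - w k⟫_ℂ)
  have h9 := norm_sub_le ⟪t k, Z (v k - w k)⟫_ℂ (c * ⟪t' k, v k - w k⟫_ℂ)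
  have h10 := norm_nonneg (v k - w k)
  nlinarith

/-- The basis vector at position `σ` of orbit `o`, at stage `k`. -/
noncomputable def gen (ε : HilbertBasis ℤ ℂ H) (base : List (ℤ × ℕ) → ℕ → ℤ) (o : List (ℤ × ℕ))
    (σ : ℤ) (k : ℕ) : H := ε (base o k + σ)

/-- An asymptotically free labelling of a Hilbert basis. -/
structure Frame (ε : HilbertBasis ℤ ℂ H) (b : ℕ → H →L[ℂ] H) (β : ℕ → ℕ → ℂ)
    (base : List (ℤ × ℕ) → ℕ → ℤ) (r : ℕ → ℕ) : Prop where
  sep : ∀ o o', o ≠ o' → Tendsto (fun k => base o k - base o' k) atTop cofinite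
  zero : ∀ j i, r j ≤ i → β j i = 0
  letter : ∀ j o σ, (σ ≠ 0 ∨ o = []) → Tendsto (fun k => b j (gen ε base o σ k) -
    ∑ i ∈ Finset.range (r j), β j i • gen ε base ((σ, i) :: o) 0 k) atTop (𝓝 0)

section

variable {ε : HilbertBasis ℤ ℂ H} {b : ℕ → H →L[ℂ] H} {β : ℕ → ℕ → ℂ}
  {base : List (ℤ × ℕ) → ℕ → ℤ} {r : ℕ → ℕ}

theorem norm_gen (o : List (ℤ × ℕ)) (σ : ℤ) (k : ℕ) : ‖gen ε base o σ k‖ ≤ 1 :=
  (ε.orthonormal.1 _).le

theorem Frame.inner_gen (hF : Frame ε b β base r) (o o' : List (ℤ × ℕ)) (σ σ' : ℤ) :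
    ∀ᶠ k in atTop, ⟪gen ε base o σ k, gen ε base o' σ' k⟫_ℂ =
      if o = o' ∧ σ = σ' then 1 else 0 := by
  by_cases ho : o = o'
  · subst ho
    refine Eventually.of_forall fun k => ?_
    unfold gen
    rw [inner_basis]
    simp
  · have h1 := (hF.sep o o' ho).eventually (eventually_cofinite_ne (σ' - σ))
    filter_upwards [h1] with k hk
    unfold gen
    rw [inner_basis, if_neg (by omega), if_neg (fun h => ho h.1)]

theorem Frame.diag_tendsto (hF : Frame ε b β base r) {d : H →L[ℂ] H} (hd : d ∈ diag ε)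
    {o o' : List (ℤ × ℕ)} (ho : o ≠ o') (γ : ℤ) :
    Tendsto (fun k => ⟪gen ε base o γ k, d (gen ε base o' 0 k)⟫_ℂ) atTop (𝓝 0) := by
  have h1 : Tendsto (fun n : ℤ => n + γ) cofinite cofinite :=
    (add_left_injective γ).tendsto_cofinite
  have h2 := (hat_tendsto ε d).comp (h1.comp (hF.sep o o' ho))
  refine h2.congr fun k => ?_
  unfold gen
  rw [inner_diag hd]
  simp only [Function.comp_apply]
  congr 1
  ring

theorem diag_same {d : H →L[ℂ] H} (hd : d ∈ diag ε) (o : List (ℤ × ℕ)) (γ : ℤ) (k : ℕ) :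
    ⟪gen ε base o γ k, d (gen ε base o 0 k)⟫_ℂ = hat ε d γ := by
  unfold gen
  rw [inner_diag hd]
  congr 1
  ring

theorem approx_diag {d : H →L[ℂ] H} (hd : d ∈ diag ε) {o : List (ℤ × ℕ)}
    (h : hat ε d 0 = 0 ∨ o = []) :
    Approx {g | ∃ o σ, (σ ≠ 0 ∨ o = []) ∧ g = gen ε base o σ}
      (fun k => d (gen ε base o 0 k)) := by
  intro η hη
  have h1 := ε.hasSum_repr (d (ε 0))
  obtain ⟨S, hS⟩ := (Metric.tendsto_nhds.mp h1 η hη).exists
  refine ⟨∑ σ ∈ S, hat ε d σ • gen ε base o σ, ?_, Eventually.of_forall fun k => ?_⟩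
  · refine Submodule.sum_mem _ fun σ _ => ?_
    by_cases hσ : σ ≠ 0 ∨ o = []
    · exact Submodule.smul_mem _ _ (Submodule.subset_span ⟨o, σ, hσ, rfl⟩)
    · push Not at hσ
      rcases h with h | h
      · rw [hσ.1, h, zero_smul]
        exact Submodule.zero_mem _
      · exact absurd h hσ.2
  · have h2 : d (gen ε base o 0 k) - (∑ σ ∈ S, hat ε d σ • gen ε base o σ) k =
        shift ε (base o k) (d (ε 0) - ∑ σ ∈ S, ε.repr (d (ε 0)) σ • ε σ) := by
      rw [map_sub, map_sum, Finset.sum_apply]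
      unfold gen
      rw [add_zero, diag_apply hd (base o k)]
      congr 1
      refine Finset.sum_congr rfl fun σ _ => ?_
      rw [map_smul, shift_apply, ε.repr_apply_apply, add_comm σ]
      rfl
    rw [h2, norm_shift, ← dist_eq_norm, dist_comm]
    exact hS.le

theorem Frame.approx_letter (hF : Frame ε b β base r) (j : ℕ) {o : List (ℤ × ℕ)} {σ : ℤ}
    (h : σ ≠ 0 ∨ o = []) :
    Approx {g | ∃ o, g = gen ε base o 0} (fun k => b j (gen ε base o σ k)) := by
  intro η hη
  refine ⟨∑ i ∈ Finset.range (r j), β j i • gen ε base ((σ, i) :: o) 0, ?_, ?_⟩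
  · exact Submodule.sum_mem _ fun i _ =>
      Submodule.smul_mem _ _ (Submodule.subset_span ⟨_, rfl⟩)
  · filter_upwards [Metric.tendsto_nhds.mp (hF.letter j o σ h) η hη] with k hk
    rw [dist_zero_right] at hk
    rw [Finset.sum_apply]
    exact hk.le

theorem Frame.letter_tendsto (hF : Frame ε b β base r) (j : ℕ) {o : List (ℤ × ℕ)} {σ : ℤ}
    (h : σ ≠ 0 ∨ o = []) (o1 : List (ℤ × ℕ)) :
    Tendsto (fun k => ⟪gen ε base o1 0 k, b j (gen ε base o σ k)⟫_ℂ) atTop
      (𝓝 (∑ i ∈ Finset.range (r j), β j i * if o1 = (σ, i) :: o then 1 else 0)) := by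
  have h1 : Tendsto (fun k => ⟪gen ε base o1 0 k, b j (gen ε base o σ k) -
      ∑ i ∈ Finset.range (r j), β j i • gen ε base ((σ, i) :: o) 0 k⟫_ℂ) atTop (𝓝 0) := by
    rw [tendsto_zero_iff_norm_tendsto_zero]
    refine squeeze_zero (fun k => norm_nonneg _) (fun k => ?_)
      (tendsto_zero_iff_norm_tendsto_zero.mp (hF.letter j o σ h))
    refine (norm_inner_le_norm _ _).trans ?_
    exact mul_le_of_le_one_left (norm_nonneg _) (norm_gen _ _ _)
  have h2 : ∀ᶠ k in atTop, ∀ i ∈ Finset.range (r j),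
      ⟪gen ε base o1 0 k, gen ε base ((σ, i) :: o) 0 k⟫_ℂ =
        if o1 = (σ, i) :: o ∧ (0 : ℤ) = 0 then 1 else 0 :=
    (Finset.eventually_all _).mpr fun i _ => hF.inner_gen _ _ _ _
  have h3 := h1.add_const (∑ i ∈ Finset.range (r j), β j i * if o1 = (σ, i) :: o then 1 else 0)
  rw [zero_add] at h3
  refine h3.congr' ?_
  filter_upwards [h2] with k hk
  rw [inner_sub_right, inner_sum]
  have : ∑ i ∈ Finset.range (r j), ⟪gen ε base o1 0 k, β j i • gen ε base ((σ, i) :: o) 0 k⟫_ℂ =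
      ∑ i ∈ Finset.range (r j), β j i * if o1 = (σ, i) :: o then 1 else 0 := by
    refine Finset.sum_congr rfl fun i hi => ?_
    rw [inner_smul_right, hk i hi]
    simp
  rw [this]
  ring

theorem Frame.coef_tendsto (hF : Frame ε b β base r) :
    ∀ (w : List (ℕ × (H →L[ℂ] H))) (d : H →L[ℂ] H), d ∈ diag ε → Normal ε Set.univ w →
      (∀ o γ, Tendsto (fun k => ⟪gen ε base o γ k, val b d w (gen ε base [] 0 k)⟫_ℂ) atTop
        (𝓝 (coef ε β d w o γ))) ∧
      ((w ≠ [] → hat ε d 0 = 0) → Approx {g | ∃ o σ, (σ ≠ 0 ∨ o = []) ∧ g = gen ε base o σ}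
        (fun k => val b d w (gen ε base [] 0 k))) := by
  intro w
  induction w with
  | nil =>
    intro d hd _
    refine ⟨fun o γ => ?_, fun _ => approx_diag hd (Or.inr rfl)⟩
    cases o with
    | nil =>
      simp only [val, coef, diag_same hd]
      exact tendsto_const_nhds
    | cons q o =>
      simp only [val, coef]
      exact hF.diag_tendsto hd (List.cons_ne_nil q o) γ
  | cons p w ih =>
    intro d hd hN
    obtain ⟨_, hp, hp0, hw⟩ := hN
    obtain ⟨ih1, ih2⟩ := ih p.2 hp hw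
    have hu := ih2 hp0
    have hv : Approx {g | ∃ o, g = gen ε base o 0}
        (fun k => b p.1 (val b p.2 w (gen ε base [] 0 k))) := by
      refine Approx.map (b p.1) ?_ hu
      rintro _ ⟨o, σ, h, rfl⟩
      exact hF.approx_letter p.1 h
    have hval : ∀ x, val b d (p :: w) x = d (b p.1 (val b p.2 w x)) := fun x => rfl
    simp only [hval]
    refine ⟨fun o γ => ?_, fun h0 => ?_⟩
    · have h1 := Approx.tendsto (gen ε base o γ) (gen ε base o 0) (norm_gen o γ) (norm_gen o 0)
        d (hat ε d γ) ?_ hv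
      · cases o with
        | nil =>
          have h2 := Approx.tendsto (gen ε base [] 0) (gen ε base [] 0) (norm_gen [] 0)
            (norm_gen [] 0) (b p.1) 0 ?_ hu
          · have h3 := h1.add (h2.const_mul (hat ε d γ))
            simp only [coef]
            simpa using h3
          · rintro _ ⟨o', σ', h, rfl⟩
            have := hF.letter_tendsto p.1 h []
            simpa using this
        | cons q o =>
          have h2 := Approx.tendsto (gen ε base (q :: o) 0) (gen ε base o q.1)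
            (norm_gen (q :: o) 0) (norm_gen o q.1) (b p.1) (β p.1 q.2) ?_ hu
          · have h3 := h1.add ((h2.add ((ih1 o q.1).const_mul (β p.1 q.2))).const_mul (hat ε d γ))
            simp only [coef]
            simpa [mul_assoc] using h3
          · rintro _ ⟨o', σ', h, rfl⟩
            have h3 := hF.letter_tendsto p.1 h (q :: o)
            have h4 : (∑ i ∈ Finset.range (r p.1), β p.1 i *
                if q :: o = (σ', i) :: o' then (1 : ℂ) else 0) =
                β p.1 q.2 * if o = o' ∧ q.1 = σ' then 1 else 0 := by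
              by_cases hq : o = o' ∧ q.1 = σ'
              · rw [if_pos hq, Finset.sum_eq_single q.2]
                · rw [if_pos (by rw [← hq.1, ← hq.2])]
                · intro i _ hi
                  rw [if_neg, mul_zero]
                  intro h5
                  apply hi
                  have := congrArg (fun x => x.2) (List.head_eq_of_cons_eq h5)
                  exact this.symm
                · intro hi
                  rw [hF.zero p.1 q.2 (by simpa using hi), zero_mul]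
              · rw [if_neg hq, mul_zero]
                refine Finset.sum_eq_zero fun i _ => ?_
                rw [if_neg, mul_zero]
                intro h5
                apply hq
                refine ⟨List.tail_eq_of_cons_eq h5, ?_⟩
                exact congrArg (fun x => x.1) (List.head_eq_of_cons_eq h5)
            rw [h4] at h3
            have h5 := h3.sub_const (β p.1 q.2 * if o = o' ∧ q.1 = σ' then 1 else 0)
            rw [sub_self] at h5
            refine h5.congr' ?_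
            filter_upwards [hF.inner_gen o o' q.1 σ'] with k hk
            rw [hk]
      · rintro _ ⟨o', rfl⟩
        by_cases ho : o = o'
        · subst ho
          refine tendsto_const_nhds.congr' ?_
          filter_upwards [hF.inner_gen o o 0 0] with k hk
          rw [hk, diag_same hd]
          simp
        · refine (hF.diag_tendsto hd ho γ).congr' ?_
          filter_upwards [hF.inner_gen o o' 0 0] with k hk
          rw [hk, if_neg (fun h => ho h.1)]
          simp
    · refine Approx.map d ?_ hv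
      rintro _ ⟨o, rfl⟩
      exact approx_diag hd (Or.inl (h0 (List.cons_ne_nil p w)))

theorem val_zero_letters (J : Set ℕ) (T : ℕ → H →L[ℂ] H) (hT : ∀ j ∈ J, T j = 0)
    {d : H →L[ℂ] H} (hd : d ∈ diag ε) {w : List (ℕ × (H →L[ℂ] H))} (hw : Normal ε J w) :
    val T d w ∈ diag ε := by
  cases w with
  | nil => exact hd
  | cons p w =>
    simp only [val]
    rw [hT p.1 hw.1, mul_zero, zero_mul]
    exact Subalgebra.zero_mem _

theorem val_congr (J : Set ℕ) (T T' : ℕ → H →L[ℂ] H) (hT : ∀ j ∈ J, T j = T' j) :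
    ∀ (w : List (ℕ × (H →L[ℂ] H))) (d : H →L[ℂ] H), Normal ε J w → val T d w = val T' d w
  | [], _, _ => rfl
  | p :: w, d, hw => by
    simp only [val]
    rw [hT p.1 hw.1, val_congr J T T' hT w p.2 hw.2.2.2]

theorem Frame.mem_diag (hF : Frame ε b β base r) (hβ : RowIndep β) {J J' : Set ℕ}
    (hJ : Disjoint J J') {x : H →L[ℂ] H} (hx : x ∈ nspan ε b J) (hx' : x ∈ nspan ε b J') :
    x ∈ diag ε := by
  classical
  obtain ⟨n, c, g, hg⟩ := Submodule.mem_span_set'.mp hx
  obtain ⟨n', c', g', hg'⟩ := Submodule.mem_span_set'.mp hx'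
  choose d w hd hw hv using fun a => (g a).2
  choose d' w' hd' hw' hv' using fun a => (g' a).2
  let T : ℕ → H →L[ℂ] H := fun j => if j ∈ J then b j else 0
  let cc : Fin n ⊕ Fin n' → ℂ := Sum.elim c (fun a => - c' a)
  let dd : Fin n ⊕ Fin n' → H →L[ℂ] H := Sum.elim d d'
  let ww : Fin n ⊕ Fin n' → List (ℕ × (H →L[ℂ] H)) := Sum.elim w w'
  have hdd : ∀ a, dd a ∈ diag ε := by
    rintro (a | a)
    · exact hd a
    · exact hd' a
  have hww : ∀ a, Normal ε Set.univ (ww a) := by
    rintro (a | a)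
    · exact Normal.mono (Set.subset_univ _) (hw a)
    · exact Normal.mono (Set.subset_univ _) (hw' a)
  have hsum : ∀ S : ℕ → H →L[ℂ] H, ∑ a, cc a • val S (dd a) (ww a) =
      ∑ a, c a • val S (d a) (w a) - ∑ a, c' a • val S (d' a) (w' a) := by
    intro S
    rw [Fintype.sum_sum_type, sub_eq_add_neg, ← Finset.sum_neg_distrib]
    simp [cc, dd, ww]
  have hx1 : ∑ a, c a • val b (d a) (w a) = x := by
    rw [← hg]
    exact Finset.sum_congr rfl fun a _ => by rw [hv a]
  have hx2 : ∑ a, c' a • val b (d' a) (w' a) = x := by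
    rw [← hg']
    exact Finset.sum_congr rfl fun a _ => by rw [hv' a]
  have h0 : ∑ a, cc a • val b (dd a) (ww a) = 0 := by
    rw [hsum, hx1, hx2, sub_self]
  have h1 := val_rel (ε := ε) hβ T (Finset.univ.sup fun a => (ww a).length) Finset.univ cc dd ww
    (fun a _ => hdd a) (fun a _ => hww a)
    (fun a ha => Finset.le_sup (f := fun a => (ww a).length) ha) ?_
  · rw [hsum, sub_eq_zero] at h1
    have h2 : ∑ a, c a • val T (d a) (w a) = x := by
      rw [← hx1]
      refine Finset.sum_congr rfl fun a _ => ?_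
      rw [val_congr J T b (fun j hj => if_pos hj) _ _ (hw a)]
    rw [← h2, h1]
    refine Subalgebra.sum_mem _ fun a _ => Subalgebra.smul_mem _ ?_ _
    refine val_zero_letters J' T (fun j hj => if_neg ?_) (hd' a) (hw' a)
    exact fun hj' => Set.disjoint_left.mp hJ hj' hj
  · intro o γ
    have h2 : Tendsto (fun k => ∑ a, cc a *
        ⟪gen ε base o γ k, val b (dd a) (ww a) (gen ε base [] 0 k)⟫_ℂ) atTop
        (𝓝 (∑ a, cc a * coef ε β (dd a) (ww a) o γ)) :=
      tendsto_finset_sum _ fun a _ =>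
        ((hF.coef_tendsto (ww a) (dd a) (hdd a) (hww a)).1 o γ).const_mul _
    have h3 : ∀ k, ∑ a, cc a *
        ⟪gen ε base o γ k, val b (dd a) (ww a) (gen ε base [] 0 k)⟫_ℂ = 0 := by
      intro k
      have := congrArg (fun S : H →L[ℂ] H => ⟪gen ε base o γ k, S (gen ε base [] 0 k)⟫_ℂ) h0
      simpa [ContinuousLinearMap.sum_apply, inner_sum, inner_smul_right] using this
    simp only [h3] at h2
    exact tendsto_nhds_unique h2 tendsto_const_nhds

end

end Pool.Agent.Lib.MP_690138_an
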