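import Pool.Agent.Lib.MP_690138_an.Sweep

set_option autoImplicit false
set_option linter.unusedSectionVars false
set_option linter.deprecated false

open scoped InnerProductSpace
open Filter Topology InnerProductSpace Finset Polynomial

namespace Pool.Agent.Lib.MP_690138_an.KS

variable {K : Type} [NormedAddCommGroup K] [InnerProductSpace ℂ K] [CompleteSpace K]

theorem exists_twist (ε : HilbertBasis ℕ ℂ K) (I : Set ℕ) :
    ∃ s s' : K →L[ℂ] K, s * s' = 1 ∧ s' * s = 1 ∧ (∀ i ∈ I, s (ε i) = (4 : ℂ) • ε i) ∧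
      ∀ i ∉ I, s (ε i) = ε i := by
  let V : Submodule ℂ K := (Submodule.span ℂ (ε '' I)).topologicalClosure
  have hV : CompleteSpace V := (Submodule.isClosed_topologicalClosure _).completeSpace_coe
  have hP : V.starProjection * V.starProjection = V.starProjection := by
    ext x
    exact Submodule.starProjection_eq_self_iff.mpr (Submodule.starProjection_apply_mem V x)
  refine ⟨1 + (3 : ℂ) • V.starProjection, 1 - (3 / 4 : ℂ) • V.starProjection, ?_, ?_,
    fun i hi => ?_, fun i hi => ?_⟩
  · simp only [add_mul, mul_sub, one_mul, mul_one, smul_mul_assoc, mul_smul_comm, hP]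
    module
  · simp only [mul_add, sub_mul, one_mul, mul_one, smul_mul_assoc, mul_smul_comm, hP]
    module
  · have h1 : V.starProjection (ε i) = ε i := Submodule.starProjection_eq_self_iff.mpr
      (Submodule.le_topologicalClosure _ (Submodule.subset_span ⟨i, hi, rfl⟩))
    rw [ContinuousLinearMap.add_apply, ContinuousLinearMap.smul_apply, h1,
      ContinuousLinearMap.one_apply]
    module
  · have h1 : V.starProjection (ε i) = 0 := by
      rw [Submodule.starProjection_apply_eq_zero_iff, Submodule.mem_orthogonal']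
      have : V ≤ LinearMap.ker (innerSL ℂ (ε i) : K →ₗ[ℂ] ℂ) := by
        apply Submodule.topologicalClosure_minimal _ _
          (ContinuousLinearMap.isClosed_ker (innerSL ℂ (ε i)))
        rw [Submodule.span_le]
        rintro _ ⟨j, hj, rfl⟩
        show ⟪ε i, ε j⟫_ℂ = 0
        rw [basis_inner, if_neg (fun h : i = j => hi (h ▸ hj))]
      exact fun u hu => this hu
    rw [ContinuousLinearMap.add_apply, ContinuousLinearMap.smul_apply, h1, smul_zero, add_zero]
    rfl

theorem diag_facts (ε : HilbertBasis ℕ ℂ K) {x : ℕ → ℝ} (hx : ∀ i, 8 ^ i ≤ x i) {Λ : K →L[ℂ] K}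
    (h : HasSum (fun i => ((x i : ℂ))⁻¹ • rankOne ℂ (ε i) (ε i)) Λ) :
    PosInj Λ ∧ Nuc Λ ∧ ∀ i, Λ (ε i) = ((x i : ℂ))⁻¹ • ε i := by
  have hpos : ∀ i, 0 < x i := fun i => lt_of_lt_of_le (by positivity) (hx i)
  have h1 : star Λ = Λ := by
    have h2 := h.star
    simp only [star_smul, star_rankOne, RCLike.star_def, map_inv₀, Complex.conj_ofReal] at h2
    exact h2.unique h
  have h2 : ∀ i, Λ (ε i) = ((x i : ℂ))⁻¹ • ε i := by
    intro i
    have h3 := h.mapL (ContinuousLinearMap.apply ℂ K (ε i))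
    simp only [ContinuousLinearMap.apply_apply, ContinuousLinearMap.smul_apply, rankOne_apply,
      basis_inner] at h3
    refine h3.unique ?_
    have h4 := hasSum_single (f := fun j => ((x j : ℂ))⁻¹ • (if j = i then (1 : ℂ) else 0) • ε j) i
      (fun j hj => by simp [hj])
    simpa using h4
  refine ⟨⟨h1, fun ξ => ?_, fun ξ hξ => ?_⟩, ?_, h2⟩
  · have h3 := ((h.mapL (ContinuousLinearMap.apply ℂ K ξ)).mapL (innerSL ℂ ξ)).mapL Complex.reCLM
    rw [← inner_star_right, h1]
    refine h3.nonneg (fun i => ?_)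
    simp only [ContinuousLinearMap.apply_apply, ContinuousLinearMap.smul_apply, rankOne_apply,
      innerSL_apply_apply, inner_smul_right, Complex.reCLM_apply]
    rw [← inner_conj_symm ξ (ε i), Complex.mul_conj, ← Complex.ofReal_inv, ← Complex.ofReal_mul,
      Complex.ofReal_re]
    exact mul_nonneg (inv_nonneg.mpr (hpos i).le) (Complex.normSq_nonneg _)
  · apply total_basis ε
    intro i
    have h3 : ⟪ξ, Λ (ε i)⟫_ℂ = 0 := by rw [← inner_star_left, h1, hξ, inner_zero_left]
    rw [h2, inner_smul_right] at h3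
    exact (mul_eq_zero.mp h3).resolve_left (inv_ne_zero (by exact_mod_cast (hpos i).ne'))
  · refine ⟨ℕ, fun i => 4 ^ i / x i, fun i => ((1 / 2 : ℂ) ^ i) • ε i, Empty, inferInstance,
      fun _ => 0, fun _ => 0, Λ, ?_, ?_, ?_, by simp⟩
    · refine Summable.of_nonneg_of_le (fun i => norm_nonneg _) (fun i => ?_)
        summable_geometric_two
      rw [Real.norm_of_nonneg (by have := hpos i; positivity), div_le_iff₀ (hpos i)]
      have h3 : (4 : ℝ) ^ i = (1 / 2) ^ i * 8 ^ i := by rw [← mul_pow]; norm_num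
      rw [h3]
      exact mul_le_mul_of_nonneg_left (hx i) (by positivity)
    · refine Summable.of_nonneg_of_le (fun i => by positivity) (fun i => ?_)
        summable_geometric_two
      rw [norm_smul, ε.orthonormal.1 i, mul_one, norm_pow]
      have h3 : ‖(1 / 2 : ℂ)‖ = 1 / 2 := by simp
      rw [h3, sq]
      exact mul_le_of_le_one_left (by positivity) (pow_le_one₀ (by norm_num) (by norm_num))
    · have h3 : ∀ i, ((4 ^ i / x i : ℝ) : ℂ) • rankOne ℂ (((1 / 2 : ℂ) ^ i) • ε i)
          (((1 / 2 : ℂ) ^ i) • ε i) = ((x i : ℂ))⁻¹ • rankOne ℂ (ε i) (ε i) := by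
        intro i
        ext z
        simp only [ContinuousLinearMap.smul_apply, rankOne_apply, inner_smul_left, smul_smul]
        congr 1
        have h4 : (starRingEnd ℂ) ((1 / 2 : ℂ) ^ i) = (1 / 2 : ℂ) ^ i := by
          rw [map_pow, map_div₀, map_one, Complex.conj_ofNat]
        have h5 : (4 : ℂ) ^ i * (1 / 2) ^ i * (1 / 2) ^ i = 1 := by
          rw [← mul_pow, ← mul_pow]; norm_num
        rw [h4]
        push_cast
        linear_combination ((x i : ℂ)⁻¹ * ⟪ε i, z⟫_ℂ) * h5
      simp only [h3]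
      exact h

theorem exists_model (ε : HilbertBasis ℕ ℂ K) : Nonempty (Model K) := by
  classical
  obtain ⟨σ, τ, c, h⟩ := exists_stages ε
  have hG : ∀ n, (σ n).Good ε (2 ^ n) := fun n => (h n).1
  let y : ℕ → (K →L[ℂ] K) × K × K := fun n => (σ n).trip ε (2 ^ n)
  have hτ : ∀ n k, τ (n + k) ≤ τ n * (1 / 2) ^ k := by
    intro n k
    induction k with
    | zero => simp
    | succ k ih =>
      have := (h (n + k)).2.2.2.2.1
      rw [pow_succ, ← add_assoc]
      linarith
  have hy : ∀ n k, dist (y (n + k)) (y (n + (k + 1))) ≤ τ n * (1 / 2) ^ k := by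
    intro n k
    rw [dist_comm]
    exact (h (n + k)).2.2.2.2.2.2.1.trans (hτ n k)
  obtain ⟨Y, hY⟩ := cauchySeq_tendsto_of_complete
    (cauchySeq_of_le_geometric (1 / 2) (τ 0) (by norm_num) (f := y) (by simpa using hy 0))
  have hYd : ∀ n, dist Y (y n) ≤ 2 * τ n := by
    intro n
    have h1 := dist_le_of_le_geometric_of_tendsto₀ (1 / 2) (τ n) (by norm_num)
      (f := fun k => y (n + k)) (hy n)
      (hY.comp (tendsto_atTop_mono (fun k => Nat.le_add_left k n) tendsto_id))
    rw [dist_comm]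
    refine h1.trans (le_of_eq ?_)
    ring
  have hstab : ∀ m k i, i < 2 ^ m →
      (σ (m + k)).x i = (σ m).x i ∧ ∀ b, (σ (m + k)).γ b i = (σ m).γ b i := by
    intro m k i hi
    induction k with
    | zero => exact ⟨rfl, fun _ => rfl⟩
    | succ k ih =>
      have h1 := (h (m + k)).2.1 i
        (lt_of_lt_of_le hi (Nat.pow_le_pow_right (by norm_num) (Nat.le_add_right m k)))
      exact ⟨h1.1.trans ih.1, fun b => (h1.2 b).trans (ih.2 b)⟩
  have hst : ∀ n i, i < 2 ^ n → (σ n).x i = (σ i).x i ∧ ∀ b, (σ n).γ b i = (σ i).γ b i := by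
    intro n i hi
    have h1 := hstab n i i hi
    have h2 := hstab i n i Nat.lt_two_pow_self
    rw [add_comm] at h2
    exact ⟨h1.1.symm.trans h2.1, fun b => (h1.2 b).symm.trans (h2.2 b)⟩
  have hx : ∀ i, 8 ^ i ≤ (σ i).x i := fun i => (hG i).x i Nat.lt_two_pow_self
  have hΛ : HasSum (fun i => (((σ i).x i : ℂ))⁻¹ • rankOne ℂ (ε i) (ε i)) Y.1 := by
    have h1 : Summable (fun i => (((σ i).x i : ℂ))⁻¹ • rankOne ℂ (ε i) (ε i)) := by
      apply Summable.of_norm_bounded (summable_geometric_of_lt_one (r := (1 / 8 : ℝ))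
        (by norm_num) (by norm_num))
      intro i
      have h2 : (0 : ℝ) < 8 ^ i := by positivity
      rw [norm_smul, norm_rankOne, ε.orthonormal.1 i, mul_one, mul_one, norm_inv,
        Complex.norm_real, Real.norm_of_nonneg (h2.le.trans (hx i)), one_div, inv_pow]
      exact inv_anti₀ h2 (hx i)
    have h2 := h1.hasSum.tendsto_sum_nat.comp
      (tendsto_pow_atTop_atTop_of_one_lt (by norm_num : (1 : ℕ) < 2))
    have h3 := (continuous_fst.tendsto Y).comp hY
    have h4 : ∑' i, (((σ i).x i : ℂ))⁻¹ • rankOne ℂ (ε i) (ε i) = Y.1 := by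
      refine tendsto_nhds_unique h2 (h3.congr (fun n => ?_))
      simp only [Function.comp_apply, y, St.trip]
      exact sum_congr rfl (fun i hi => by rw [(hst n i (mem_range.mp hi)).1])
    exact h4 ▸ h1.hasSum
  obtain ⟨hpos, hnuc, hdiag⟩ := diag_facts ε hx hΛ
  obtain ⟨s, s', hs1, hs2, hs3, hs4⟩ := exists_twist ε {i | (σ i).γ true i ≠ (σ i).γ false i}
  have hsev : ∀ n q, s (ev ε (2 ^ n) (σ n).x ((σ n).γ false) q) =
      ev ε (2 ^ n) (σ n).x ((σ n).γ true) q := by
    intro n q
    rw [ev_apply, ev_apply, map_sum]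
    refine sum_congr rfl (fun i hi => ?_)
    rw [map_smul, (hst n i (mem_range.mp hi)).2, (hst n i (mem_range.mp hi)).2]
    by_cases h1 : (σ i).γ true i = (σ i).γ false i
    · rw [hs4 i (by simpa using h1), h1]
    · rw [hs3 i h1, ((hG i).s i Nat.lt_two_pow_self).resolve_left h1, smul_smul]
      congr 1
      ring
  have hsev' : ∀ n q, s' (ev ε (2 ^ n) (σ n).x ((σ n).γ true) q) =
      ev ε (2 ^ n) (σ n).x ((σ n).γ false) q := by
    intro n q
    rw [← hsev]
    exact app_of_eq hs2 _
  let u : Bool → ℕ → ℕ → K := fun b n => (σ n).u ε (2 ^ n) b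
  have hT : ∀ b, Tree ε (u b) (fun n a => c n a b) := fun b =>
    ⟨fun n => (hG n).on b, fun n a j _ hj => ev_supp ε _ _ _ _ hj,
      fun n i hi => (hG n).full b hi, fun n a ha => ((h n).2.2.2.2.2.2.2 b a ha).1,
      fun n a ha => ((h n).2.2.2.2.2.2.2 b a ha).2⟩
  have hT0 : Tree ε (u false) (fun _ _ => 1) :=
    ⟨(hT false).on, (hT false).supp, (hT false).full,
      fun n a ha => by simpa only [((h n).2.2.1 a ha).1] using (hT false).c0 n a ha,
      fun n a ha => by simpa only [((h n).2.2.1 a ha).1] using (hT false).c1 n a ha⟩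
  obtain ⟨P, hP⟩ := hT0.exists_lim
  obtain ⟨P', hP'⟩ := (hT true).exists_lim
  have hdeg : ∀ b n d k a, d ≤ 2 ^ n → a < d * 2 ^ k →
      ((σ (n + k)).P b a).degree < ((d * 2 ^ k : ℕ) : WithBot ℕ) := by
    intro b n d k a hd ha
    rw [(hG (n + k)).deg b a (lt_of_lt_of_le ha (le_pow_add hd k))]
    exact_mod_cast ha
  let lam : ℕ → ℕ → ℝ := fun n a => (1 + ‖c n a true‖ ^ 2) / (1 - ‖c n a true‖ ^ 2)
  have hlam : ∀ n a, a < 2 ^ n → |lam n a| ≤ 2 ∧ 1 - ‖c n a true‖ ^ 2 ≠ 0 := by
    intro n a ha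
    have h0 := norm_nonneg (c n a true)
    simp only [lam]
    rcases ((h n).2.2.1 a ha).2 with h1 | h1
    · have h2 : 1 - ‖c n a true‖ ^ 2 < 0 := by nlinarith
      refine ⟨?_, h2.ne⟩
      rw [abs_div, abs_of_neg h2, abs_of_pos (by positivity), div_le_iff₀ (by linarith)]
      nlinarith
    · have h2 : 0 < 1 - ‖c n a true‖ ^ 2 := by nlinarith
      refine ⟨?_, h2.ne'⟩
      rw [abs_div, abs_of_pos h2, abs_of_pos (by positivity), div_le_iff₀ h2]
      nlinarith
  refine ⟨{
    ε := ε, Λ := Y.1, S := pert Y, s := s, s' := s', a := Y.2.1, l := Y.2.2, P := P, P' := P'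
    lam := lam
    total := total_basis ε
    ne := ε.orthonormal.ne_zero 0
    hS := by simp [pert]
    pos := hpos
    nuc := hnuc
    ss' := hs1
    s's := hs2
    sΛ := ?_
    slow := fun n0 => ⟨2 ^ n0, Nat.lt_two_pow_self.le, (h n0).2.2.2.2.2.1 Y (hYd n0)⟩
    star_P := fun n d hd => hP.star_eq hd
    star_P' := fun n d hd => hP'.star_eq hd
    mono := fun n d d' hd hd' => hT0.mono hP hd hd'
    idem' := fun n d hd => (hT true).mono hP' le_rfl hd
    refine := fun n d hd => hP.refine hd
    inv := fun n d hd => ?_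
    link := fun n d hd => ?_
    link' := fun n d hd => ?_
    strict := fun n d hd => hT0.strict hP hd
    cont := fun n d hd => hT0.cont (fun _ _ => rfl) hP hd
    top := hT0.top hP
    weak := fun i ζ => ?_
    weak' := fun i ζ => ?_ }⟩
  · apply ext_basis ε
    intro i
    simp only [ContinuousLinearMap.mul_apply, hdiag, map_smul]
    by_cases h1 : (σ i).γ true i = (σ i).γ false i
    · rw [hs4 i (by simpa using h1), hdiag]
    · rw [hs3 i h1, map_smul, hdiag, smul_comm]
  · apply hP.inter hP hT0.on hd hd (X := fun n => pert (y n)) ((pert_cont.tendsto Y).comp hY)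
    intro k a ha
    have h1 := hdeg false n d k a hd ha
    have h2 := (hG (n + k)).pert_ev (h1.trans_le (by exact_mod_cast le_pow_add hd k))
    simp only [u, y, St.u]
    rw [h2]
    exact (hG (n + k)).fix false (le_pow_add hd k)
      (degree_divX_lt' (h1.trans (by exact_mod_cast Nat.lt_succ_self _)))
  · apply hP.inter hP' (hT true).on hd hd (X := fun _ => s) tendsto_const_nhds
    intro k a ha
    simp only [u, St.u]
    rw [hsev]
    exact (hG (n + k)).fix true (le_pow_add hd k) (hdeg false n d k a hd ha)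
  · apply hP'.inter hP hT0.on hd hd (X := fun _ => s') tendsto_const_nhds
    intro k a ha
    simp only [u, St.u]
    rw [hsev']
    exact (hG (n + k)).fix false (le_pow_add hd k) (hdeg true n d k a hd ha)
  · simpa using hT0.weak hP (lam := lam) (μ := 0) (fun n a ha => ⟨(hlam n a ha).1, by simp⟩) i ζ
  · simpa using (hT true).weak hP' (lam := lam) (μ := 1) (fun n a ha => ⟨(hlam n a ha).1, by
      simp only [lam]
      rw [div_mul_cancel₀ _ (hlam n a ha).2, one_mul]⟩) i ζ

end Pool.Agent.Lib.MP_690138_an.KS
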