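import Pool.Agent.Lib.MP_690138_an.Dom

set_option autoImplicit false
set_option linter.unusedSectionVars false
set_option linter.deprecated false

open scoped InnerProductSpace
open Filter Topology InnerProductSpace

namespace Pool.Agent.Lib.MP_690138_an.KS

variable {H : Type*} [NormedAddCommGroup H] [InnerProductSpace ℂ H] [CompleteSpace H]

/-- Compact operators. -/
abbrev Cp (H : Type*) [NormedAddCommGroup H] [InnerProductSpace ℂ H] :
    Submodule ℂ (H →L[ℂ] H) := compactOperator (RingHom.id ℂ) H H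

theorem Cp_mul_left (x : H →L[ℂ] H) {y : H →L[ℂ] H} (hy : y ∈ Cp H) : x * y ∈ Cp H :=
  IsCompactOperator.clm_comp hy x

theorem Cp_mul_right {y : H →L[ℂ] H} (hy : y ∈ Cp H) (x : H →L[ℂ] H) : y * x ∈ Cp H :=
  IsCompactOperator.comp_clm hy x

theorem Cp_rankOne (x y : H) : rankOne ℂ x y ∈ Cp H := by
  have h := isCompactOperator_of_locallyCompactSpace_dom (innerSL ℂ y)
  exact IsCompactOperator.clm_comp h (ContinuousLinearMap.toSpanSingleton ℂ x)

theorem Cp_of_hasSum {ι : Type*} {f : ι → H →L[ℂ] H} {W : H →L[ℂ] H} (h : HasSum f W)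
    (hf : ∀ i, f i ∈ Cp H) : W ∈ Cp H :=
  isCompactOperator_of_tendsto h
    (Eventually.of_forall (fun _ => (Cp H).sum_mem (fun i _ => hf i)))

theorem mul_rankOne (X : H →L[ℂ] H) (x y : H) : X * rankOne ℂ x y = rankOne ℂ (X x) y := by
  ext z
  simp

theorem rankOne_mul (X : H →L[ℂ] H) (x y : H) :
    rankOne ℂ x y * X = rankOne ℂ x (star X y) := by
  ext z
  simp [inner_star_left]

theorem star_rankOne (x y : H) : star (rankOne ℂ x y) = rankOne ℂ y x := by
  rw [ContinuousLinearMap.star_eq_adjoint, adjoint_rankOne]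

/-- Finite rank. -/
def FinRank (x : H →L[ℂ] H) : Prop :=
  FiniteDimensional ℂ (LinearMap.range (x : H →ₗ[ℂ] H))

theorem finRank_sum {κ : Type*} [Fintype κ] (u v : κ → H) :
    FinRank (∑ i, rankOne ℂ (u i) (v i)) := by
  have h1 : FiniteDimensional ℂ (Submodule.span ℂ (Set.range u)) :=
    FiniteDimensional.span_of_finite ℂ (Set.finite_range u)
  apply Submodule.finiteDimensional_of_le (S₂ := Submodule.span ℂ (Set.range u))
  rintro y ⟨z, rfl⟩
  simp only [ContinuousLinearMap.coe_coe, ContinuousLinearMap.sum_apply, rankOne_apply]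
  exact Submodule.sum_mem _ (fun i _ => Submodule.smul_mem _ _ (Submodule.subset_span ⟨i, rfl⟩))

variable {T : Subalgebra ℂ (H →L[ℂ] H)} [hT : IsTri T]

/-- The corner of `T` cut by `p`. -/
def Jm (p : dg T) : Submodule ℂ (H →L[ℂ] H) where
  carrier := {x | x ∈ T ∧ (p : H →L[ℂ] H) * x = x ∧ x * p = x}
  add_mem' := fun {a b} ha hb =>
    ⟨T.add_mem ha.1 hb.1, by rw [mul_add, ha.2.1, hb.2.1], by rw [add_mul, ha.2.2, hb.2.2]⟩
  zero_mem' := ⟨T.zero_mem, mul_zero _, zero_mul _⟩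
  smul_mem' := fun c x hx =>
    ⟨T.smul_mem hx.1 c, by rw [mul_smul_comm, hx.2.1], by rw [smul_mul_assoc, hx.2.2]⟩

variable {p : dg T}

theorem Jm_left (d : dg T) {x : H →L[ℂ] H} (hx : x ∈ Jm p) : (d : H →L[ℂ] H) * x ∈ Jm p :=
  ⟨T.mul_mem (dg_mem d) hx.1, by rw [← mul_assoc, dg_comm, mul_assoc, hx.2.1],
    by rw [mul_assoc, hx.2.2]⟩

theorem Jm_right {x : H →L[ℂ] H} (hx : x ∈ Jm p) (d : dg T) : x * (d : H →L[ℂ] H) ∈ Jm p :=
  ⟨T.mul_mem hx.1 (dg_mem d), by rw [← mul_assoc, hx.2.1],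
    by rw [mul_assoc, dg_comm, ← mul_assoc, hx.2.2]⟩

theorem Jm_mul {x y : H →L[ℂ] H} (hx : x ∈ Jm p) (hy : y ∈ Jm p) : x * y ∈ Jm p :=
  ⟨T.mul_mem hx.1 hy.1, by rw [← mul_assoc, hx.2.1], by rw [mul_assoc, hy.2.2]⟩

theorem Jm_mid {x y z : H →L[ℂ] H} (hx : x ∈ Jm p) (hy : y ∈ T) (hz : z ∈ Jm p) :
    x * y * z ∈ Jm p :=
  ⟨T.mul_mem (T.mul_mem hx.1 hy) hz.1, by rw [← mul_assoc, ← mul_assoc, hx.2.1],
    by rw [mul_assoc, hz.2.2]⟩

/-- No finite rank element in the corner. -/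
def NoFin (p : dg T) : Prop := ∀ x ∈ Jm p, FinRank x → x = 0

theorem compact_zero (h : NoFin p) {x : H →L[ℂ] H} (hx : x ∈ Jm p)
    (hx' : star x ∈ Jm p) (hc : x ∈ Cp H) : x = 0 := by
  have hy : star x * x ∈ Jm p := Jm_mul hx' hx
  have hsa : IsSelfAdjoint (star x * x) := IsSelfAdjoint.star_mul_self x
  let y : dg T := ⟨star x * x, hy.1, by rw [hsa.star_eq]; exact hy.1⟩
  have hyc : IsCompactOperator (star x * x : H →L[ℂ] H) := Cp_mul_left _ hc
  rw [← CStarRing.star_mul_self_eq_zero_iff,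
    ← ContinuousLinearMap.eq_zero_of_forall_hasEigenvalue_eq_zero hyc hsa.isSymmetric]
  intro μ hμ
  by_contra hμ0
  set V := Module.End.eigenspace (star x * x : H →L[ℂ] H).toLinearMap μ with hV
  have hfin : FiniteDimensional ℂ V := ContinuousLinearMap.finite_dimensional_eigenspace hyc μ hμ0
  have hmem : ∀ z, z ∈ V ↔ (y : H →L[ℂ] H) z = μ • z := fun z => Module.End.mem_eigenspace_iff
  have he : V.starProjection ∈ dg T := by
    apply starProj_mem_dg
    intro d z hz
    rw [hmem] at hz ⊢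
    rw [dg_comm_apply, hz, map_smul]
  have hpe : (p : H →L[ℂ] H) * V.starProjection = V.starProjection := by
    ext z
    have h1 := (hmem _).mp (Submodule.starProjection_apply_mem V z)
    have h2 := congrArg (fun X : H →L[ℂ] H => X (V.starProjection z)) hy.2.1
    simp only [ContinuousLinearMap.mul_apply] at h2 h1 ⊢
    change (p : H →L[ℂ] H) ((y : H →L[ℂ] H) _) = (y : H →L[ℂ] H) _ at h2
    rw [h1, map_smul] at h2
    exact smul_right_injective _ hμ0 h2
  have hep : V.starProjection * (p : H →L[ℂ] H) = V.starProjection := by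
    rw [← dg_comm p ⟨_, he⟩]
    exact hpe
  have h0 := h _ ⟨he.1, hpe, hep⟩ (by
    unfold FinRank
    rw [Submodule.range_starProjection]
    exact hfin)
  apply hμ
  rw [eq_bot_iff]
  intro z hz
  have := Submodule.starProjection_eq_self_iff.mpr hz
  rw [h0] at this
  simpa using this.symm

end Pool.Agent.Lib.MP_690138_an.KS
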