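import Pool.Agent.Lib.MP_690138_an.Irr

set_option autoImplicit false
set_option linter.unusedSectionVars false
set_option linter.deprecated false

open scoped InnerProductSpace
open Filter Topology InnerProductSpace Finset

namespace Pool.Agent.Lib.MP_690138_an.KS

variable {K : Type} [NormedAddCommGroup K] [InnerProductSpace ℂ K] [CompleteSpace K]

/-- Three copies. -/
abbrev H3 (K : Type) : Type := PiLp 2 (fun _ : Fin 3 => K)

/-- Operator from its components. -/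
noncomputable def mk3 {E : Type} [NormedAddCommGroup E] [InnerProductSpace ℂ E]
    (X : Fin 3 → E →L[ℂ] K) : E →L[ℂ] H3 K :=
  (PiLp.continuousLinearEquiv 2 ℂ (fun _ : Fin 3 => K)).symm.toContinuousLinearMap ∘L
    ContinuousLinearMap.pi X

theorem mk3_apply {E : Type} [NormedAddCommGroup E] [InnerProductSpace ℂ E]
    (X : Fin 3 → E →L[ℂ] K) (f : E) (j : Fin 3) : mk3 X f j = X j f := rfl

/-- Coordinate projection. -/
noncomputable def pr3 (j : Fin 3) : H3 K →L[ℂ] K := PiLp.proj 2 (fun _ : Fin 3 => K) j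

theorem pr3_apply (j : Fin 3) (f : H3 K) : pr3 j f = f j := rfl

/-- Coordinate injection. -/
noncomputable def inj3 (j : Fin 3) : K →L[ℂ] H3 K := mk3 (fun i => if i = j then 1 else 0)

theorem inj3_apply (j i : Fin 3) (v : K) : inj3 j v i = if i = j then v else 0 := by
  rw [inj3, mk3_apply]
  split_ifs <;> rfl

theorem inner_inj3 (j : Fin 3) (v : K) (f : H3 K) : ⟪inj3 j v, f⟫_ℂ = ⟪v, f j⟫_ℂ := by
  rw [PiLp.inner_apply, Finset.sum_eq_single j]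
  · rw [inj3_apply, if_pos rfl]
  · intro i _ hi
    rw [inj3_apply, if_neg hi, inner_zero_left]
  · simp

theorem inner_inj3' (j : Fin 3) (v : K) (f : H3 K) : ⟪f, inj3 j v⟫_ℂ = ⟪f j, v⟫_ℂ := by
  rw [← inner_conj_symm, inner_inj3, inner_conj_symm]

theorem sum_inj3 (f : H3 K) : ∑ j, inj3 j (f j) = f := by
  ext i
  simp [inj3_apply]

/-- Diagonal operator. -/
noncomputable def dg3 (X : Fin 3 → K →L[ℂ] K) : H3 K →L[ℂ] H3 K := mk3 (fun j => X j ∘L pr3 j)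

theorem dg3_apply (X : Fin 3 → K →L[ℂ] K) (f : H3 K) (j : Fin 3) : dg3 X f j = X j (f j) := rfl

theorem dg3_inj (X : Fin 3 → K →L[ℂ] K) (j : Fin 3) (v : K) :
    dg3 X (inj3 j v) = inj3 j (X j v) := by
  ext i
  rw [dg3_apply, inj3_apply, inj3_apply]
  split_ifs with h
  · rw [h]
  · exact map_zero _

theorem dg3_star (X : Fin 3 → K →L[ℂ] K) : star (dg3 X) = dg3 (fun j => star (X j)) := by
  apply op_ext_inner
  intro x y
  rw [inner_star_right, PiLp.inner_apply, PiLp.inner_apply]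
  simp only [dg3_apply, inner_star_right]

theorem dg3_pow (X : Fin 3 → K →L[ℂ] K) (N : ℕ) : dg3 X ^ N = dg3 (fun j => X j ^ N) := by
  induction N with
  | zero => ext f j; rfl
  | succ N ih => rw [pow_succ, ih]; ext f j; rfl

theorem dg3_norm (X : Fin 3 → K →L[ℂ] K) {C : ℝ} (hC : 0 ≤ C) (h : ∀ j, ‖X j‖ ≤ C) :
    ‖dg3 X‖ ≤ C := by
  apply ContinuousLinearMap.opNorm_le_bound _ hC
  intro f
  refine (pow_le_pow_iff_left₀ (norm_nonneg _) (by positivity) two_ne_zero).mp ?_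
  rw [mul_pow, PiLp.norm_sq_eq_of_L2, PiLp.norm_sq_eq_of_L2, mul_sum]
  refine sum_le_sum (fun j _ => ?_)
  rw [← mul_pow, dg3_apply]
  exact pow_le_pow_left₀ (norm_nonneg _) ((X j).le_of_opNorm_le (h j) _) 2

theorem dg3_nuc (X : Fin 3 → K →L[ℂ] K) (h : ∀ j, Nuc (X j)) : Nuc (dg3 X) := by
  have h1 : dg3 X = inj3 0 ∘L X 0 ∘L pr3 0 + inj3 1 ∘L X 1 ∘L pr3 1 + inj3 2 ∘L X 2 ∘L pr3 2 := by
    ext f j
    fin_cases j <;> simp [dg3_apply, inj3_apply, pr3_apply]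
  have h2 : ∀ j, Nuc (inj3 j ∘L X j ∘L pr3 j) := fun j =>
    (h j).conj2 _ _ (fun x y => inner_inj3 j x y)
  rw [h1]
  exact ((h2 0).add (h2 1)).add (h2 2)

section Tw

variable (m : Model K)

/-- Twisting maps on three copies. -/
def τ3 : Fin 3 → K →L[ℂ] K := ![1, 1, m.s]

/-- Inverse twisting maps on three copies. -/
def τ3' : Fin 3 → K →L[ℂ] K := ![1, 1, m.s']

theorem ττ3 (j : Fin 3) (v : K) : τ3 m j (τ3' m j v) = v := by
  fin_cases j <;> simp [τ3, τ3', m.ss]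

theorem ττ3' (j : Fin 3) (v : K) : τ3' m j (τ3 m j v) = v := by
  fin_cases j <;> simp [τ3, τ3', m.ss2]

/-- The third power. -/
noncomputable def B3 : H3 K →L[ℂ] H3 K := dg3 (fun j => τ3 m j * m.S * τ3' m j)

theorem τΛ3 (j : Fin 3) : τ3 m j * m.Λ * τ3' m j = m.Λ := by
  have h : m.s * m.Λ * m.s' = m.Λ := by rw [m.sΛ, mul_assoc, m.ss', mul_one]
  fin_cases j <;> simp [τ3, τ3', h]

theorem B3_nuc : Nuc (B3 m) := by
  apply dg3_nuc
  intro j
  have h1 : τ3 m j * m.S * τ3' m j = m.Λ + rankOne ℂ (-τ3 m j m.a) (star (τ3' m j) m.l) := by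
    have h2 := τΛ3 m j
    rw [m.hS, mul_add, add_mul, mul_rankOne, rankOne_mul, ← m.hS] at h2
    rw [← h2]
    simp
  rw [h1]
  apply m.nuc.add
  exact ⟨Empty, fun _ => 0, fun _ => 0, Unit, inferInstance, fun _ => _, fun _ => _, 0,
    Summable.of_finite, Summable.of_finite, hasSum_empty, by rw [zero_add, Fintype.sum_unique]⟩

theorem B3_slow (n0 : ℕ) : ∃ N ≥ n0, ‖B3 m ^ N‖ * 4 ^ (96 * N * N) ≤ 1 := by
  obtain ⟨n1, hn1⟩ := pow_unbounded_of_one_lt (‖(1 : K →L[ℂ] K)‖ + ‖m.s‖ + ‖m.s'‖)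
    (by norm_num : (1 : ℝ) < 4)
  obtain ⟨N, hN, h⟩ := m.slow (n0 + n1 + 1)
  refine ⟨N, by omega, ?_⟩
  have h1 : ∀ j, ‖τ3 m j‖ ≤ 4 ^ n1 ∧ ‖τ3' m j‖ ≤ 4 ^ n1 := by
    intro j
    have := norm_nonneg (1 : K →L[ℂ] K)
    have := norm_nonneg m.s
    have := norm_nonneg m.s'
    fin_cases j <;> simp only [τ3, τ3'] <;> constructor <;> simp <;> linarith
  have h2 : ∀ j, (τ3 m j * m.S * τ3' m j) ^ N = τ3 m j * m.S ^ N * τ3' m j := by
    intro j
    generalize N = k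
    induction k with
    | zero => ext v; simp [ττ3]
    | succ k ih => rw [pow_succ, ih]; ext v; simp [ττ3', pow_succ]
  have h3 : ‖B3 m ^ N‖ ≤ 4 ^ n1 * ‖m.S ^ N‖ * 4 ^ n1 := by
    rw [B3, dg3_pow]
    apply dg3_norm _ (by positivity)
    intro j
    rw [h2]
    refine (norm_mul_le _ _).trans (mul_le_mul ((norm_mul_le _ _).trans ?_) (h1 j).2
      (norm_nonneg _) (by positivity))
    exact mul_le_mul_of_nonneg_right (h1 j).1 (norm_nonneg _)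
  have h4 : (4 : ℝ) ^ n1 * 4 ^ n1 * 4 ^ (96 * N * N) ≤ 4 ^ (100 * N * N) := by
    rw [← pow_add, ← pow_add]
    exact pow_le_pow_right₀ (by norm_num) (by nlinarith)
  calc ‖B3 m ^ N‖ * 4 ^ (96 * N * N) ≤ 4 ^ n1 * ‖m.S ^ N‖ * 4 ^ n1 * 4 ^ (96 * N * N) :=
        mul_le_mul_of_nonneg_right h3 (by positivity)
    _ = ‖m.S ^ N‖ * (4 ^ n1 * 4 ^ n1 * 4 ^ (96 * N * N)) := by ring
    _ ≤ ‖m.S ^ N‖ * 4 ^ (100 * N * N) := mul_le_mul_of_nonneg_left h4 (norm_nonneg _)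
    _ ≤ 1 := h

theorem slowB3 : Slow (B3 m) := by
  intro n0
  obtain ⟨N, hN, h⟩ := B3_slow m n0
  refine ⟨N, hN, le_trans (mul_le_mul_of_nonneg_left ?_ (norm_nonneg _)) h⟩
  exact pow_le_pow_right₀ (by norm_num) (by nlinarith)

/-- The projections on three copies. -/
noncomputable def Pi3 (n d : ℕ) : H3 K →L[ℂ] H3 K := dg3 ![m.P n d, m.P n d, m.P' n d]

theorem mem_X3 {n d : ℕ} (h : d ≤ 2 ^ n) (f : H3 K) :
    f ∈ fixS (Pi3 m n d) ↔ ∀ j, τ3' m j (f j) ∈ m.M n d := by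
  rw [mem_fixS]
  constructor
  · intro h1 j
    have h2 := congrArg (fun f : H3 K => f j) h1
    fin_cases j
    · exact mem_fixS.mpr h2
    · exact mem_fixS.mpr h2
    · exact (m.fix'_iff h _).mp h2
  · intro h1
    ext j
    have h2 := h1 j
    fin_cases j
    · exact mem_fixS.mp h2
    · exact mem_fixS.mp h2
    · exact (m.fix'_iff h _).mpr h2

end Tw

/-- A cube root of `c - S` that keeps the nest. -/
structure Rt (m : Model K) where
  /-- the scalar -/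
  c : ℂ
  /-- the root -/
  μ : K →L[ℂ] K
  ne : c ≠ 0
  cube : ∀ v, m.S v = c • v - μ (μ (μ v))
  keep : ∀ n d, d ≤ 2 ^ n → ∀ v ∈ m.M n d, μ v ∈ m.M n d

theorem exists_rt (m : Model K) : Nonempty (Rt m) := by
  let R : Subalgebra ℂ (K →L[ℂ] K) :=
    { carrier := {X | ∀ n d, d ≤ 2 ^ n → ∀ v ∈ m.M n d, X v ∈ m.M n d}
      mul_mem' := fun ha hb n d h v hv => ha n d h _ (hb n d h v hv)
      add_mem' := fun ha hb n d h v hv => Submodule.add_mem _ (ha n d h v hv) (hb n d h v hv)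
      algebraMap_mem' := fun r n d _ v hv => Submodule.smul_mem _ r hv }
  have hc : IsClosed (R : Set (K →L[ℂ] K)) := by
    have : (R : Set (K →L[ℂ] K)) = ⋂ n, ⋂ d, ⋂ _ : d ≤ 2 ^ n, ⋂ v, ⋂ _ : v ∈ m.M n d,
        (fun X : K →L[ℂ] K => X v) ⁻¹' (m.M n d : Set K) := by
      ext X
      simp only [Set.mem_iInter]
      rfl
    rw [this]
    refine isClosed_iInter fun n => isClosed_iInter fun d => isClosed_iInter fun _ =>
      isClosed_iInter fun v => isClosed_iInter fun _ => (fixS_closed _).preimage ?_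
    exact (ContinuousLinearMap.apply ℂ K v).continuous
  have : CompleteSpace R := hc.completeSpace_coe
  let S : R := ⟨m.S, fun n d h v hv => (m.M_inv h).2 v hv⟩
  let e : R ≃L[ℂ] R :=
    (LinearEquiv.smulOfNeZero ℂ R 3 (by norm_num)).toContinuousLinearEquivOfContinuous
      (continuous_const_smul (3 : ℂ))
  have hd : HasStrictFDerivAt (fun x : R => x * x * x) (e : R →L[ℂ] R) 1 := by
    have h1 := hasStrictFDerivAt_id (𝕜 := ℂ) (1 : R)
    refine ((h1.mul' h1).mul' h1).congr_fderiv ?_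
    ext1 x
    show _ = (3 : ℂ) • x
    simp
    module
  have h2 := hd.map_nhds_eq_of_equiv
  rw [mul_one, mul_one] at h2
  have h3 : Tendsto (fun t : ℂ => (1 : R) - t ^ 3 • S) (𝓝[≠] 0) (𝓝 1) := by
    have : Continuous fun t : ℂ => (1 : R) - t ^ 3 • S := by fun_prop
    simpa using (this.tendsto 0).mono_left nhdsWithin_le_nhds
  rw [← h2] at h3
  obtain ⟨t, ⟨x, hx⟩, ht⟩ := ((h3.eventually (range_mem_map)).and self_mem_nhdsWithin).exists
  have ht' : t ≠ 0 := ht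
  refine ⟨⟨t⁻¹ ^ 3, t⁻¹ • (x : K →L[ℂ] K), pow_ne_zero _ (inv_ne_zero ht'), fun v => ?_,
    fun n d h v hv => Submodule.smul_mem _ _ (x.2 n d h v hv)⟩⟩
  have h4 : (x : K →L[ℂ] K) ((x : K →L[ℂ] K) ((x : K →L[ℂ] K) v)) = v - t ^ 3 • m.S v :=
    congrArg (fun y : R => (y : K →L[ℂ] K) v) hx
  simp only [ContinuousLinearMap.smul_apply, map_smul, h4, smul_smul, smul_sub]
  rw [show t⁻¹ * t⁻¹ * (t⁻¹ * t ^ 3) = 1 by field_simp, one_smul,
    show t⁻¹ * t⁻¹ * t⁻¹ = t⁻¹ ^ 3 by ring]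
  abel

/-- The companion operator. -/
noncomputable def Cop (S : K →L[ℂ] K) : H3 K →L[ℂ] H3 K := mk3 ![S ∘L pr3 2, pr3 0, pr3 1]

theorem Cop0 (S : K →L[ℂ] K) (f : H3 K) : Cop S f 0 = S (f 2) := rfl
theorem Cop1 (S : K →L[ℂ] K) (f : H3 K) : Cop S f 1 = f 0 := rfl
theorem Cop2 (S : K →L[ℂ] K) (f : H3 K) : Cop S f 2 = f 1 := rfl

theorem Cop_pow (S : K →L[ℂ] K) : Cop S ^ (2 + 1) = dg3 (fun _ => S) := by
  ext f j
  fin_cases j <;> simp [pow_succ, dg3_apply, Cop0, Cop1, Cop2]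

theorem slowC (m : Model K) : Slow (Cop m.S) := by
  intro n0
  obtain ⟨N, hN, h⟩ := m.slow n0
  refine ⟨(2 + 1) * N, by omega, le_trans (mul_le_mul ?_ ?_ (by positivity) (norm_nonneg _)) h⟩
  · rw [pow_mul, Cop_pow, dg3_pow]
    exact dg3_norm _ (norm_nonneg _) fun _ => le_rfl
  · exact pow_le_pow_right₀ (by norm_num) (by nlinarith)

theorem dichC (m : Model K) {L L' : Submodule ℂ (H3 K)} (hL : Inv (Cop m.S) L)
    (hL' : Inv (Cop m.S) L') :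
    (∀ ξ ∈ L, (Cop m.S ^ 2) ξ ∈ L') ∨ (∀ ξ ∈ L', (Cop m.S ^ 2) ξ ∈ L) := by
  have h1 : Cop m.Λ = Cop m.S + rankOne ℂ (inj3 0 m.a) (inj3 2 m.l) := by
    ext f j
    fin_cases j <;> simp [Cop0, Cop1, Cop2, inj3_apply, inner_inj3, m.hS]
  have h2 : PosInj (dg3 (fun _ => m.Λ)) := by
    refine ⟨by rw [dg3_star, m.pos.1], fun x => ?_, fun x hx => ?_⟩
    · rw [PiLp.inner_apply, Complex.re_sum]
      exact sum_nonneg (fun j _ => m.pos.2.1 _)
    · ext j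
      exact m.pos.2.2 _ (congrArg (fun f : H3 K => f j) hx)
  exact dichotomy h1 (Cop_pow m.Λ) h2 (slowC m) hL hL'

namespace Rt

variable {m : Model K} (r : Rt m)

/-- The cube root. -/
noncomputable def A : H3 K →L[ℂ] H3 K :=
  mk3 ![m.s' ∘L pr3 2 - r.μ ∘L r.μ ∘L pr3 1, pr3 0 + r.μ ∘L pr3 1,
    r.c • m.s ∘L pr3 1 - m.s ∘L r.μ ∘L m.s' ∘L pr3 2]

theorem A0 (f : H3 K) : r.A f 0 = m.s' (f 2) - r.μ (r.μ (f 1)) := rfl
theorem A1 (f : H3 K) : r.A f 1 = f 0 + r.μ (f 1) := rfl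
theorem A2 (f : H3 K) : r.A f 2 = r.c • m.s (f 1) - m.s (r.μ (m.s' (f 2))) := rfl

/-- The similarity with the companion operator. -/
noncomputable def W : H3 K →L[ℂ] H3 K :=
  mk3 ![pr3 0 - r.μ ∘L r.μ ∘L pr3 2, pr3 1 + r.μ ∘L pr3 2, r.c • m.s ∘L pr3 2]

theorem W0 (f : H3 K) : r.W f 0 = f 0 - r.μ (r.μ (f 2)) := rfl
theorem W1 (f : H3 K) : r.W f 1 = f 1 + r.μ (f 2) := rfl
theorem W2 (f : H3 K) : r.W f 2 = r.c • m.s (f 2) := rfl

theorem AW (f : H3 K) : r.A (r.W f) = r.W (Cop m.S f) := by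
  ext j
  fin_cases j
  · show r.A (r.W f) 0 = r.W (Cop m.S f) 0
    simp only [A0, W0, W1, W2, Cop0, Cop2, map_smul, map_add, m.ss2, r.cube]
    abel
  · show r.A (r.W f) 1 = r.W (Cop m.S f) 1
    simp only [A1, W0, W1, Cop1, Cop2, map_add]
    abel
  · show r.A (r.W f) 2 = r.W (Cop m.S f) 2
    simp only [A2, W1, W2, Cop2, map_smul, map_add, m.ss2, smul_add]
    abel

theorem W_surj (f : H3 K) : ∃ g, r.W g = f := by
  refine ⟨inj3 0 (f 0 + r.μ (r.μ (r.c⁻¹ • m.s' (f 2)))) +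
    inj3 1 (f 1 - r.μ (r.c⁻¹ • m.s' (f 2))) + inj3 2 (r.c⁻¹ • m.s' (f 2)), ?_⟩
  ext j
  fin_cases j <;> simp [W0, W1, W2, inj3_apply, m.ss, smul_smul, r.ne]

theorem A_pow : r.A ^ 3 = B3 m := by
  ext1 f
  obtain ⟨g, rfl⟩ := r.W_surj f
  have h : ∀ v, m.S (r.μ v) = r.μ (m.S v) := fun v => by
    simp only [r.cube, map_sub, map_smul]
  simp only [pow_succ, pow_zero, one_mul, ContinuousLinearMap.mul_apply, AW]
  ext j
  fin_cases j <;>
    simp [B3, dg3_apply, τ3, τ3', W0, W1, W2, Cop0, Cop1, Cop2, h, m.ss2]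

theorem dich {L L' : Submodule ℂ (H3 K)} (hL : Inv r.A L) (hL' : Inv r.A L') :
    (∀ ξ ∈ L, B3 m ξ ∈ L') ∨ (∀ ξ ∈ L', B3 m ξ ∈ L) := by
  have h1 : ∀ N : Submodule ℂ (H3 K), Inv r.A N →
      Inv (Cop m.S) (N.comap (r.W : H3 K →ₗ[ℂ] H3 K)) := fun N hN =>
    ⟨hN.1.preimage r.W.continuous, fun ξ hξ => by
      show r.W (Cop m.S ξ) ∈ N
      rw [← AW]
      exact hN.2 _ hξ⟩
  have h2 : ∀ N N' : Submodule ℂ (H3 K), Inv r.A N' →
      (∀ ξ ∈ N.comap (r.W : H3 K →ₗ[ℂ] H3 K),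
        (Cop m.S ^ 2) ξ ∈ N'.comap (r.W : H3 K →ₗ[ℂ] H3 K)) → ∀ ξ ∈ N, B3 m ξ ∈ N' := by
    intro N N' hN' h ξ hξ
    obtain ⟨g, rfl⟩ := r.W_surj ξ
    have h3 : r.W (Cop m.S (Cop m.S g)) ∈ N' := h g hξ
    rw [← AW, ← AW] at h3
    rw [← r.A_pow]
    exact hN'.2 _ h3
  exact (dichC m (h1 L hL) (h1 L' hL')).imp (h2 L L' hL') (h2 L' L hL)

theorem X_inv {n d : ℕ} (h : d ≤ 2 ^ n) : Inv r.A (fixS (Pi3 m n d)) := by
  refine ⟨fixS_closed _, fun f hf => ?_⟩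
  rw [mem_X3 m h] at hf ⊢
  have h0 : f 0 ∈ m.M n d := hf 0
  have h1 : f 1 ∈ m.M n d := hf 1
  have h2 : m.s' (f 2) ∈ m.M n d := hf 2
  intro j
  fin_cases j
  · exact Submodule.sub_mem _ h2 (r.keep n d h _ (r.keep n d h _ h1))
  · exact Submodule.add_mem _ h0 (r.keep n d h _ h1)
  · show m.s' (r.c • m.s (f 1) - m.s (r.μ (m.s' (f 2)))) ∈ _
    rw [map_sub, map_smul, m.ss2, m.ss2]
    exact Submodule.sub_mem _ (Submodule.smul_mem _ _ h1) (r.keep n d h _ h2)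

end Rt

end Pool.Agent.Lib.MP_690138_an.KS
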