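import Pool.Agent.Lib.MP_690138_an.Cube

set_option autoImplicit false
set_option linter.unusedSectionVars false
set_option linter.deprecated false

open scoped InnerProductSpace
open Filter Topology InnerProductSpace Finset

namespace Pool.Agent.Lib.MP_690138_an.KS

variable {K : Type} [NormedAddCommGroup K] [InnerProductSpace ℂ K] [CompleteSpace K]

variable {T : Subalgebra ℂ (H3 K →L[ℂ] H3 K)} [hT : IsTri T]

theorem cyc3 (m : Model K) : ∃ ω, Cyc T ω := by
  apply exists_cyc (fun k => inj3 (Fin.ofNat 3 k) (m.ε (k / 3)))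
  intro η h
  ext j
  apply m.total
  intro i
  have h1 := h (3 * i + j)
  have h2 : Fin.ofNat 3 (3 * i + j) = j := by
    apply Fin.ext
    have := j.2
    simp only [Fin.ofNat]
    omega
  have h3 : (3 * i + j) / 3 = i := by
    have := j.2
    omega
  rwa [h2, h3, inner_inj3'] at h1

namespace Rt

variable {m : Model K} (r : Rt m)

theorem between (hA : r.A ∈ T) {n d : ℕ} (h : d < 2 ^ n) :
    ∃ L, TInv T L ∧ (∀ f : H3 K, (∀ j, τ3' m j (f j) ∈ m.M n d) → f ∈ L) ∧
      ∀ f ∈ L, ∀ j, τ3' m j (f j) ∈ m.M n (d + 1) := by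
  obtain ⟨ω, hω⟩ := cyc3 m (T := T)
  have hB : B3 m ∈ T := by
    rw [← r.A_pow]
    exact T.pow_mem hA _
  have h8 : d * 2 ^ 3 + 6 + 2 ≤ 2 ^ (n + 3) := by
    rw [pow_add]
    omega
  have hu : d * 2 ^ 3 + 6 ≤ 2 ^ (n + 3) := by omega
  obtain ⟨L, hL, h1, h2⟩ := sandwich hω hB (B3_nuc m) (slowB3 m).eq_zero
    (fixS_closed (Pi3 m (n + 3) (d * 2 ^ 3 + 6)))
    (fun L hL => r.dich ⟨hL.1, hL.2 _ hA⟩ (r.X_inv hu))
  refine ⟨L, hL, fun f hf => ?_, fun f hf j => ?_⟩
  · rw [← sum_inj3 f]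
    refine L.sum_mem (fun j _ => ?_)
    have h3 := m.down3 (N := L.comap ((inj3 j ∘L τ3 m j : K →L[ℂ] H3 K) : K →ₗ[ℂ] H3 K)) hu
      (hL.1.preimage (inj3 j ∘L τ3 m j).continuous) (by
        intro ξ hξ
        have h4 := h2 (inj3 j (τ3 m j ξ)) (by
          rw [mem_X3 m hu]
          intro i
          rw [inj3_apply]
          split_ifs with hi
          · rw [hi, ττ3']
            exact hξ
          · rw [map_zero]
            exact Submodule.zero_mem _)
        simp only [B3, dg3_inj, ContinuousLinearMap.mul_apply, ττ3'] at h4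
        exact h4)
    have h5 := hf j
    rw [Model.M, ← m.refine_pow h.le 3] at h5
    have h6 : inj3 j (τ3 m j (τ3' m j (f j))) ∈ L := h3 h5
    rwa [ττ3] at h6
  · have h3 := (mem_X3 m hu _).mp (h1 f hf) j
    simp only [B3, dg3_apply, ContinuousLinearMap.mul_apply, ττ3'] at h3
    have h4 := m.up h8 h3
    rw [Model.M, ← m.refine_pow h 3]
    have h5 : (d + 1) * 2 ^ 3 = d * 2 ^ 3 + 6 + 2 := by ring
    rw [h5]
    exact h4

theorem Pi3_mem (hA : r.A ∈ T) {n d : ℕ} (h : d ≤ 2 ^ n) : Pi3 m n d ∈ dg T := by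
  apply proj_mem_dg
  · rw [Pi3, dg3_star]
    congr 1
    ext1 j
    fin_cases j <;> simp [m.star_P n d h, m.star_P' n d h]
  · intro x
    ext1 f
    refine mem_fixS.mp (show (x : H3 K →L[ℂ] H3 K) (Pi3 m n d f) ∈ fixS (Pi3 m n d) from ?_)
    have hf : Pi3 m n d f ∈ fixS (Pi3 m n d) := by
      rw [mem_fixS]
      ext j
      fin_cases j
      · exact m.P_mul_le le_rfl h _
      · exact m.P_mul_le le_rfl h _
      · exact app_of_eq (m.idem' n d h) _
    rw [mem_X3 m h] at hf ⊢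
    intro j
    rcases h.lt_or_eq with h1 | h1
    · apply mem_fixS.mpr
      apply m.cont n d h1
      intro k
      obtain ⟨L, hL, h2, h3⟩ := r.between hA (n := n + k) (d := d * 2 ^ k) (by
        rw [pow_add]
        exact Nat.mul_lt_mul_of_lt_of_le h1 le_rfl (by positivity))
      apply mem_fixS.mp
      apply h3
      apply hL.2 _ (dg_mem x)
      apply h2
      intro i
      rw [Model.M, m.refine_pow h k]
      exact hf i
    · rw [h1, Model.M, mem_fixS, m.top]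
      rfl

theorem Q_mem (hA : r.A ∈ T) : dg3 ![0, 0, 1] ∈ dg T := by
  have hG : ∀ n, comb m.lam (Pi3 m) n ∈ dg T := by
    intro n
    refine sum_mem (fun a ha => SMulMemClass.smul_mem _ ?_)
    have ha' := mem_range.mp ha
    have h2 : 2 ^ (n + 1) = 2 * 2 ^ n := by ring
    exact sub_mem (sub_mem (r.Pi3_mem hA (by omega)) (r.Pi3_mem hA (by omega)))
      (sub_mem (r.Pi3_mem hA (by omega)) (r.Pi3_mem hA (by omega)))
  have hGs : ∀ n, star (comb m.lam (Pi3 m) n) = comb m.lam (Pi3 m) n := by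
    intro n
    rw [comb, star_sum]
    refine sum_congr rfl (fun a ha => ?_)
    have ha' := mem_range.mp ha
    have h2 : 2 ^ (n + 1) = 2 * 2 ^ n := by ring
    have h3 : ∀ d, d ≤ 2 ^ (n + 1) → star (Pi3 m (n + 1) d) = Pi3 m (n + 1) d := by
      intro d h
      rw [Pi3, dg3_star]
      congr 1
      ext1 j
      fin_cases j <;> simp [m.star_P _ d h, m.star_P' _ d h]
    rw [star_smul, star_sub, star_sub, star_sub, h3 _ (by omega), h3 _ (by omega),
      h3 _ (by omega), RCLike.star_def, Complex.conj_ofReal]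
  have hQs : star (dg3 ![0, 0, 1] : H3 K →L[ℂ] H3 K) = dg3 ![0, 0, 1] := by
    rw [dg3_star]
    congr 1
    ext1 j
    fin_cases j <;> simp
  have hw : ∀ j i (ζ : H3 K), Tendsto (fun n => ⟪ζ, comb m.lam (Pi3 m) n (inj3 j (m.ε i))⟫_ℂ) atTop
      (𝓝 ⟪ζ, dg3 ![0, 0, 1] (inj3 j (m.ε i))⟫_ℂ) := by
    intro j i ζ
    have h1 : ∀ n, comb m.lam (Pi3 m) n (inj3 j (m.ε i)) =
        inj3 j (![comb m.lam m.P n, comb m.lam m.P n, comb m.lam m.P' n] j
          (m.ε i)) := by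
      intro n
      fin_cases j <;> simp [comb, Pi3, dg3_inj]
    simp only [h1, dg3_inj, inner_inj3']
    fin_cases j
    · simpa using m.weak i (ζ 0)
    · simpa using m.weak i (ζ 1)
    · simpa using m.weak' i (ζ 2)
  have htot : ∀ η : H3 K, (∀ j i, ⟪η, inj3 j (m.ε i)⟫_ℂ = 0) → η = 0 := by
    intro η h
    ext j
    apply m.total
    intro i
    rw [← inner_inj3', h]
  apply mem_dg_of_comm
  intro x
  rw [← sub_eq_zero, ← star_eq_zero]
  ext1 η
  apply htot
  intro j i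
  rw [inner_star_left]
  revert η
  apply fun h η => congrArg (fun z => ⟪η, z⟫_ℂ) h |>.trans (inner_zero_right η)
  apply htot
  intro j' i'
  rw [ContinuousLinearMap.sub_apply, inner_sub_left, sub_eq_zero, ContinuousLinearMap.mul_apply,
    ContinuousLinearMap.mul_apply]
  have t1 := hw j' i' ((x : H3 K →L[ℂ] H3 K) (inj3 j (m.ε i)))
  have t2 := (hw j i (star (x : H3 K →L[ℂ] H3 K) (inj3 j' (m.ε i')))).star
  have h3 : ∀ n, star ⟪star (x : H3 K →L[ℂ] H3 K) (inj3 j' (m.ε i')),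
      comb m.lam (Pi3 m) n (inj3 j (m.ε i))⟫_ℂ =
      ⟪(x : H3 K →L[ℂ] H3 K) (inj3 j (m.ε i)), comb m.lam (Pi3 m) n (inj3 j' (m.ε i'))⟫_ℂ := by
    intro n
    rw [RCLike.star_def, inner_conj_symm, inner_star_right, dg_comm_apply x ⟨_, hG n⟩,
      ← inner_star_right, hGs]
  simp only [h3] at t2
  have h4 := tendsto_nhds_unique t1 t2
  rw [RCLike.star_def, inner_conj_symm, inner_star_right, ← inner_star_left, hQs] at h4
  exact h4.symm

theorem not_mem : r.A ∉ T := by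
  intro hA
  set Q : H3 K →L[ℂ] H3 K := dg3 ![0, 0, 1] with hQ
  have hQT : Q ∈ T := (r.Q_mem hA).1
  have hQ1 : 1 - Q ∈ T := T.sub_mem T.one_mem hQT
  have q0 : ∀ f : H3 K, Q f 0 = 0 := fun _ => rfl
  have q1 : ∀ f : H3 K, Q f 1 = 0 := fun _ => rfl
  have q2 : ∀ f : H3 K, Q f 2 = f 2 := fun _ => rfl
  let E : Fin 3 → Fin 3 → (K →L[ℂ] K) → H3 K →L[ℂ] H3 K := fun i j X => inj3 i ∘L X ∘L pr3 j
  have hE : ∀ i j X (f : H3 K), E i j X f = inj3 i (X (f j)) := fun _ _ _ _ => rfl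
  have m1 : E 0 1 1 ∈ T := by
    have h1 : E 0 1 1 = r.c⁻¹ • ((1 - Q) * r.A * Q * r.A * (1 - Q)) := by
      ext f j
      fin_cases j <;> simp [hE, inj3_apply, q0, q1, q2, A0, A1, A2, m.ss2, smul_smul, r.ne]
    rw [h1]
    exact T.smul_mem (T.mul_mem (T.mul_mem (T.mul_mem (T.mul_mem hQ1 hA) hQT) hA) hQ1) _
  have m2 : E 0 1 r.μ ∈ T := by
    have h1 : E 0 1 r.μ = (-r.c⁻¹) • ((1 - Q) * r.A * Q * r.A * Q * r.A * (1 - Q)) := by
      ext f j
      fin_cases j <;> simp [hE, inj3_apply, q0, q1, q2, A0, A1, A2, m.ss2, smul_smul, r.ne]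
    rw [h1]
    exact T.smul_mem (T.mul_mem (T.mul_mem (T.mul_mem (T.mul_mem (T.mul_mem (T.mul_mem hQ1 hA)
      hQT) hA) hQT) hA) hQ1) _
  have m3 : (1 - Q) * r.A * (1 - Q) ∈ T := T.mul_mem (T.mul_mem hQ1 hA) hQ1
  have m4 : E 1 0 1 ∈ T := by
    have h1 : E 1 0 1 = (1 - Q) * r.A * (1 - Q) * E 0 1 1 * ((1 - Q) * r.A * (1 - Q)) -
        (1 - Q) * r.A * (1 - Q) * E 0 1 r.μ := by
      ext f j
      fin_cases j <;> simp [hE, inj3_apply, q0, q1, q2, A0, A1, A2]
    rw [h1]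
    exact T.sub_mem (T.mul_mem (T.mul_mem m3 m1) m3) (T.mul_mem m3 m2)
  have s1 : star (E 0 1 1) = E 1 0 1 := by
    apply op_ext_inner
    intro x y
    rw [inner_star_right, hE, hE, inner_inj3, inner_inj3']
    rfl
  have s2 : star (E 1 0 1) = E 0 1 1 := by rw [← s1, star_star]
  have h1 := dg_comm_apply (T := T) ⟨_, m1, s1 ▸ m4⟩ ⟨_, m4, s2 ▸ m1⟩ (inj3 0 (m.ε 0))
  have h2 := congrArg (fun f : H3 K => f 0) h1
  apply m.ne
  simpa [hE, inj3_apply] using h2

omit hT in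
theorem eq_zero_of_B {Y : H3 K →L[ℂ] H3 K} (h : Commute Y r.A)
    (h' : Commute Y (star r.A)) (h0 : B3 m * Y = 0) : Y = 0 := by
  have hB : Commute Y (star (B3 m)) := by
    rw [← r.A_pow, star_pow]
    exact h'.pow_right _
  have h1 : ∀ x, star (B3 m) (Y x) = 0 := by
    intro x
    rw [← inner_self_eq_zero (𝕜 := ℂ), inner_star_left,
      ← ContinuousLinearMap.mul_apply (star (B3 m)),
      ← hB.eq, ContinuousLinearMap.mul_apply, ← ContinuousLinearMap.mul_apply (B3 m), h0]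
    simp
  have h2 : ∀ x, Y x 0 = 0 ∧ Y x 1 = 0 := by
    intro x
    have a1 := fun j => congrArg (fun f : H3 K => f j) (app_of_eq h0 x)
    have a2 := fun j => congrArg (fun f : H3 K => f j) (h1 x)
    rw [B3, dg3_star] at a2
    exact ⟨m.joint_ker (by simpa [B3, dg3_apply, τ3, τ3'] using a1 0)
      (by simpa [dg3_apply, τ3, τ3'] using a2 0),
      m.joint_ker (by simpa [B3, dg3_apply, τ3, τ3'] using a1 1)
      (by simpa [dg3_apply, τ3, τ3'] using a2 1)⟩
  have h3 : ∀ x, Y (r.A x) = r.A (Y x) := fun x => app_of_eq h.eq x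
  have h4 : ∀ x, Y x 2 = 0 := fun x => by
    have := (h2 (r.A x)).1
    rw [h3, A0, (h2 x).2, map_zero, map_zero, sub_zero] at this
    rw [← m.ss (Y x 2), this, map_zero]
  ext x j
  fin_cases j
  exacts [(h2 x).1, (h2 x).2, h4 x]

omit hT in
theorem prim : Prim r.A := by
  intro F G hF hG cF cG h0
  have hk : ∀ X : H3 K →L[ℂ] H3 K, Commute X r.A →
      Inv r.A (LinearMap.ker (X : H3 K →ₗ[ℂ] H3 K)) := fun X hX =>
    ⟨ContinuousLinearMap.isClosed_ker X, fun ξ hξ => by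
      have e : X ξ = 0 := hξ
      show X (r.A ξ) = 0
      rw [← ContinuousLinearMap.mul_apply, hX.eq, ContinuousLinearMap.mul_apply, e, map_zero]⟩
  have key : ∀ X : H3 K →L[ℂ] H3 K, star X = X → Commute X r.A →
      (∀ x, X (B3 m (X x)) = 0) → X = 0 := by
    intro X h1 h2 h3
    have h4 : Commute X (star r.A) := by
      have := h2.star_star
      rwa [h1] at this
    have h5 : Commute X (B3 m) := by
      rw [← r.A_pow]
      exact h2.pow_right _
    have h6 := r.eq_zero_of_B (h2.mul_left h2) (h4.mul_left h4) (by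
      rw [← mul_assoc, ← h5.eq]
      exact ContinuousLinearMap.ext h3)
    rw [← CStarRing.star_mul_self_eq_zero_iff, h1, h6]
  have h1 : G * F = 0 := swap_zero hF hG h0
  rcases r.dich (hk F cF) (hk G cG) with h | h
  · exact Or.inr (key G hG cG fun x => h _ (app_of_eq h0 x))
  · exact Or.inl (key F hF cF fun x => h _ (app_of_eq h1 x))

end Rt

theorem compact_rankOne (u v : K) : IsCompactOperator (rankOne ℂ u v : K →L[ℂ] K) := by
  have h : IsCompactOperator (innerSL ℂ v : K →L[ℂ] ℂ) :=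
    ⟨Metric.closedBall 0 1, isCompact_closedBall _ _,
      (innerSL ℂ v).continuous.continuousAt.preimage_mem_nhds (by
        rw [map_zero]
        exact Metric.closedBall_mem_nhds _ one_pos)⟩
  exact h.clm_comp (ContinuousLinearMap.toSpanSingleton ℂ u)

theorem Nuc.compact {X : K →L[ℂ] K} (h : Nuc X) : IsCompactOperator X := by
  obtain ⟨ι, σ, γ, κ, hκ, f, g, B0, -, -, h3, rfl⟩ := h
  let C := compactOperator (RingHom.id ℂ) K K
  have hr : ∀ u v : K, (rankOne ℂ u v : K →L[ℂ] K) ∈ C := compact_rankOne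
  have h0 : B0 ∈ C := isClosed_setOf_isCompactOperator.mem_of_tendsto h3
    (Eventually.of_forall fun s => C.sum_mem fun n _ => C.smul_mem _ (hr _ _))
  exact C.add_mem h0 (C.sum_mem fun i _ => hr _ _)

theorem exists_cube [TopologicalSpace.SeparableSpace K] (h : ¬ FiniteDimensional ℂ K) :
    ∃ A : K →L[ℂ] K, IsCompactOperator (A ^ 3 : K →L[ℂ] K) ∧
      (∀ M : VonNeumannAlgebra K, A ∈ M → ∀ x, x ∈ M) ∧
      ∀ T : Subalgebra ℂ (K →L[ℂ] K), IsTri T → A ∉ T := by
  obtain ⟨b⟩ := exists_nat_basis h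
  obtain ⟨m⟩ := exists_model b
  obtain ⟨r⟩ := exists_rt m
  have h4 : ¬ FiniteDimensional ℂ (H3 K) := fun h1 =>
    h (Module.Finite.of_surjective ((pr3 0 : H3 K →L[ℂ] K) : H3 K →ₗ[ℂ] K)
      (fun v => ⟨inj3 0 v, by simp [pr3_apply, inj3_apply]⟩))
  have hs : TopologicalSpace.SeparableSpace (H3 K) :=
    (PiLp.continuousLinearEquiv 2 ℂ (fun _ : Fin 3 => K)).symm.surjective.denseRange.separableSpace
      (PiLp.continuousLinearEquiv 2 ℂ (fun _ : Fin 3 => K)).symm.continuous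
  obtain ⟨b4⟩ := exists_nat_basis h4
  let U := b4.repr.trans b.repr.symm
  let Φ := U.conjStarAlgEquiv
  refine ⟨Φ r.A, ?_, fun M hM x => ?_, fun T hT hA => ?_⟩
  · rw [← map_pow, r.A_pow]
    exact ((B3_nuc m).compact.comp_clm
      (U.symm.toContinuousLinearEquiv : K →L[ℂ] H3 K)).clm_comp
      (U.toContinuousLinearEquiv : H3 K →L[ℂ] K)
  · rw [← M.commutant_commutant, VonNeumannAlgebra.mem_commutant_iff]
    intro y hy
    rw [VonNeumannAlgebra.mem_commutant_iff] at hy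
    obtain ⟨x, rfl⟩ : ∃ x', Φ x' = x := Φ.surjective x
    obtain ⟨y, rfl⟩ : ∃ y', Φ y' = y := Φ.surjective y
    have h1 := hy _ hM
    have h2 := hy _ (star_mem hM)
    rw [← map_star] at h2
    rw [← map_mul, ← map_mul] at h1 h2 ⊢
    rw [(irred r.prim (Φ.injective h1).symm (Φ.injective h2).symm x).eq]
  let T' : Subalgebra ℂ (H3 K →L[ℂ] H3 K) := T.comap (Φ : (H3 K →L[ℂ] H3 K) →ₐ[ℂ] (K →L[ℂ] K))
  have hm : ∀ x, x ∈ T' ↔ Φ x ∈ T := fun x => Iff.rfl
  have hT' : IsTri T' := by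
    refine ⟨Set.ext (fun x => ?_)⟩
    have h1 := Set.ext_iff.mp hT.eq (Φ x)
    simp only [Set.mem_setOf_eq, hm, map_star, Set.mem_centralizer_iff] at h1 ⊢
    rw [h1]
    constructor
    · intro h2 y hy
      apply Φ.injective
      rw [map_mul, map_mul]
      exact h2 _ hy
    · intro h2 y hy
      obtain ⟨y', rfl⟩ : ∃ y', Φ y' = y := Φ.surjective y
      rw [← map_mul, ← map_mul, h2 y' hy]
  exact r.not_mem (T := T') hA

end Pool.Agent.Lib.MP_690138_an.KS
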