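import Pool.Agent.Lib.MP_690138_an.Corner

set_option autoImplicit false
set_option linter.unusedSectionVars false
set_option linter.deprecated false

open scoped InnerProductSpace
open Filter Topology InnerProductSpace Finset

namespace Pool.Agent.Lib.MP_690138_an.KS

theorem dominate (c : ℕ → ℂ) {n ν : ℕ} (hν : ν < n) {ρ : ℝ}
    (h1 : ∀ k < n, ‖c k‖ * ρ ^ k ≤ ‖c ν‖ * ρ ^ ν)
    (h2 : ∀ k < n, ‖c k‖ * (16 * ρ) ^ k ≤ ‖c ν‖ * (16 * ρ) ^ ν) {w : ℂ} (hw : ‖w‖ = 4 * ρ) :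
    ∀ k < n, ‖c k‖ * (4 * ρ) ^ k ≤ 3 * ‖∑ j ∈ range n, w ^ j * c j‖ := by
  set b : ℕ → ℝ := fun k => ‖w ^ k * c k‖ with hb
  have hb' : ∀ k, b k = ‖c k‖ * (4 * ρ) ^ k := fun k => by
    simp only [hb, norm_mul, norm_pow, hw, mul_comm]
  have hb0 : ∀ k, 0 ≤ b k := fun k => norm_nonneg _
  have h3 : ∀ k < n, b k ≤ b ν * (1 / 4) ^ ν * 4 ^ k := by
    intro k hk
    rw [hb', hb', mul_pow, mul_pow]
    have h4 : ‖c ν‖ * (4 ^ ν * ρ ^ ν) * (1 / 4) ^ ν * 4 ^ k = ‖c ν‖ * ρ ^ ν * 4 ^ k := by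
      have : (4 : ℝ) ^ ν * (1 / 4) ^ ν = 1 := by rw [← mul_pow]; norm_num
      linear_combination (‖c ν‖ * ρ ^ ν * 4 ^ k) * this
    rw [h4]
    have := mul_le_mul_of_nonneg_right (h1 k hk) (by positivity : (0 : ℝ) ≤ 4 ^ k)
    linarith
  have h4 : ∀ k < n, b k ≤ b ν * 4 ^ ν * (1 / 4) ^ k := by
    intro k hk
    have h5 : ∀ k, ‖c k‖ * (16 * ρ) ^ k = b k * 4 ^ k := fun k => by
      rw [hb', mul_assoc, ← mul_pow]
      congr 2
      ring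
    have h6 := h2 k hk
    rw [h5, h5] at h6
    have h7 := mul_le_mul_of_nonneg_right h6 (by positivity : (0 : ℝ) ≤ (1 / 4) ^ k)
    have : (4 : ℝ) ^ k * (1 / 4) ^ k = 1 := by rw [← mul_pow]; norm_num
    rwa [mul_assoc, this, mul_one] at h7
  have hone : (4 : ℝ) ^ ν * (1 / 4) ^ ν = 1 := by rw [← mul_pow]; norm_num
  have s1 : ∑ k ∈ range ν, b k ≤ b ν / 3 := by
    have h5 : ∀ m, ∑ k ∈ range m, (4 : ℝ) ^ k ≤ 4 ^ m / 3 := by
      intro m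
      induction m with
      | zero => simp
      | succ m ih => rw [sum_range_succ, pow_succ]; linarith
    calc ∑ k ∈ range ν, b k ≤ ∑ k ∈ range ν, b ν * (1 / 4) ^ ν * 4 ^ k :=
          sum_le_sum (fun k hk => h3 k ((mem_range.mp hk).trans hν))
      _ = b ν * (1 / 4) ^ ν * ∑ k ∈ range ν, (4 : ℝ) ^ k := by rw [mul_sum]
      _ ≤ b ν * (1 / 4) ^ ν * (4 ^ ν / 3) :=
          mul_le_mul_of_nonneg_left (h5 ν) (by have := hb0 ν; positivity)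
      _ = b ν / 3 := by linear_combination (b ν / 3) * hone
  have s2 : ∑ k ∈ Ico (ν + 1) n, b k ≤ b ν / 3 := by
    calc ∑ k ∈ Ico (ν + 1) n, b k ≤ ∑ k ∈ Ico (ν + 1) n, b ν * 4 ^ ν * (1 / 4) ^ k :=
          sum_le_sum (fun k hk => h4 k (mem_Ico.mp hk).2)
      _ = b ν * 4 ^ ν * ∑ k ∈ Ico (ν + 1) n, (1 / 4 : ℝ) ^ k := by rw [mul_sum]
      _ ≤ b ν * 4 ^ ν * ((1 / 4) ^ (ν + 1) / (1 - 1 / 4)) :=
          mul_le_mul_of_nonneg_left (geom_sum_Ico_le_of_lt_one (by norm_num) (by norm_num))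
            (by have := hb0 ν; positivity)
      _ = b ν / 3 := by rw [pow_succ]; linear_combination (b ν / 3) * hone
  have s3 : b ν ≤ 3 * ‖∑ j ∈ range n, w ^ j * c j‖ := by
    have h5 : w ^ ν * c ν = ∑ j ∈ range n, w ^ j * c j - ∑ j ∈ range ν, w ^ j * c j -
        ∑ j ∈ Ico (ν + 1) n, w ^ j * c j := by
      rw [← sum_range_add_sum_Ico _ (Nat.succ_le_of_lt hν), sum_range_succ]
      ring
    have h6 : b ν ≤ ‖∑ j ∈ range n, w ^ j * c j‖ + ∑ k ∈ range ν, b k +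
        ∑ k ∈ Ico (ν + 1) n, b k := by
      simp only [hb]
      rw [h5]
      exact (norm_sub_le _ _).trans (add_le_add ((norm_sub_le _ _).trans
        (add_le_add le_rfl (norm_sum_le _ _))) (norm_sum_le _ _))
    linarith
  intro k hk
  rw [← hb']
  refine le_trans ?_ s3
  rcases le_total k ν with h | h
  · refine (h3 k hk).trans ?_
    have h5 : (4 : ℝ) ^ k ≤ 4 ^ ν := pow_le_pow_right₀ (by norm_num) h
    calc b ν * (1 / 4) ^ ν * 4 ^ k ≤ b ν * (1 / 4) ^ ν * 4 ^ ν :=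
          mul_le_mul_of_nonneg_left h5 (by have := hb0 ν; positivity)
      _ = b ν := by linear_combination (b ν) * hone
  · refine (h4 k hk).trans ?_
    have h5 : (1 / 4 : ℝ) ^ k ≤ (1 / 4) ^ ν := pow_le_pow_of_le_one (by norm_num) (by norm_num) h
    calc b ν * 4 ^ ν * (1 / 4) ^ k ≤ b ν * 4 ^ ν * (1 / 4) ^ ν :=
          mul_le_mul_of_nonneg_left h5 (by have := hb0 ν; positivity)
      _ = b ν := by linear_combination (b ν) * hone

theorem exists_index (c : ℕ → ℂ) {n k0 : ℕ} (hk0 : k0 < n) (hc : c k0 ≠ 0) (i0 : ℕ) :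
    ∃ ν : ℕ → ℕ, (∀ j, ν j < n) ∧ (∀ j, ν j ≤ ν (j + 1)) ∧
      ∀ j, ∀ k < n, ‖c k‖ * (4 ^ (i0 + 2 * j)) ^ k ≤ ‖c (ν j)‖ * (4 ^ (i0 + 2 * j)) ^ (ν j) := by
  have h : ∀ j : ℕ, ∃ ν < n, ∀ k < n,
      ‖c k‖ * ((4 : ℝ) ^ (i0 + 2 * j)) ^ k ≤ ‖c ν‖ * (4 ^ (i0 + 2 * j)) ^ ν := by
    intro j
    obtain ⟨ν, h1, h2⟩ := exists_max_image (range n)
      (fun k => ‖c k‖ * ((4 : ℝ) ^ (i0 + 2 * j)) ^ k) ⟨k0, mem_range.mpr hk0⟩
    exact ⟨ν, mem_range.mp h1, fun k hk => h2 k (mem_range.mpr hk)⟩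
  choose ν h1 h2 using h
  refine ⟨ν, h1, fun j => ?_, h2⟩
  by_contra hlt
  push Not at hlt
  have h3 := h2 j _ (h1 (j + 1))
  have h4 := h2 (j + 1) _ (h1 j)
  have h5 := h2 j _ hk0
  have h6 : (4 : ℝ) ^ (i0 + 2 * (j + 1)) = 4 ^ (i0 + 2 * j) * 16 := by ring
  rw [h6, mul_pow, mul_pow, ← mul_assoc, ← mul_assoc] at h4
  have h7 : 0 < ‖c k0‖ * ((4 : ℝ) ^ (i0 + 2 * j)) ^ k0 := by
    have := norm_pos_iff.mpr hc
    positivity
  have h8 : (16 : ℝ) ^ ν (j + 1) < 16 ^ ν j := pow_lt_pow_right₀ (by norm_num) hlt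
  have h9 := mul_le_mul_of_nonneg_right h3 (by positivity : (0 : ℝ) ≤ 16 ^ ν (j + 1))
  have h10 := mul_lt_mul_of_pos_left h8 (lt_of_lt_of_le h7 h5)
  linarith

theorem central (c c' : ℕ → ℂ) {n k0 : ℕ} (hk0 : k0 < n) (hc : c k0 ≠ 0) (hc' : c' k0 ≠ 0)
    (i0 : ℕ) : ∃ i, i0 ≤ i ∧ i ≤ i0 + 4 * n ∧ ∀ w : ℂ, ‖w‖ = 4 ^ i →
      ‖c k0‖ * (4 ^ i) ^ k0 ≤ 3 * ‖∑ j ∈ range n, w ^ j * c j‖ ∧
      ‖c' k0‖ * (4 ^ i) ^ k0 ≤ 3 * ‖∑ j ∈ range n, w ^ j * c' j‖ := by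
  obtain ⟨ν, h1, h2, h3⟩ := exists_index c hk0 hc i0
  obtain ⟨ν', h1', h2', h3'⟩ := exists_index c' hk0 hc' i0
  have hex : ∃ j < 2 * n, ν (j + 1) + ν' (j + 1) ≤ ν j + ν' j := by
    by_contra hne
    push Not at hne
    have : ∀ j ≤ 2 * n, j ≤ ν j + ν' j := by
      intro j hj
      induction j with
      | zero => exact Nat.zero_le _
      | succ j ih =>
        have := hne j (by omega)
        have := ih (by omega)
        omega
    have h4 := this (2 * n) le_rfl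
    have := h1 (2 * n)
    have := h1' (2 * n)
    omega
  obtain ⟨j, hj, hle⟩ := hex
  have e1 : ν (j + 1) = ν j := by have := h2 j; have := h2' j; omega
  have e2 : ν' (j + 1) = ν' j := by have := h2 j; have := h2' j; omega
  refine ⟨i0 + 2 * j + 1, by omega, by omega, fun w hw => ?_⟩
  have h6 : (4 : ℝ) ^ (i0 + 2 * (j + 1)) = 16 * 4 ^ (i0 + 2 * j) := by ring
  have h7 : (4 : ℝ) ^ (i0 + 2 * j + 1) = 4 * 4 ^ (i0 + 2 * j) := by ring
  rw [h7] at hw ⊢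
  have h4 := h3 (j + 1)
  have h4' := h3' (j + 1)
  rw [e1, h6] at h4
  rw [e2, h6] at h4'
  exact ⟨dominate c (h1 j) (h3 j) h4 hw k0 hk0,
    dominate c' (h1' j) (h3' j) h4' hw k0 hk0⟩

variable {H : Type*} [NormedAddCommGroup H] [InnerProductSpace ℂ H] [CompleteSpace H]

/-- Positive injective operator. -/
def PosInj (Λ : H →L[ℂ] H) : Prop :=
  star Λ = Λ ∧ (∀ x, 0 ≤ (⟪Λ x, x⟫_ℂ).re) ∧ ∀ x, Λ x = 0 → x = 0

theorem exists_resolvent {Λ : H →L[ℂ] H} (h : PosInj Λ) :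
    ∃ R : ℝ → H →L[ℂ] H, (∀ t, 0 ≤ t → R t * (1 + (t : ℂ) • Λ) = 1) ∧
      (∀ t, 0 ≤ t → ∀ x, ‖R t x‖ ≤ ‖x‖) ∧ ∀ x, Tendsto (fun t => ‖R t x‖) atTop (𝓝 0) := by
  have h1 : ∀ t : ℝ, 0 ≤ t → ∀ x, ‖x‖ ^ 2 ≤ ‖⟪(1 + (t : ℂ) • Λ) x, x⟫_ℂ‖ := by
    intro t ht x
    refine le_trans ?_ (Complex.re_le_norm _)
    rw [ContinuousLinearMap.add_apply, ContinuousLinearMap.smul_apply, inner_add_left,
      inner_smul_left, ContinuousLinearMap.one_apply, Complex.conj_ofReal, Complex.add_re,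
      Complex.re_ofReal_mul, inner_self_eq_norm_sq_to_K]
    have := mul_nonneg ht (h.2.1 x)
    have h2 : ((((‖x‖ : ℝ) : ℂ)) ^ 2).re = ‖x‖ ^ 2 := by
      rw [← Complex.ofReal_pow, Complex.ofReal_re]
    erw [h2]
    linarith
  have hu : ∀ t : ℝ, 0 ≤ t → IsUnit (1 + (t : ℂ) • Λ) := fun t ht =>
    ContinuousLinearMap.isUnit_of_forall_le_norm_inner_map _ (c := 1) one_pos
      (fun x => by rw [NNReal.coe_one, mul_one]; exact h1 t ht x)
  have h2 : ∀ t : ℝ, 0 ≤ t → ∀ x, ‖Ring.inverse (1 + (t : ℂ) • Λ) x‖ ≤ ‖x‖ := by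
    intro t ht x
    set y := Ring.inverse (1 + (t : ℂ) • Λ) x with hy
    have h3 : (1 + (t : ℂ) • Λ) y = x := by
      rw [hy, ← ContinuousLinearMap.mul_apply, Ring.mul_inverse_cancel _ (hu t ht)]
      rfl
    have h4 := (h1 t ht y).trans (norm_inner_le_norm _ _)
    rw [h3] at h4
    by_cases h0 : ‖y‖ = 0
    · rw [h0]; exact norm_nonneg _
    · have : 0 < ‖y‖ := lt_of_le_of_ne (norm_nonneg _) (Ne.symm h0)
      nlinarith
  refine ⟨fun t => Ring.inverse (1 + (t : ℂ) • Λ),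
    fun t ht => Ring.inverse_mul_cancel _ (hu t ht), h2, fun x => ?_⟩
  have hd : (LinearMap.range (Λ : H →ₗ[ℂ] H)).topologicalClosure = ⊤ := by
    rw [Submodule.topologicalClosure_eq_top_iff, Submodule.eq_bot_iff]
    intro z hz
    apply h.2.2
    apply eq_zero_of_inner_right
    intro y
    rw [← inner_star_left, h.1]
    exact hz (Λ y) ⟨y, rfl⟩
  rw [Metric.tendsto_atTop]
  intro ε hε
  have hx : x ∈ closure (LinearMap.range (Λ : H →ₗ[ℂ] H) : Set H) := by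
    rw [← Submodule.topologicalClosure_coe, hd]
    trivial
  obtain ⟨_, ⟨z, rfl⟩, hz⟩ := Metric.mem_closure_iff.mp hx (ε / 2) (by positivity)
  refine ⟨4 * ‖z‖ / ε + 1, fun t ht => ?_⟩
  have ht0 : 0 < t := lt_of_lt_of_le (by positivity) ht
  rw [Real.dist_eq, sub_zero, abs_norm]
  set R := Ring.inverse (1 + (t : ℂ) • Λ) with hR
  have h3 : (t : ℂ) • R (Λ z) = z - R z := by
    have h4 := congrArg (fun X : H →L[ℂ] H => X z) (Ring.inverse_mul_cancel _ (hu t ht0.le))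
    simp only [ContinuousLinearMap.mul_apply, ContinuousLinearMap.add_apply,
      ContinuousLinearMap.one_apply, ContinuousLinearMap.smul_apply, map_add, map_smul] at h4
    rw [← hR] at h4
    exact eq_sub_of_add_eq' h4
  have h4 : t * ‖R (Λ z)‖ ≤ 2 * ‖z‖ := by
    have h5 := congrArg norm h3
    rw [norm_smul, Complex.norm_real, Real.norm_of_nonneg ht0.le] at h5
    have := norm_sub_le z (R z)
    have := h2 t ht0.le z
    linarith
  have h5 : ‖R x‖ ≤ ‖R (x - Λ z)‖ + ‖R (Λ z)‖ := by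
    rw [map_sub]
    exact norm_le_norm_sub_add _ _
  have h6 := h2 t ht0.le (x - Λ z)
  rw [dist_eq_norm] at hz
  have h7 : ‖R (Λ z)‖ ≤ ε / 2 := by
    by_contra h8
    push Not at h8
    have h9 : 4 * ‖z‖ / ε * ε = 4 * ‖z‖ := by field_simp
    nlinarith
  have hz' : ‖x - Λ z‖ < ε / 2 := hz
  linarith

/-- Very slow growth of the resolvent. -/
def Slow (A : H →L[ℂ] H) : Prop := ∀ n0 : ℕ, ∃ n ≥ n0, ‖A ^ n‖ * 4 ^ (6 * n * n) ≤ 1

/-- Closed invariant subspace. -/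
def Inv (A : H →L[ℂ] H) (L : Submodule ℂ H) : Prop :=
  IsClosed (L : Set H) ∧ ∀ ξ ∈ L, A ξ ∈ L

theorem Inv.pow {A : H →L[ℂ] H} {L : Submodule ℂ H} (h : Inv A L) (k : ℕ) :
    ∀ ξ ∈ L, (A ^ k) ξ ∈ L := by
  induction k with
  | zero => exact fun ξ hξ => hξ
  | succ k ih => exact fun ξ hξ => by rw [pow_succ]; exact ih _ (h.2 ξ hξ)

theorem exists_perp {L : Submodule ℂ H} (hL : IsClosed (L : Set H)) {x : H} (hx : x ∉ L) :
    ∃ P : H, (∀ y ∈ L, ⟪P, y⟫_ℂ = 0) ∧ ⟪P, x⟫_ℂ ≠ 0 := by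
  have := hL.completeSpace_coe
  by_contra h
  push Not at h
  apply hx
  rw [← Submodule.orthogonal_orthogonal L, Submodule.mem_orthogonal]
  intro P hP
  exact h P (fun y hy => Submodule.inner_left_of_mem_orthogonal hy hP)

theorem dichotomy {A A0 Λ : H →L[ℂ] H} {u v : H} (hA : A0 = A + rankOne ℂ u v) {m : ℕ}
    (hm : A0 ^ (m + 1) = Λ) (hΛ : PosInj Λ) (hs : Slow A) {L L' : Submodule ℂ H}
    (hL : Inv A L) (hL' : Inv A L') :
    (∀ ξ ∈ L, (A ^ m) ξ ∈ L') ∨ (∀ ξ ∈ L', (A ^ m) ξ ∈ L) := by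
  by_contra hcon
  push Not at hcon
  obtain ⟨⟨F, hF, hF'⟩, ⟨G, hG, hG'⟩⟩ := hcon
  obtain ⟨P, hP, hPF⟩ := exists_perp hL'.1 hF'
  obtain ⟨P', hP', hPG⟩ := exists_perp hL.1 hG'
  obtain ⟨R, hR1, hR2, hR3⟩ := exists_resolvent hΛ
  obtain ⟨ζ, hζ⟩ := IsAlgClosed.exists_pow_nat_eq (-1 : ℂ) (Nat.succ_pos m)
  have hζ1 : ‖ζ‖ = 1 := by
    have h1 := congrArg norm hζ
    rw [norm_pow, norm_neg, norm_one] at h1
    exact (pow_eq_one_iff_of_nonneg (norm_nonneg _) (Nat.succ_ne_zero m)).mp h1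
  let e : ℝ → H → ℝ := fun t X => ∑ j ∈ range (m + 1), ‖R t ((A0 ^ j) X)‖
  let C : ℝ := ∑ j ∈ range (m + 1), ‖A0 ^ j‖
  have hC : 0 ≤ C := sum_nonneg (fun _ _ => norm_nonneg _)
  have he0 : ∀ t X, 0 ≤ e t X := fun t X => sum_nonneg (fun _ _ => norm_nonneg _)
  have he1 : ∀ X, Tendsto (fun t => e t X) atTop (𝓝 0) := by
    intro X
    have := tendsto_finset_sum (range (m + 1)) (fun j _ => hR3 ((A0 ^ j) X))
    rw [sum_const_zero] at this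
    exact this
  have he2 : ∀ t, 0 ≤ t → ∀ X, e t X ≤ C * ‖X‖ := by
    intro t ht X
    rw [sum_mul]
    exact sum_le_sum (fun j _ => (hR2 t ht _).trans (ContinuousLinearMap.le_opNorm _ _))
  set ε := min ‖⟪P, (A ^ m) F⟫_ℂ‖ ‖⟪P', (A ^ m) G⟫_ℂ‖ / 3 with hε
  have hε0 : 0 < ε := by
    have := norm_pos_iff.mpr hPF
    have := norm_pos_iff.mpr hPG
    positivity
  set M := ‖P‖ + ‖P'‖ with hM
  have t1 : Tendsto (fun t => M * (e t F + e t G)) atTop (𝓝 0) := by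
    simpa using ((he1 F).add (he1 G)).const_mul M
  have t2 : Tendsto (fun n : ℕ => M * (C * (‖F‖ + ‖G‖)) * (1 / 4 : ℝ) ^ n) atTop (𝓝 0) := by
    simpa using (tendsto_pow_atTop_nhds_zero_of_lt_one (r := (1 / 4 : ℝ)) (by norm_num)
      (by norm_num)).const_mul (M * (C * (‖F‖ + ‖G‖)))
  obtain ⟨t0, ht0⟩ := eventually_atTop.mp (t1.eventually (gt_mem_nhds (half_pos hε0)))
  obtain ⟨n1, hn1⟩ := eventually_atTop.mp (t2.eventually (gt_mem_nhds (half_pos hε0)))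
  obtain ⟨n, hn, hsl⟩ := hs (n1 + ⌈t0⌉₊ + m + 1)
  obtain ⟨i, hi1, hi2, hi3⟩ := central (fun k => ⟪P, (A ^ k) F⟫_ℂ) (fun k => ⟪P', (A ^ k) G⟫_ℂ)
    (show m < n by omega) hPF hPG n
  set r : ℝ := 4 ^ i with hr
  have hr1 : 1 ≤ r := one_le_pow₀ (by norm_num)
  set w : ℂ := (r : ℂ) * ζ with hw
  have hwn : ‖w‖ = r := by
    rw [hw, norm_mul, hζ1, mul_one, Complex.norm_real, Real.norm_of_nonneg (by positivity)]
  obtain ⟨hf, hg⟩ := hi3 w hwn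
  set t : ℝ := r ^ (m + 1) with ht
  have ht00 : 0 ≤ t := by positivity
  have htt : t0 ≤ t := by
    have h1 : (i : ℝ) ≤ r := by
      have := (Nat.lt_pow_self (by norm_num : 1 < 4) (n := i)).le
      rw [hr]
      exact_mod_cast this
    have h2 : t0 ≤ (i : ℝ) := (Nat.le_ceil t0).trans (by exact_mod_cast (by omega))
    exact h2.trans (h1.trans (le_self_pow₀ hr1 (Nat.succ_ne_zero m)))
  set R0 : H →L[ℂ] H := R t * ∑ j ∈ range (m + 1), (w • A0) ^ j with hR0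
  have hR0l : R0 * (1 - w • A0) = 1 := by
    rw [hR0, mul_assoc, geom_sum_mul_neg, smul_pow, hm, hw, mul_pow, hζ, mul_neg_one, neg_smul,
      sub_neg_eq_add, ← Complex.ofReal_pow]
    exact hR1 t ht00
  have hR0n : ∀ X, ‖R0 X‖ ≤ r ^ m * e t X := by
    intro X
    rw [hR0, ContinuousLinearMap.mul_apply, ContinuousLinearMap.sum_apply, map_sum, mul_sum]
    refine (norm_sum_le _ _).trans (sum_le_sum (fun j hj => ?_))
    rw [smul_pow, ContinuousLinearMap.smul_apply, map_smul, norm_smul, norm_pow, hwn]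
    exact mul_le_mul_of_nonneg_right
      (pow_le_pow_right₀ hr1 (Nat.lt_succ_iff.mp (mem_range.mp hj))) (norm_nonneg _)
  have hδ : ‖(w • A) ^ n‖ ≤ (1 / 4) ^ n := by
    rw [smul_pow, norm_smul, norm_pow, hwn, hr, ← pow_mul]
    have h1 : (4 : ℝ) ^ (i * n) * 4 ^ n ≤ 4 ^ (6 * n * n) := by
      rw [← pow_add]
      apply pow_le_pow_right₀ (by norm_num)
      have : 1 ≤ n := by omega
      nlinarith
    have h2 : (4 : ℝ) ^ n * (1 / 4) ^ n = 1 := by rw [← mul_pow]; norm_num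
    have h3 := mul_le_mul_of_nonneg_left h1 (norm_nonneg (A ^ n))
    have h4 := mul_le_mul_of_nonneg_right (h3.trans hsl) (by positivity : (0 : ℝ) ≤ (1 / 4) ^ n)
    calc (4 : ℝ) ^ (i * n) * ‖A ^ n‖ = ‖A ^ n‖ * (4 ^ (i * n) * 4 ^ n) * (1 / 4) ^ n := by
          linear_combination (-(4 : ℝ) ^ (i * n) * ‖A ^ n‖) * h2
      _ ≤ _ := by simpa using h4
  let z : H → H := fun X => (∑ k ∈ range n, (w • A) ^ k) X
  let y : H → H := fun X => R0 (X - ((w • A) ^ n) X)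
  have hz : ∀ X, z X = y X - (⟪v, z X⟫_ℂ * w) • R0 u := by
    intro X
    have h1 := congrArg (fun Z : H →L[ℂ] H => Z X) (mul_neg_geom_sum (w • A) n)
    have h2 := congrArg (fun Z : H →L[ℂ] H => Z (z X)) hR0l
    simp only [ContinuousLinearMap.mul_apply, ContinuousLinearMap.sub_apply,
      ContinuousLinearMap.one_apply] at h1 h2
    simp only [y]
    rw [← h1, ← map_smul, ← map_sub]
    conv_lhs => rw [← h2]
    congr 1
    simp only [hA, ContinuousLinearMap.smul_apply, ContinuousLinearMap.add_apply, rankOne_apply,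
      smul_add, smul_smul, mul_comm w, z]
    abel
  have hzL : ∀ {N : Submodule ℂ H}, Inv A N → ∀ X ∈ N, z X ∈ N := by
    intro N hN X hX
    simp only [z, ContinuousLinearMap.sum_apply]
    refine N.sum_mem (fun k _ => ?_)
    rw [smul_pow]
    exact N.smul_mem _ (hN.pow k X hX)
  have hzi : ∀ Q X, ⟪Q, z X⟫_ℂ = ∑ k ∈ range n, w ^ k * ⟪Q, (A ^ k) X⟫_ℂ := by
    intro Q X
    simp only [z, ContinuousLinearMap.sum_apply, inner_sum, smul_pow,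
      ContinuousLinearMap.smul_apply, inner_smul_right]
  have hy : ∀ X, ‖y X‖ ≤ r ^ m * (e t X + C * ‖X‖ * (1 / 4) ^ n) := by
    intro X
    simp only [y, map_sub]
    refine (norm_sub_le _ _).trans ?_
    rw [mul_add]
    refine add_le_add (hR0n X) ((hR0n _).trans (mul_le_mul_of_nonneg_left ?_ (by positivity)))
    refine (he2 t ht00 _).trans ?_
    rw [mul_assoc]
    refine mul_le_mul_of_nonneg_left ?_ hC
    rw [mul_comm]
    exact (ContinuousLinearMap.le_opNorm _ _).trans (mul_le_mul_of_nonneg_right hδ (norm_nonneg _))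
  have hsum : M * (‖y F‖ + ‖y G‖) < r ^ m * ε := by
    have h1 := ht0 t htt
    have h2 := hn1 n (by omega)
    have hM0 : 0 ≤ M := by positivity
    have h3 := mul_le_mul_of_nonneg_left (add_le_add (hy F) (hy G)) hM0
    have h4 : 0 < r ^ m := by positivity
    have h5 := mul_lt_mul_of_pos_left (add_lt_add h1 h2) h4
    calc M * (‖y F‖ + ‖y G‖) ≤ _ := h3
      _ = r ^ m * (M * (e t F + e t G) + M * (C * (‖F‖ + ‖G‖)) * (1 / 4) ^ n) := by ring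
      _ < r ^ m * (ε / 2 + ε / 2) := h5
      _ = r ^ m * ε := by ring
  have key : ∀ Q X Y : H, ⟪Q, z Y⟫_ℂ = 0 → ‖⟪v, z X⟫_ℂ‖ ≤ ‖⟪v, z Y⟫_ℂ‖ →
      ‖⟪Q, z X⟫_ℂ‖ ≤ ‖Q‖ * (‖y X‖ + ‖y Y‖) := by
    intro Q X Y h0 hle
    rw [hz Y, inner_sub_right, inner_smul_right, sub_eq_zero] at h0
    rw [hz X, inner_sub_right, inner_smul_right, mul_add]
    refine (norm_sub_le _ _).trans (add_le_add (norm_inner_le_norm _ _) ?_)
    refine le_trans ?_ (norm_inner_le_norm (𝕜 := ℂ) Q (y Y))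
    rw [h0]
    simp only [norm_mul]
    gcongr
  rw [← hzi] at hf hg
  have hrm : 0 < r ^ m := by positivity
  have hyy : 0 ≤ ‖y F‖ + ‖y G‖ := by positivity
  rcases le_total ‖⟪v, z F⟫_ℂ‖ ‖⟪v, z G⟫_ℂ‖ with h | h
  · have h1 := key P F G (hP _ (hzL hL' G hG)) h
    have h2 : 3 * ε ≤ ‖⟪P, (A ^ m) F⟫_ℂ‖ := by
      have := min_le_left ‖⟪P, (A ^ m) F⟫_ℂ‖ ‖⟪P', (A ^ m) G⟫_ℂ‖
      linarith
    have h3 := mul_le_mul_of_nonneg_right h2 hrm.le
    have h4 : ‖P‖ * (‖y F‖ + ‖y G‖) ≤ M * (‖y F‖ + ‖y G‖) :=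
      mul_le_mul_of_nonneg_right (by have := norm_nonneg P'; linarith) hyy
    linarith
  · have h1 := key P' G F (hP' _ (hzL hL F hF)) h
    have h2 : 3 * ε ≤ ‖⟪P', (A ^ m) G⟫_ℂ‖ := by
      have := min_le_right ‖⟪P, (A ^ m) F⟫_ℂ‖ ‖⟪P', (A ^ m) G⟫_ℂ‖
      linarith
    have h3 := mul_le_mul_of_nonneg_right h2 hrm.le
    have h4 : ‖P'‖ * (‖y G‖ + ‖y F‖) ≤ M * (‖y F‖ + ‖y G‖) := by
      rw [add_comm ‖y G‖]
      exact mul_le_mul_of_nonneg_right (by have := norm_nonneg P; linarith) hyy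
    linarith

theorem Slow.eq_zero {A : H →L[ℂ] H} (hs : Slow A) (c : ℂ) (h : ∀ N : ℕ, ‖c‖ ^ N ≤ ‖A ^ N‖) :
    c = 0 := by
  by_contra hc
  have h0 : 0 < ‖c‖ := norm_pos_iff.mpr hc
  obtain ⟨n0, hn0⟩ := exists_pow_lt_of_lt_one h0 (by norm_num : (1 / 4 : ℝ) < 1)
  obtain ⟨n, hn, h1⟩ := hs (n0 + 1)
  have h2 := (mul_le_mul_of_nonneg_right (h n) (by positivity : (0 : ℝ) ≤ 4 ^ (6 * n * n))).trans h1
  rw [pow_mul, ← mul_pow] at h2
  have h3 : 1 < ‖c‖ * 4 ^ (6 * n) := by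
    have h4 : (4 : ℝ) ^ n0 ≤ 4 ^ (6 * n) := pow_le_pow_right₀ (by norm_num) (by omega)
    have h5 : (1 / 4 : ℝ) ^ n0 * 4 ^ n0 = 1 := by rw [← mul_pow]; norm_num
    have h6 := mul_lt_mul_of_pos_right hn0 (by positivity : (0 : ℝ) < 4 ^ n0)
    have h7 := mul_le_mul_of_nonneg_left h4 h0.le
    linarith
  exact absurd h2 (not_le.mpr (one_lt_pow₀ h3 (by omega)))

end Pool.Agent.Lib.MP_690138_an.KS
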