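import Pool.Agent.Lib.MP_690138_an.Masa

set_option autoImplicit false
set_option linter.unusedSectionVars false
set_option linter.deprecated false

open scoped InnerProductSpace
open Filter Topology

namespace Pool.Agent.Lib.MP_690138_an.KS

variable {H : Type*} [NormedAddCommGroup H] [InnerProductSpace ℂ H] [CompleteSpace H]

/-- Diagonal action on a Hilbert sum. -/
noncomputable def amp (κ : Type*) (d : H →L[ℂ] H) :
    lp (fun _ : κ => H) 2 →L[ℂ] lp (fun _ : κ => H) 2 :=
  lp.mapCLM 2 (fun _ => d) (norm_nonneg d) (fun _ => le_rfl)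

theorem amp_apply {κ : Type*} (d : H →L[ℂ] H) (x : lp (fun _ : κ => H) 2) (i : κ) :
    amp κ d x i = d (x i) := rfl

theorem amp_inner {κ : Type*} (d : H →L[ℂ] H) (x y : lp (fun _ : κ => H) 2) :
    ⟪amp κ (star d) x, y⟫_ℂ = ⟪x, amp κ d y⟫_ℂ := by
  rw [lp.inner_eq_tsum, lp.inner_eq_tsum]
  congr 1
  ext i
  rw [amp_apply, amp_apply, inner_star_left]

theorem amp_single {κ : Type*} [DecidableEq κ] (d : H →L[ℂ] H) (i : κ) (x : H) :
    amp κ d (lp.single 2 i x) = lp.single 2 i (d x) := by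
  ext j
  rw [amp_apply]
  by_cases h : j = i
  · subst h
    rw [lp.single_apply_self, lp.single_apply_self]
  · rw [lp.single_apply_ne _ _ _ h, lp.single_apply_ne _ _ _ h, map_zero]

variable {T : Subalgebra ℂ (H →L[ℂ] H)} [hT : IsTri T]

theorem exists_dom {ω : H} (hω : Cyc T ω) {ι : Type*} (γ : ι → H)
    (hγ : Summable (fun n => ‖γ n‖ ^ 2)) :
    ∃ a : dg T, star a = a ∧ (∀ x, (a : H →L[ℂ] H) x = 0 → x = 0) ∧
      ∀ n, ∃ y : dg T, ‖y‖ ≤ 1 ∧ (a : H →L[ℂ] H) (γ n) = (y : H →L[ℂ] H) ω := by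
  classical
  let E := lp (fun _ : Unit ⊕ ι => H) 2
  let v : E := ⟨Sum.elim (fun _ => ω) γ, by
    apply memℓp_gen
    apply Summable.sum
    · exact Summable.of_finite
    · simpa [Function.comp_def] using hγ⟩
  have hv0 : v (Sum.inl ()) = ω := rfl
  have hv1 : ∀ n, v (Sum.inr n) = γ n := fun n => rfl
  let Φ : dg T →ₗ[ℂ] E :=
    { toFun := fun d => amp _ (d : H →L[ℂ] H) v
      map_add' := fun d e => by ext i; simp [amp_apply]
      map_smul' := fun c d => by ext i; rfl }
  have hΦ : ∀ d i, Φ d i = (d : H →L[ℂ] H) (v i) := fun d i => rfl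
  let K : Submodule ℂ E := (LinearMap.range Φ).topologicalClosure
  have hKc : IsClosed (K : Set E) := Submodule.isClosed_topologicalClosure _
  have : CompleteSpace K := hKc.completeSpace_coe
  have hΦK : ∀ d, Φ d ∈ K := fun d => Submodule.le_topologicalClosure _ ⟨d, rfl⟩
  have hKinv : ∀ d : dg T, ∀ z ∈ K, amp _ (d : H →L[ℂ] H) z ∈ K := by
    intro d
    have : K ≤ K.comap (amp (Unit ⊕ ι) (d : H →L[ℂ] H) : E →ₗ[ℂ] E) := by
      apply Submodule.topologicalClosure_minimal
      · rintro z ⟨e, rfl⟩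
        have h1 : amp (Unit ⊕ ι) (d : H →L[ℂ] H) (Φ e) = Φ (d * e) := by
          ext i
          rfl
        show amp (Unit ⊕ ι) (d : H →L[ℂ] H) (Φ e) ∈ K
        rw [h1]
        exact hΦK _
      · exact hKc.preimage (amp (Unit ⊕ ι) (d : H →L[ℂ] H)).continuous
    exact fun z hz => this hz
  have hcomm : ∀ (d : dg T) (z : E),
      K.starProjection (amp _ (d : H →L[ℂ] H) z) = amp _ (d : H →L[ℂ] H) (K.starProjection z) := by
    intro d z
    apply Submodule.eq_starProjection_of_mem_orthogonal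
    · exact hKinv d _ (Submodule.starProjection_apply_mem _ _)
    · rw [← map_sub, Submodule.mem_orthogonal]
      intro u hu
      rw [← amp_inner]
      exact Submodule.inner_right_of_mem_orthogonal (hKinv (star d) u hu)
        (Submodule.sub_starProjection_mem_orthogonal z)
  let Y : Unit ⊕ ι → (H →L[ℂ] H) := fun i =>
    (lp.evalCLM ℂ (fun _ : Unit ⊕ ι => H) 2 i) ∘L K.starProjection ∘L
      (lp.singleContinuousLinearMap ℂ (fun _ : Unit ⊕ ι => H) 2 (Sum.inl ()))
  have hY : ∀ i x, Y i x = K.starProjection (lp.single 2 (Sum.inl ()) x) i := fun i x => rfl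
  have hYD : ∀ i, Y i ∈ dg T := by
    intro i
    apply mem_dg_of_comm
    intro d
    ext x
    rw [ContinuousLinearMap.mul_apply, ContinuousLinearMap.mul_apply, hY, hY, ← amp_single,
      hcomm, amp_apply]
  have hvert : ∀ z ∈ K, z (Sum.inl ()) = 0 → ∀ n, z (Sum.inr n) = 0 := by
    intro z hz h0 n
    apply hω
    intro e
    have hcl : IsClosed {z : E | ‖⟪z (Sum.inr n), (e : H →L[ℂ] H) ω⟫_ℂ‖ ≤
        ‖γ n‖ * (‖(e : H →L[ℂ] H)‖ * ‖z (Sum.inl ())‖)} := by
      have c1 : Continuous (fun z : E => z (Sum.inr n)) :=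
        (lp.evalCLM ℂ (fun _ : Unit ⊕ ι => H) 2 (Sum.inr n)).continuous
      have c2 : Continuous (fun z : E => z (Sum.inl ())) :=
        (lp.evalCLM ℂ (fun _ : Unit ⊕ ι => H) 2 (Sum.inl ())).continuous
      apply isClosed_le
      · exact (c1.inner continuous_const).norm
      · exact continuous_const.mul (continuous_const.mul c2.norm)
    have hsub : (K : Set E) ⊆ {z : E | ‖⟪z (Sum.inr n), (e : H →L[ℂ] H) ω⟫_ℂ‖ ≤
        ‖γ n‖ * (‖(e : H →L[ℂ] H)‖ * ‖z (Sum.inl ())‖)} := by
      apply closure_minimal _ hcl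
      rintro z ⟨d, rfl⟩
      show ‖⟪Φ d (Sum.inr n), (e : H →L[ℂ] H) ω⟫_ℂ‖ ≤ _
      rw [hΦ, hΦ, hv0, hv1, ← inner_star_right]
      have h3 : star (d : H →L[ℂ] H) = (star d : dg T).1 := rfl
      rw [h3, dg_comm_apply, ← norm_star_apply]
      exact (norm_inner_le_norm _ _).trans
        (mul_le_mul_of_nonneg_left (ContinuousLinearMap.le_opNorm _ _) (norm_nonneg _))
    have h1 := hsub hz
    simp only [Set.mem_setOf_eq, h0, norm_zero, mul_zero] at h1
    exact norm_le_zero_iff.mp h1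
  have hin : ∀ x y : H, ⟪Y (Sum.inl ()) x, y⟫_ℂ =
      ⟪K.starProjection (lp.single 2 (Sum.inl ()) x), lp.single 2 (Sum.inl ()) y⟫_ℂ := by
    intro x y
    rw [lp.inner_single_right, hY]
  refine ⟨⟨Y (Sum.inl ()), hYD _⟩, ?_, ?_, ?_⟩
  · apply Subtype.ext
    show star (Y (Sum.inl ())) = Y (Sum.inl ())
    apply op_ext_inner
    intro x y
    rw [inner_star_right, hin, Submodule.inner_starProjection_left_eq_right,
      lp.inner_single_left, hY]
  · intro x hx
    have h1 := hin x x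
    change Y (Sum.inl ()) x = 0 at hx
    rw [hx, inner_zero_left] at h1
    have h2 : K.starProjection (lp.single 2 (Sum.inl ()) x) = 0 := by
      rw [← inner_self_eq_zero (𝕜 := ℂ), ← Submodule.inner_starProjection_left_eq_right,
        Submodule.starProjection_eq_self_iff.mpr (Submodule.starProjection_apply_mem _ _), ← h1]
    have h3 := (Submodule.starProjection_apply_eq_zero_iff _).mp h2
    apply hω
    intro d
    have h4 := Submodule.inner_left_of_mem_orthogonal (hΦK d) h3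
    rwa [lp.inner_single_left, hΦ, hv0] at h4
  · intro n
    refine ⟨⟨Y (Sum.inr n), hYD _⟩, ?_, ?_⟩
    · show ‖Y (Sum.inr n)‖ ≤ 1
      apply ContinuousLinearMap.opNorm_le_bound _ zero_le_one
      intro x
      rw [hY, one_mul]
      refine (lp.norm_apply_le_norm (by norm_num) _ _).trans ?_
      refine (Submodule.norm_starProjection_apply_le _ _).trans ?_
      rw [lp.norm_single (by norm_num)]
    · have h1 := hvert (Φ ⟨Y (Sum.inl ()), hYD _⟩ - K.starProjection (lp.single 2 (Sum.inl ()) ω))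
        (K.sub_mem (hΦK _) (Submodule.starProjection_apply_mem _ _))
        (by rw [lp.coeFn_sub, Pi.sub_apply, hΦ, hv0, ← hY, sub_self]) n
      rw [lp.coeFn_sub, Pi.sub_apply, hΦ, hv1, ← hY, sub_eq_zero] at h1
      exact h1

theorem exists_common {ω : H} (hω : Cyc T ω) {ξ η : H} (h : ⟪ξ, η⟫_ℂ ≠ 0) :
    ∃ d d' : dg T, (d : H →L[ℂ] H) ξ = (d' : H →L[ℂ] H) η ∧ (d : H →L[ℂ] H) ξ ≠ 0 := by
  obtain ⟨a, ha1, ha2, ha3⟩ := exists_dom hω (fun b : Bool => if b then ξ else η)
    Summable.of_finite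
  obtain ⟨x, -, hx⟩ := ha3 true
  obtain ⟨y, -, hy⟩ := ha3 false
  simp only [if_true, Bool.false_eq_true, if_false] at hx hy
  refine ⟨y * a, x * a, ?_, ?_⟩
  · simp only [MulMemClass.coe_mul, ContinuousLinearMap.mul_apply, hx, hy]
    exact dg_comm_apply _ _ _
  · intro h0
    apply h
    simp only [MulMemClass.coe_mul, ContinuousLinearMap.mul_apply, hx] at h0
    have h1 := star_apply_eq_zero h0
    have h2 : ∀ x, ((a * a : dg T) : H →L[ℂ] H) x = 0 → x = 0 := fun x hx =>
      ha2 _ (ha2 _ hx)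
    refine orb_perp ?_ _ (mem_orb_of_inj h2 η)
    rintro d z rfl
    have h3 : (a : H →L[ℂ] H) = star (a : H →L[ℂ] H) := congrArg Subtype.val ha1.symm
    rw [MulMemClass.coe_mul, ContinuousLinearMap.mul_apply, dg_comm_apply d a]
    conv_lhs => rw [h3, inner_star_right, ← h3]
    rw [hx, hy, dg_comm_apply d y, ← inner_star_left]
    have h4 : star (y : H →L[ℂ] H) = (star y : dg T).1 := rfl
    rw [h4, h1, inner_zero_left]

end Pool.Agent.Lib.MP_690138_an.KS
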