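import Pool.Agent.Lib.MP_690138_an.Gap
import Pool.Agent.Lib.MP_690138_an.Dich

set_option autoImplicit false
set_option linter.unusedSectionVars false
set_option linter.deprecated false

open scoped InnerProductSpace
open Filter Topology InnerProductSpace Finset

namespace Pool.Agent.Lib.MP_690138_an.KS

section Aux

variable {H K : Type*} [NormedAddCommGroup H] [InnerProductSpace ℂ H] [CompleteSpace H]
  [NormedAddCommGroup K] [InnerProductSpace ℂ K] [CompleteSpace K]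

theorem Nuc.add {X Y : H →L[ℂ] H} (hX : Nuc X) (hY : Nuc Y) : Nuc (X + Y) := by
  obtain ⟨ι, σ, γ, κ, hκ, f, g, B0, h1, h2, h3, h4⟩ := hX
  obtain ⟨ι', σ', γ', κ', hκ', f', g', B0', h1', h2', h3', h4'⟩ := hY
  refine ⟨ι ⊕ ι', Sum.elim σ σ', Sum.elim γ γ', κ ⊕ κ', inferInstance, Sum.elim f f',
    Sum.elim g g', B0 + B0', Summable.sum _ h1 h1', Summable.sum _ h2 h2', HasSum.sum h3 h3', ?_⟩
  rw [h4, h4', Fintype.sum_sum_type]
  simp only [Sum.elim_inl, Sum.elim_inr]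
  abel

theorem Nuc.conj2 {X : K →L[ℂ] K} (h : Nuc X) (a : K →L[ℂ] H) (a' : H →L[ℂ] K)
    (ha : ∀ x y, ⟪a x, y⟫_ℂ = ⟪x, a' y⟫_ℂ) : Nuc (a ∘L X ∘L a') := by
  obtain ⟨ι, σ, γ, κ, hκ, f, g, B0, h1, h2, h3, h4⟩ := h
  have hr : ∀ u v, a ∘L rankOne ℂ u v ∘L a' = rankOne ℂ (a u) (a v) := by
    intro u v
    ext z
    simp [ha]
  refine ⟨ι, σ, fun n => a (γ n), κ, hκ, fun i => a (f i), fun i => a (g i), a ∘L B0 ∘L a',
    h1, ?_, ?_, ?_⟩
  · refine Summable.of_nonneg_of_le (fun n => by positivity) (fun n => ?_) (h2.mul_left (‖a‖ ^ 2))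
    rw [← mul_pow]
    exact pow_le_pow_left₀ (norm_nonneg _) (a.le_opNorm _) 2
  · have h5 := h3.map (AddMonoidHom.mk' (fun X : K →L[ℂ] K => a ∘L X ∘L a')
      (fun X Y => by ext z; simp)) (by
        show Continuous (fun X : K →L[ℂ] K => a ∘L X ∘L a')
        fun_prop)
    simpa only [Function.comp_def, AddMonoidHom.mk'_apply, ContinuousLinearMap.smul_comp,
      ContinuousLinearMap.comp_smul, hr] using h5
  · rw [h4]
    simp only [← hr]
    ext z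
    simp

/-- Fixed space. -/
def fixS (P : H →L[ℂ] H) : Submodule ℂ H := LinearMap.ker ((P - 1 : H →L[ℂ] H) : H →ₗ[ℂ] H)

theorem mem_fixS {P : H →L[ℂ] H} {x : H} : x ∈ fixS P ↔ P x = x := by
  simp [fixS, sub_eq_zero]

theorem fixS_closed (P : H →L[ℂ] H) : IsClosed (fixS P : Set H) :=
  ContinuousLinearMap.isClosed_ker (P - 1)

theorem app_of_eq {X Y : H →L[ℂ] H} (h : X = Y) (x : H) : X x = Y x := by rw [h]

/-- The combination of neighbouring projections. -/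
noncomputable def comb (lam : ℕ → ℕ → ℝ) (P : ℕ → ℕ → H →L[ℂ] H) (n : ℕ) : H →L[ℂ] H :=
  ∑ a ∈ range (2 ^ n), (lam n a : ℂ) •
    ((P (n + 1) (2 * a + 1) - P (n + 1) (2 * a)) - (P (n + 1) (2 * a + 2) - P (n + 1) (2 * a + 1)))

end Aux

/-- The data produced by the construction. -/
structure Model (K : Type) [NormedAddCommGroup K] [InnerProductSpace ℂ K] [CompleteSpace K] where
  ε : ℕ → K
  Λ : K →L[ℂ] K
  S : K →L[ℂ] K
  s : K →L[ℂ] K
  s' : K →L[ℂ] K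
  a : K
  l : K
  P : ℕ → ℕ → K →L[ℂ] K
  P' : ℕ → ℕ → K →L[ℂ] K
  lam : ℕ → ℕ → ℝ
  total : ∀ η, (∀ i, ⟪η, ε i⟫_ℂ = 0) → η = 0
  ne : ε 0 ≠ 0
  hS : Λ = S + rankOne ℂ a l
  pos : PosInj Λ
  nuc : Nuc Λ
  ss' : s * s' = 1
  s's : s' * s = 1
  sΛ : s * Λ = Λ * s
  slow : ∀ n0 : ℕ, ∃ N ≥ n0, ‖S ^ N‖ * 4 ^ (100 * N * N) ≤ 1
  star_P : ∀ n d, d ≤ 2 ^ n → star (P n d) = P n d
  star_P' : ∀ n d, d ≤ 2 ^ n → star (P' n d) = P' n d
  mono : ∀ n d d', d ≤ d' → d' ≤ 2 ^ n → P n d' * P n d = P n d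
  idem' : ∀ n d, d ≤ 2 ^ n → P' n d * P' n d = P' n d
  refine : ∀ n d, d ≤ 2 ^ n → P (n + 1) (2 * d) = P n d
  inv : ∀ n d, d ≤ 2 ^ n → P n d * (S * P n d) = S * P n d
  link : ∀ n d, d ≤ 2 ^ n → P' n d * (s * P n d) = s * P n d
  link' : ∀ n d, d ≤ 2 ^ n → P n d * (s' * P' n d) = s' * P' n d
  strict : ∀ n d, d < 2 ^ n → P n (d + 1) ≠ P n d
  cont : ∀ n d, d < 2 ^ n → ∀ y, (∀ k, P (n + k) (d * 2 ^ k + 1) y = y) → P n d y = y
  top : ∀ n, P n (2 ^ n) = 1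
  weak : ∀ i ζ, Tendsto (fun n => ⟪ζ, comb lam P n (ε i)⟫_ℂ) atTop (𝓝 0)
  weak' : ∀ i ζ, Tendsto (fun n => ⟪ζ, comb lam P' n (ε i)⟫_ℂ) atTop (𝓝 ⟪ζ, ε i⟫_ℂ)

variable {K : Type} [NormedAddCommGroup K] [InnerProductSpace ℂ K] [CompleteSpace K]

/-- Four copies. -/
abbrev H4 (K : Type) : Type := PiLp 2 (fun _ : Fin 4 => K)

/-- Operator from its components. -/
noncomputable def mk4 {E : Type} [NormedAddCommGroup E] [InnerProductSpace ℂ E]
    (X : Fin 4 → E →L[ℂ] K) : E →L[ℂ] H4 K :=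
  (PiLp.continuousLinearEquiv 2 ℂ (fun _ : Fin 4 => K)).symm.toContinuousLinearMap ∘L
    ContinuousLinearMap.pi X

theorem mk4_apply {E : Type} [NormedAddCommGroup E] [InnerProductSpace ℂ E]
    (X : Fin 4 → E →L[ℂ] K) (f : E) (j : Fin 4) : mk4 X f j = X j f := rfl

/-- Coordinate projection. -/
noncomputable def pr (j : Fin 4) : H4 K →L[ℂ] K := PiLp.proj 2 (fun _ : Fin 4 => K) j

theorem pr_apply (j : Fin 4) (f : H4 K) : pr j f = f j := rfl

/-- Coordinate injection. -/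
noncomputable def inj (j : Fin 4) : K →L[ℂ] H4 K := mk4 (fun i => if i = j then 1 else 0)

theorem inj_apply (j i : Fin 4) (v : K) : inj j v i = if i = j then v else 0 := by
  rw [inj, mk4_apply]
  split_ifs <;> rfl

theorem inner_inj (j : Fin 4) (v : K) (f : H4 K) : ⟪inj j v, f⟫_ℂ = ⟪v, f j⟫_ℂ := by
  rw [PiLp.inner_apply, Finset.sum_eq_single j]
  · rw [inj_apply, if_pos rfl]
  · intro i _ hi
    rw [inj_apply, if_neg hi, inner_zero_left]
  · simp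

theorem inner_inj' (j : Fin 4) (v : K) (f : H4 K) : ⟪f, inj j v⟫_ℂ = ⟪f j, v⟫_ℂ := by
  rw [← inner_conj_symm, inner_inj, inner_conj_symm]

theorem sum_inj (f : H4 K) : ∑ j, inj j (f j) = f := by
  ext i
  simp [inj_apply]

/-- Diagonal operator. -/
noncomputable def dg4 (X : Fin 4 → K →L[ℂ] K) : H4 K →L[ℂ] H4 K := mk4 (fun j => X j ∘L pr j)

theorem dg4_apply (X : Fin 4 → K →L[ℂ] K) (f : H4 K) (j : Fin 4) : dg4 X f j = X j (f j) := rfl

theorem dg4_inj (X : Fin 4 → K →L[ℂ] K) (j : Fin 4) (v : K) :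
    dg4 X (inj j v) = inj j (X j v) := by
  ext i
  rw [dg4_apply, inj_apply, inj_apply]
  split_ifs with h
  · rw [h]
  · exact map_zero _

theorem dg4_star (X : Fin 4 → K →L[ℂ] K) : star (dg4 X) = dg4 (fun j => star (X j)) := by
  apply op_ext_inner
  intro x y
  rw [inner_star_right, PiLp.inner_apply, PiLp.inner_apply]
  simp only [dg4_apply, inner_star_right]

theorem dg4_pow (X : Fin 4 → K →L[ℂ] K) (N : ℕ) : dg4 X ^ N = dg4 (fun j => X j ^ N) := by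
  induction N with
  | zero => ext f j; rfl
  | succ N ih => rw [pow_succ, ih]; ext f j; rfl

theorem dg4_norm (X : Fin 4 → K →L[ℂ] K) {C : ℝ} (hC : 0 ≤ C) (h : ∀ j, ‖X j‖ ≤ C) :
    ‖dg4 X‖ ≤ C := by
  apply ContinuousLinearMap.opNorm_le_bound _ hC
  intro f
  refine (pow_le_pow_iff_left₀ (norm_nonneg _) (by positivity) two_ne_zero).mp ?_
  rw [mul_pow, PiLp.norm_sq_eq_of_L2, PiLp.norm_sq_eq_of_L2, mul_sum]
  refine sum_le_sum (fun j _ => ?_)
  rw [← mul_pow, dg4_apply]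
  exact pow_le_pow_left₀ (norm_nonneg _) ((X j).le_of_opNorm_le (h j) _) 2

theorem dg4_nuc (X : Fin 4 → K →L[ℂ] K) (h : ∀ j, Nuc (X j)) : Nuc (dg4 X) := by
  have h1 : dg4 X = inj 0 ∘L X 0 ∘L pr 0 + inj 1 ∘L X 1 ∘L pr 1 + inj 2 ∘L X 2 ∘L pr 2 +
      inj 3 ∘L X 3 ∘L pr 3 := by
    ext f j
    fin_cases j <;> simp [dg4_apply, inj_apply, pr_apply]
  have h2 : ∀ j, Nuc (inj j ∘L X j ∘L pr j) := fun j =>
    (h j).conj2 _ _ (fun x y => inner_inj j x y)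
  rw [h1]
  exact (((h2 0).add (h2 1)).add (h2 2)).add (h2 3)

namespace Model

variable (m : Model K)

theorem slowS : Slow m.S := by
  intro n0
  obtain ⟨N, hN, h⟩ := m.slow n0
  refine ⟨N, hN, le_trans (mul_le_mul_of_nonneg_left ?_ (norm_nonneg _)) h⟩
  exact pow_le_pow_right₀ (by norm_num) (by nlinarith)

theorem chain {L L' : Submodule ℂ K} (hL : Inv m.S L) (hL' : Inv m.S L') : L ≤ L' ∨ L' ≤ L :=
  dichotomy (m := 0) m.hS (pow_one _) m.pos m.slowS hL hL'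

/-- The nest. -/
def M (n d : ℕ) : Submodule ℂ K := fixS (m.P n d)

theorem M_inv {n d : ℕ} (h : d ≤ 2 ^ n) : Inv m.S (m.M n d) := by
  refine ⟨fixS_closed _, fun ξ hξ => ?_⟩
  have h1 := app_of_eq (m.inv n d h) ξ
  simp only [ContinuousLinearMap.mul_apply, mem_fixS.mp hξ] at h1
  exact mem_fixS.mpr h1

theorem P_mul_le {n d d' : ℕ} (h : d ≤ d') (h' : d' ≤ 2 ^ n) (x : K) :
    m.P n d (m.P n d' x) = m.P n d x := by
  have h1 := congrArg star (m.mono n d d' h h')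
  rw [star_mul, m.star_P n d (h.trans h'), m.star_P n d' h'] at h1
  exact app_of_eq h1 x

theorem exists_cell {n d : ℕ} (h : d < 2 ^ n) :
    ∃ y, y ≠ 0 ∧ y ∈ m.M n (d + 1) ∧ ∀ z ∈ m.M n d, ⟪y, z⟫_ℂ = 0 := by
  obtain ⟨x, hx⟩ : ∃ x, m.P n (d + 1) x ≠ m.P n d x := by
    by_contra h1
    push Not at h1
    exact m.strict n d h (ContinuousLinearMap.ext h1)
  refine ⟨m.P n (d + 1) x - m.P n d x, sub_ne_zero.mpr hx, ?_, fun z hz => ?_⟩
  · apply mem_fixS.mpr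
    rw [map_sub, m.P_mul_le le_rfl h]
    congr 1
    exact app_of_eq (m.mono n d (d + 1) (Nat.le_succ d) h) x
  · rw [← mem_fixS.mp hz, ← inner_star_left, m.star_P n d h.le, map_sub,
      m.P_mul_le (Nat.le_succ d) h, m.P_mul_le le_rfl h.le, sub_self, inner_zero_left]

theorem M_mono {n d d' : ℕ} (h : d ≤ d') (h' : d' ≤ 2 ^ n) : m.M n d ≤ m.M n d' := by
  intro x hx
  have h1 := app_of_eq (m.mono n d d' h h') x
  simp only [ContinuousLinearMap.mul_apply, mem_fixS.mp hx] at h1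
  exact mem_fixS.mpr h1

theorem two {n d : ℕ} (h : d + 2 ≤ 2 ^ n) : ¬ ∀ ξ ∈ m.M n (d + 2), m.S ξ ∈ m.M n d := by
  intro hS
  obtain ⟨y, hy0, hy1, hy2⟩ := m.exists_cell (n := n) (d := d) (by omega)
  obtain ⟨z, hz0, hz1, hz2⟩ := m.exists_cell (n := n) (d := d + 1) (by omega)
  have hI : ∀ u : K, (∀ x ∈ m.M n d, ⟪u, x⟫_ℂ = 0) →
      Inv m.S (m.M n (d + 2) ⊓ LinearMap.ker (innerSL ℂ u : K →ₗ[ℂ] ℂ)) := fun u hu =>
    ⟨(fixS_closed _).inter (ContinuousLinearMap.isClosed_ker (innerSL ℂ u)),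
      fun ξ hξ => ⟨(m.M_inv h).2 ξ hξ.1, hu _ (hS ξ hξ.1)⟩⟩
  have hzy : ⟪z, y⟫_ℂ = 0 := hz2 y hy1
  have hyz : ⟪y, z⟫_ℂ = 0 := by rw [← inner_conj_symm, hzy, map_zero]
  rcases m.chain (hI y hy2) (hI z (fun x hx => hz2 x (m.M_mono (Nat.le_succ d) (by omega) hx)))
    with h1 | h1
  · exact hz0 (inner_self_eq_zero.mp (h1 ⟨hz1, hyz⟩).2)
  · exact hy0 (inner_self_eq_zero.mp (h1 ⟨m.M_mono (Nat.le_succ _) h hy1, hzy⟩).2)

theorem down {n d : ℕ} (h : d + 2 ≤ 2 ^ n) {N : Submodule ℂ K} (hN : IsClosed (N : Set K))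
    (hS : ∀ ξ ∈ m.M n (d + 2), m.S ξ ∈ N) : m.M n d ≤ N := by
  let N0 : Submodule ℂ K := ((m.M n (d + 2)).map (m.S : K →ₗ[ℂ] K)).topologicalClosure
  have h0 : N0 ≤ N := by
    apply Submodule.topologicalClosure_minimal _ _ hN
    rintro _ ⟨ξ, hξ, rfl⟩
    exact hS ξ hξ
  have hI : Inv m.S N0 := by
    refine ⟨Submodule.isClosed_topologicalClosure _, ?_⟩
    have : N0 ≤ N0.comap (m.S : K →ₗ[ℂ] K) := by
      apply Submodule.topologicalClosure_minimal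
      · rintro _ ⟨ξ, hξ, rfl⟩
        exact Submodule.le_topologicalClosure _ ⟨_, (m.M_inv h).2 ξ hξ, rfl⟩
      · exact (Submodule.isClosed_topologicalClosure _).preimage m.S.continuous
    exact fun ξ hξ => this hξ
  rcases m.chain hI (m.M_inv (n := n) (d := d) (by omega)) with h1 | h1
  · exact absurd (fun ξ hξ => h1 (Submodule.le_topologicalClosure _ ⟨ξ, hξ, rfl⟩)) (m.two h)
  · exact h1.trans h0

theorem down3 {n d : ℕ} (h : d + 6 ≤ 2 ^ n) {N : Submodule ℂ K} (hN : IsClosed (N : Set K))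
    (hS : ∀ ξ ∈ m.M n (d + 6), m.S (m.S (m.S ξ)) ∈ N) : m.M n d ≤ N := by
  have c1 : IsClosed ((N.comap (m.S : K →ₗ[ℂ] K) : Submodule ℂ K) : Set K) :=
    hN.preimage m.S.continuous
  have c2 : IsClosed (((N.comap (m.S : K →ₗ[ℂ] K)).comap (m.S : K →ₗ[ℂ] K) : Submodule ℂ K) :
      Set K) := c1.preimage m.S.continuous
  have h1 := m.down (n := n) (d := d + 4) h c2 hS
  have h2 := m.down (n := n) (d := d + 2) (by omega) c1 (fun ξ hξ => h1 hξ)
  exact m.down (by omega) hN (fun ξ hξ => h2 hξ)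

theorem up {n d : ℕ} (h : d + 2 ≤ 2 ^ n) {ξ : K} (hξ : m.S ξ ∈ m.M n d) : ξ ∈ m.M n (d + 2) := by
  have hd := m.M_inv (n := n) (d := d) (by omega)
  have hI : Inv m.S ((m.M n d).comap (m.S : K →ₗ[ℂ] K)) :=
    ⟨hd.1.preimage m.S.continuous, fun ξ hξ => hd.2 _ hξ⟩
  rcases m.chain hI (m.M_inv h) with h1 | h1
  · exact h1 hξ
  · exact absurd (fun ξ hξ => h1 hξ) (m.two h)

theorem refine_pow {n d : ℕ} (h : d ≤ 2 ^ n) (k : ℕ) : m.P (n + k) (d * 2 ^ k) = m.P n d := by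
  induction k with
  | zero => simp
  | succ k ih =>
    rw [← ih, ← m.refine (n + k) (d * 2 ^ k) (by rw [pow_add]; exact Nat.mul_le_mul_right _ h)]
    congr 1
    ring

/-- Twisting maps. -/
def τ : Fin 4 → K →L[ℂ] K := ![1, 1, m.s, m.s]

/-- Inverse twisting maps. -/
def τ' : Fin 4 → K →L[ℂ] K := ![1, 1, m.s', m.s']

theorem ss (v : K) : m.s (m.s' v) = v := app_of_eq m.ss' v

theorem ss2 (v : K) : m.s' (m.s v) = v := app_of_eq m.s's v

theorem ττ (j : Fin 4) (v : K) : m.τ j (m.τ' j v) = v := by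
  fin_cases j <;> simp [τ, τ', ss]

theorem ττ2 (j : Fin 4) (v : K) : m.τ' j (m.τ j v) = v := by
  fin_cases j <;> simp [τ, τ', ss2]

/-- The fourth root. -/
noncomputable def Aop (S : K →L[ℂ] K) : H4 K →L[ℂ] H4 K :=
  mk4 ![S ∘L pr 1, m.s' ∘L pr 2, m.s ∘L pr 1 + pr 3, m.s ∘L pr 0 - pr 2]

theorem Aop0 (S : K →L[ℂ] K) (f : H4 K) : m.Aop S f 0 = S (f 1) := rfl
theorem Aop1 (S : K →L[ℂ] K) (f : H4 K) : m.Aop S f 1 = m.s' (f 2) := rfl
theorem Aop2 (S : K →L[ℂ] K) (f : H4 K) : m.Aop S f 2 = m.s (f 1) + f 3 := rfl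
theorem Aop3 (S : K →L[ℂ] K) (f : H4 K) : m.Aop S f 3 = m.s (f 0) - f 2 := rfl

theorem Aop_pow (S : K →L[ℂ] K) :
    m.Aop S ^ (3 + 1) = dg4 (fun j => m.τ j * S * m.τ' j) := by
  ext f j
  fin_cases j <;>
    simp [pow_succ, dg4_apply, Aop0, Aop1, Aop2, Aop3, τ, τ', ss, ss2]

/-- The fourth power. -/
noncomputable def B : H4 K →L[ℂ] H4 K := dg4 (fun j => m.τ j * m.S * m.τ' j)

theorem τΛ (j : Fin 4) : m.τ j * m.Λ * m.τ' j = m.Λ := by
  have h : m.s * m.Λ * m.s' = m.Λ := by rw [m.sΛ, mul_assoc, m.ss', mul_one]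
  fin_cases j <;> simp [τ, τ', h]

theorem B_nuc : Nuc m.B := by
  apply dg4_nuc
  intro j
  have h1 : m.τ j * m.S * m.τ' j = m.Λ + rankOne ℂ (-m.τ j m.a) (star (m.τ' j) m.l) := by
    have h2 := m.τΛ j
    rw [m.hS, mul_add, add_mul, mul_rankOne, rankOne_mul, ← m.hS] at h2
    rw [← h2]
    simp
  rw [h1]
  apply m.nuc.add
  exact ⟨Empty, fun _ => 0, fun _ => 0, Unit, inferInstance, fun _ => _, fun _ => _, 0,
    Summable.of_finite, Summable.of_finite, hasSum_empty, by rw [zero_add, Fintype.sum_unique]⟩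

theorem B_slow (n0 : ℕ) : ∃ N ≥ n0, ‖m.B ^ N‖ * 4 ^ (96 * N * N) ≤ 1 := by
  obtain ⟨n1, hn1⟩ := pow_unbounded_of_one_lt (‖(1 : K →L[ℂ] K)‖ + ‖m.s‖ + ‖m.s'‖)
    (by norm_num : (1 : ℝ) < 4)
  obtain ⟨N, hN, h⟩ := m.slow (n0 + n1 + 1)
  refine ⟨N, by omega, ?_⟩
  have h1 : ∀ j, ‖m.τ j‖ ≤ 4 ^ n1 ∧ ‖m.τ' j‖ ≤ 4 ^ n1 := by
    intro j
    have := norm_nonneg (1 : K →L[ℂ] K)
    have := norm_nonneg m.s
    have := norm_nonneg m.s'
    fin_cases j <;> simp only [τ, τ'] <;> constructor <;> simp <;> linarith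
  have h2 : ∀ j, (m.τ j * m.S * m.τ' j) ^ N = m.τ j * m.S ^ N * m.τ' j := by
    intro j
    generalize N = k
    induction k with
    | zero => ext v; simp [ττ]
    | succ k ih => rw [pow_succ, ih]; ext v; simp [ττ2, pow_succ]
  have h3 : ‖m.B ^ N‖ ≤ 4 ^ n1 * ‖m.S ^ N‖ * 4 ^ n1 := by
    rw [B, dg4_pow]
    apply dg4_norm _ (by positivity)
    intro j
    rw [h2]
    refine (norm_mul_le _ _).trans (mul_le_mul ((norm_mul_le _ _).trans ?_) (h1 j).2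
      (norm_nonneg _) (by positivity))
    exact mul_le_mul_of_nonneg_right (h1 j).1 (norm_nonneg _)
  have h4 : (4 : ℝ) ^ n1 * 4 ^ n1 * 4 ^ (96 * N * N) ≤ 4 ^ (100 * N * N) := by
    rw [← pow_add, ← pow_add]
    exact pow_le_pow_right₀ (by norm_num) (by nlinarith)
  calc ‖m.B ^ N‖ * 4 ^ (96 * N * N) ≤ 4 ^ n1 * ‖m.S ^ N‖ * 4 ^ n1 * 4 ^ (96 * N * N) :=
        mul_le_mul_of_nonneg_right h3 (by positivity)
    _ = ‖m.S ^ N‖ * (4 ^ n1 * 4 ^ n1 * 4 ^ (96 * N * N)) := by ring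
    _ ≤ ‖m.S ^ N‖ * 4 ^ (100 * N * N) := mul_le_mul_of_nonneg_left h4 (norm_nonneg _)
    _ ≤ 1 := h

theorem slowB : Slow m.B := by
  intro n0
  obtain ⟨N, hN, h⟩ := m.B_slow n0
  refine ⟨N, hN, le_trans (mul_le_mul_of_nonneg_left ?_ (norm_nonneg _)) h⟩
  exact pow_le_pow_right₀ (by norm_num) (by nlinarith)

theorem slowA : Slow (m.Aop m.S) := by
  intro n0
  obtain ⟨N, hN, h⟩ := m.B_slow n0
  refine ⟨(3 + 1) * N, by omega, ?_⟩
  rw [pow_mul, m.Aop_pow]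
  have : 6 * ((3 + 1) * N) * ((3 + 1) * N) = 96 * N * N := by ring
  rw [this]
  exact h

theorem dichA {L L' : Submodule ℂ (H4 K)} (hL : Inv (m.Aop m.S) L) (hL' : Inv (m.Aop m.S) L') :
    (∀ ξ ∈ L, m.B ξ ∈ L') ∨ (∀ ξ ∈ L', m.B ξ ∈ L) := by
  have h1 : m.Aop m.Λ = m.Aop m.S + rankOne ℂ (inj 0 m.a) (inj 1 m.l) := by
    ext f j
    fin_cases j <;> simp [Aop0, Aop1, Aop2, Aop3, inj_apply, inner_inj, m.hS]
  have h2 : PosInj (dg4 (fun j => m.τ j * m.Λ * m.τ' j)) := by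
    simp only [τΛ]
    refine ⟨by rw [dg4_star, m.pos.1], fun x => ?_, fun x hx => ?_⟩
    · rw [PiLp.inner_apply, Complex.re_sum]
      exact sum_nonneg (fun j _ => m.pos.2.1 _)
    · ext j
      exact m.pos.2.2 _ (congrArg (fun f : H4 K => f j) hx)
  have h3 : ∀ ξ, m.B ξ = m.Aop m.S ((m.Aop m.S ^ 3) ξ) := by
    intro ξ
    rw [B, ← m.Aop_pow, pow_succ']
    rfl
  rcases dichotomy h1 (m.Aop_pow m.Λ) h2 m.slowA hL hL' with h | h
  · exact Or.inl (fun ξ hξ => h3 ξ ▸ hL'.2 _ (h ξ hξ))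
  · exact Or.inr (fun ξ hξ => h3 ξ ▸ hL.2 _ (h ξ hξ))

/-- The projections on four copies. -/
noncomputable def Pi4 (n d : ℕ) : H4 K →L[ℂ] H4 K := dg4 ![m.P n d, m.P n d, m.P' n d, m.P' n d]

theorem fix'_iff {n d : ℕ} (h : d ≤ 2 ^ n) (v : K) : m.P' n d v = v ↔ m.s' v ∈ m.M n d := by
  rw [M, mem_fixS]
  constructor
  · intro h1
    have h2 := app_of_eq (m.link' n d h) v
    simpa only [ContinuousLinearMap.mul_apply, h1] using h2
  · intro h1
    have h2 := app_of_eq (m.link n d h) (m.s' v)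
    simpa only [ContinuousLinearMap.mul_apply, h1, ss] using h2

theorem mem_X {n d : ℕ} (h : d ≤ 2 ^ n) (f : H4 K) :
    f ∈ fixS (m.Pi4 n d) ↔ ∀ j, m.τ' j (f j) ∈ m.M n d := by
  rw [mem_fixS]
  constructor
  · intro h1 j
    have h2 := congrArg (fun f : H4 K => f j) h1
    fin_cases j
    · exact mem_fixS.mpr h2
    · exact mem_fixS.mpr h2
    · exact (m.fix'_iff h _).mp h2
    · exact (m.fix'_iff h _).mp h2
  · intro h1
    ext j
    have h2 := h1 j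
    fin_cases j
    · exact mem_fixS.mp h2
    · exact mem_fixS.mp h2
    · exact (m.fix'_iff h _).mpr h2
    · exact (m.fix'_iff h _).mpr h2

theorem X_inv {n d : ℕ} (h : d ≤ 2 ^ n) : Inv (m.Aop m.S) (fixS (m.Pi4 n d)) := by
  refine ⟨fixS_closed _, fun f hf => ?_⟩
  rw [m.mem_X h] at hf ⊢
  have h0 : f 0 ∈ m.M n d := hf 0
  have h1 : f 1 ∈ m.M n d := hf 1
  have h2 : m.s' (f 2) ∈ m.M n d := hf 2
  have h3 : m.s' (f 3) ∈ m.M n d := hf 3
  intro j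
  fin_cases j
  · exact (m.M_inv h).2 _ h1
  · exact h2
  · show m.s' (m.s (f 1) + f 3) ∈ _
    rw [map_add, ss2]
    exact Submodule.add_mem _ h1 h3
  · show m.s' (m.s (f 0) - f 2) ∈ _
    rw [map_sub, ss2]
    exact Submodule.sub_mem _ h0 h2

variable {T : Subalgebra ℂ (H4 K →L[ℂ] H4 K)} [hT : IsTri T]

include m in
theorem cyc : ∃ ω, Cyc T ω := by
  apply exists_cyc (fun k => inj (Fin.ofNat 4 k) (m.ε (k / 4)))
  intro η h
  ext j
  apply m.total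
  intro i
  have h1 := h (4 * i + j)
  have h2 : Fin.ofNat 4 (4 * i + j) = j := by
    apply Fin.ext
    have := j.2
    simp only [Fin.ofNat]
    omega
  have h3 : (4 * i + j) / 4 = i := by
    have := j.2
    omega
  rwa [h2, h3, inner_inj'] at h1

theorem between (hA : m.Aop m.S ∈ T) {n d : ℕ} (h : d < 2 ^ n) :
    ∃ L, TInv T L ∧ (∀ f : H4 K, (∀ j, m.τ' j (f j) ∈ m.M n d) → f ∈ L) ∧
      ∀ f ∈ L, ∀ j, m.τ' j (f j) ∈ m.M n (d + 1) := by
  obtain ⟨ω, hω⟩ := m.cyc (T := T)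
  have hB : m.B ∈ T := by
    rw [B, ← m.Aop_pow]
    exact T.pow_mem hA _
  have h8 : d * 2 ^ 3 + 6 + 2 ≤ 2 ^ (n + 3) := by
    rw [pow_add]
    omega
  have hu : d * 2 ^ 3 + 6 ≤ 2 ^ (n + 3) := by omega
  obtain ⟨L, hL, h1, h2⟩ := sandwich hω hB m.B_nuc m.slowB.eq_zero
    (fixS_closed (m.Pi4 (n + 3) (d * 2 ^ 3 + 6)))
    (fun L hL => m.dichA ⟨hL.1, hL.2 _ hA⟩ (m.X_inv hu))
  refine ⟨L, hL, fun f hf => ?_, fun f hf j => ?_⟩
  · rw [← sum_inj f]
    refine L.sum_mem (fun j _ => ?_)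
    have h3 := m.down3 (N := L.comap ((inj j ∘L m.τ j : K →L[ℂ] H4 K) : K →ₗ[ℂ] H4 K)) hu
      (hL.1.preimage (inj j ∘L m.τ j).continuous) (by
        intro ξ hξ
        have h4 := h2 (inj j (m.τ j ξ)) (by
          rw [m.mem_X hu]
          intro i
          rw [inj_apply]
          split_ifs with hi
          · rw [hi, ττ2]
            exact hξ
          · rw [map_zero]
            exact Submodule.zero_mem _)
        simp only [B, dg4_inj, ContinuousLinearMap.mul_apply, ττ2] at h4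
        exact h4)
    have h5 := hf j
    rw [M, ← m.refine_pow h.le 3] at h5
    have h6 : inj j (m.τ j (m.τ' j (f j))) ∈ L := h3 h5
    rwa [ττ] at h6
  · have h3 := (m.mem_X hu _).mp (h1 f hf) j
    simp only [B, dg4_apply, ContinuousLinearMap.mul_apply, ττ2] at h3
    have h4 := m.up h8 h3
    rw [M, ← m.refine_pow h 3]
    have h5 : (d + 1) * 2 ^ 3 = d * 2 ^ 3 + 6 + 2 := by ring
    rw [h5]
    exact h4

theorem Pi4_mem (hA : m.Aop m.S ∈ T) {n d : ℕ} (h : d ≤ 2 ^ n) : m.Pi4 n d ∈ dg T := by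
  apply proj_mem_dg
  · rw [Pi4, dg4_star]
    congr 1
    ext1 j
    fin_cases j <;> simp [m.star_P n d h, m.star_P' n d h]
  · intro x
    ext1 f
    refine mem_fixS.mp (show (x : H4 K →L[ℂ] H4 K) (m.Pi4 n d f) ∈ fixS (m.Pi4 n d) from ?_)
    have hf : m.Pi4 n d f ∈ fixS (m.Pi4 n d) := by
      rw [mem_fixS]
      ext j
      fin_cases j
      · exact m.P_mul_le le_rfl h _
      · exact m.P_mul_le le_rfl h _
      · exact app_of_eq (m.idem' n d h) _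
      · exact app_of_eq (m.idem' n d h) _
    rw [m.mem_X h] at hf ⊢
    intro j
    rcases h.lt_or_eq with h1 | h1
    · apply mem_fixS.mpr
      apply m.cont n d h1
      intro k
      obtain ⟨L, hL, h2, h3⟩ := m.between hA (n := n + k) (d := d * 2 ^ k) (by
        rw [pow_add]
        exact Nat.mul_lt_mul_of_lt_of_le h1 le_rfl (by positivity))
      apply mem_fixS.mp
      apply h3
      apply hL.2 _ (dg_mem x)
      apply h2
      intro i
      rw [M, m.refine_pow h k]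
      exact hf i
    · rw [h1, M, mem_fixS, m.top]
      rfl

theorem Q_mem (hA : m.Aop m.S ∈ T) : dg4 ![0, 0, 1, 1] ∈ dg T := by
  have hG : ∀ n, comb m.lam m.Pi4 n ∈ dg T := by
    intro n
    refine sum_mem (fun a ha => SMulMemClass.smul_mem _ ?_)
    have ha' := mem_range.mp ha
    have h2 : 2 ^ (n + 1) = 2 * 2 ^ n := by ring
    exact sub_mem (sub_mem (m.Pi4_mem hA (by omega)) (m.Pi4_mem hA (by omega)))
      (sub_mem (m.Pi4_mem hA (by omega)) (m.Pi4_mem hA (by omega)))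
  have hGs : ∀ n, star (comb m.lam m.Pi4 n) = comb m.lam m.Pi4 n := by
    intro n
    rw [comb, star_sum]
    refine sum_congr rfl (fun a ha => ?_)
    have ha' := mem_range.mp ha
    have h2 : 2 ^ (n + 1) = 2 * 2 ^ n := by ring
    have h3 : ∀ d, d ≤ 2 ^ (n + 1) → star (m.Pi4 (n + 1) d) = m.Pi4 (n + 1) d := by
      intro d h
      rw [Pi4, dg4_star]
      congr 1
      ext1 j
      fin_cases j <;> simp [m.star_P _ d h, m.star_P' _ d h]
    rw [star_smul, star_sub, star_sub, star_sub, h3 _ (by omega), h3 _ (by omega),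
      h3 _ (by omega), RCLike.star_def, Complex.conj_ofReal]
  have hQs : star (dg4 ![0, 0, 1, 1] : H4 K →L[ℂ] H4 K) = dg4 ![0, 0, 1, 1] := by
    rw [dg4_star]
    congr 1
    ext1 j
    fin_cases j <;> simp
  have hw : ∀ j i (ζ : H4 K), Tendsto (fun n => ⟪ζ, comb m.lam m.Pi4 n (inj j (m.ε i))⟫_ℂ) atTop
      (𝓝 ⟪ζ, dg4 ![0, 0, 1, 1] (inj j (m.ε i))⟫_ℂ) := by
    intro j i ζ
    have h1 : ∀ n, comb m.lam m.Pi4 n (inj j (m.ε i)) =
        inj j (![comb m.lam m.P n, comb m.lam m.P n, comb m.lam m.P' n, comb m.lam m.P' n] j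
          (m.ε i)) := by
      intro n
      fin_cases j <;> simp [comb, Pi4, dg4_inj]
    simp only [h1, dg4_inj, inner_inj']
    fin_cases j
    · simpa using m.weak i (ζ 0)
    · simpa using m.weak i (ζ 1)
    · simpa using m.weak' i (ζ 2)
    · simpa using m.weak' i (ζ 3)
  have htot : ∀ η : H4 K, (∀ j i, ⟪η, inj j (m.ε i)⟫_ℂ = 0) → η = 0 := by
    intro η h
    ext j
    apply m.total
    intro i
    rw [← inner_inj', h]
  apply mem_dg_of_comm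
  intro x
  rw [← sub_eq_zero, ← star_eq_zero]
  ext1 η
  apply htot
  intro j i
  rw [inner_star_left]
  revert η
  apply fun h η => congrArg (fun z => ⟪η, z⟫_ℂ) h |>.trans (inner_zero_right η)
  apply htot
  intro j' i'
  rw [ContinuousLinearMap.sub_apply, inner_sub_left, sub_eq_zero, ContinuousLinearMap.mul_apply,
    ContinuousLinearMap.mul_apply]
  have t1 := hw j' i' ((x : H4 K →L[ℂ] H4 K) (inj j (m.ε i)))
  have t2 := (hw j i (star (x : H4 K →L[ℂ] H4 K) (inj j' (m.ε i')))).star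
  have h3 : ∀ n, star ⟪star (x : H4 K →L[ℂ] H4 K) (inj j' (m.ε i')),
      comb m.lam m.Pi4 n (inj j (m.ε i))⟫_ℂ =
      ⟪(x : H4 K →L[ℂ] H4 K) (inj j (m.ε i)), comb m.lam m.Pi4 n (inj j' (m.ε i'))⟫_ℂ := by
    intro n
    rw [RCLike.star_def, inner_conj_symm, inner_star_right, dg_comm_apply x ⟨_, hG n⟩,
      ← inner_star_right, hGs]
  simp only [h3] at t2
  have h4 := tendsto_nhds_unique t1 t2
  rw [RCLike.star_def, inner_conj_symm, inner_star_right, ← inner_star_left, hQs] at h4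
  exact h4.symm

theorem not_mem : m.Aop m.S ∉ T := by
  intro hA
  set Q : H4 K →L[ℂ] H4 K := dg4 ![0, 0, 1, 1] with hQ
  have hQT : Q ∈ T := (m.Q_mem hA).1
  have e1 : ∀ f : H4 K, (Q * m.Aop m.S * Q) f = inj 2 (f 3) - inj 3 (f 2) := by
    intro f
    ext j
    fin_cases j <;> simp [hQ, dg4_apply, Aop2, Aop3, inj_apply]
  have e2 : ∀ f : H4 K, (Q * (m.Aop m.S * m.Aop m.S) * Q) f = -inj 3 (f 3) := by
    intro f
    ext j
    fin_cases j <;> simp [hQ, dg4_apply, Aop0, Aop1, Aop2, Aop3, inj_apply, ss]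
  have m1 : Q * m.Aop m.S * Q ∈ T := T.mul_mem (T.mul_mem hQT hA) hQT
  have m2 : Q * (m.Aop m.S * m.Aop m.S) * Q ∈ T :=
    T.mul_mem (T.mul_mem hQT (T.mul_mem hA hA)) hQT
  have s1 : star (Q * m.Aop m.S * Q) = -(Q * m.Aop m.S * Q) := by
    apply op_ext_inner
    intro x y
    rw [inner_star_right, ContinuousLinearMap.neg_apply, e1, e1]
    simp only [inner_sub_left, inner_neg_right, inner_sub_right, inner_inj, inner_inj']
    ring
  have s2 : star (Q * (m.Aop m.S * m.Aop m.S) * Q) = Q * (m.Aop m.S * m.Aop m.S) * Q := by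
    apply op_ext_inner
    intro x y
    rw [inner_star_right, e2, e2]
    simp only [inner_neg_left, inner_neg_right, inner_inj, inner_inj']
  have h1 := dg_comm_apply (T := T) ⟨_, m1, by rw [s1]; exact T.neg_mem m1⟩
    ⟨_, m2, by rw [s2]; exact m2⟩ (inj 3 (m.ε 0))
  simp only [e1, e2] at h1
  have h2 := congrArg (fun f : H4 K => f 2) h1
  apply m.ne
  simpa [inj_apply] using h2

end Model

end Pool.Agent.Lib.MP_690138_an.KS
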