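import Mathlib

set_option autoImplicit false
set_option linter.unusedSectionVars false
set_option linter.deprecated false

open scoped InnerProductSpace
open Filter Topology

namespace Pool.Agent.Lib.MP_690138_an

variable {H : Type*} [NormedAddCommGroup H] [InnerProductSpace ℂ H] [CompleteSpace H]

theorem exists_unit_of_not_compact {T : H →L[ℂ] H} (hT : ¬ IsCompactOperator T) :
    ∃ c : ℝ, 0 < c ∧ ∀ F : Finset H, ∃ ξ : H, ‖ξ‖ = 1 ∧ (∀ y ∈ F, ⟪y, ξ⟫_ℂ = 0) ∧ c < ‖T ξ‖ := by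
  by_contra hcon
  push Not at hcon
  apply hT
  have hcl := isClosed_setOfPred_isCompactOperator (𝕜₁ := ℂ) (𝕜₂ := ℂ) (σ₁₂ := RingHom.id ℂ)
    (M₁ := H) (M₂ := H)
  have : T ∈ closure {f : H →L[ℂ] H | IsCompactOperator f} := by
    rw [Metric.mem_closure_iff]
    intro η hη
    obtain ⟨F, hF⟩ := hcon (η / 2) (by positivity)
    let K : Submodule ℂ H := Submodule.span ℂ (F : Set H)
    haveI : FiniteDimensional ℂ K := FiniteDimensional.span_finset ℂ F
    haveI : ProperSpace K := FiniteDimensional.proper ℂ K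
    refine ⟨T ∘L K.subtypeL ∘L K.orthogonalProjection, ?_, ?_⟩
    · exact (isCompactOperator_of_locallyCompactSpace_dom K.orthogonalProjection).clm_comp
        (T ∘L K.subtypeL)
    · rw [dist_eq_norm]
      refine lt_of_le_of_lt (ContinuousLinearMap.opNorm_le_bound _ (by positivity : 0 ≤ η / 2) ?_)
        (by linarith)
      intro x
      have hz : x - K.starProjection x ∈ Kᗮ := K.sub_starProjection_mem_orthogonal x
      have hzn : ‖x - K.starProjection x‖ ≤ ‖x‖ := by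
        have := Kᗮ.norm_starProjection_apply_le x
        rwa [Submodule.starProjection_orthogonal_val] at this
      have h1 : (T - T ∘L K.subtypeL ∘L K.orthogonalProjection) x =
          T (x - K.starProjection x) := by
        rw [map_sub]
        rfl
      rw [h1]
      set z := x - K.starProjection x
      by_cases hz0 : z = 0
      · rw [hz0, map_zero, norm_zero]
        positivity
      · have hzpos : 0 < ‖z‖ := norm_pos_iff.mpr hz0
        have h2 := hF (((‖z‖⁻¹ : ℝ) : ℂ) • z) ?_ ?_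
        · rw [map_smul, norm_smul, Complex.norm_real, norm_inv, norm_norm,
            inv_mul_le_iff₀ hzpos] at h2
          calc ‖T z‖ ≤ ‖z‖ * (η / 2) := h2
            _ ≤ ‖x‖ * (η / 2) := mul_le_mul_of_nonneg_right hzn (by positivity)
            _ = η / 2 * ‖x‖ := mul_comm _ _
        · rw [norm_smul, Complex.norm_real, norm_inv, norm_norm, inv_mul_cancel₀ hzpos.ne']
        · intro y hy
          rw [inner_smul_right, (Submodule.mem_orthogonal K z).mp hz y
            (Submodule.subset_span hy), mul_zero]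
  rwa [hcl.closure_eq] at this

theorem exists_rec_orth (P : ℕ → (ℕ → H) → Prop) (N : ℕ → ℕ)
    (h : ∀ s (F : Finset H), ∃ e, P s e ∧ ∀ i ≤ N s, ∀ y ∈ F, ⟪y, e i⟫_ℂ = 0) :
    ∃ e : ℕ → ℕ → H, (∀ s, P s (e s)) ∧
      ∀ s s', s ≠ s' → ∀ i ≤ N s, ∀ i' ≤ N s', ⟪e s i, e s' i'⟫_ℂ = 0 := by
  classical
  choose f hf1 hf2 using h
  let F : ℕ → Finset H := fun s => Nat.rec ∅
    (fun s G => G ∪ (Finset.range (N s + 1)).image (f s G)) s
  have hF : ∀ s, F (s + 1) = F s ∪ (Finset.range (N s + 1)).image (f s (F s)) := fun s => rfl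
  have hmono : Monotone F := monotone_nat_of_le_succ fun s => by
    rw [hF]
    exact Finset.subset_union_left
  have key : ∀ s s', s < s' → ∀ i ≤ N s, ∀ i' ≤ N s', ⟪f s (F s) i, f s' (F s') i'⟫_ℂ = 0 := by
    intro s s' hs i hi i' hi'
    apply hf2 s' (F s') i' hi'
    apply hmono (Nat.succ_le_of_lt hs)
    rw [hF]
    exact Finset.mem_union_right _
      (Finset.mem_image_of_mem _ (Finset.mem_range.mpr (Nat.lt_succ_of_le hi)))
  refine ⟨fun s => f s (F s), fun s => hf1 s (F s), ?_⟩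
  intro s s' hs i hi i' hi'
  rcases lt_or_gt_of_ne hs with h | h
  · exact key s s' h i hi i' hi'
  · rw [inner_eq_zero_symm]
    exact key s' s h i' hi' i hi

theorem exists_faithful (T : ℕ → H →L[ℂ] H) (hT0 : T 0 = 1)
    (hT : ∀ (t : Finset ℕ) (a : ℕ → ℂ), IsCompactOperator (∑ j ∈ t, a j • T j : H →L[ℂ] H) →
      ∀ j ∈ t, a j = 0) :
    ∃ ξ : ℕ × Finset H → H, (∀ p, ‖ξ p‖ = 1 ∧ ∀ j ≤ p.1, ∀ y ∈ p.2, ⟪y, T j (ξ p)⟫_ℂ = 0) ∧
      ∀ (t : Finset ℕ) (a : ℕ → ℂ), (∃ j ∈ t, a j ≠ 0) → ∃ δ : ℝ, 0 < δ ∧ ∃ n0 : ℕ, ∀ p,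
        n0 ≤ p.1 → δ ≤ ‖(∑ j ∈ t, a j • T j : H →L[ℂ] H) (ξ p)‖ := by
  classical
  let W : Set (H →L[ℂ] H) :=
    {S | S ∈ Submodule.span ℂ (Set.range T) ∧ ¬ IsCompactOperator S}
  have hWmem : ∀ (t : Finset ℕ) (a : ℕ → ℂ), (∃ j ∈ t, a j ≠ 0) →
      (∑ j ∈ t, a j • T j : H →L[ℂ] H) ∈ W := by
    rintro t a ⟨j, hj, ha⟩
    refine ⟨Submodule.sum_mem _ fun j _ =>
      Submodule.smul_mem _ _ (Submodule.subset_span ⟨j, rfl⟩), fun hc => ha (hT t a hc j hj)⟩
  have hsep : TopologicalSpace.IsSeparable W :=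
    ((Set.countable_range T).isSeparable.span (R := ℂ)).mono fun S hS => hS.1
  haveI : TopologicalSpace.SeparableSpace W := hsep.separableSpace
  haveI : SecondCountableTopology W := UniformSpace.secondCountable_of_separable W
  choose c hc hcF using fun S : W => exists_unit_of_not_compact S.2.2
  obtain ⟨s, hs, hcover⟩ := TopologicalSpace.countable_cover_nhds
    (f := fun S : W => Metric.ball S (c S / 2))
    (fun S => Metric.ball_mem_nhds S (half_pos (hc S)))
  have hne : s.Nonempty := by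
    have h1 : (⟨_, hWmem {0} (fun _ => 1) ⟨0, by simp, one_ne_zero⟩⟩ : W) ∈
        ⋃ x ∈ s, Metric.ball x (c x / 2) := by
      rw [hcover]
      trivial
    simp only [Set.mem_iUnion] at h1
    obtain ⟨x, hx, _⟩ := h1
    exact ⟨x, hx⟩
  obtain ⟨S, hS⟩ := hs.exists_eq_range hne
  have hmain : ∀ p : ℕ × Finset H, ∃ ξ : H, ‖ξ‖ = 1 ∧ (∀ j ≤ p.1, ∀ y ∈ p.2, ⟪y, T j ξ⟫_ℂ = 0) ∧
      ∀ (t : Finset ℕ) (a : ℕ → ℂ) (l : ℕ), (∀ j ∈ t, j ≤ p.1) → l ≤ p.1 →
        ‖(∑ j ∈ t, a j • T j : H →L[ℂ] H) - (S l : H →L[ℂ] H)‖ < c (S l) / 2 →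
        (1 / 2) ^ l * (c (S l) / 2) / 2 ≤ ‖(∑ j ∈ t, a j • T j : H →L[ℂ] H) ξ‖ := by
    rintro ⟨n, F⟩
    obtain ⟨e, he1, he2⟩ := exists_rec_orth
      (fun l e => ∃ ξ : H, ‖ξ‖ = 1 ∧ c (S l) < ‖(S l : H →L[ℂ] H) ξ‖ ∧
        (∀ j ≤ n, ∀ y ∈ F, ⟪y, T j ξ⟫_ℂ = 0) ∧ e = fun j => T j ξ) (fun _ => n) (by
      intro l G
      obtain ⟨ξ, h1, h2, h3⟩ := hcF (S l) (((F ∪ G) ×ˢ Finset.range (n + 1)).image
        fun q => ContinuousLinearMap.adjoint (T q.2) q.1)
      have h4 : ∀ j ≤ n, ∀ y ∈ F ∪ G, ⟪y, T j ξ⟫_ℂ = 0 := by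
        intro j hj y hy
        rw [← ContinuousLinearMap.adjoint_inner_left]
        apply h2
        exact Finset.mem_image.mpr ⟨(y, j), Finset.mem_product.mpr
          ⟨hy, Finset.mem_range.mpr (Nat.lt_succ_of_le hj)⟩, rfl⟩
      exact ⟨fun j => T j ξ, ⟨ξ, h1, h3, fun j hj y hy => h4 j hj y (Finset.mem_union_left _ hy),
        rfl⟩, fun j hj y hy => h4 j hj y (Finset.mem_union_right _ hy)⟩)
    choose x hx1 hx2 hx3 hx4 using he1
    have horth : ∀ l l', l ≠ l' → ∀ i ≤ n, ∀ j ≤ n, ⟪T i (x l), T j (x l')⟫_ℂ = 0 := by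
      intro l l' hl i hi j hj
      have := he2 l l' hl i hi j hj
      rwa [hx4 l, hx4 l'] at this
    let z : H := ∑ l ∈ Finset.range (n + 1), (((1 / 2 : ℝ) ^ l : ℝ) : ℂ) • x l
    have hz2 : ‖z‖ ≤ 2 := by
      refine (norm_sum_le _ _).trans ?_
      refine le_trans (le_of_eq ?_) (sum_geometric_two_le (n + 1))
      refine Finset.sum_congr rfl fun l _ => ?_
      rw [norm_smul, hx1, mul_one, Complex.norm_real, Real.norm_of_nonneg (by positivity)]
    have hlow : ∀ (t : Finset ℕ) (a : ℕ → ℂ) (l : ℕ), (∀ j ∈ t, j ≤ n) → l ≤ n →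
        (1 / 2) ^ l * ‖(∑ j ∈ t, a j • T j : H →L[ℂ] H) (x l)‖ ≤
          ‖(∑ j ∈ t, a j • T j : H →L[ℂ] H) z‖ := by
      intro t a l ht hl
      set R : H →L[ℂ] H := ∑ j ∈ t, a j • T j with hR
      have h1 : ∀ l', l' ≠ l → ⟪R (x l), R (x l')⟫_ℂ = 0 := by
        intro l' hl'
        simp only [hR, ContinuousLinearMap.sum_apply, ContinuousLinearMap.smul_apply, inner_sum,
          sum_inner, inner_smul_left, inner_smul_right]
        refine Finset.sum_eq_zero fun i hi => ?_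
        rw [Finset.sum_eq_zero, mul_zero]
        intro j hj
        rw [horth l l' hl'.symm j (ht j hj) i (ht i hi), mul_zero]
      have h2 : ⟪R (x l), R z⟫_ℂ = (((1 / 2 : ℝ) ^ l : ℝ) : ℂ) * ⟪R (x l), R (x l)⟫_ℂ := by
        simp only [z, map_sum, map_smul, inner_sum, inner_smul_right]
        rw [Finset.sum_eq_single l]
        · intro l' _ hl'
          rw [h1 l' hl', mul_zero]
        · intro h
          exact absurd (Finset.mem_range.mpr (Nat.lt_succ_of_le hl)) h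
      have h3 := norm_inner_le_norm (𝕜 := ℂ) (R (x l)) (R z)
      rw [h2, norm_mul, inner_self_eq_norm_sq_to_K, Complex.norm_real,
        Real.norm_of_nonneg (by positivity), norm_pow, RCLike.norm_ofReal, abs_norm] at h3
      by_cases h0 : ‖R (x l)‖ = 0
      · rw [h0, mul_zero]
        exact norm_nonneg _
      · have hpos : 0 < ‖R (x l)‖ := lt_of_le_of_ne (norm_nonneg _) (Ne.symm h0)
        nlinarith
    have hz1 : 1 ≤ ‖z‖ := by
      have := hlow {0} (fun _ => 1) 0 (by simp) (Nat.zero_le _)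
      simpa [hT0, hx1] using this
    have hzpos : 0 < ‖z‖ := by linarith
    refine ⟨((‖z‖⁻¹ : ℝ) : ℂ) • z, ?_, ?_, ?_⟩
    · rw [norm_smul, Complex.norm_real, norm_inv, norm_norm, inv_mul_cancel₀ hzpos.ne']
    · intro j hj y hy
      have h0 : ⟪y, T j z⟫_ℂ = 0 := by
        simp only [z, map_sum, map_smul, inner_sum, inner_smul_right]
        refine Finset.sum_eq_zero fun l _ => ?_
        rw [hx3 l j hj y hy, mul_zero]
      rw [map_smul, inner_smul_right, h0, mul_zero]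
    · intro t a l ht hl hd
      have h1 := hlow t a l ht hl
      set R : H →L[ℂ] H := ∑ j ∈ t, a j • T j with hR
      have h2 : c (S l) / 2 ≤ ‖R (x l)‖ := by
        have h3 : ‖(R - (S l : H →L[ℂ] H)) (x l)‖ ≤ ‖R - (S l : H →L[ℂ] H)‖ := by
          have := (R - (S l : H →L[ℂ] H)).le_opNorm (x l)
          rwa [hx1, mul_one] at this
        have h4 : (S l : H →L[ℂ] H) (x l) = R (x l) - (R - (S l : H →L[ℂ] H)) (x l) := by
          simp
        have h5 := hx2 l
        rw [h4] at h5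
        have h6 := norm_sub_le (R (x l)) ((R - (S l : H →L[ℂ] H)) (x l))
        linarith
      rw [map_smul, norm_smul, Complex.norm_real, norm_inv, norm_norm, ← div_eq_inv_mul,
        le_div_iff₀ hzpos]
      have h3 : (0 : ℝ) < (1 / 2) ^ l := by positivity
      have h4 := hc (S l)
      calc (1 / 2) ^ l * (c (S l) / 2) / 2 * ‖z‖ ≤ (1 / 2) ^ l * (c (S l) / 2) / 2 * 2 :=
            mul_le_mul_of_nonneg_left hz2 (by positivity)
        _ = (1 / 2) ^ l * (c (S l) / 2) := by ring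
        _ ≤ (1 / 2) ^ l * ‖R (x l)‖ := mul_le_mul_of_nonneg_left h2 h3.le
        _ ≤ ‖R z‖ := h1
  choose ξ h1 h2 h3 using hmain
  refine ⟨ξ, fun p => ⟨h1 p, h2 p⟩, ?_⟩
  intro t a ha
  have h4 : (⟨_, hWmem t a ha⟩ : W) ∈ ⋃ x ∈ s, Metric.ball x (c x / 2) := by
    rw [hcover]
    trivial
  simp only [Set.mem_iUnion] at h4
  obtain ⟨x, hx, h5⟩ := h4
  rw [hS] at hx
  obtain ⟨l, rfl⟩ := hx
  rw [Metric.mem_ball, Subtype.dist_eq, dist_eq_norm] at h5
  have h6 := hc (S l)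
  refine ⟨(1 / 2) ^ l * (c (S l) / 2) / 2, by positivity, max l (t.sup id), fun p hp => ?_⟩
  refine h3 p t a l (fun j hj => ?_) (le_trans (le_max_left _ _) hp) h5
  exact le_trans (le_trans (Finset.le_sup (f := id) hj) (le_max_right _ _)) hp

theorem exists_orth_completion
    (hinf : ∀ F : Finset H, ∃ ξ : H, ‖ξ‖ = 1 ∧ ∀ y ∈ F, ⟪y, ξ⟫_ℂ = 0)
    (x : ℕ → H) (hx : ‖x 0‖ = 1) (F : Finset H) (n : ℕ) :
    (∀ j ≤ n, ∀ y ∈ F, ⟪y, x j⟫_ℂ = 0) →
    ∃ e : ℕ → H, e 0 = x 0 ∧ (∀ i ≤ n, ‖e i‖ = 1) ∧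
      (∀ i ≤ n, ∀ i' ≤ n, i ≠ i' → ⟪e i, e i'⟫_ℂ = 0) ∧ (∀ i ≤ n, ∀ y ∈ F, ⟪y, e i⟫_ℂ = 0) ∧
      ∀ j ≤ n, x j = ∑ i ∈ Finset.range (j + 1), ⟪e i, x j⟫_ℂ • e i := by
  classical
  induction n with
  | zero =>
    intro h
    refine ⟨x, rfl, ?_, ?_, h, ?_⟩
    · intro i hi
      rw [Nat.le_zero.mp hi, hx]
    · intro i hi i' hi' hne
      omega
    · intro j hj
      rw [Nat.le_zero.mp hj]
      simp [inner_self_eq_norm_sq_to_K, hx]
  | succ n ih =>
    intro h
    obtain ⟨e, h0, h1, h2, h3, h4⟩ := ih fun j hj => h j (Nat.le_succ_of_le hj)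
    let z : H := x (n + 1) - ∑ i ∈ Finset.range (n + 1), ⟪e i, x (n + 1)⟫_ℂ • e i
    have hz1 : ∀ i ≤ n, ⟪e i, z⟫_ℂ = 0 := by
      intro i hi
      simp only [z, inner_sub_right, inner_sum, inner_smul_right]
      rw [Finset.sum_eq_single i]
      · rw [inner_self_eq_norm_sq_to_K, h1 i hi]
        simp
      · intro i' hi' hne
        rw [h2 i hi i' (Nat.le_of_lt_succ (Finset.mem_range.mp hi')) hne.symm, mul_zero]
      · intro hh
        exact absurd (Finset.mem_range.mpr (Nat.lt_succ_of_le hi)) hh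
    have hz2 : ∀ y ∈ F, ⟪y, z⟫_ℂ = 0 := by
      intro y hy
      simp only [z, inner_sub_right, inner_sum, inner_smul_right]
      rw [h (n + 1) le_rfl y hy, Finset.sum_eq_zero, sub_zero]
      intro i hi
      rw [h3 i (Nat.le_of_lt_succ (Finset.mem_range.mp hi)) y hy, mul_zero]
    have hu : ∃ u : H, ‖u‖ = 1 ∧ (∀ i ≤ n, ⟪e i, u⟫_ℂ = 0) ∧ (∀ y ∈ F, ⟪y, u⟫_ℂ = 0) ∧
        ∃ a : ℂ, z = a • u := by
      by_cases hz : z = 0
      · obtain ⟨u, hu1, hu2⟩ := hinf (F ∪ (Finset.range (n + 1)).image e)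
        refine ⟨u, hu1, fun i hi => hu2 _ (Finset.mem_union_right _ (Finset.mem_image_of_mem _
          (Finset.mem_range.mpr (Nat.lt_succ_of_le hi)))),
          fun y hy => hu2 y (Finset.mem_union_left _ hy), 0, by rw [hz, zero_smul]⟩
      · have hzpos : 0 < ‖z‖ := norm_pos_iff.mpr hz
        refine ⟨((‖z‖⁻¹ : ℝ) : ℂ) • z, ?_, ?_, ?_, (‖z‖ : ℂ), ?_⟩
        · rw [norm_smul, Complex.norm_real, norm_inv, norm_norm, inv_mul_cancel₀ hzpos.ne']
        · intro i hi
          rw [inner_smul_right, hz1 i hi, mul_zero]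
        · intro y hy
          rw [inner_smul_right, hz2 y hy, mul_zero]
        · rw [smul_smul, ← Complex.ofReal_mul, mul_inv_cancel₀ hzpos.ne']
          simp
    obtain ⟨u, hu1, hu2, hu3, a, ha⟩ := hu
    have hupd : ∀ i ≤ n, Function.update e (n + 1) u i = e i := fun i hi =>
      Function.update_of_ne (by omega) _ _
    have hupd' : Function.update e (n + 1) u (n + 1) = u := Function.update_self _ _ _
    refine ⟨Function.update e (n + 1) u, ?_, ?_, ?_, ?_, ?_⟩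
    · rw [hupd 0 (Nat.zero_le _), h0]
    · intro i hi
      rcases Nat.of_le_succ hi with hi | rfl
      · rw [hupd i hi, h1 i hi]
      · rw [hupd', hu1]
    · intro i hi i' hi' hne
      rcases Nat.of_le_succ hi with hi | rfl
      · rcases Nat.of_le_succ hi' with hi' | rfl
        · rw [hupd i hi, hupd i' hi', h2 i hi i' hi' hne]
        · rw [hupd i hi, hupd', hu2 i hi]
      · rcases Nat.of_le_succ hi' with hi' | rfl
        · rw [hupd i' hi', hupd', inner_eq_zero_symm, hu2 i' hi']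
        · exact absurd rfl hne
    · intro i hi y hy
      rcases Nat.of_le_succ hi with hi | rfl
      · rw [hupd i hi, h3 i hi y hy]
      · rw [hupd', hu3 y hy]
    · intro j hj
      rcases Nat.of_le_succ hj with hj | rfl
      · refine (h4 j hj).trans (Finset.sum_congr rfl fun i hi => ?_)
        rw [hupd i (le_trans (Nat.le_of_lt_succ (Finset.mem_range.mp hi)) hj)]
      · rw [Finset.sum_range_succ, hupd']
        have h5 : ∑ i ∈ Finset.range (n + 1), ⟪Function.update e (n + 1) u i, x (n + 1)⟫_ℂ •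
            Function.update e (n + 1) u i =
            ∑ i ∈ Finset.range (n + 1), ⟪e i, x (n + 1)⟫_ℂ • e i := by
          refine Finset.sum_congr rfl fun i hi => ?_
          rw [hupd i (Nat.le_of_lt_succ (Finset.mem_range.mp hi))]
        have h6 : x (n + 1) = ∑ i ∈ Finset.range (n + 1), ⟪e i, x (n + 1)⟫_ℂ • e i + a • u := by
          rw [← ha]
          simp [z]
        have h7 : ⟪u, x (n + 1)⟫_ℂ = a := by
          rw [h6, inner_add_right, inner_sum, Finset.sum_eq_zero, inner_smul_right,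
            inner_self_eq_norm_sq_to_K, hu1]
          · simp
          · intro i hi
            rw [inner_smul_right, inner_eq_zero_symm.mp
              (hu2 i (Nat.le_of_lt_succ (Finset.mem_range.mp hi))), mul_zero]
        rw [h5, h7]
        exact h6

theorem exists_blocks (T : ℕ → H →L[ℂ] H) (hT0 : T 0 = 1)
    (hT : ∀ (t : Finset ℕ) (a : ℕ → ℂ), IsCompactOperator (∑ j ∈ t, a j • T j : H →L[ℂ] H) →
      ∀ j ∈ t, a j = 0) :
    ∃ α : ℕ → ℕ → ℂ, α 0 0 = 1 ∧ (∀ j i, j < i → α j i = 0) ∧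
      (∀ (t : Finset ℕ) (a : ℕ → ℂ), (∀ i, ∑ j ∈ t, a j * α j i = 0) → ∀ j ∈ t, a j = 0) ∧
      ∀ (n : ℕ) (F : Finset H) (η : ℝ), 0 < η → ∃ e : ℕ → H, (∀ i ≤ n, ‖e i‖ = 1) ∧
        (∀ i ≤ n, ∀ i' ≤ n, i ≠ i' → ⟪e i, e i'⟫_ℂ = 0) ∧ (∀ i ≤ n, ∀ y ∈ F, ⟪y, e i⟫_ℂ = 0) ∧
        ∀ j ≤ n, ‖T j (e 0) - ∑ i ∈ Finset.range (j + 1), α j i • e i‖ ≤ η := by
  classical
  obtain ⟨ξ, hξ1, hξ2⟩ := exists_faithful T hT0 hT
  have hinf : ∀ F : Finset H, ∃ ξ : H, ‖ξ‖ = 1 ∧ ∀ y ∈ F, ⟪y, ξ⟫_ℂ = 0 := by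
    intro F
    refine ⟨ξ (0, F), (hξ1 _).1, fun y hy => ?_⟩
    have := (hξ1 (0, F)).2 0 le_rfl y hy
    rwa [hT0] at this
  have hx : ∀ p, ‖T 0 (ξ p)‖ = 1 := fun p => by
    rw [hT0]
    exact (hξ1 p).1
  choose e he0 he1 he2 he3 he4 using fun p : ℕ × Finset H =>
    exists_orth_completion hinf (fun j => T j (ξ p)) (hx p) p.2 p.1 (hξ1 p).2
  have he0' : ∀ p, e p 0 = ξ p := fun p => by
    rw [he0, hT0]
    rfl
  let U : Ultrafilter (ℕ × Finset H) := Ultrafilter.of atTop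
  have hU : (U : Filter (ℕ × Finset H)) ≤ atTop := Ultrafilter.of_le _
  have hev : ∀ q : ℕ × Finset H, ∀ᶠ p in (U : Filter (ℕ × Finset H)), q ≤ p := fun q =>
    hU (eventually_ge_atTop q)
  have hlim : ∀ j i, ∃ a : ℂ, Tendsto (fun p => ⟪e p i, T j (ξ p)⟫_ℂ) U (𝓝 a) := by
    intro j i
    obtain ⟨a, _, ha⟩ := (isCompact_closedBall (0 : ℂ) ‖T j‖).ultrafilter_le_nhds
      (U.map fun p => ⟪e p i, T j (ξ p)⟫_ℂ) (by
        rw [Ultrafilter.coe_map, le_principal_iff, mem_map]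
        filter_upwards [hev (i, ∅)] with p hp
        rw [Set.mem_preimage, mem_closedBall_zero_iff]
        refine (norm_inner_le_norm _ _).trans ?_
        rw [he1 p i hp.1, one_mul]
        have := (T j).le_opNorm (ξ p)
        rwa [(hξ1 p).1, mul_one] at this)
    exact ⟨a, ha⟩
  choose α' hα' using hlim
  let α : ℕ → ℕ → ℂ := fun j i => if i ≤ j then α' j i else 0
  have herr : ∀ j, Tendsto (fun p => T j (ξ p) - ∑ i ∈ Finset.range (j + 1), α j i • e p i) U
      (𝓝 0) := by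
    intro j
    have h1 : Tendsto (fun p => ∑ i ∈ Finset.range (j + 1), ‖⟪e p i, T j (ξ p)⟫_ℂ - α' j i‖) U
        (𝓝 (∑ i ∈ Finset.range (j + 1), 0)) :=
      tendsto_finset_sum _ fun i _ => tendsto_iff_norm_sub_tendsto_zero.mp (hα' j i)
    rw [Finset.sum_const_zero] at h1
    rw [tendsto_zero_iff_norm_tendsto_zero]
    refine squeeze_zero' (Eventually.of_forall fun p => norm_nonneg _) ?_ h1
    filter_upwards [hev (j, ∅)] with p hp
    have h2 := he4 p j hp.1
    have h3 : T j (ξ p) - ∑ i ∈ Finset.range (j + 1), α j i • e p i =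
        ∑ i ∈ Finset.range (j + 1), (⟪e p i, T j (ξ p)⟫_ℂ - α' j i) • e p i := by
      simp only [sub_smul, Finset.sum_sub_distrib]
      rw [← h2]
      congr 1
      refine Finset.sum_congr rfl fun i hi => ?_
      simp only [α]
      rw [if_pos (Nat.le_of_lt_succ (Finset.mem_range.mp hi))]
    rw [h3]
    refine (norm_sum_le _ _).trans (Finset.sum_le_sum fun i hi => ?_)
    rw [norm_smul, he1 p i (le_trans (Nat.le_of_lt_succ (Finset.mem_range.mp hi)) hp.1), mul_one]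
  have hαz : ∀ j i, j < i → α j i = 0 := fun j i h => if_neg (by omega)
  refine ⟨α, ?_, hαz, ?_, ?_⟩
  · have h1 := hα' 0 0
    have h2 : ∀ p, ⟪e p 0, T 0 (ξ p)⟫_ℂ = 1 := by
      intro p
      rw [he0', hT0, ContinuousLinearMap.one_apply, inner_self_eq_norm_sq_to_K, (hξ1 p).1]
      simp
    simp only [h2] at h1
    simp only [α, le_refl, if_true]
    exact tendsto_nhds_unique h1 tendsto_const_nhds
  · intro t a ha
    by_contra hcon
    push Not at hcon
    obtain ⟨δ, hδ, n0, hn0⟩ := hξ2 t a hcon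
    have h1 : Tendsto (fun p => ∑ j ∈ t, a j •
        (T j (ξ p) - ∑ i ∈ Finset.range (j + 1), α j i • e p i)) U (𝓝 (∑ j ∈ t, a j • 0)) :=
      tendsto_finset_sum _ fun j _ => (herr j).const_smul _
    simp only [smul_zero, Finset.sum_const_zero] at h1
    have h2 : ∀ p, ∑ j ∈ t, a j • (T j (ξ p) - ∑ i ∈ Finset.range (j + 1), α j i • e p i) =
        (∑ j ∈ t, a j • T j : H →L[ℂ] H) (ξ p) := by
      intro p
      have h3 : ∀ j ∈ t, ∑ i ∈ Finset.range (j + 1), α j i • e p i =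
          ∑ i ∈ Finset.range (t.sup id + 1), α j i • e p i := by
        intro j hj
        apply Finset.sum_subset
        · exact Finset.range_mono (Nat.succ_le_succ (Finset.le_sup (f := id) hj))
        · intro i _ hi
          rw [hαz j i (by simpa using hi), zero_smul]
      simp only [smul_sub, Finset.sum_sub_distrib, ContinuousLinearMap.sum_apply,
        ContinuousLinearMap.smul_apply]
      rw [sub_eq_self, Finset.sum_congr rfl fun j hj => by rw [h3 j hj, Finset.smul_sum],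
        Finset.sum_comm]
      refine Finset.sum_eq_zero fun i _ => ?_
      simp only [smul_smul]
      rw [← Finset.sum_smul, ha i, zero_smul]
    simp only [h2] at h1
    have h4 := Metric.tendsto_nhds.mp h1 δ hδ
    obtain ⟨p, hp1, hp2⟩ := (h4.and (hev (n0, ∅))).exists
    rw [dist_zero_right] at hp1
    exact absurd (hn0 p hp2.1) (not_le.mpr hp1)
  · intro n F η hη
    have h1 : ∀ᶠ p in (U : Filter (ℕ × Finset H)), ∀ j ∈ Finset.range (n + 1),
        dist (T j (ξ p) - ∑ i ∈ Finset.range (j + 1), α j i • e p i) 0 < η :=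
      (Finset.eventually_all _).mpr fun j _ => Metric.tendsto_nhds.mp (herr j) η hη
    obtain ⟨p, hp1, hp2⟩ := (h1.and (hev (n, F))).exists
    refine ⟨e p, fun i hi => he1 p i (le_trans hi hp2.1),
      fun i hi i' hi' => he2 p i (le_trans hi hp2.1) i' (le_trans hi' hp2.1),
      fun i hi y hy => he3 p i (le_trans hi hp2.1) y (hp2.2 hy), fun j hj => ?_⟩
    have := hp1 j (Finset.mem_range.mpr (Nat.lt_succ_of_le hj))
    rw [dist_zero_right] at this
    rw [he0']
    exact this.le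

end Pool.Agent.Lib.MP_690138_an
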