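import Pool.Agent.Lib.MP_690138_an.Asym
import Pool.Agent.Lib.MP_690138_an.Vectors

set_option autoImplicit false
set_option linter.unusedSectionVars false
set_option linter.deprecated false

open scoped InnerProductSpace
open Filter Topology

namespace Pool.Agent.Lib.MP_690138_an

variable {H : Type*} [NormedAddCommGroup H] [InnerProductSpace ℂ H] [CompleteSpace H]

theorem exists_equiv_extend {J X Y : Type*} [Countable X] [Countable Y] (a : J → X) (b : J → Y)
    (ha : Function.Injective a) (hb : Function.Injective b) (hX : (Set.range a)ᶜ.Infinite)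
    (hY : (Set.range b)ᶜ.Infinite) : ∃ g : X ≃ Y, ∀ j, g (a j) = b j := by
  haveI := hX.to_subtype
  haveI := hY.to_subtype
  let f : Set.range a ↪ Y := ⟨fun x => b ((Equiv.ofInjective a ha).symm x),
    hb.comp (Equiv.ofInjective a ha).symm.injective⟩
  have hr : Set.range f = Set.range b := by
    ext y
    constructor
    · rintro ⟨x, rfl⟩
      exact ⟨_, rfl⟩
    · rintro ⟨j, rfl⟩
      refine ⟨Equiv.ofInjective a ha j, ?_⟩
      change b ((Equiv.ofInjective a ha).symm (Equiv.ofInjective a ha j)) = b j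
      rw [Equiv.symm_apply_apply]
  obtain ⟨g, hg⟩ := Cardinal.extend_function f (by
    rw [hr]
    exact nonempty_equiv_of_countable)
  refine ⟨g, fun j => ?_⟩
  have := hg (Equiv.ofInjective a ha j)
  refine this.trans ?_
  change b ((Equiv.ofInjective a ha).symm (Equiv.ofInjective a ha j)) = b j
  rw [Equiv.symm_apply_apply]

theorem countable_of_orthonormal [TopologicalSpace.SeparableSpace H] {ι : Type*} {v : ι → H}
    (hv : Orthonormal ℂ v) : Countable ι := by
  apply Pairwise.countable_of_isOpen_disjoint (s := fun i => Metric.ball (v i) (1 / 2))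
  · intro i j hij
    apply Metric.ball_disjoint_ball
    have h1 : ‖v i - v j‖ ^ 2 = 2 := by
      rw [@norm_sub_sq ℂ, hv.1 i, hv.1 j, hv.2 hij]
      simp
      norm_num
    rw [dist_eq_norm]
    have h2 := norm_nonneg (v i - v j)
    nlinarith
  · exact fun i => Metric.isOpen_ball
  · exact fun i => Metric.nonempty_ball.mpr (by norm_num)

theorem exists_labelled_basis [TopologicalSpace.SeparableSpace H] {I J : Type*} {v : I → H}
    (hv : Orthonormal ℂ v) (pos : J → I) (lab : J → ℤ) (hpos : Function.Injective pos)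
    (hlab : Function.Injective lab) (hI : (Set.range pos)ᶜ.Infinite)
    (hZ : (Set.range lab)ᶜ.Infinite) :
    ∃ ε : HilbertBasis ℤ ℂ H, ∀ j, ε (lab j) = v (pos j) := by
  obtain ⟨w, bw, hw, hbw⟩ := hv.toSubtypeRange.exists_hilbertBasis_extension
  haveI : Countable w := countable_of_orthonormal bw.orthonormal
  have hvi : Function.Injective v := hv.linearIndependent.injective
  let v' : I → w := fun i => ⟨v i, hw ⟨i, rfl⟩⟩
  have hv' : Function.Injective v' := fun i j h => hvi (congrArg Subtype.val h)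
  obtain ⟨g, hg⟩ := exists_equiv_extend lab (v' ∘ pos) hlab (hv'.comp hpos) hZ (by
    refine (hI.image hv'.injOn).mono ?_
    rintro _ ⟨i, hi, rfl⟩ ⟨j, hj⟩
    exact hi ⟨j, hv' hj⟩)
  refine ⟨HilbertBasis.mk (v := bw ∘ g) (bw.orthonormal.comp g g.injective) ?_, fun j => ?_⟩
  · rw [g.surjective.range_comp, bw.dense_span]
  · rw [HilbertBasis.coe_mk, Function.comp_apply, hg, hbw]
    rfl

/-- The block and index carrying a given position. -/
def pos : ℕ × List (ℤ × ℕ) × ℤ → (ℕ × List (ℤ × ℕ) × ℤ) × ℕ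
  | (k, [], σ) => ((k, [], σ), 0)
  | (k, q :: o, σ) => if σ = 0 then ((k, o, q.1), q.2 + 1) else ((k, q :: o, σ), 0)

theorem pos_root (k : ℕ) {o : List (ℤ × ℕ)} {σ : ℤ} (h : σ ≠ 0 ∨ o = []) :
    pos (k, o, σ) = ((k, o, σ), 0) := by
  cases o with
  | nil => rfl
  | cons q o =>
    rcases h with h | h
    · simp only [pos, if_neg h]
    · exact absurd h (List.cons_ne_nil q o)

theorem pos_child (k : ℕ) (o : List (ℤ × ℕ)) (σ : ℤ) (i : ℕ) :
    pos (k, (σ, i) :: o, 0) = ((k, o, σ), i + 1) := by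
  simp only [pos, if_true]

theorem pos_cases (q : ℕ × List (ℤ × ℕ) × ℤ) :
    (pos q = (q, 0) ∧ (q.2.2 ≠ 0 ∨ q.2.1 = [])) ∨
      ∃ o σ i, q = (q.1, (σ, i) :: o, 0) ∧ pos q = ((q.1, o, σ), i + 1) := by
  obtain ⟨k, o, σ⟩ := q
  by_cases h : σ ≠ 0 ∨ o = []
  · exact Or.inl ⟨pos_root k h, h⟩
  · push Not at h
    obtain ⟨rfl, ho⟩ := h
    cases o with
    | nil => exact absurd rfl ho
    | cons q o => exact Or.inr ⟨o, q.1, q.2, rfl, pos_child k o q.1 q.2⟩

theorem pos_injective : Function.Injective pos := by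
  intro q q' h
  rcases pos_cases q with ⟨h1, _⟩ | ⟨o, σ, i, h1, h2⟩ <;>
    rcases pos_cases q' with ⟨h1', _⟩ | ⟨o', σ', i', h1', h2'⟩
  · rw [h1, h1'] at h
    exact congrArg Prod.fst h
  · rw [h1, h2'] at h
    exact absurd (congrArg Prod.snd h) (by simp)
  · rw [h2, h1'] at h
    exact absurd (congrArg Prod.snd h) (by simp)
  · rw [h2, h2'] at h
    simp only [Prod.mk.injEq, Nat.add_right_cancel_iff] at h
    obtain ⟨⟨ha, hb, hc⟩, hd⟩ := h
    rw [h1, h1', ha, hb, hc, hd]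

theorem pos_fst (q : ℕ × List (ℤ × ℕ) × ℤ) : (pos q).1.1 = q.1 := by
  rcases pos_cases q with ⟨h1, _⟩ | ⟨o, σ, i, _, h2⟩
  · rw [h1]
  · rw [h2]

/-- The label of the origin of orbit `o` at stage `k`. -/
def base (o : List (ℤ × ℕ)) (k : ℕ) : ℤ :=
  ((Nat.pair k (Encodable.encode o) : ℕ) + 1 : ℤ) ^ 2

theorem sq_gap {n n' : ℕ} (h : n ≠ n') :
    (n : ℤ) + n' + 2 ≤ |((n : ℤ) + 1) ^ 2 - ((n' : ℤ) + 1) ^ 2| := by
  rcases lt_or_gt_of_ne h with h | h
  · have h1 : (n : ℤ) + 1 ≤ n' := by exact_mod_cast h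
    have h2 : (0 : ℤ) ≤ n := Int.natCast_nonneg n
    rw [abs_sub_comm]
    refine le_trans ?_ (le_abs_self _)
    nlinarith
  · have h1 : (n' : ℤ) + 1 ≤ n := by exact_mod_cast h
    have h2 : (0 : ℤ) ≤ n' := Int.natCast_nonneg n'
    refine le_trans ?_ (le_abs_self _)
    nlinarith

theorem base_gap {o o' : List (ℤ × ℕ)} {k k' : ℕ} (h : ¬ (k = k' ∧ o = o')) :
    (k : ℤ) + k' + 2 ≤ |base o k - base o' k'| := by
  have h1 : Nat.pair k (Encodable.encode o) ≠ Nat.pair k' (Encodable.encode o') := by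
    intro h2
    rw [Nat.pair_eq_pair] at h2
    exact h ⟨h2.1, Encodable.encode_injective h2.2⟩
  have h2 := sq_gap h1
  have h3 : (k : ℤ) ≤ (Nat.pair k (Encodable.encode o) : ℕ) := by
    exact_mod_cast Nat.left_le_pair _ _
  have h4 : (k' : ℤ) ≤ (Nat.pair k' (Encodable.encode o') : ℕ) := by
    exact_mod_cast Nat.left_le_pair _ _
  unfold base
  linarith

theorem base_ge (o : List (ℤ × ℕ)) (k : ℕ) : (k : ℤ) ≤ base o k := by
  have h3 : (k : ℤ) ≤ (Nat.pair k (Encodable.encode o) : ℕ) := by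
    exact_mod_cast Nat.left_le_pair _ _
  have h4 : (0 : ℤ) ≤ k := Int.natCast_nonneg k
  unfold base
  nlinarith

theorem base_sep {o o' : List (ℤ × ℕ)} (h : o ≠ o') :
    Tendsto (fun k => base o k - base o' k) atTop cofinite := by
  rw [Tendsto, le_cofinite_iff_eventually_ne]
  intro n
  rw [eventually_map]
  filter_upwards [eventually_ge_atTop n.natAbs] with k hk hn
  have h1 := base_gap (k := k) (k' := k) (o := o) (o' := o') (fun h' => h h'.2)
  rw [hn] at h1
  have h2 : |n| ≤ k := by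
    rw [← Int.natCast_natAbs]
    exact_mod_cast hk
  have h3 : (0 : ℤ) ≤ k := Int.natCast_nonneg k
  linarith

theorem exists_frame [TopologicalSpace.SeparableSpace H] (T : ℕ → H →L[ℂ] H) (α : ℕ → ℕ → ℂ)
    (hz : ∀ j i, j < i → α j i = 0)
    (hb : ∀ (n : ℕ) (F : Finset H) (η : ℝ), 0 < η → ∃ e : ℕ → H, (∀ i ≤ n, ‖e i‖ = 1) ∧
        (∀ i ≤ n, ∀ i' ≤ n, i ≠ i' → ⟪e i, e i'⟫_ℂ = 0) ∧ (∀ i ≤ n, ∀ y ∈ F, ⟪y, e i⟫_ℂ = 0) ∧
        ∀ j ≤ n, ‖T j (e 0) - ∑ i ∈ Finset.range (j + 1), α j i • e i‖ ≤ η) :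
    ∃ ε : HilbertBasis ℤ ℂ H, Frame ε (fun j => T (j + 1) - α (j + 1) 0 • (1 : H →L[ℂ] H))
      (fun j i => α (j + 1) (i + 1)) base (fun j => j + 1) := by
  let φ : (ℕ × List (ℤ × ℕ) × ℤ) ≃ ℕ := Denumerable.eqv _
  obtain ⟨e, he1, he2⟩ := exists_rec_orth
    (fun s e => (∀ i ≤ (φ.symm s).1, ‖e i‖ = 1) ∧
      (∀ i ≤ (φ.symm s).1, ∀ i' ≤ (φ.symm s).1, i ≠ i' → ⟪e i, e i'⟫_ℂ = 0) ∧
      ∀ j ≤ (φ.symm s).1, ‖T j (e 0) - ∑ i ∈ Finset.range (j + 1), α j i • e i‖ ≤
        1 / (((φ.symm s).1 : ℝ) + 1))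
    (fun s => (φ.symm s).1) (by
      intro s F
      obtain ⟨e, h1, h2, h3, h4⟩ := hb (φ.symm s).1 F (1 / (((φ.symm s).1 : ℝ) + 1))
        (by positivity)
      exact ⟨e, ⟨h1, h2, h4⟩, h3⟩)
  let I := {p : (ℕ × List (ℤ × ℕ) × ℤ) × ℕ // p.2 ≤ p.1.1}
  let v : I → H := fun p => e (φ p.1.1) p.1.2
  have hv : Orthonormal ℂ v := by
    constructor
    · rintro ⟨⟨q, i⟩, hi⟩
      exact (he1 (φ q)).1 i (by rw [Equiv.symm_apply_apply]; exact hi)
    · rintro ⟨⟨q, i⟩, hi⟩ ⟨⟨q', i'⟩, hi'⟩ hne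
      by_cases hq : q = q'
      · subst hq
        refine (he1 (φ q)).2.1 i (by rw [Equiv.symm_apply_apply]; exact hi) i'
          (by rw [Equiv.symm_apply_apply]; exact hi') ?_
        rintro rfl
        exact hne rfl
      · exact he2 (φ q) (φ q') (fun h => hq (φ.injective h)) i
          (by rw [Equiv.symm_apply_apply]; exact hi) i'
          (by rw [Equiv.symm_apply_apply]; exact hi')
  let J := {q : ℕ × List (ℤ × ℕ) × ℤ // |q.2.2| ≤ q.1 ∧ (pos q).2 ≤ q.1}
  let pos' : J → I := fun q => ⟨pos q.1, by rw [pos_fst]; exact q.2.2⟩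
  let lab : J → ℤ := fun q => base q.1.2.1 q.1.1 + q.1.2.2
  obtain ⟨ε, hε⟩ := exists_labelled_basis hv pos' lab
    (fun q q' h => Subtype.ext (pos_injective (congrArg Subtype.val h))) (by
      rintro ⟨⟨k, o, σ⟩, h1, h2⟩ ⟨⟨k', o', σ'⟩, h1', h2'⟩ h
      simp only [lab] at h h1 h1'
      by_cases h3 : k = k' ∧ o = o'
      · obtain ⟨rfl, rfl⟩ := h3
        obtain rfl : σ = σ' := by linarith
        rfl
      · exfalso
        have h4 := base_gap h3
        have h5 : base o k - base o' k' = σ' - σ := by linarith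
        rw [h5] at h4
        have h6 := abs_sub σ' σ
        linarith) (by
      refine Set.infinite_of_injective_forall_mem
        (f := fun k : ℕ => (⟨((k, [(0, 0)], 0), 0), Nat.zero_le _⟩ : I)) ?_ ?_
      · intro k k' h
        exact congrArg (fun p : I => p.1.1.1) h
      · rintro k ⟨q, hq⟩
        have h1 : pos q.1 = ((k, [(0, 0)], 0), 0) := congrArg Subtype.val hq
        rcases pos_cases q.1 with ⟨h2, h3⟩ | ⟨o, σ, i, _, h2⟩
        · rw [h2] at h1
          have h4 : q.1 = (k, [(0, 0)], 0) := congrArg Prod.fst h1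
          rw [h4] at h3
          simp at h3
        · rw [h2] at h1
          exact absurd (congrArg Prod.snd h1) (by simp)) (by
      refine Set.infinite_of_injective_forall_mem (f := fun k : ℕ => (-(k : ℤ) - 1)) ?_ ?_
      · intro k k' h
        simp only at h
        omega
      · rintro k ⟨⟨⟨k', o, σ⟩, h1, h2⟩, hq⟩
        simp only [lab] at hq h1
        have h3 := base_ge o k'
        have h4 := neg_abs_le σ
        have h5 : (0 : ℤ) ≤ k := Int.natCast_nonneg k
        linarith)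
  refine ⟨ε, fun o o' h => base_sep h, fun j i h => hz _ _ (by omega), ?_⟩
  intro j o σ hroot
  rw [tendsto_zero_iff_norm_tendsto_zero]
  refine squeeze_zero' (Eventually.of_forall fun k => norm_nonneg _) ?_
    tendsto_one_div_add_atTop_nhds_zero_nat
  filter_upwards [eventually_ge_atTop σ.natAbs, eventually_ge_atTop (j + 1)] with k hk1 hk2
  have hσ : |σ| ≤ k := by
    rw [← Int.natCast_natAbs]
    exact_mod_cast hk1
  have h1 : gen ε base o σ k = e (φ (k, o, σ)) 0 := by
    have := hε ⟨(k, o, σ), hσ, by rw [pos_root k hroot]; exact Nat.zero_le _⟩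
    simp only [lab, v, pos', pos_root k hroot] at this
    exact this
  have h2 : ∀ i ∈ Finset.range (j + 1),
      gen ε base ((σ, i) :: o) 0 k = e (φ (k, o, σ)) (i + 1) := by
    intro i hi
    have hi' := Finset.mem_range.mp hi
    have := hε ⟨(k, (σ, i) :: o, 0), by simp, by rw [pos_child]; simp only; omega⟩
    simp only [lab, v, pos', pos_child] at this
    exact this
  have h3 := (he1 (φ (k, o, σ))).2.2 (j + 1) (by rw [Equiv.symm_apply_apply]; exact hk2)
  rw [Equiv.symm_apply_apply, Finset.sum_range_succ'] at h3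
  rw [h1, Finset.sum_congr rfl fun i hi => by rw [h2 i hi]]
  refine le_trans (le_of_eq ?_) h3
  congr 1
  simp only [ContinuousLinearMap.sub_apply, ContinuousLinearMap.smul_apply,
    ContinuousLinearMap.one_apply]
  abel

end Pool.Agent.Lib.MP_690138_an
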