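import Pool.Agent.Lib.MP_690138_an.Kernel

set_option autoImplicit false
set_option linter.unusedSectionVars false
set_option linter.deprecated false

open scoped InnerProductSpace
open Filter Topology InnerProductSpace

namespace Pool.Agent.Lib.MP_690138_an.KS

variable {H : Type*} [NormedAddCommGroup H] [InnerProductSpace ℂ H] [CompleteSpace H]
variable {T : Subalgebra ℂ (H →L[ℂ] H)} [hT : IsTri T]
variable {ω : H} {p : dg T}

/-- Transitivity on the range of `p`. -/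
def Trans (p : dg T) : Prop :=
  ∀ ξ η : H, (p : H →L[ℂ] H) ξ = ξ → (p : H →L[ℂ] H) η = η → ξ ≠ 0 → η ≠ 0 →
    ∃ x ∈ T, ⟪η, x ξ⟫_ℂ ≠ 0

theorem exists_min_rank (h : ¬ NoFin p) :
    ∃ f ∈ Jm p, f ≠ 0 ∧ ∀ x ∈ T, ∃ c : ℂ, f * x * f = c • f := by
  classical
  have hex : ∃ n, ∃ f ∈ Jm p, FinRank f ∧ f ≠ 0 ∧
      Module.finrank ℂ (LinearMap.range (f : H →ₗ[ℂ] H)) = n := by
    unfold NoFin at h
    push Not at h
    obtain ⟨f, h1, h2, h3⟩ := h
    exact ⟨_, f, h1, h2, h3, rfl⟩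
  obtain ⟨f, hf, hfin, hf0, hrank⟩ := Nat.find_spec hex
  refine ⟨f, hf, hf0, fun x hx => ?_⟩
  set R := LinearMap.range (f : H →ₗ[ℂ] H) with hR
  have hfin' : FiniteDimensional ℂ R := hfin
  have hnt : Nontrivial R := by
    rw [Submodule.nontrivial_iff_ne_bot]
    intro h0
    apply hf0
    rw [hR, LinearMap.range_eq_bot] at h0
    ext z
    exact congrArg (fun Z : H →ₗ[ℂ] H => Z z) h0
  let g : R →ₗ[ℂ] R := ((f * x : H →L[ℂ] H) : H →ₗ[ℂ] H).restrict (fun z _ => ⟨x z, rfl⟩)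
  obtain ⟨c, hc⟩ := Module.End.exists_eigenvalue g
  obtain ⟨u, hu⟩ := hc.exists_hasEigenvector
  refine ⟨c, ?_⟩
  rw [← sub_eq_zero]
  by_contra hne
  let k : R →ₗ[ℂ] H := ((f * x - c • 1 : H →L[ℂ] H) : H →ₗ[ℂ] H).domRestrict R
  have hk : LinearMap.range ((f * x * f - c • f : H →L[ℂ] H) : H →ₗ[ℂ] H) = LinearMap.range k := by
    ext z
    constructor
    · rintro ⟨y, rfl⟩
      exact ⟨⟨f y, y, rfl⟩, rfl⟩
    · rintro ⟨⟨_, y, rfl⟩, rfl⟩
      exact ⟨y, rfl⟩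
  have hker : 0 < Module.finrank ℂ (LinearMap.ker k) := by
    rw [Module.finrank_pos_iff, Submodule.nontrivial_iff_ne_bot]
    intro h0
    apply hu.2
    have h1 : u ∈ LinearMap.ker k := by
      have h2 := congrArg Subtype.val hu.apply_eq_smul
      show (f * x) u - c • (u : H) = 0
      rw [sub_eq_zero]
      exact h2
    rw [h0] at h1
    exact h1
  have hsum := LinearMap.finrank_range_add_finrank_ker k
  apply Nat.find_min hex (m := Module.finrank ℂ (LinearMap.range k)) (by omega)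
  refine ⟨f * x * f - c • f, Submodule.sub_mem _ (Jm_mid hf hx hf) (Submodule.smul_mem _ _ hf),
    ?_, hne, by rw [hk]⟩
  unfold FinRank
  rw [hk]
  infer_instance

theorem exists_rankOne (hps : star p = p) (ht : Trans p) (h : ¬ NoFin p) :
    ∃ u v : H, u ≠ 0 ∧ v ≠ 0 ∧ (p : H →L[ℂ] H) u = u ∧ (p : H →L[ℂ] H) v = v ∧
      rankOne ℂ u v ∈ T := by
  obtain ⟨f, hf, hf0, hc⟩ := exists_min_rank h
  have hps' : star (p : H →L[ℂ] H) = p := congrArg Subtype.val hps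
  obtain ⟨ξ, hξ⟩ : ∃ ξ, f ξ ≠ 0 := by
    by_contra h1
    push Not at h1
    exact hf0 (ContinuousLinearMap.ext h1)
  have hpu : (p : H →L[ℂ] H) (f ξ) = f ξ := congrArg (fun Z : H →L[ℂ] H => Z ξ) hf.2.1
  have hpf : ∀ η, (p : H →L[ℂ] H) (star f η) = star f η := by
    intro η
    have h1 := congrArg star hf.2.2
    rw [star_mul, hps'] at h1
    exact congrArg (fun Z : H →L[ℂ] H => Z η) h1
  have h1 : ∀ η, ⟪η, f ξ⟫_ℂ = 0 → star f η = 0 := by
    intro η hη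
    by_contra h0
    obtain ⟨x, hx, hne⟩ := ht _ _ hpu (hpf η) hξ h0
    obtain ⟨c, hc'⟩ := hc x hx
    apply hne
    have h2 := congrArg (fun Z : H →L[ℂ] H => Z ξ) hc'
    simp only [ContinuousLinearMap.mul_apply, ContinuousLinearMap.smul_apply] at h2
    rw [inner_star_left, h2, inner_smul_right, hη, mul_zero]
  set u := f ξ with hu
  have huu : ⟪u, u⟫_ℂ ≠ 0 := fun h0 => hξ (inner_self_eq_zero.mp h0)
  have h2 : star f = rankOne ℂ ((⟪u, u⟫_ℂ)⁻¹ • star f u) u := by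
    ext η
    have h3 := h1 (η - ((⟪u, u⟫_ℂ)⁻¹ * ⟪u, η⟫_ℂ) • u) (by
      rw [← inner_conj_symm, inner_sub_right, inner_smul_right, mul_right_comm,
        inv_mul_cancel₀ huu, one_mul, sub_self, map_zero])
    rw [map_sub, map_smul, sub_eq_zero] at h3
    rw [h3, rankOne_apply, smul_smul, mul_comm]
  have h3 : f = rankOne ℂ u ((⟪u, u⟫_ℂ)⁻¹ • star f u) := by
    rw [← star_rankOne, ← h2, star_star]
  refine ⟨u, (⟪u, u⟫_ℂ)⁻¹ • star f u, hξ, ?_, hpu, by rw [map_smul, hpf], h3 ▸ hf.1⟩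
  intro h0
  apply hf0
  rw [h3, h0]
  simp

theorem one_dim (hω : Cyc T ω) (hps : star p = p) (hpp : p * p = p) (ht : Trans p)
    (h : ¬ NoFin p) : ∃ ζ : H, ζ ≠ 0 ∧ (p : H →L[ℂ] H) ζ = ζ ∧
      ∀ θ, (p : H →L[ℂ] H) θ = θ → ⟪ζ, θ⟫_ℂ = 0 → θ = 0 := by
  obtain ⟨u, v, hu, hv, hpu, hpv, huv⟩ := exists_rankOne hps ht h
  have hps' : star (p : H →L[ℂ] H) = p := congrArg Subtype.val hps
  have hpp' : ∀ z, (p : H →L[ℂ] H) ((p : H →L[ℂ] H) z) = (p : H →L[ℂ] H) z := fun z =>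
    congrArg (fun Z : dg T => (Z : H →L[ℂ] H) z) hpp
  obtain ⟨x, hx, hne⟩ := ht u v hpu hpv hu hv
  obtain ⟨d, d', h1, h2⟩ := exists_common hω hne
  set ζ := (d : H →L[ℂ] H) v with hζ
  have hpζ : (p : H →L[ℂ] H) ζ = ζ := by rw [hζ, dg_comm_apply, hpv]
  have hζT : rankOne ℂ ζ ζ ∈ T := by
    have h3 := T.mul_mem (T.mul_mem (T.mul_mem (dg_mem d') hx) huv) (dg_mem (star d))
    rwa [mul_rankOne, rankOne_mul, coe_star', star_star, ContinuousLinearMap.mul_apply, ← h1] at h3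
  let e : dg T := ⟨rankOne ℂ ζ ζ, hζT, by rw [star_rankOne]; exact hζT⟩
  refine ⟨ζ, h2, hpζ, fun θ0 hp0 h0 => ?_⟩
  by_contra hθ0
  have hζζ : ⟪ζ, ζ⟫_ℂ ≠ 0 := fun h0 => h2 (inner_self_eq_zero.mp h0)
  let q : dg T := ⟪ζ, ζ⟫_ℂ • p - e
  have hq : ∀ z, (q : H →L[ℂ] H) z = ⟪ζ, ζ⟫_ℂ • (p : H →L[ℂ] H) z - ⟪ζ, z⟫_ℂ • ζ := fun z => rfl
  have hpin : ∀ a z, (p : H →L[ℂ] H) a = a → ⟪a, (p : H →L[ℂ] H) z⟫_ℂ = ⟪a, z⟫_ℂ := by
    intro a z ha
    rw [← inner_star_left, hps', ha]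
  have hqζ : ∀ z, ⟪ζ, (q : H →L[ℂ] H) z⟫_ℂ = 0 := by
    intro z
    rw [hq, inner_sub_right, inner_smul_right, inner_smul_right, hpin _ _ hpζ, mul_comm, sub_self]
  obtain ⟨x1, hx1, hne1⟩ := ht ζ θ0 hpζ hp0 h2 hθ0
  set θ1 := (q : H →L[ℂ] H) (x1 ζ) with hθ1
  have hθ1ne : θ1 ≠ 0 := by
    intro h3
    have h4 : ⟪θ0, θ1⟫_ℂ = 0 := by rw [h3, inner_zero_right]
    have h5 : ⟪θ0, ζ⟫_ℂ = 0 := by rw [← inner_conj_symm, h0, map_zero]
    rw [hθ1, hq, inner_sub_right, inner_smul_right, inner_smul_right, hpin _ _ hp0, h5, mul_zero,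
      sub_zero] at h4
    exact mul_ne_zero hζζ hne1 h4
  have hpθ1 : (p : H →L[ℂ] H) θ1 = θ1 := by
    rw [hθ1, hq, map_sub, map_smul, map_smul, hpp', hpζ]
  obtain ⟨y, hy, hne2⟩ := ht θ1 ζ hpθ1 hpζ hθ1ne h2
  rw [← inner_star_left] at hne2
  obtain ⟨c, c', h3, h4⟩ := exists_common hω hne2
  set θ := (c : H →L[ℂ] H) (star y ζ) with hθ
  have hT1 : rankOne ℂ θ ζ ∈ T := by
    have h5 := T.mul_mem (T.mul_mem (T.mul_mem (dg_mem c') (dg_mem q)) hx1) hζT
    rwa [mul_rankOne, ContinuousLinearMap.mul_apply, ContinuousLinearMap.mul_apply, ← hθ1,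
      ← h3] at h5
  have hT2 : rankOne ℂ ζ θ ∈ T := by
    have h5 := T.mul_mem hζT (T.mul_mem hy (dg_mem (star c)))
    rwa [rankOne_mul, star_mul, coe_star', star_star, ContinuousLinearMap.mul_apply] at h5
  have h5 := dg_comm_apply e ⟨rankOne ℂ θ ζ, hT1, by rw [star_rankOne]; exact hT2⟩ ζ
  have h6 : ⟪ζ, θ⟫_ℂ = 0 := by rw [h3, hθ1, dg_comm_apply, hqζ]
  simp only [e, rankOne_apply, inner_smul_right, h6, mul_zero, zero_smul] at h5
  exact h4 ((smul_eq_zero.mp h5.symm).resolve_left (mul_ne_zero hζζ hζζ))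

/-- Closed invariant subspaces of `T`. -/
def TInv (T : Subalgebra ℂ (H →L[ℂ] H)) (L : Submodule ℂ H) : Prop :=
  IsClosed (L : Set H) ∧ ∀ x ∈ T, ∀ ξ ∈ L, x ξ ∈ L

theorem gap_sq (hω : Cyc T ω) {B : H →L[ℂ] H} (hB : B ∈ T) (hN : Nuc B)
    (hq : ∀ c : ℂ, (∀ N : ℕ, ‖c‖ ^ N ≤ ‖B ^ N‖) → c = 0) {L1 L2 : Submodule ℂ H}
    (h1 : TInv T L1) (h2 : TInv T L2) (h12 : L1 ≤ L2)
    (hgap : ∀ L, TInv T L → L1 ≤ L → L ≤ L2 → L = L1 ∨ L = L2) :
    ∀ ξ ∈ L2, B (B ξ) ∈ L1 := by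
  have c1 : CompleteSpace L1 := h1.1.completeSpace_coe
  have c2 : CompleteSpace L2 := h2.1.completeSpace_coe
  let p1 : dg T := ⟨L1.starProjection, starProj_mem_dg _ (fun d => h1.2 _ (dg_mem d))⟩
  let p2 : dg T := ⟨L2.starProjection, starProj_mem_dg _ (fun d => h2.2 _ (dg_mem d))⟩
  let p : dg T := p2 - p1
  have hp : ∀ z, (p : H →L[ℂ] H) z = L2.starProjection z - L1.starProjection z := fun z => rfl
  have hps : star p = p := by
    apply Subtype.ext
    show star (L2.starProjection - L1.starProjection) = L2.starProjection - L1.starProjection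
    rw [star_sub, starProj_star, starProj_star]
  have hps' : star (p : H →L[ℂ] H) = p := congrArg Subtype.val hps
  have hp1 : ∀ z ∈ L1, (p : H →L[ℂ] H) z = 0 := by
    intro z hz
    rw [hp, Submodule.starProjection_eq_self_iff.mpr hz,
      Submodule.starProjection_eq_self_iff.mpr (h12 hz), sub_self]
  have hp2 : ∀ z, (p : H →L[ℂ] H) z ∈ L2 := fun z =>
    L2.sub_mem (Submodule.starProjection_apply_mem _ _)
      (h12 (Submodule.starProjection_apply_mem _ _))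
  have hp3 : ∀ z ∈ L2, z - (p : H →L[ℂ] H) z ∈ L1 := by
    intro z hz
    rw [hp, Submodule.starProjection_eq_self_iff.mpr hz, sub_sub_cancel]
    exact Submodule.starProjection_apply_mem _ _
  have hp4 : ∀ z, ∀ y ∈ L1, ⟪(p : H →L[ℂ] H) z, y⟫_ℂ = 0 := by
    intro z y hy
    rw [← hps', inner_star_left, hp1 y hy, inner_zero_right]
  have hpp' : ∀ z, (p : H →L[ℂ] H) ((p : H →L[ℂ] H) z) = (p : H →L[ℂ] H) z := by
    intro z
    have h3 := hp3 _ (hp2 z)
    rw [← map_sub] at h3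
    have h4 := hp4 (z - (p : H →L[ℂ] H) z) _ h3
    rw [inner_self_eq_zero, map_sub, sub_eq_zero] at h4
    exact h4.symm
  have hpp : p * p = p := Subtype.ext (ContinuousLinearMap.ext hpp')
  have hBp : ∀ z ∈ L2, (p : H →L[ℂ] H) (B ((p : H →L[ℂ] H) z)) = (p : H →L[ℂ] H) (B z) := by
    intro z hz
    have h3 := hp1 _ (h1.2 B hB _ (hp3 z hz))
    rw [map_sub, map_sub, sub_eq_zero] at h3
    exact h3.symm
  have ht : Trans p := by
    intro ξ η hξ hη hξ0 hη0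
    by_contra hne
    push Not at hne
    let L0 : Submodule ℂ H := L1 ⊔ Submodule.span ℂ {y | ∃ x ∈ T, y = x ξ}
    have hL : TInv T L0.topologicalClosure := by
      refine ⟨Submodule.isClosed_topologicalClosure _, fun x hx => ?_⟩
      have : L0.topologicalClosure ≤ L0.topologicalClosure.comap (x : H →ₗ[ℂ] H) := by
        apply Submodule.topologicalClosure_minimal
        · apply sup_le
          · intro z hz
            exact Submodule.le_topologicalClosure _ (Submodule.mem_sup_left (h1.2 x hx z hz))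
          · rw [Submodule.span_le]
            rintro _ ⟨x', hx', rfl⟩
            exact Submodule.le_topologicalClosure _ (Submodule.mem_sup_right
              (Submodule.subset_span ⟨x * x', T.mul_mem hx hx', rfl⟩))
        · exact (Submodule.isClosed_topologicalClosure _).preimage x.continuous
      exact fun z hz => this hz
    have hle : L0.topologicalClosure ≤ L2 := by
      apply Submodule.topologicalClosure_minimal _ _ h2.1
      apply sup_le h12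
      rw [Submodule.span_le]
      rintro _ ⟨x', hx', rfl⟩
      exact h2.2 x' hx' _ (hξ ▸ hp2 ξ)
    rcases hgap _ hL (le_sup_left.trans (Submodule.le_topologicalClosure _)) hle with h | h
    · apply hξ0
      rw [← hξ]
      apply hp1
      rw [← h]
      exact Submodule.le_topologicalClosure _ (Submodule.mem_sup_right
        (Submodule.subset_span ⟨1, T.one_mem, rfl⟩))
    · apply hη0
      have h3 : L0.topologicalClosure ≤ LinearMap.ker (innerSL ℂ η : H →ₗ[ℂ] ℂ) := by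
        apply Submodule.topologicalClosure_minimal _ _
          (ContinuousLinearMap.isClosed_ker (innerSL ℂ η))
        apply sup_le
        · intro z hz
          show ⟪η, z⟫_ℂ = 0
          rw [← hη]
          exact hp4 η z hz
        · rw [Submodule.span_le]
          rintro _ ⟨x', hx', rfl⟩
          exact hne x' hx'
      rw [h] at h3
      exact inner_self_eq_zero.mp (h3 (hη ▸ hp2 η))
  have hfin : ∀ ξ ∈ L2, (p : H →L[ℂ] H) (B (B ξ)) = 0 := by
    by_cases hnf : NoFin p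
    · have hJ : (p : H →L[ℂ] H) * B * p ∈ Jm p := by
        refine ⟨T.mul_mem (T.mul_mem (dg_mem p) hB) (dg_mem p), ?_, ?_⟩
        · ext z
          exact hpp' _
        · ext z
          simp only [ContinuousLinearMap.mul_apply, hpp']
      have hN' := hN.conj (p : H →L[ℂ] H)
      rw [hps'] at hN'
      have h3 := sq_zero_of_noFin hω hnf hJ hN'
      intro ξ hξ
      have h4 := congrArg (fun Z : H →L[ℂ] H => Z ξ) h3
      simp only [ContinuousLinearMap.mul_apply, hpp', ContinuousLinearMap.zero_apply] at h4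
      rwa [hBp ξ hξ, hBp _ (h2.2 B hB ξ hξ)] at h4
    · obtain ⟨ζ, hζ0, hpζ, hζ⟩ := one_dim hω hps hpp ht hnf
      have hζζ : ⟪ζ, ζ⟫_ℂ ≠ 0 := fun h0 => hζ0 (inner_self_eq_zero.mp h0)
      have hmul : ∀ z, ∃ c : ℂ, (p : H →L[ℂ] H) z = c • ζ := by
        intro z
        refine ⟨(⟪ζ, ζ⟫_ℂ)⁻¹ * ⟪ζ, (p : H →L[ℂ] H) z⟫_ℂ, ?_⟩
        rw [← sub_eq_zero]
        apply hζ
        · rw [map_sub, map_smul, hpp', hpζ]
        · rw [inner_sub_right, inner_smul_right, mul_right_comm, inv_mul_cancel₀ hζζ, one_mul,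
            sub_self]
      obtain ⟨c, hc⟩ := hmul (B ζ)
      have hζ2 : ζ ∈ L2 := hpζ ▸ hp2 ζ
      have hpow : ∀ N : ℕ, (p : H →L[ℂ] H) ((B ^ N) ζ) = c ^ N • ζ := by
        intro N
        induction N with
        | zero => simpa using hpζ
        | succ N ih =>
          rw [pow_succ', ContinuousLinearMap.mul_apply, ← hBp _ (h2.2 _ (T.pow_mem hB N) ζ hζ2),
            ih, map_smul, map_smul, hc, smul_smul, pow_succ]
      have hc0 : c = 0 := by
        apply hq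
        intro N
        have h3 : ⟪ζ, (B ^ N) ζ⟫_ℂ = c ^ N * ⟪ζ, ζ⟫_ℂ := by
          rw [← inner_smul_right, ← hpow, ← inner_star_left (p : H →L[ℂ] H), hps', hpζ]
        have h4 := norm_inner_le_norm (𝕜 := ℂ) ζ ((B ^ N) ζ)
        rw [h3, norm_mul, norm_pow, inner_self_eq_norm_sq_to_K, norm_pow, RCLike.norm_ofReal,
          abs_norm] at h4
        have h5 := (B ^ N).le_opNorm ζ
        have h6 : 0 < ‖ζ‖ := norm_pos_iff.mpr hζ0
        have h7 : ‖c‖ ^ N * ‖ζ‖ ^ 2 ≤ ‖B ^ N‖ * ‖ζ‖ ^ 2 := by nlinarith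
        exact le_of_mul_le_mul_right h7 (by positivity)
      intro ξ hξ
      obtain ⟨c', hc'⟩ := hmul (B ξ)
      rw [← hBp _ (h2.2 B hB ξ hξ), hc', map_smul, map_smul, hc, hc0, zero_smul, smul_zero]
  intro ξ hξ
  have h3 := hp3 _ (h2.2 B hB _ (h2.2 B hB ξ hξ))
  rwa [hfin ξ hξ, sub_zero] at h3

theorem sandwich (hω : Cyc T ω) {B : H →L[ℂ] H} (hB : B ∈ T) (hN : Nuc B)
    (hq : ∀ c : ℂ, (∀ N : ℕ, ‖c‖ ^ N ≤ ‖B ^ N‖) → c = 0) {X : Submodule ℂ H}
    (hX : IsClosed (X : Set H))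
    (hd : ∀ L, TInv T L → (∀ ξ ∈ L, B ξ ∈ X) ∨ (∀ ξ ∈ X, B ξ ∈ L)) :
    ∃ L, TInv T L ∧ (∀ ξ ∈ L, B ξ ∈ X) ∧ ∀ ξ ∈ X, B (B (B ξ)) ∈ L := by
  let L1 : Submodule ℂ H := (sSup {L | TInv T L ∧ ∀ ξ ∈ L, B ξ ∈ X}).topologicalClosure
  let L2 : Submodule ℂ H := sInf {L | TInv T L ∧ ¬ ∀ ξ ∈ L, B ξ ∈ X}
  have hle1 : ∀ L, TInv T L → (∀ ξ ∈ L, B ξ ∈ X) → L ≤ L1 := fun L h h' =>
    (le_sSup (s := {L | TInv T L ∧ ∀ ξ ∈ L, B ξ ∈ X}) ⟨h, h'⟩).trans
      (Submodule.le_topologicalClosure _)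
  have h1 : TInv T L1 := by
    refine ⟨Submodule.isClosed_topologicalClosure _, fun x hx => ?_⟩
    have : L1 ≤ L1.comap (x : H →ₗ[ℂ] H) := by
      apply Submodule.topologicalClosure_minimal
      · apply sSup_le
        intro L hL z hz
        exact hle1 L hL.1 hL.2 (hL.1.2 x hx z hz)
      · exact (Submodule.isClosed_topologicalClosure _).preimage x.continuous
    exact fun z hz => this hz
  have h1X : ∀ ξ ∈ L1, B ξ ∈ X := by
    have : L1 ≤ X.comap (B : H →ₗ[ℂ] H) := by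
      apply Submodule.topologicalClosure_minimal
      · apply sSup_le
        intro L hL z hz
        exact hL.2 z hz
      · exact hX.preimage B.continuous
    exact fun z hz => this hz
  have h2 : TInv T L2 := by
    refine ⟨?_, fun x hx z hz => ?_⟩
    · rw [Submodule.coe_sInf]
      exact isClosed_biInter (fun L hL => hL.1.1)
    · rw [Submodule.mem_sInf] at hz ⊢
      exact fun L hL => hL.1.2 x hx z (hz L hL)
  have h2X : ∀ ξ ∈ X, B ξ ∈ L2 := by
    intro ξ hξ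
    rw [Submodule.mem_sInf]
    exact fun L hL => (hd L hL.1).resolve_left hL.2 ξ hξ
  refine ⟨L1, h1, h1X, fun ξ hξ => ?_⟩
  have h12 : TInv T (L1 ⊓ L2) :=
    ⟨h1.1.inter h2.1, fun x hx z hz => ⟨h1.2 x hx z hz.1, h2.2 x hx z hz.2⟩⟩
  refine (gap_sq hω hB hN hq h12 h2 inf_le_right ?_ _ (h2X ξ hξ)).1
  intro L hL hl hr
  by_cases h : ∀ ξ ∈ L, B ξ ∈ X
  · exact Or.inl (le_antisymm (le_inf (hle1 L hL h) hr) hl)
  · exact Or.inr (le_antisymm hr (sInf_le ⟨hL, h⟩))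

end Pool.Agent.Lib.MP_690138_an.KS
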