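import Pool.Agent.Lib.MP_690138_an.Transport

set_option autoImplicit false
set_option linter.unusedSectionVars false
set_option linter.deprecated false

open scoped InnerProductSpace

namespace Pool.Agent.Lib.MP_690138_an.KS

variable {K : Type} [NormedAddCommGroup K] [InnerProductSpace ℂ K] [CompleteSpace K]

/-- No two orthogonal self-adjoint operators commute with the operator. -/
def Prim (A : K →L[ℂ] K) : Prop := ∀ F G : K →L[ℂ] K, star F = F → star G = G → Commute F A →
  Commute G A → F * G = 0 → F = 0 ∨ G = 0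

theorem swap_zero {F G : K →L[ℂ] K} (hF : star F = F) (hG : star G = G) (h0 : F * G = 0) :
    G * F = 0 := by
  have := congrArg star h0
  rwa [star_mul, hF, hG, star_zero] at this

theorem scalar {A X : K →L[ℂ] K} (hz : Prim A) (hX : IsSelfAdjoint X) (h : Commute X A)
    (Y : K →L[ℂ] K) : Commute X Y := by
  have sa : ∀ f : ℝ → ℝ, star (cfc f X) = cfc f X := fun f => IsSelfAdjoint.cfc.star_eq
  have h1 : ∀ a ∈ spectrum ℝ X, ∀ b ∈ spectrum ℝ X, ¬ a < b := by
    intro a ha b hb hab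
    have z : ∀ f : ℝ → ℝ, Continuous f → cfc f X = 0 → ∀ t ∈ spectrum ℝ X, f t = 0 := by
      intro f hf e t ht
      rw [← cfc_const_zero ℝ X, cfc_eq_cfc_iff_eqOn] at e
      exact e ht
    rcases hz (cfc (fun t : ℝ => max (t - (a + b) / 2) 0) X)
      (cfc (fun t : ℝ => max ((a + b) / 2 - t) 0) X) (sa _) (sa _)
      (h.cfc_real _) (h.cfc_real _) (by
        rw [← cfc_mul _ _ X, ← cfc_const_zero ℝ X]
        refine cfc_congr fun t _ => ?_
        rcases le_total t ((a + b) / 2) with e | e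
        · simp [max_eq_right (sub_nonpos.mpr e)]
        · simp [max_eq_right (sub_nonpos.mpr e)]) with e | e
    · have := z _ (by fun_prop) e b hb
      rw [max_eq_left (by linarith)] at this
      linarith
    · have := z _ (by fun_prop) e a ha
      rw [max_eq_left (by linarith)] at this
      linarith
  rcases (spectrum ℝ X).eq_empty_or_nonempty with e | ⟨a, ha⟩
  · rw [CFC.eq_algebraMap_of_spectrum_subset_singleton X (0 : ℝ) (by simp [e])]
    exact Algebra.commutes _ _
  · rw [CFC.eq_algebraMap_of_spectrum_subset_singleton X a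
      (fun b hb => le_antisymm (not_lt.mp (h1 a ha b hb)) (not_lt.mp (h1 b hb a ha)))]
    exact Algebra.commutes _ _

theorem irred {A X : K →L[ℂ] K} (hz : Prim A) (h : Commute X A)
    (h' : Commute X (star A)) (Y : K →L[ℂ] K) : Commute X Y := by
  have h1 : Commute (star X) A := by simpa using h'.star_star
  have a1 := scalar (X := X + star X) hz (IsSelfAdjoint.add_star_self X) (h.add_left h1) Y
  have a2 := scalar (X := Complex.I • (X - star X)) hz (by
    rw [IsSelfAdjoint, star_smul, star_sub, star_star, Complex.star_def, Complex.conj_I, neg_smul,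
      ← smul_neg, neg_sub]) ((h.sub_left h1).smul_left _) Y
  have e : X = (1 / 2 : ℂ) • (X + star X) + (-Complex.I / 2) • Complex.I • (X - star X) := by
    rw [smul_smul, show -Complex.I / 2 * Complex.I = 1 / 2 by
      linear_combination (-1 / 2 : ℂ) * Complex.I_mul_I]
    module
  rw [e]
  exact (a1.smul_left _).add_left (a2.smul_left _)

namespace Model

variable (m : Model K)

theorem joint_ker {κ : K} (h : m.S κ = 0) (h' : star m.S κ = 0) : κ = 0 := by
  have i1 : Inv m.S (Submodule.span ℂ {κ}) := by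
    refine ⟨Submodule.closed_of_finiteDimensional _, fun ξ hξ => ?_⟩
    obtain ⟨c, rfl⟩ := Submodule.mem_span_singleton.mp hξ
    rw [map_smul, h, smul_zero]
    exact zero_mem _
  have i2 : Inv m.S (LinearMap.ker (innerSL ℂ κ : K →ₗ[ℂ] ℂ)) :=
    ⟨ContinuousLinearMap.isClosed_ker (innerSL ℂ κ), fun ξ _ => by
      show ⟪κ, m.S ξ⟫_ℂ = 0
      rw [← inner_star_left, h', inner_zero_left]⟩
  rcases m.chain i1 i2 with h1 | h1
  · exact inner_self_eq_zero.mp (h1 (Submodule.mem_span_singleton_self κ))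
  by_contra h0
  have h2 : ∀ w, ⟪κ, w⟫_ℂ = 0 → w = 0 := by
    intro w hw
    obtain ⟨c, rfl⟩ := Submodule.mem_span_singleton.mp (h1 hw)
    rw [inner_smul_right] at hw
    rw [(mul_eq_zero.mp hw).resolve_right (inner_self_ne_zero.mpr h0), zero_smul]
  obtain ⟨y, hy0, hy1, -⟩ := m.exists_cell (n := 1) (d := 0) (by norm_num)
  obtain ⟨z, hz0, -, hz2⟩ := m.exists_cell (n := 1) (d := 1) (by norm_num)
  have h3 := h2 (⟪κ, z⟫_ℂ • y - ⟪κ, y⟫_ℂ • z) (by
    rw [inner_sub_right, inner_smul_right, inner_smul_right]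
    ring)
  have h4 := congrArg (fun w => ⟪z, w⟫_ℂ) h3
  simp only [inner_sub_right, inner_smul_right, hz2 y hy1, mul_zero, zero_sub, inner_zero_right,
    neg_eq_zero] at h4
  exact hy0 (h2 y ((mul_eq_zero.mp h4).resolve_right (inner_self_ne_zero.mpr hz0)))

theorem eq_zero_of_B {Y : H4 K →L[ℂ] H4 K} (h : Commute Y (m.Aop m.S))
    (h' : Commute Y (star (m.Aop m.S))) (h0 : m.B * Y = 0) : Y = 0 := by
  have hB : Commute Y (star m.B) := by
    rw [B, ← m.Aop_pow, star_pow]
    exact h'.pow_right _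
  have h1 : ∀ x, star m.B (Y x) = 0 := by
    intro x
    rw [← inner_self_eq_zero (𝕜 := ℂ), inner_star_left, ← ContinuousLinearMap.mul_apply (star m.B),
      ← hB.eq, ContinuousLinearMap.mul_apply, ← ContinuousLinearMap.mul_apply m.B, h0]
    simp
  have h2 : ∀ x, Y x 1 = 0 := by
    intro x
    have a1 := congrArg (fun f : H4 K => f 1) (app_of_eq h0 x)
    have a2 := congrArg (fun f : H4 K => f 1) (h1 x)
    rw [B, dg4_star] at a2
    exact m.joint_ker (by simpa [B, dg4_apply, τ, τ'] using a1)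
      (by simpa [dg4_apply, τ, τ'] using a2)
  have h3 : ∀ x, Y (m.Aop m.S x) = m.Aop m.S (Y x) := fun x => app_of_eq h.eq x
  have h4 : ∀ x, Y x 2 = 0 := fun x => by
    rw [← m.ss (Y x 2), ← m.Aop1 m.S, ← h3, h2, map_zero]
  have h5 : ∀ x, Y x 3 = 0 := fun x => by
    have := h4 (m.Aop m.S x)
    rwa [h3, Aop2, h2, map_zero, zero_add] at this
  have h6 : ∀ x, Y x 0 = 0 := fun x => by
    have := h5 (m.Aop m.S x)
    rw [h3, Aop3, h4, sub_zero] at this
    rw [← m.ss2 (Y x 0), this, map_zero]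
  ext x j
  fin_cases j
  exacts [h6 x, h2 x, h4 x, h5 x]

theorem prim : Prim (m.Aop m.S) := by
  intro F G hF hG cF cG h0
  have hk : ∀ X : H4 K →L[ℂ] H4 K, Commute X (m.Aop m.S) →
      Inv (m.Aop m.S) (LinearMap.ker (X : H4 K →ₗ[ℂ] H4 K)) := fun X hX =>
    ⟨ContinuousLinearMap.isClosed_ker X, fun ξ hξ => by
      have e : X ξ = 0 := hξ
      show X (m.Aop m.S ξ) = 0
      rw [← ContinuousLinearMap.mul_apply, hX.eq, ContinuousLinearMap.mul_apply, e, map_zero]⟩
  have key : ∀ X : H4 K →L[ℂ] H4 K, star X = X → Commute X (m.Aop m.S) →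
      (∀ x, X (m.B (X x)) = 0) → X = 0 := by
    intro X h1 h2 h3
    have h4 : Commute X (star (m.Aop m.S)) := by
      have := h2.star_star
      rwa [h1] at this
    have h5 : Commute X m.B := by
      rw [B, ← m.Aop_pow]
      exact h2.pow_right _
    have h6 := m.eq_zero_of_B (h2.mul_left h2) (h4.mul_left h4) (by
      rw [← mul_assoc, ← h5.eq]
      exact ContinuousLinearMap.ext h3)
    rw [← CStarRing.star_mul_self_eq_zero_iff, h1, h6]
  have h1 : G * F = 0 := swap_zero hF hG h0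
  rcases m.dichA (hk F cF) (hk G cG) with h | h
  · exact Or.inr (key G hG cG fun x => h _ (app_of_eq h0 x))
  · exact Or.inl (key F hF cF fun x => h _ (app_of_eq h1 x))

end Model

theorem exists_irred [TopologicalSpace.SeparableSpace K] (h : ¬ FiniteDimensional ℂ K) :
    ∃ A : K →L[ℂ] K, (∀ M : VonNeumannAlgebra K, A ∈ M → ∀ x, x ∈ M) ∧
      ∀ T : Subalgebra ℂ (K →L[ℂ] K), IsTri T → A ∉ T := by
  obtain ⟨b⟩ := exists_nat_basis h
  obtain ⟨m⟩ := exists_model b
  have h4 : ¬ FiniteDimensional ℂ (H4 K) := fun h1 =>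
    h (Module.Finite.of_surjective ((pr 0 : H4 K →L[ℂ] K) : H4 K →ₗ[ℂ] K)
      (fun v => ⟨inj 0 v, by simp [pr_apply, inj_apply]⟩))
  have hs : TopologicalSpace.SeparableSpace (H4 K) :=
    (PiLp.continuousLinearEquiv 2 ℂ (fun _ : Fin 4 => K)).symm.surjective.denseRange.separableSpace
      (PiLp.continuousLinearEquiv 2 ℂ (fun _ : Fin 4 => K)).symm.continuous
  obtain ⟨b4⟩ := exists_nat_basis h4
  let Φ := (b4.repr.trans b.repr.symm).conjStarAlgEquiv
  refine ⟨Φ (m.Aop m.S), fun M hM x => ?_, fun T hT hA => ?_⟩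
  · rw [← M.commutant_commutant, VonNeumannAlgebra.mem_commutant_iff]
    intro y hy
    rw [VonNeumannAlgebra.mem_commutant_iff] at hy
    obtain ⟨x, rfl⟩ : ∃ x', Φ x' = x := Φ.surjective x
    obtain ⟨y, rfl⟩ : ∃ y', Φ y' = y := Φ.surjective y
    have h1 := hy _ hM
    have h2 := hy _ (star_mem hM)
    rw [← map_star] at h2
    rw [← map_mul, ← map_mul] at h1 h2 ⊢
    rw [(irred m.prim (Φ.injective h1).symm (Φ.injective h2).symm x).eq]
  let T' : Subalgebra ℂ (H4 K →L[ℂ] H4 K) := T.comap (Φ : (H4 K →L[ℂ] H4 K) →ₐ[ℂ] (K →L[ℂ] K))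
  have hm : ∀ x, x ∈ T' ↔ Φ x ∈ T := fun x => Iff.rfl
  have hT' : IsTri T' := by
    refine ⟨Set.ext (fun x => ?_)⟩
    have h1 := Set.ext_iff.mp hT.eq (Φ x)
    simp only [Set.mem_setOf_eq, hm, map_star, Set.mem_centralizer_iff] at h1 ⊢
    rw [h1]
    constructor
    · intro h2 y hy
      apply Φ.injective
      rw [map_mul, map_mul]
      exact h2 _ hy
    · intro h2 y hy
      obtain ⟨y', rfl⟩ : ∃ y', Φ y' = y := Φ.surjective y
      rw [← map_mul, ← map_mul, h2 y' hy]
  exact m.not_mem (T := T') hA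

end Pool.Agent.Lib.MP_690138_an.KS
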