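import Pool.Agent.Lib.MP_690138_an.Schur

set_option autoImplicit false
set_option linter.unusedSectionVars false
set_option linter.deprecated false

open scoped InnerProductSpace
open Filter Topology InnerProductSpace

namespace Pool.Agent.Lib.MP_690138_an.KS

variable {H : Type*} [NormedAddCommGroup H] [InnerProductSpace ℂ H] [CompleteSpace H]
variable {T : Subalgebra ℂ (H →L[ℂ] H)} [hT : IsTri T]
variable {ω : H} {p : dg T}

theorem eq_of_state (hω : Cyc T ω) {G G' : dg T}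
    (h : ∀ c : dg T, ⟪ω, ((c * G : dg T) : H →L[ℂ] H) ω⟫_ℂ =
      ⟪ω, ((c * G' : dg T) : H →L[ℂ] H) ω⟫_ℂ) : G = G' := by
  rw [← sub_eq_zero]
  apply hω.sep
  have h1 := h (star (G - G'))
  rw [← sub_eq_zero, ← inner_sub_right, ← ContinuousLinearMap.sub_apply,
    ← AddSubgroupClass.coe_sub, ← mul_sub, MulMemClass.coe_mul, ContinuousLinearMap.mul_apply,
    coe_star', inner_star_right] at h1
  exact inner_self_eq_zero.mp h1

theorem sandwich_zero (hω : Cyc T ω) (hp : NoFin p) {B : H →L[ℂ] H} (hB : B ∈ Jm p)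
    (cB : B ∈ Cp H) (K1 : Ker T ω B) (K2 : Ker T ω (star B)) {κ : Type*} [Fintype κ]
    (u v : κ → dg T) (hΔ : B - star B = ∑ i, opL T ω (u i) (v i)) (c0 : dg T) :
    B * c0 * B = 0 := by
  classical
  obtain ⟨b, hb, hχ⟩ := K1
  obtain ⟨b', hb', hχ'⟩ := K2
  let αc : dg T → κ ⊕ κ → dg T := fun c =>
    Sum.elim u (fun i => b' ((c : H →L[ℂ] H) ((u i : H →L[ℂ] H) ω)))
  let βc : dg T → κ ⊕ κ → dg T := fun c =>
    Sum.elim (fun i => star (b' (star (c : H →L[ℂ] H) (star (v i : H →L[ℂ] H) ω)))) v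
  have hδ : ∀ c : dg T, B * c * B - star (B * (star c : dg T) * B) =
      ∑ j, opL T ω (αc c j) (βc c j) := by
    intro c
    have h1 : B * c * B - star (B * (star c : dg T) * B) =
        (B - star B) * (c * B) + (star B * c) * (B - star B) := by
      simp only [star_mul, coe_star', star_star]
      noncomm_ring
    rw [h1, hΔ, Fintype.sum_sum_type, Finset.sum_mul, Finset.mul_sum]
    congr 1
    · refine Finset.sum_congr rfl (fun i _ => ?_)
      simp only [αc, βc, Sum.elim_inl, opL_apply, rankOne_mul, coe_star', star_star, star_mul,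
        ContinuousLinearMap.mul_apply, hb']
    · refine Finset.sum_congr rfl (fun i _ => ?_)
      simp only [αc, βc, Sum.elim_inr, opL_apply, mul_rankOne, ContinuousLinearMap.mul_apply, hb']
  have hJ : ∀ c : dg T, B * c * B ∈ Jm p := fun c => Jm_mul (Jm_right hB c) hB
  have hC : ∀ c : dg T, B * c * B ∈ Cp H := fun c => Cp_mul_left _ cB
  set w := B * c0 * B with hw
  let bw : H → dg T := fun ξ => b ((c0 : H →L[ℂ] H) (B ξ))
  let bw' : H → dg T := fun η => b' (star (c0 : H →L[ℂ] H) (star B η))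
  have hbw : ∀ ξ, w ξ = (bw ξ : H →L[ℂ] H) ω := fun ξ => by
    simp only [hw, bw, ContinuousLinearMap.mul_apply, ← hb]
  have hbw' : ∀ ξ, star w ξ = (bw' ξ : H →L[ℂ] H) ω := fun ξ => by
    simp only [hw, bw', star_mul, ContinuousLinearMap.mul_apply, ← hb']
  let Gl : H → H → dg T := fun ξ η =>
    ∑ j, star (b' (star (αc c0 j : H →L[ℂ] H) η)) * b ((βc c0 j : H →L[ℂ] H) ξ)
  let Gr : H → H → dg T := fun ξ η =>
    ∑ i, v i * b (star (bw' (star (u i : H →L[ℂ] H) η) : H →L[ℂ] H) ξ) +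
      ∑ i, star (b (star (bw ((v i : H →L[ℂ] H) ξ) : H →L[ℂ] H) η)) * u i
  have h1 : ∀ (c : dg T) ξ η, ⟪η, (∑ j, sch T (B * c * B) (αc c0 j) (βc c0 j)) ξ⟫_ℂ =
      ⟪ω, ((c * Gl ξ η : dg T) : H →L[ℂ] H) ω⟫_ℂ := by
    intro c ξ η
    simp only [Gl, Finset.mul_sum, coe_sum', ContinuousLinearMap.sum_apply, inner_sum]
    refine Finset.sum_congr rfl (fun j _ => ?_)
    rw [mul_left_comm]
    simp only [sch_apply, MulMemClass.coe_mul, ContinuousLinearMap.mul_apply, coe_star',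
      inner_star_right, ← hb, ← hb', inner_star_left]
  have h2 : ∀ (c : dg T) ξ η, ⟪η, (∑ j, sch T w (αc c j) (βc c j)) ξ⟫_ℂ =
      ⟪ω, ((c * Gr ξ η : dg T) : H →L[ℂ] H) ω⟫_ℂ := by
    intro c ξ η
    simp only [Gr, mul_add, Finset.mul_sum, coe_sum', AddMemClass.coe_add,
      ContinuousLinearMap.add_apply, ContinuousLinearMap.sum_apply, inner_sum, inner_add_right,
      Fintype.sum_sum_type]
    congr 1
    · refine Finset.sum_congr rfl (fun i _ => ?_)
      simp only [αc, βc, Sum.elim_inl, sch_apply, ContinuousLinearMap.mul_apply, coe_star']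
      rw [← inner_star_left, ← inner_star_left, hbw', inner_star_right, dg_comm_apply, ← hb',
        ← inner_star_right, inner_star_left, inner_star_left, inner_star_left, hb,
        mul_left_comm]
      rfl
    · refine Finset.sum_congr rfl (fun i _ => ?_)
      simp only [αc, βc, Sum.elim_inr, sch_apply, ContinuousLinearMap.mul_apply]
      rw [hbw, dg_comm_apply, ← hb', ← inner_star_left, inner_star_right, hb, ← inner_star_right,
        mul_left_comm]
      rfl
  have h3 : ∀ ξ η, Gl ξ η = Gr ξ η := by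
    intro ξ η
    apply eq_of_state hω
    intro c
    rw [← h1, ← h2, cross hp (hJ c0) (hJ (star c0)) (hJ c) (hJ (star c)) (hC c0) (hC c)
      (hδ c0) (hδ c)]
  have h4 : ∀ ξ η, Gl ξ η = 0 := by
    intro ξ η
    apply eq_zero_of_chars
    intro χ
    obtain ⟨e, he⟩ := hχ χ
    obtain ⟨e', he'⟩ := hχ' χ
    let L : H →L[ℂ] H := ∑ j, rankOne ℂ ((αc c0 j : H →L[ℂ] H) ((e' : H →L[ℂ] H) ω))
      (star (βc c0 j : H →L[ℂ] H) ((e : H →L[ℂ] H) ω))
    let R : H →L[ℂ] H := ∑ i, χ (v i) • sch T w (u i) (star e) + ∑ i, χ (u i) • sch T w e (v i)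
    have hL : ∀ ξ η, χ (Gl ξ η) = ⟪η, L ξ⟫_ℂ := by
      intro ξ η
      simp only [Gl, L, map_sum, map_mul, map_star, he, he', ContinuousLinearMap.sum_apply,
        inner_sum, rankOne_apply, inner_smul_right, inner_star_left, inner_star_right]
      refine Finset.sum_congr rfl (fun j _ => ?_)
      rw [mul_comm]
      congr 1
      exact inner_conj_symm _ _
    have hR : ∀ ξ η, χ (Gr ξ η) = ⟪η, R ξ⟫_ℂ := by
      intro ξ η
      simp only [Gr, R, map_add, map_sum, map_mul, map_star, he, ContinuousLinearMap.sum_apply,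
        ContinuousLinearMap.add_apply, ContinuousLinearMap.smul_apply, inner_add_right,
        inner_sum, inner_smul_right, sch_apply, ContinuousLinearMap.mul_apply, coe_star']
      congr 1
      · refine Finset.sum_congr rfl (fun i _ => ?_)
        rw [inner_star_right, dg_comm_apply, ← hbw', ← inner_star_right, inner_star_left,
          inner_star_left]
      · refine Finset.sum_congr rfl (fun i _ => ?_)
        rw [mul_comm, inner_star_right, dg_comm_apply, ← hbw]
        congr 1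
        exact inner_conj_symm _ _
    have hLR : L = R := op_ext_inner (fun ξ η => by rw [← hL, ← hR, h3])
    have hRJ : R ∈ Jm p :=
      Submodule.add_mem _
        (Submodule.sum_mem _ (fun i _ => Submodule.smul_mem _ _ (sch_mem (hJ c0) _ _)))
        (Submodule.sum_mem _ (fun i _ => Submodule.smul_mem _ _ (sch_mem (hJ c0) _ _)))
    have hL0 : L = 0 := hp L (hLR ▸ hRJ) (finRank_sum _ _)
    rw [hL, hL0]
    simp
  apply final_zero hω hp Finset.univ (αc c0) (βc c0) w _ (hJ c0) (hJ (star c0)) (hC c0) _ (hδ c0)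
  · apply op_ext_inner
    intro ξ η
    rw [h1, h4]
    simp
  · refine ⟨bw', hbw', fun χ => ?_⟩
    obtain ⟨e', he'⟩ := hχ' χ
    refine ⟨b ((c0 : H →L[ℂ] H) ((e' : H →L[ℂ] H) ω)), fun η => ?_⟩
    simp only [bw']
    rw [he', inner_star_right, inner_star_right, hb]

theorem Ker.add {W W' : H →L[ℂ] H} (h : Ker T ω W) (h' : Ker T ω W') : Ker T ω (W + W') := by
  obtain ⟨b, hb, hχ⟩ := h
  obtain ⟨b', hb', hχ'⟩ := h'
  refine ⟨fun ξ => b ξ + b' ξ, fun ξ => by simp [hb, hb'], fun χ => ?_⟩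
  obtain ⟨e, he⟩ := hχ χ
  obtain ⟨e', he'⟩ := hχ' χ
  exact ⟨e + e', fun ξ => by simp [he, he']⟩

/-- Evaluation at a vector. -/
noncomputable def evAt (T : Subalgebra ℂ (H →L[ℂ] H)) (ω : H) : dg T →L[ℂ] H :=
  (ContinuousLinearMap.apply ℂ H ω) ∘L (dg T).toSubalgebra.toSubmodule.subtypeL

theorem evAt_apply (d : dg T) : evAt T ω d = (d : H →L[ℂ] H) ω := rfl

theorem Ker.of_hasSum {ι : Type*} {σ : ι → ℂ} (hσ : Summable (fun n => ‖σ n‖))
    {X Y : ι → dg T} {C : ℝ} (hX : ∀ n, ‖X n‖ ≤ C) (hY : ∀ n, ‖Y n‖ ≤ C) {W : H →L[ℂ] H}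
    (h : HasSum (fun n => σ n • rankOne ℂ ((X n : H →L[ℂ] H) ω) ((Y n : H →L[ℂ] H) ω)) W) :
    Ker T ω W := by
  have hs : ∀ ξ, Summable (fun n => (σ n * ⟪(Y n : H →L[ℂ] H) ω, ξ⟫_ℂ) • X n) := by
    intro ξ
    apply Summable.of_norm_bounded (hσ.mul_right (C * ‖ω‖ * ‖ξ‖ * C))
    intro n
    rw [norm_smul, norm_mul, mul_assoc]
    have hC : 0 ≤ C := (norm_nonneg _).trans (hX n)
    apply mul_le_mul_of_nonneg_left _ (norm_nonneg _)
    apply mul_le_mul _ (hX n) (norm_nonneg _) (by positivity)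
    refine (norm_inner_le_norm _ _).trans (mul_le_mul_of_nonneg_right ?_ (norm_nonneg _))
    exact (ContinuousLinearMap.le_opNorm _ _).trans
      (mul_le_mul_of_nonneg_right (hY n) (norm_nonneg _))
  refine ⟨fun ξ => ∑' n, (σ n * ⟪(Y n : H →L[ℂ] H) ω, ξ⟫_ℂ) • X n, fun ξ => ?_, fun χ => ?_⟩
  · have h1 := (hs ξ).hasSum.mapL (evAt T ω)
    have h2 := h.mapL (ContinuousLinearMap.apply ℂ H ξ)
    simp only [ContinuousLinearMap.apply_apply, ContinuousLinearMap.smul_apply, rankOne_apply,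
      smul_smul] at h2
    simp only [map_smul, evAt_apply] at h1
    exact h2.unique h1
  · have hχ : ∀ d : dg T, ‖χ d‖ ≤ ‖WeakDual.CharacterSpace.toCLM χ‖ * ‖d‖ := fun d =>
      (WeakDual.CharacterSpace.toCLM χ).le_opNorm d
    have hs' : Summable (fun n => star (σ n * χ (X n)) • Y n) := by
      apply Summable.of_norm_bounded (hσ.mul_right (‖WeakDual.CharacterSpace.toCLM χ‖ * C * C))
      intro n
      rw [norm_smul, norm_star, norm_mul, mul_assoc]
      have hC : 0 ≤ C := (norm_nonneg _).trans (hX n)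
      apply mul_le_mul_of_nonneg_left _ (norm_nonneg _)
      exact mul_le_mul ((hχ _).trans (mul_le_mul_of_nonneg_left (hX n) (norm_nonneg _)))
        (hY n) (norm_nonneg _) (by positivity)
    refine ⟨∑' n, star (σ n * χ (X n)) • Y n, fun ξ => ?_⟩
    have h1 := (hs ξ).hasSum.mapL (WeakDual.CharacterSpace.toCLM χ)
    have h2 := ((hs'.hasSum.mapL (evAt T ω)).mapL (innerSL ℂ ξ)).star
    simp only [map_smul, WeakDual.CharacterSpace.coe_toCLM, smul_eq_mul] at h1
    simp only [map_smul, evAt_apply, innerSL_apply_apply, smul_eq_mul, star_mul',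
      RCLike.star_def, inner_conj_symm] at h2
    refine h1.unique ?_
    simpa only [mul_right_comm, Complex.conj_conj, star_mul', RCLike.star_def] using h2

/-- Self-adjoint nuclear plus finite rank. -/
def Nuc (B : H →L[ℂ] H) : Prop :=
  ∃ (ι : Type) (σ : ι → ℝ) (γ : ι → H) (κ : Type) (_ : Fintype κ) (f g : κ → H)
    (B0 : H →L[ℂ] H), Summable (fun n => ‖σ n‖) ∧ Summable (fun n => ‖γ n‖ ^ 2) ∧
    HasSum (fun n => (σ n : ℂ) • rankOne ℂ (γ n) (γ n)) B0 ∧
    B = B0 + ∑ i, rankOne ℂ (f i) (g i)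

omit hT in
theorem Nuc.conj {B : H →L[ℂ] H} (h : Nuc B) (a : H →L[ℂ] H) : Nuc (a * B * star a) := by
  obtain ⟨ι, σ, γ, κ, hκ, f, g, B0, h1, h2, h3, h4⟩ := h
  refine ⟨ι, σ, fun n => a (γ n), κ, hκ, fun i => a (f i), fun i => a (g i), a * B0 * star a,
    h1, ?_, ?_, ?_⟩
  · refine Summable.of_nonneg_of_le (fun n => by positivity) (fun n => ?_) (h2.mul_left (‖a‖ ^ 2))
    rw [← mul_pow]
    exact pow_le_pow_left₀ (norm_nonneg _) (a.le_opNorm _) 2
  · have h5 := (h3.mul_left a).mul_right (star a)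
    simpa only [mul_smul_comm, smul_mul_assoc, mul_rankOne, rankOne_mul, star_star] using h5
  · rw [h4, mul_add, add_mul, Finset.mul_sum, Finset.sum_mul]
    simp only [mul_rankOne, rankOne_mul, star_star]

theorem sq_zero_of_noFin (hω : Cyc T ω) (hp : NoFin p) {B : H →L[ℂ] H} (hB : B ∈ Jm p)
    (hN : Nuc B) : B * B = 0 := by
  obtain ⟨ι, σ, γ, κ, hκ, f, g, B0, h1, h2, h3, h4⟩ := hN
  obtain ⟨a, ha1, ha2, ha3⟩ := exists_dom hω (Sum.elim γ (Sum.elim f g) : ι ⊕ κ ⊕ κ → H)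
    (Summable.sum _ h2 Summable.of_finite)
  choose y hy1 hy2 using ha3
  have has : star (a : H →L[ℂ] H) = a := congrArg Subtype.val ha1
  have hγ : ∀ n, (a : H →L[ℂ] H) (γ n) = (y (Sum.inl n) : H →L[ℂ] H) ω := fun n => hy2 (Sum.inl n)
  have hf : ∀ n, (a : H →L[ℂ] H) (f n) = (y (Sum.inr (Sum.inl n)) : H →L[ℂ] H) ω :=
    fun n => hy2 (Sum.inr (Sum.inl n))
  have hg : ∀ n, (a : H →L[ℂ] H) (g n) = (y (Sum.inr (Sum.inr n)) : H →L[ℂ] H) ω :=
    fun n => hy2 (Sum.inr (Sum.inr n))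
  have h5 : HasSum (fun n => (σ n : ℂ) • rankOne ℂ ((y (Sum.inl n) : H →L[ℂ] H) ω)
      ((y (Sum.inl n) : H →L[ℂ] H) ω)) (a * B0 * a) := by
    have h5 := (h3.mul_left (a : H →L[ℂ] H)).mul_right (a : H →L[ℂ] H)
    simpa only [mul_smul_comm, smul_mul_assoc, mul_rankOne, rankOne_mul, has, hγ] using h5
  have h6 : star ((a : H →L[ℂ] H) * B0 * a) = a * B0 * a := by
    have h6 := h5.star
    simp only [star_smul, star_rankOne, RCLike.star_def, Complex.conj_ofReal] at h6
    exact h6.unique h5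
  have K0 : Ker T ω (a * B0 * a) :=
    Ker.of_hasSum (by simpa using h1) (fun n => hy1 _) (fun n => hy1 _) h5
  have hfin : ∀ X Y : κ → dg T, (∀ n, ‖X n‖ ≤ 1) → (∀ n, ‖Y n‖ ≤ 1) →
      Ker T ω (∑ i, rankOne ℂ ((X i : H →L[ℂ] H) ω) ((Y i : H →L[ℂ] H) ω)) := by
    intro X Y hX hY
    apply Ker.of_hasSum (σ := fun _ => 1) Summable.of_finite hX hY
    simpa using hasSum_fintype (fun i => rankOne ℂ ((X i : H →L[ℂ] H) ω) ((Y i : H →L[ℂ] H) ω))
  have h7 : (a : H →L[ℂ] H) * B * a = a * B0 * a + ∑ i, rankOne ℂ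
      ((y (Sum.inr (Sum.inl i)) : H →L[ℂ] H) ω) ((y (Sum.inr (Sum.inr i)) : H →L[ℂ] H) ω) := by
    rw [h4, mul_add, add_mul, Finset.mul_sum, Finset.sum_mul]
    simp only [mul_rankOne, rankOne_mul, has, hf, hg]
  have h8 : star ((a : H →L[ℂ] H) * B * a) = a * B0 * a + ∑ i, rankOne ℂ
      ((y (Sum.inr (Sum.inr i)) : H →L[ℂ] H) ω) ((y (Sum.inr (Sum.inl i)) : H →L[ℂ] H) ω) := by
    rw [h7, star_add, h6, star_sum]
    simp only [star_rankOne]
  have h9 : ∀ c : dg T, (a * B * a) * c * (a * B * a) = (0 : H →L[ℂ] H) := by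
    intro c
    apply sandwich_zero hω hp (Jm_right (Jm_left a hB) a) (κ := κ ⊕ κ)
      (u := Sum.elim (fun i => y (Sum.inr (Sum.inl i))) (fun i => -y (Sum.inr (Sum.inr i))))
      (v := Sum.elim (fun i => star (y (Sum.inr (Sum.inr i))))
        (fun i => star (y (Sum.inr (Sum.inl i)))))
    · rw [h7]
      exact Submodule.add_mem _
        (Cp_of_hasSum h5 (fun n => Submodule.smul_mem _ _ (Cp_rankOne _ _)))
        (Submodule.sum_mem _ (fun i _ => Cp_rankOne _ _))
    · rw [h7]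
      exact K0.add (hfin _ _ (fun n => hy1 _) (fun n => hy1 _))
    · rw [h8]
      exact K0.add (hfin _ _ (fun n => hy1 _) (fun n => hy1 _))
    · rw [h8, h7, Fintype.sum_sum_type]
      simp only [Sum.elim_inl, Sum.elim_inr, map_neg, LinearMap.neg_apply, opL_apply, coe_star',
        star_star, Finset.sum_neg_distrib]
      abel
  have hcanc : ∀ X : H →L[ℂ] H, a * X = 0 → X = 0 := by
    intro X hX
    ext ξ
    exact ha2 _ (congrArg (fun Z : H →L[ℂ] H => Z ξ) hX)
  have h10 : ∀ c : dg T, B * (a * c * a) * B = (0 : H →L[ℂ] H) := by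
    intro c
    have h11 : B * (a * c * a) * B * a = (0 : H →L[ℂ] H) := by
      apply hcanc
      rw [← h9 c]
      simp only [mul_assoc]
    have h12 := congrArg star h11
    rw [star_mul, has, star_zero] at h12
    simpa using congrArg star (hcanc _ h12)
  ext ξ
  have h13 : ∀ x, ((a * a : dg T) : H →L[ℂ] H) x = 0 → x = 0 := fun x hx => ha2 _ (ha2 _ hx)
  have h14 : orb T {((a * a : dg T) : H →L[ℂ] H) (B ξ)} ≤ LinearMap.ker (B : H →ₗ[ℂ] H) := by
    apply orb_le (ContinuousLinearMap.isClosed_ker B)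
    rintro d x rfl
    have h15 := congrArg (fun Z : H →L[ℂ] H => Z ξ) (h10 d)
    simp only [ContinuousLinearMap.mul_apply] at h15
    rw [← dg_comm_apply d a] at h15
    exact h15
  exact h14 (mem_orb_of_inj h13 (B ξ))

end Pool.Agent.Lib.MP_690138_an.KS
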