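import Mathlib

set_option autoImplicit false

open scoped InnerProductSpace
open Filter Topology

namespace Pool.Agent.Lib.MP_690138_an

variable {H : Type*} [NormedAddCommGroup H] [InnerProductSpace ℂ H] [CompleteSpace H]

/-- The Hilbert basis `n ↦ ε (n + s)`. -/
noncomputable def shiftBasis (ε : HilbertBasis ℤ ℂ H) (s : ℤ) : HilbertBasis ℤ ℂ H :=
  HilbertBasis.mk (v := fun n => ε (n + s))
    (ε.orthonormal.comp (fun n => n + s) (add_left_injective s))
    (by
      have h : Set.range (fun n : ℤ => ε (n + s)) = Set.range ε := by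
        ext y
        constructor
        · rintro ⟨n, rfl⟩
          exact ⟨n + s, rfl⟩
        · rintro ⟨n, rfl⟩
          exact ⟨n - s, by simp⟩
      rw [h, ε.dense_span])

theorem shiftBasis_apply (ε : HilbertBasis ℤ ℂ H) (s n : ℤ) : shiftBasis ε s n = ε (n + s) := by
  unfold shiftBasis
  rw [HilbertBasis.coe_mk]

/-- The bilateral shift by `s`, as an isometric equivalence. -/
noncomputable def shiftE (ε : HilbertBasis ℤ ℂ H) (s : ℤ) : H ≃ₗᵢ[ℂ] H :=
  ε.repr.trans (shiftBasis ε s).repr.symm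

/-- The bilateral shift by `s`. -/
noncomputable def shift (ε : HilbertBasis ℤ ℂ H) (s : ℤ) : H →L[ℂ] H :=
  (shiftE ε s).toContinuousLinearEquiv.toContinuousLinearMap

theorem shift_eq (ε : HilbertBasis ℤ ℂ H) (s : ℤ) (x : H) : shift ε s x = shiftE ε s x := rfl

theorem shift_apply (ε : HilbertBasis ℤ ℂ H) (s n : ℤ) : shift ε s (ε n) = ε (n + s) := by
  classical
  rw [shift_eq]
  unfold shiftE
  rw [LinearIsometryEquiv.trans_apply, ε.repr_self, HilbertBasis.repr_symm_single,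
    shiftBasis_apply]

theorem norm_shift (ε : HilbertBasis ℤ ℂ H) (s : ℤ) (x : H) : ‖shift ε s x‖ = ‖x‖ := by
  rw [shift_eq, LinearIsometryEquiv.norm_map]

theorem inner_shift (ε : HilbertBasis ℤ ℂ H) (s : ℤ) (x y : H) :
    ⟪shift ε s x, shift ε s y⟫_ℂ = ⟪x, y⟫_ℂ := by
  rw [shift_eq, shift_eq, LinearIsometryEquiv.inner_map_map]

omit [CompleteSpace H] in
theorem vec_ext (ε : HilbertBasis ℤ ℂ H) {x y : H} (h : ∀ m, ⟪ε m, x⟫_ℂ = ⟪ε m, y⟫_ℂ) :
    x = y := by
  apply ε.repr.injective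
  ext m
  rw [ε.repr_apply_apply, ε.repr_apply_apply, h]

omit [CompleteSpace H] in
theorem op_ext (ε : HilbertBasis ℤ ℂ H) {S T : H →L[ℂ] H} (h : ∀ n, S (ε n) = T (ε n)) :
    S = T := by
  apply ContinuousLinearMap.ext_on (s := Set.range ε)
  · have := ε.dense_span
    rw [← Submodule.dense_iff_topologicalClosure_eq_top] at this
    exact this
  · rintro _ ⟨n, rfl⟩
    exact h n

omit [CompleteSpace H] in
theorem op_ext' (ε : HilbertBasis ℤ ℂ H) {S T : H →L[ℂ] H}
    (h : ∀ m n, ⟪ε m, S (ε n)⟫_ℂ = ⟪ε m, T (ε n)⟫_ℂ) : S = T :=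
  op_ext ε fun n => vec_ext ε fun m => h m n

omit [CompleteSpace H] in
theorem inner_basis (ε : HilbertBasis ℤ ℂ H) (m n : ℤ) :
    ⟪ε m, ε n⟫_ℂ = if m = n then 1 else 0 :=
  orthonormal_iff_ite.mp ε.orthonormal m n

theorem star_shift (ε : HilbertBasis ℤ ℂ H) (s : ℤ) : star (shift ε s) = shift ε (-s) := by
  apply op_ext' ε
  intro m n
  rw [ContinuousLinearMap.star_eq_adjoint, ContinuousLinearMap.adjoint_inner_right, shift_apply,
    shift_apply, inner_basis, inner_basis]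
  by_cases h : m + s = n
  · rw [if_pos h, if_pos (by omega)]
  · rw [if_neg h, if_neg (by omega)]

/-- The commutant of the bilateral shifts. -/
noncomputable def diag (ε : HilbertBasis ℤ ℂ H) : Subalgebra ℂ (H →L[ℂ] H) :=
  Subalgebra.centralizer ℂ (Set.range (shift ε))

theorem mem_diag {ε : HilbertBasis ℤ ℂ H} {d : H →L[ℂ] H} :
    d ∈ diag ε ↔ ∀ s, shift ε s * d = d * shift ε s := by
  unfold diag
  rw [Subalgebra.mem_centralizer_iff]
  constructor
  · intro h s
    exact h _ ⟨s, rfl⟩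
  · rintro h _ ⟨s, rfl⟩
    exact h s

theorem shift_mem_diag (ε : HilbertBasis ℤ ℂ H) (s : ℤ) : shift ε s ∈ diag ε := by
  rw [mem_diag]
  intro t
  apply op_ext ε
  intro n
  simp only [ContinuousLinearMap.mul_apply, shift_apply]
  congr 1
  ring

theorem star_mem_diag {ε : HilbertBasis ℤ ℂ H} {d : H →L[ℂ] H} (hd : d ∈ diag ε) :
    star d ∈ diag ε := by
  rw [mem_diag] at hd ⊢
  intro s
  have := congrArg star (hd (-s))
  rw [star_mul, star_mul, star_shift, neg_neg] at this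
  exact this.symm

/-- The Fourier coefficients of an operator. -/
noncomputable def hat (ε : HilbertBasis ℤ ℂ H) (d : H →L[ℂ] H) (γ : ℤ) : ℂ :=
  ⟪ε γ, d (ε 0)⟫_ℂ

theorem diag_apply {ε : HilbertBasis ℤ ℂ H} {d : H →L[ℂ] H} (hd : d ∈ diag ε) (n : ℤ) :
    d (ε n) = shift ε n (d (ε 0)) := by
  have := congrArg (fun T : H →L[ℂ] H => T (ε 0)) (mem_diag.mp hd n)
  simp only [ContinuousLinearMap.mul_apply, shift_apply, zero_add] at this
  exact this.symm

theorem inner_diag {ε : HilbertBasis ℤ ℂ H} {d : H →L[ℂ] H} (hd : d ∈ diag ε) (m n : ℤ) :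
    ⟪ε m, d (ε n)⟫_ℂ = hat ε d (m - n) := by
  rw [diag_apply hd n]
  have h : ε m = shift ε n (ε (m - n)) := by
    rw [shift_apply]
    congr 1
    ring
  rw [h, inner_shift]
  rfl

theorem hasSum_diag {ε : HilbertBasis ℤ ℂ H} {d : H →L[ℂ] H} (hd : d ∈ diag ε) (m : ℤ) (y : H) :
    HasSum (fun l => hat ε d (m - l) * ⟪ε l, y⟫_ℂ) ⟪ε m, d y⟫_ℂ := by
  have h := ε.hasSum_inner_mul_inner (ContinuousLinearMap.adjoint d (ε m)) y
  simp only [ContinuousLinearMap.adjoint_inner_left] at h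
  simp only [inner_diag hd] at h
  exact h

theorem diag_comm {ε : HilbertBasis ℤ ℂ H} {d e : H →L[ℂ] H} (hd : d ∈ diag ε)
    (he : e ∈ diag ε) : d * e = e * d := by
  apply op_ext' ε
  intro m n
  have h1 := hasSum_diag hd m (e (ε n))
  have h2 := hasSum_diag he m (d (ε n))
  simp only [inner_diag hd, inner_diag he] at h1 h2
  rw [← (Equiv.subLeft (m + n)).hasSum_iff] at h2
  simp only [ContinuousLinearMap.mul_apply]
  refine h1.unique ?_
  refine h2.congr_fun ?_
  intro l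
  simp only [Function.comp_apply, Equiv.subLeft_apply]
  rw [mul_comm]
  congr 2 <;> ring

theorem centralizer_diag (ε : HilbertBasis ℤ ℂ H) :
    Set.centralizer (diag ε : Set (H →L[ℂ] H)) = diag ε := by
  ext x
  constructor
  · intro hx
    rw [SetLike.mem_coe, mem_diag]
    intro s
    exact hx _ (shift_mem_diag ε s)
  · intro hx d hd
    exact diag_comm hd hx

theorem diag_tensor {ε : HilbertBasis ℤ ℂ H} {ι : Type*} (s : Finset ι) (d Z : ι → H →L[ℂ] H)
    (hd : ∀ a ∈ s, d a ∈ diag ε) (h : ∀ γ, ∑ a ∈ s, hat ε (d a) γ • Z a = 0) :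
    ∑ a ∈ s, d a * Z a = 0 := by
  ext y
  apply vec_ext ε
  intro m
  have h1 : HasSum (fun l => ∑ a ∈ s, hat ε (d a) (m - l) * ⟪ε l, Z a y⟫_ℂ)
      (∑ a ∈ s, ⟪ε m, d a (Z a y)⟫_ℂ) :=
    hasSum_sum fun a ha => hasSum_diag (hd a ha) m (Z a y)
  have h2 : ∀ l, ∑ a ∈ s, hat ε (d a) (m - l) * ⟪ε l, Z a y⟫_ℂ = 0 := by
    intro l
    have := congrArg (fun T : H →L[ℂ] H => ⟪ε l, T y⟫_ℂ) (h (m - l))
    simpa [ContinuousLinearMap.sum_apply, inner_sum, inner_smul_right] using this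
  simp only [h2] at h1
  have h3 := h1.unique hasSum_zero
  simp only [ContinuousLinearMap.sum_apply, ContinuousLinearMap.mul_apply, inner_sum,
    ContinuousLinearMap.zero_apply, inner_zero_right]
  exact h3

omit [CompleteSpace H] in
theorem hat_tendsto (ε : HilbertBasis ℤ ℂ H) (d : H →L[ℂ] H) :
    Tendsto (hat ε d) cofinite (𝓝 0) := by
  have h := (ε.summable_inner_mul_inner (d (ε 0)) (d (ε 0))).tendsto_cofinite_zero
  rw [tendsto_zero_iff_norm_tendsto_zero] at h ⊢
  have h2 : Tendsto (fun γ => ‖hat ε d γ‖ ^ 2) cofinite (𝓝 0) := by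
    refine h.congr ?_
    intro γ
    unfold hat
    rw [norm_mul, norm_inner_symm, sq]
  have h3 := h2.sqrt
  simpa using h3

theorem hat_one (ε : HilbertBasis ℤ ℂ H) : hat ε 1 0 = 1 := by
  unfold hat
  rw [ContinuousLinearMap.one_apply, inner_basis, if_pos rfl]

end Pool.Agent.Lib.MP_690138_an
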