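import Pool.Agent.Lib.MP_690138_an.Frame

set_option autoImplicit false
set_option linter.unusedSectionVars false
set_option linter.deprecated false

open scoped InnerProductSpace
open Filter Topology Polynomial

namespace Pool.Agent.Lib.MP_690138_an

variable {H : Type*} [NormedAddCommGroup H] [InnerProductSpace ℂ H] [CompleteSpace H]

theorem isCompactOperator_star {T : H →L[ℂ] H} (hT : IsCompactOperator T) :
    IsCompactOperator (star T : H →L[ℂ] H) := by
  by_contra hn
  obtain ⟨c, hc, hF⟩ := exists_unit_of_not_compact hn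
  have hK := hT.isCompact_closure_image_closedBall (𝕜₁ := ℂ) (f := (T : H →ₗ[ℂ] H)) ‖star T‖
  obtain ⟨F, hFfin, hcover⟩ := Metric.totallyBounded_iff.mp hK.totallyBounded (c ^ 2)
    (by positivity)
  obtain ⟨ξ, h1, h2, h3⟩ := hF hFfin.toFinset
  have h4 : T ((star T : H →L[ℂ] H) ξ) ∈ ⋃ y ∈ F, Metric.ball y (c ^ 2) := by
    apply hcover
    apply subset_closure
    refine ⟨(star T : H →L[ℂ] H) ξ, ?_, rfl⟩
    rw [mem_closedBall_zero_iff]
    have := (star T : H →L[ℂ] H).le_opNorm ξ
    rwa [h1, mul_one] at this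
  simp only [Set.mem_iUnion] at h4
  obtain ⟨y, hy, h5⟩ := h4
  rw [Metric.mem_ball, dist_eq_norm] at h5
  have h6 : ⟪T ((star T : H →L[ℂ] H) ξ) - y, ξ⟫_ℂ =
      ⟪(star T : H →L[ℂ] H) ξ, (star T : H →L[ℂ] H) ξ⟫_ℂ := by
    rw [inner_sub_left, h2 y (hFfin.mem_toFinset.mpr hy), sub_zero,
      ContinuousLinearMap.star_eq_adjoint, ContinuousLinearMap.adjoint_inner_right]
  have h7 := norm_inner_le_norm (𝕜 := ℂ) (T ((star T : H →L[ℂ] H) ξ) - y) ξ
  rw [h6, h1, mul_one, inner_self_eq_norm_sq_to_K, norm_pow, RCLike.norm_ofReal, abs_norm] at h7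
  nlinarith

theorem rowIndep_succ {α : ℕ → ℕ → ℂ} (h0 : α 0 0 = 1) (hz : ∀ j i, j < i → α j i = 0)
    (h : ∀ (t : Finset ℕ) (a : ℕ → ℂ), (∀ i, ∑ j ∈ t, a j * α j i = 0) → ∀ j ∈ t, a j = 0) :
    RowIndep (fun j i => α (j + 1) (i + 1)) := by
  classical
  intro t a ha j hj
  have := h (insert 0 (t.map ⟨Nat.succ, Nat.succ_injective⟩))
    (fun j => Nat.casesOn j (-∑ j ∈ t, a j * α (j + 1) 0) a) ?_ (j + 1)
    (Finset.mem_insert_of_mem (Finset.mem_map_of_mem _ hj))
  · exact this
  · intro i
    rw [Finset.sum_insert (by simp), Finset.sum_map]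
    cases i with
    | zero =>
      rw [h0]
      simp
    | succ i =>
      rw [hz 0 (i + 1) (Nat.succ_pos i), mul_zero, zero_add]
      exact ha i

/-- The letters `1, A, A*, A², (A*)², …`. -/
noncomputable def letters (A : H →L[ℂ] H) (j : ℕ) : H →L[ℂ] H :=
  if j % 2 = 1 then A ^ ((j + 1) / 2) else star A ^ (j / 2)

theorem letters_indep (A : H →L[ℂ] H)
    (hA : ∀ h : ℂ[X], 0 < h.natDegree → ¬ IsCompactOperator (aeval A h - star (aeval A h)))
    (t : Finset ℕ) (a : ℕ → ℂ)
    (hc : IsCompactOperator (∑ j ∈ t, a j • letters A j : H →L[ℂ] H)) : ∀ j ∈ t, a j = 0 := by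
  classical
  let p : ℂ[X] := ∑ j ∈ t.filter (fun j => j % 2 = 1), monomial ((j + 1) / 2) (a j)
  let q : ℂ[X] := ∑ j ∈ t.filter (fun j => ¬ j % 2 = 1), monomial (j / 2) (star (a j))
  have hS : (∑ j ∈ t, a j • letters A j : H →L[ℂ] H) = aeval A p + star (aeval A q) := by
    rw [← Finset.sum_filter_add_sum_filter_not t (fun j => j % 2 = 1)]
    simp only [p, q, map_sum, star_sum]
    congr 1
    · refine Finset.sum_congr rfl fun j hj => ?_
      rw [aeval_monomial, letters, if_pos (Finset.mem_filter.mp hj).2, Algebra.smul_def]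
    · refine Finset.sum_congr rfl fun j hj => ?_
      rw [aeval_monomial, letters, if_neg (Finset.mem_filter.mp hj).2, ← Algebra.smul_def,
        star_smul, star_star, star_pow]
  rw [hS] at hc
  have hc' : IsCompactOperator (star (aeval A p + star (aeval A q)) : H →L[ℂ] H) :=
    isCompactOperator_star hc
  have h1 : (p - q).natDegree = 0 := by
    by_contra hne
    apply hA _ (Nat.pos_of_ne_zero hne)
    have : (aeval A (p - q) - star (aeval A (p - q)) : H →L[ℂ] H) =
        (aeval A p + star (aeval A q)) - star (aeval A p + star (aeval A q)) := by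
      rw [map_sub, star_sub, star_add, star_star]
      abel
    rw [this]
    exact hc.sub hc'
  have h2 : (p + q).natDegree = 0 := by
    by_contra hne
    have hI : 0 < (C Complex.I * (p + q)).natDegree := by
      rw [natDegree_C_mul Complex.I_ne_zero]
      exact Nat.pos_of_ne_zero hne
    apply hA _ hI
    have : (aeval A (C Complex.I * (p + q)) - star (aeval A (C Complex.I * (p + q))) :
        H →L[ℂ] H) = Complex.I • ((aeval A p + star (aeval A q)) +
          star (aeval A p + star (aeval A q))) := by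
      rw [map_mul, aeval_C, ← Algebra.smul_def, star_smul, map_add, star_add, star_add, star_star]
      simp only [Complex.star_def, Complex.conj_I, smul_add, neg_smul]
      abel
    rw [this]
    exact (hc.add hc').smul Complex.I
  have hpq : ∀ m, 0 < m → p.coeff m = 0 ∧ q.coeff m = 0 := by
    intro m hm
    have h3 : (p - q).coeff m = 0 := coeff_eq_zero_of_natDegree_lt (by omega)
    have h4 : (p + q).coeff m = 0 := coeff_eq_zero_of_natDegree_lt (by omega)
    rw [coeff_sub] at h3
    rw [coeff_add] at h4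
    constructor
    · linear_combination (h3 + h4) / 2
    · linear_combination (h4 - h3) / 2
  have hpos : ∀ j ∈ t, j ≠ 0 → a j = 0 := by
    intro j hj hj0
    by_cases hodd : j % 2 = 1
    · have h3 := (hpq ((j + 1) / 2) (by omega)).1
      simp only [p, finset_sum_coeff, coeff_monomial] at h3
      rw [Finset.sum_eq_single j, if_pos rfl] at h3
      · exact h3
      · intro i hi hij
        have := (Finset.mem_filter.mp hi).2
        rw [if_neg (by omega)]
      · intro h
        exact absurd (Finset.mem_filter.mpr ⟨hj, hodd⟩) h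
    · have h3 := (hpq (j / 2) (by omega)).2
      simp only [q, finset_sum_coeff, coeff_monomial] at h3
      rw [Finset.sum_eq_single j, if_pos rfl] at h3
      · exact star_eq_zero.mp h3
      · intro i hi hij
        have := (Finset.mem_filter.mp hi).2
        rw [if_neg (by omega)]
      · intro h
        exact absurd (Finset.mem_filter.mpr ⟨hj, hodd⟩) h
  intro j hj
  by_cases hj0 : j = 0
  · subst hj0
    by_contra ha
    rw [← hS, Finset.sum_eq_single 0 (fun i hi hi0 => by rw [hpos i hi hi0, zero_smul])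
      (fun h => absurd hj h)] at hc
    have h3 : IsCompactOperator (letters A 0) := (IsCompactOperator.smul_iff₀ ha).mp hc
    have h4 : letters A 0 = 1 := by simp [letters]
    rw [h4] at h3
    apply hA X (by simp)
    exact h3.comp_clm (aeval A (X : ℂ[X]) - star (aeval A (X : ℂ[X])))
  · exact hpos j hj hj0

theorem star_mem_adjoin {ε : HilbertBasis ℤ ℂ H} (A : H →L[ℂ] H) {y : H →L[ℂ] H}
    (hy : y ∈ Algebra.adjoin ℂ (insert A (diag ε : Set (H →L[ℂ] H)))) :
    star y ∈ Algebra.adjoin ℂ (insert (star A) (diag ε : Set (H →L[ℂ] H))) := by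
  induction hy using Algebra.adjoin_induction with
  | mem x hx =>
    rcases hx with rfl | hx
    · exact Algebra.subset_adjoin (Set.mem_insert _ _)
    · exact Algebra.subset_adjoin (Set.mem_insert_of_mem _ (star_mem_diag hx))
  | algebraMap r =>
    rw [← algebraMap_star_comm]
    exact Subalgebra.algebraMap_mem _ _
  | add x z _ _ hx hz =>
    rw [star_add]
    exact Subalgebra.add_mem _ hx hz
  | mul x z _ _ hx hz =>
    rw [star_mul]
    exact Subalgebra.mul_mem _ hz hx

theorem exists_triangular [TopologicalSpace.SeparableSpace H] (A : H →L[ℂ] H)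
    (hA : ∀ h : ℂ[X], 0 < h.natDegree → ¬ IsCompactOperator (aeval A h - star (aeval A h))) :
    ∃ S : Subalgebra ℂ (H →L[ℂ] H), A ∈ S ∧
      {x : H →L[ℂ] H | x ∈ S ∧ star x ∈ S} =
        Set.centralizer {x : H →L[ℂ] H | x ∈ S ∧ star x ∈ S} := by
  obtain ⟨α, h0, hz, hind, hb⟩ := exists_blocks (letters A) (by simp [letters])
    (letters_indep A hA)
  obtain ⟨ε, hF⟩ := exists_frame (letters A) α hz hb
  refine ⟨Algebra.adjoin ℂ (insert A (diag ε : Set (H →L[ℂ] H))),
    Algebra.subset_adjoin (Set.mem_insert _ _), ?_⟩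
  have key : {x : H →L[ℂ] H | x ∈ Algebra.adjoin ℂ (insert A (diag ε : Set (H →L[ℂ] H))) ∧
      star x ∈ Algebra.adjoin ℂ (insert A (diag ε : Set (H →L[ℂ] H)))} = diag ε := by
    ext x
    constructor
    · rintro ⟨h1, h2⟩
      have h3 := star_mem_adjoin A h2
      rw [star_star] at h3
      refine hF.mem_diag (rowIndep_succ h0 hz hind) (J := Set.range fun m => 2 * m)
        (J' := Set.range fun m => 2 * m + 1) ?_
        (adjoin_le_nspan A (fun m => 2 * m) (fun m => α (2 * m + 1) 0) (fun m => ?_) h1)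
        (adjoin_le_nspan (star A) (fun m => 2 * m + 1) (fun m => α (2 * m + 1 + 1) 0)
          (fun m => ?_) h3)
      · rw [Set.disjoint_left]
        rintro _ ⟨m, rfl⟩ ⟨m', hm⟩
        simp only at hm
        omega
      · rw [letters, if_pos (by omega), show (2 * m + 1 + 1) / 2 = m + 1 by omega]
      · rw [letters, if_neg (by omega), show (2 * m + 1 + 1) / 2 = m + 1 by omega]
    · intro hx
      exact ⟨Algebra.subset_adjoin (Set.mem_insert_of_mem _ hx),
        Algebra.subset_adjoin (Set.mem_insert_of_mem _ (star_mem_diag hx))⟩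
  rw [key, centralizer_diag]

end Pool.Agent.Lib.MP_690138_an
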