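import Mathlib

set_option autoImplicit false
set_option linter.unusedSectionVars false
set_option linter.deprecated false

open scoped InnerProductSpace
open Filter Topology

namespace Pool.Agent.Lib.MP_690138_an.KS

variable {H : Type*} [NormedAddCommGroup H] [InnerProductSpace ℂ H] [CompleteSpace H]

/-- The diagonal of a subalgebra. -/
def dg (T : Subalgebra ℂ (H →L[ℂ] H)) : StarSubalgebra ℂ (H →L[ℂ] H) where
  carrier := {x | x ∈ T ∧ star x ∈ T}
  mul_mem' := fun {a b} ha hb => ⟨T.mul_mem ha.1 hb.1, by rw [star_mul]; exact T.mul_mem hb.2 ha.2⟩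
  add_mem' := fun {a b} ha hb => ⟨T.add_mem ha.1 hb.1, by rw [star_add]; exact T.add_mem ha.2 hb.2⟩
  algebraMap_mem' := fun r => ⟨T.algebraMap_mem r, by
    rw [← algebraMap_star_comm]; exact T.algebraMap_mem _⟩
  star_mem' := fun {a} ha => ⟨ha.2, by rw [star_star]; exact ha.1⟩

/-- Triangularity. -/
class IsTri (T : Subalgebra ℂ (H →L[ℂ] H)) : Prop where
  eq : {x : H →L[ℂ] H | x ∈ T ∧ star x ∈ T} =
    Set.centralizer {x : H →L[ℂ] H | x ∈ T ∧ star x ∈ T}

variable {T : Subalgebra ℂ (H →L[ℂ] H)}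

theorem mem_dg {x : H →L[ℂ] H} : x ∈ dg T ↔ x ∈ T ∧ star x ∈ T := Iff.rfl

theorem dg_mem (d : dg T) : (d : H →L[ℂ] H) ∈ T := d.2.1

theorem inner_star_left (d : H →L[ℂ] H) (x y : H) : ⟪(star d) x, y⟫_ℂ = ⟪x, d y⟫_ℂ := by
  rw [ContinuousLinearMap.star_eq_adjoint, ContinuousLinearMap.adjoint_inner_left]

theorem inner_star_right (d : H →L[ℂ] H) (x y : H) : ⟪x, (star d) y⟫_ℂ = ⟪d x, y⟫_ℂ := by
  rw [ContinuousLinearMap.star_eq_adjoint, ContinuousLinearMap.adjoint_inner_right]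

theorem eq_zero_of_inner_left {x : H} (h : ∀ y, ⟪x, y⟫_ℂ = 0) : x = 0 :=
  inner_self_eq_zero.mp (h x)

theorem eq_zero_of_inner_right {x : H} (h : ∀ y, ⟪y, x⟫_ℂ = 0) : x = 0 :=
  inner_self_eq_zero.mp (h x)

theorem op_ext_inner {X Y : H →L[ℂ] H} (h : ∀ x y, ⟪y, X x⟫_ℂ = ⟪y, Y x⟫_ℂ) : X = Y := by
  ext x
  exact ext_inner_left ℂ (fun y => h x y)

variable [hT : IsTri T]

theorem mem_dg_of_comm {x : H →L[ℂ] H} (h : ∀ d : dg T, (d : H →L[ℂ] H) * x = x * d) :
    x ∈ dg T := by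
  have : x ∈ Set.centralizer {x : H →L[ℂ] H | x ∈ T ∧ star x ∈ T} := fun d hd => h ⟨d, hd⟩
  rw [← hT.eq] at this
  exact this

theorem dg_comm (a b : dg T) : (a : H →L[ℂ] H) * b = b * a := by
  have hb : (b : H →L[ℂ] H) ∈ {x : H →L[ℂ] H | x ∈ T ∧ star x ∈ T} := b.2
  rw [hT.eq] at hb
  exact hb a a.2

theorem dg_comm_apply (a b : dg T) (x : H) :
    (a : H →L[ℂ] H) ((b : H →L[ℂ] H) x) = (b : H →L[ℂ] H) ((a : H →L[ℂ] H) x) := by
  have := congrArg (fun X : H →L[ℂ] H => X x) (dg_comm a b)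
  simpa using this

instance dg_closed : IsClosed (dg T : Set (H →L[ℂ] H)) := by
  have : (dg T : Set (H →L[ℂ] H)) =
      Set.centralizer {x : H →L[ℂ] H | x ∈ T ∧ star x ∈ T} := hT.eq
  rw [this]
  exact Set.isClosed_centralizer _

noncomputable instance dgComm : CommCStarAlgebra (dg T) where
  __ := (StarSubalgebra.cstarAlgebra (dg T) : CStarAlgebra (dg T))
  mul_comm a b := Subtype.ext (dg_comm a b)

theorem eq_zero_of_chars {G : dg T} (h : ∀ χ : WeakDual.characterSpace ℂ (dg T), χ G = 0) :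
    G = 0 := by
  have h1 : WeakDual.gelfandTransform ℂ (dg T) G = 0 := by
    ext χ
    simpa using h χ
  have h2 := (gelfandTransform_isometry (dg T)).injective
  apply h2
  rw [h1, map_zero]

theorem norm_star_apply (d : dg T) (x : H) :
    ‖(star d : dg T).1 x‖ = ‖(d : H →L[ℂ] H) x‖ := by
  have h1 : ⟪(star d : dg T).1 x, (star d : dg T).1 x⟫_ℂ =
      ⟪(d : H →L[ℂ] H) x, (d : H →L[ℂ] H) x⟫_ℂ := by
    have h2 := dg_comm_apply d (star d) x
    have h3 : (star d : dg T).1 = star (d : H →L[ℂ] H) := rfl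
    rw [h3] at h2 ⊢
    rw [inner_star_left, h2, inner_star_right]
  rw [inner_self_eq_norm_sq_to_K, inner_self_eq_norm_sq_to_K] at h1
  have h4 : ‖(star d : dg T).1 x‖ ^ 2 = ‖(d : H →L[ℂ] H) x‖ ^ 2 := by exact_mod_cast h1
  exact (pow_left_inj₀ (norm_nonneg _) (norm_nonneg _) two_ne_zero).mp h4

theorem star_apply_eq_zero {d : dg T} {x : H} (h : (d : H →L[ℂ] H) x = 0) :
    (star d : dg T).1 x = 0 := by
  rw [← norm_eq_zero, norm_star_apply, h, norm_zero]

/-- A self-adjoint idempotent whose range is invariant under the diagonal is in the diagonal. -/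
theorem proj_mem_dg {P : H →L[ℂ] H} (hs : star P = P)
    (h : ∀ d : dg T, P * (d * P) = d * P) : P ∈ dg T := by
  apply mem_dg_of_comm
  intro d
  have h1 := congrArg star (h (star d))
  have h3 : ((star d : dg T) : H →L[ℂ] H) = star (d : H →L[ℂ] H) := rfl
  simp only [star_mul, h3, star_star, hs] at h1
  rw [← h d, ← mul_assoc, h1]

theorem starProj_star (L : Submodule ℂ H) [L.HasOrthogonalProjection] :
    star L.starProjection = L.starProjection :=
  (isSelfAdjoint_starProjection L).star_eq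

theorem starProj_mem_dg (L : Submodule ℂ H) [L.HasOrthogonalProjection]
    (h : ∀ d : dg T, ∀ x ∈ L, (d : H →L[ℂ] H) x ∈ L) : L.starProjection ∈ dg T := by
  apply proj_mem_dg (starProj_star L)
  intro d
  ext x
  simp only [ContinuousLinearMap.mul_apply]
  exact Submodule.starProjection_eq_self_iff.mpr (h d _ (Submodule.starProjection_apply_mem L x))

/-- The closed orbit space of a set of vectors. -/
noncomputable def orb (T : Subalgebra ℂ (H →L[ℂ] H)) (s : Set H) : Submodule ℂ H :=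
  (Submodule.span ℂ {y | ∃ d : dg T, ∃ x ∈ s, y = (d : H →L[ℂ] H) x}).topologicalClosure

omit hT in
theorem orb_closed (s : Set H) : IsClosed (orb T s : Set H) :=
  Submodule.isClosed_topologicalClosure _

instance (s : Set H) : CompleteSpace (orb T s) := (orb_closed s).completeSpace_coe

omit hT in
theorem mem_orb {s : Set H} (d : dg T) {x : H} (hx : x ∈ s) : (d : H →L[ℂ] H) x ∈ orb T s :=
  Submodule.le_topologicalClosure _ (Submodule.subset_span ⟨d, x, hx, rfl⟩)

omit hT in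
theorem orb_le {s : Set H} {L : Submodule ℂ H} (hL : IsClosed (L : Set H))
    (h : ∀ d : dg T, ∀ x ∈ s, (d : H →L[ℂ] H) x ∈ L) : orb T s ≤ L := by
  apply Submodule.topologicalClosure_minimal _ _ hL
  rw [Submodule.span_le]
  rintro y ⟨d, x, hx, rfl⟩
  exact h d x hx

omit hT in
theorem orb_inv (s : Set H) (d : dg T) : ∀ x ∈ orb T s, (d : H →L[ℂ] H) x ∈ orb T s := by
  have : orb T s ≤ (orb T s).comap ((d : H →L[ℂ] H) : H →ₗ[ℂ] H) := by
    apply orb_le
    · exact (orb_closed s).preimage (d : H →L[ℂ] H).continuous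
    · intro e x hx
      exact mem_orb (d * e) hx
  exact fun x hx => this hx

omit hT in
theorem orb_perp {s : Set H} {η : H} (h : ∀ d : dg T, ∀ x ∈ s, ⟪η, (d : H →L[ℂ] H) x⟫_ℂ = 0) :
    ∀ y ∈ orb T s, ⟪η, y⟫_ℂ = 0 := by
  have : orb T s ≤ LinearMap.ker (innerSL ℂ η : H →ₗ[ℂ] ℂ) := by
    apply orb_le
    · exact ContinuousLinearMap.isClosed_ker (innerSL ℂ η)
    · intro d x hx
      exact h d x hx
  exact fun y hy => this hy

theorem orb_proj_mem (s : Set H) : (orb T s).starProjection ∈ dg T :=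
  starProj_mem_dg _ (fun d => orb_inv s d)

/-- If `a` is injective in the diagonal then `ζ` is in the closed orbit of `a ζ`. -/
theorem mem_orb_of_inj {a : dg T} (ha : ∀ x, (a : H →L[ℂ] H) x = 0 → x = 0) (ζ : H) :
    ζ ∈ orb T {(a : H →L[ℂ] H) ζ} := by
  set r : dg T := ⟨_, orb_proj_mem (T := T) {(a : H →L[ℂ] H) ζ}⟩ with hr
  have h1 : (r : H →L[ℂ] H) ((a : H →L[ℂ] H) ζ) = (a : H →L[ℂ] H) ζ := by
    apply Submodule.starProjection_eq_self_iff.mpr
    simpa using mem_orb (T := T) (s := {(a : H →L[ℂ] H) ζ}) 1 rfl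
  rw [dg_comm_apply] at h1
  have h2 : (r : H →L[ℂ] H) ζ - ζ = 0 := ha _ (by rw [map_sub, h1, sub_self])
  rw [sub_eq_zero] at h2
  exact Submodule.starProjection_eq_self_iff.mp h2

/-- A cyclic vector. -/
def Cyc (T : Subalgebra ℂ (H →L[ℂ] H)) (ω : H) : Prop :=
  ∀ η : H, (∀ d : dg T, ⟪η, (d : H →L[ℂ] H) ω⟫_ℂ = 0) → η = 0

theorem Cyc.sep {ω : H} (h : Cyc T ω) {d : dg T} (hd : (d : H →L[ℂ] H) ω = 0) : d = 0 := by
  have h1 : star (d : H →L[ℂ] H) = 0 := by
    ext η
    apply h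
    intro e
    rw [inner_star_left, dg_comm_apply, hd, map_zero, inner_zero_right]
  apply Subtype.ext
  simpa using h1

theorem exists_cyc (ξ : ℕ → H) (hξ : ∀ η : H, (∀ n, ⟪η, ξ n⟫_ℂ = 0) → η = 0) :
    ∃ ω : H, Cyc T ω := by
  classical
  let V : ℕ → Submodule ℂ H := fun n => orb T (ξ '' {m | m < n})
  have hVmono : ∀ m n, m ≤ n → V m ≤ V n := by
    intro m n hmn
    apply orb_le (orb_closed _)
    rintro d x ⟨k, hk, rfl⟩
    exact mem_orb d ⟨k, lt_of_lt_of_le hk hmn, rfl⟩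
  let r : ℕ → dg T := fun n => ⟨(V n).starProjection, orb_proj_mem _⟩
  let u : ℕ → H := fun n => ξ n - (r n : H →L[ℂ] H) (ξ n)
  have hu1 : ∀ n, u n ∈ V (n + 1) := by
    intro n
    apply Submodule.sub_mem
    · exact mem_orb (T := T) (s := ξ '' {m | m < n + 1}) 1 ⟨n, Nat.lt_succ_self n, rfl⟩
    · exact hVmono n (n + 1) (Nat.le_succ n) (Submodule.starProjection_apply_mem _ _)
  have hu2 : ∀ n, u n ∈ (V n)ᗮ := fun n => Submodule.sub_starProjection_mem_orthogonal _
  let c : ℕ → ℝ := fun n => (1 / 2) ^ n / (‖u n‖ + 1)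
  have hc : ∀ n, 0 < c n := fun n => by positivity
  have hsum : Summable (fun n => (c n : ℂ) • u n) := by
    apply Summable.of_norm_bounded (g := fun n => (1 / 2 : ℝ) ^ n) summable_geometric_two
    intro n
    rw [norm_smul, Complex.norm_real, Real.norm_of_nonneg (hc n).le]
    simp only [c]
    rw [div_mul_eq_mul_div, div_le_iff₀ (by positivity)]
    have : (0 : ℝ) < (1 / 2) ^ n := by positivity
    nlinarith
  refine ⟨∑' n, (c n : ℂ) • u n, ?_⟩
  intro η hη
  have hr : ∀ n m, (r n : H →L[ℂ] H) (u m) = if m < n then u m else 0 := by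
    intro n m
    split_ifs with h
    · exact Submodule.starProjection_eq_self_iff.mpr (hVmono _ _ h (hu1 m))
    · exact (Submodule.starProjection_apply_eq_zero_iff _).mpr
        (Submodule.orthogonal_le (hVmono _ _ (not_lt.mp h)) (hu2 m))
  have hq : ∀ n, ((r (n + 1) - r n : dg T) : H →L[ℂ] H) (∑' n, (c n : ℂ) • u n) =
      (c n : ℂ) • u n := by
    intro n
    have h1 := hsum.hasSum.mapL ((r (n + 1) - r n : dg T) : H →L[ℂ] H)
    have h2 : HasSum (fun m => ((r (n + 1) - r n : dg T) : H →L[ℂ] H) ((c m : ℂ) • u m))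
        ((c n : ℂ) • u n) := by
      have h3 := hasSum_single (f := fun m =>
        ((r (n + 1) - r n : dg T) : H →L[ℂ] H) ((c m : ℂ) • u m)) n (by
          intro m hm
          simp only [AddSubgroupClass.coe_sub, ContinuousLinearMap.sub_apply, map_smul, hr]
          by_cases h : m < n
          · simp [h, Nat.lt_succ_of_lt h]
          · have : ¬ m < n + 1 := by omega
            simp [h, this])
      simpa only [AddSubgroupClass.coe_sub, ContinuousLinearMap.sub_apply, map_smul, hr,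
        Nat.lt_succ_self, lt_irrefl, if_true, if_false, smul_zero, sub_zero] using h3
    exact h1.unique h2
  have hηu : ∀ n (d : dg T), ⟪η, (d : H →L[ℂ] H) (u n)⟫_ℂ = 0 := by
    intro n d
    have h1 := hη (d * (r (n + 1) - r n))
    rw [MulMemClass.coe_mul, ContinuousLinearMap.mul_apply, hq, map_smul, inner_smul_right] at h1
    have h2 : (c n : ℂ) ≠ 0 := by exact_mod_cast (hc n).ne'
    exact (mul_eq_zero.mp h1).resolve_left h2
  have hV : ∀ n, ∀ y ∈ V n, ⟪η, y⟫_ℂ = 0 := by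
    intro n
    induction n with
    | zero =>
      apply orb_perp
      rintro d x ⟨k, hk, rfl⟩
      exact absurd hk (Nat.not_lt_zero k)
    | succ n ih =>
      apply orb_perp
      rintro d x ⟨k, hk, rfl⟩
      rcases Nat.lt_succ_iff_lt_or_eq.mp hk with h | rfl
      · exact ih _ (mem_orb d ⟨k, h, rfl⟩)
      · have h1 : ξ k = u k + (r k : H →L[ℂ] H) (ξ k) := by simp [u]
        rw [h1, map_add, inner_add_right, hηu, zero_add]
        exact ih _ (orb_inv _ d _ (Submodule.starProjection_apply_mem _ _))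
  apply hξ
  intro n
  apply hV (n + 1)
  exact mem_orb (T := T) (s := ξ '' {m | m < n + 1}) 1 ⟨n, Nat.lt_succ_self n, rfl⟩

end Pool.Agent.Lib.MP_690138_an.KS
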