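import Pool.Agent.Lib.MP_690138_an.Tree

set_option autoImplicit false
set_option linter.unusedSectionVars false
set_option linter.deprecated false

open scoped InnerProductSpace
open Filter Topology InnerProductSpace Finset Polynomial

namespace Pool.Agent.Lib.MP_690138_an.KS

variable {K : Type} [NormedAddCommGroup K] [InnerProductSpace ℂ K] [CompleteSpace K]

theorem ratio_zero {q P : ℂ[X]} (h : q.degree < P.degree) :
    Tendsto (fun R : ℝ => q.eval (R : ℂ) / P.eval (R : ℂ)) atTop (𝓝 0) :=
  ((Polynomial.isLittleO_cobounded_of_degree_lt h).comp_tendsto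
    (RCLike.tendsto_ofReal_atTop_cobounded ℂ)).tendsto_div_nhds_zero

theorem degree_one_lt {P : ℂ[X]} (h : P ≠ 0) : (1 : ℂ[X]).degree < (X * P).degree := by
  rw [degree_one, degree_mul, degree_X, degree_eq_natDegree h]
  exact_mod_cast Nat.lt_one_add_iff.mpr (Nat.zero_le _)

theorem ev_ne_zero {P : ℂ[X]} (h : P ≠ 0) : ∀ᶠ R : ℝ in atTop, P.eval (R : ℂ) ≠ 0 := by
  have h1 := ((Polynomial.isLittleO_cobounded_of_degree_lt (degree_one_lt h)).comp_tendsto
    (RCLike.tendsto_ofReal_atTop_cobounded ℂ)).eventuallyLE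
  filter_upwards [h1] with R hR h0
  simp only [Function.comp_apply, eval_one, norm_one, eval_mul] at hR
  erw [h0] at hR
  norm_num at hR

theorem ne_zero_of_degree {P : ℂ[X]} {k : ℕ} (h : P.degree = k) : P ≠ 0 := by
  rintro rfl
  simp at h

theorem degree_sub_lead {q P : ℂ[X]} {k : ℕ} (hq : q.degree < (k + 1 : ℕ)) (h : P.degree = k) :
    (q - (q.coeff k / P.coeff k) • P).degree < k := by
  have h0 : P.coeff k ≠ 0 := coeff_ne_zero_of_eq_degree h
  rw [degree_lt_iff_coeff_zero] at hq ⊢
  intro m hm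
  rw [coeff_sub, coeff_smul, smul_eq_mul]
  rcases hm.lt_or_eq with h1 | h1
  · rw [hq m h1, coeff_eq_zero_of_degree_lt (p := P) (n := m) (by rw [h]; exact_mod_cast h1),
      mul_zero, sub_zero]
  · rw [← h1, div_mul_cancel₀ _ h0, sub_self]

theorem ratio_lead {q P : ℂ[X]} {k : ℕ} (hq : q.degree = k) (h : P.degree = k) :
    Tendsto (fun R : ℝ => q.eval (R : ℂ) / P.eval (R : ℂ)) atTop
      (𝓝 (q.coeff k / P.coeff k)) := by
  have h1 := ratio_zero (P := P) (q := q - (q.coeff k / P.coeff k) • P)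
    (by rw [h]; exact degree_sub_lead (by rw [hq]; exact_mod_cast Nat.lt_succ_self k) h)
  have h2 := h1.add_const (q.coeff k / P.coeff k)
  rw [zero_add] at h2
  refine h2.congr' ?_
  filter_upwards [ev_ne_zero (ne_zero_of_degree h)] with R hR
  rw [eval_sub, eval_smul, smul_eq_mul]
  field_simp
  ring

theorem exists_expand {P : ℕ → ℂ[X]} {N : ℕ} (h : ∀ a < N, (P a).degree = a) :
    ∀ d ≤ N, ∀ q : ℂ[X], q.degree < d → ∃ μ : ℕ → ℂ, q = ∑ a ∈ range d, μ a • P a := by
  intro d
  induction d with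
  | zero =>
    intro _ q hq
    exact ⟨fun _ => 0, by simpa using hq⟩
  | succ d ih =>
    intro hd q hq
    obtain ⟨μ, hμ⟩ := ih (by omega) _ (degree_sub_lead hq (h d hd))
    refine ⟨Function.update μ d (q.coeff d / (P d).coeff d), ?_⟩
    rw [sum_range_succ, Function.update_self, ← sub_eq_iff_eq_add, hμ]
    refine sum_congr rfl (fun a ha => ?_)
    rw [Function.update_of_ne (mem_range.mp ha).ne]

theorem degree_sum_lt' {P : ℕ → ℂ[X]} {n : ℕ} (h : ∀ a < n, (P a).degree = a) (μ : ℕ → ℂ) :
    (∑ a ∈ range n, μ a • P a).degree < n := by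
  rw [← mem_degreeLT]
  refine Submodule.sum_mem _ (fun a ha => Submodule.smul_mem _ _ ?_)
  rw [mem_degreeLT, h a (mem_range.mp ha)]
  exact_mod_cast mem_range.mp ha

theorem approx_gs {α : Type*} {l : Filter α} (φ : α → ℂ[X] →ₗ[ℂ] K) (q : α → ℕ → ℂ[X])
    (t : ℕ → K) (z : ℕ → ℂ) (n : ℕ) : ONr t n →
    (∀ᶠ R in l, ∀ a < n, (q R a).degree = a) →
    (∀ a < n, Tendsto (fun R => φ R (q R a)) l (𝓝 (t a))) →
    (∀ a < n, Tendsto (fun R => (q R a).eval 0) l (𝓝 (z a))) →
    ∃ P : α → ℕ → ℂ[X], (∀ᶠ R in l, (∀ a < n, (P R a).degree = a) ∧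
      ONr (fun a => φ R (P R a)) n) ∧
      (∀ a < n, Tendsto (fun R => φ R (P R a)) l (𝓝 (t a))) ∧
      (∀ a < n, Tendsto (fun R => (P R a).eval 0) l (𝓝 (z a))) := by
  induction n with
  | zero =>
    intro _ _ _ _
    exact ⟨q, Eventually.of_forall (fun R => ⟨fun a ha => absurd ha (Nat.not_lt_zero a),
      fun a b ha => absurd ha (Nat.not_lt_zero a)⟩), fun a ha => absurd ha (Nat.not_lt_zero a),
      fun a ha => absurd ha (Nat.not_lt_zero a)⟩
  | succ n ih =>
    intro ht h1 h2 h3
    obtain ⟨P, hP1, hP2, hP3⟩ := ih (fun a b ha hb => ht a b (by omega) (by omega))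
      (h1.mono (fun R hR a ha => hR a (by omega))) (fun a ha => h2 a (by omega))
      (fun a ha => h3 a (by omega))
    let μ : α → ℕ → ℂ := fun R a => ⟪φ R (P R a), φ R (q R n)⟫_ℂ
    let y : α → ℂ[X] := fun R => q R n - ∑ a ∈ range n, μ R a • P R a
    have hμ : ∀ a < n, Tendsto (fun R => μ R a) l (𝓝 0) := by
      intro a ha
      have h4 := (hP2 a ha).inner (𝕜 := ℂ) (h2 n (Nat.lt_succ_self n))
      rwa [ht a n (by omega) (by omega), if_neg ha.ne] at h4
    have hy1 : Tendsto (fun R => φ R (y R)) l (𝓝 (t n)) := by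
      have h4 := (h2 n (Nat.lt_succ_self n)).sub (tendsto_finset_sum (range n)
        (fun a ha => (hμ a (mem_range.mp ha)).smul (hP2 a (mem_range.mp ha))))
      simpa [y] using h4
    have hy2 : Tendsto (fun R => (y R).eval 0) l (𝓝 (z n)) := by
      have h4 := (h3 n (Nat.lt_succ_self n)).sub (tendsto_finset_sum (range n)
        (fun a ha => (hμ a (mem_range.mp ha)).mul (hP3 a (mem_range.mp ha))))
      simpa [y, eval_finset_sum] using h4
    have hn1 : Tendsto (fun R => ‖φ R (y R)‖) l (𝓝 1) := by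
      have h4 := hy1.norm
      rwa [ht.norm (Nat.lt_succ_self n)] at h4
    have hn2 : Tendsto (fun R => ((‖φ R (y R)‖⁻¹ : ℝ) : ℂ)) l (𝓝 1) := by
      have h4 := (Complex.continuous_ofReal.tendsto _).comp (hn1.inv₀ one_ne_zero)
      simpa [Function.comp_def] using h4
    refine ⟨fun R => Function.update (P R) n (((‖φ R (y R)‖⁻¹ : ℝ) : ℂ) • y R), ?_, ?_, ?_⟩
    · filter_upwards [hP1, h1, hn1.eventually (lt_mem_nhds one_half_lt_one)] with R hR hq hpos
      have hpos' : ‖φ R (y R)‖ ≠ 0 := by linarith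
      have hyd : (y R).degree = n := by
        have h4 := hq n (Nat.lt_succ_self n)
        simp only [y]
        rw [degree_sub_eq_left_of_degree_lt (by rw [h4]; exact degree_sum_lt' hR.1 _), h4]
      have horth : ∀ a < n, ⟪φ R (P R a), φ R (y R)⟫_ℂ = 0 := by
        intro a ha
        simp only [y, map_sub, map_sum, map_smul]
        rw [inner_sub_right, hR.2.inner_sum le_rfl ha, if_pos ha, sub_self]
      refine ⟨fun a ha => ?_, fun a b ha hb => ?_⟩
      · rcases Nat.lt_succ_iff_lt_or_eq.mp ha with h | rfl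
        · rw [Function.update_of_ne h.ne]
          exact hR.1 a h
        · rw [Function.update_self, smul_eq_C_mul, degree_C_mul (by simpa using hpos'), hyd]
      · rcases Nat.lt_succ_iff_lt_or_eq.mp ha with h | rfl <;>
          rcases Nat.lt_succ_iff_lt_or_eq.mp hb with h' | h'
        · simp only [Function.update_of_ne h.ne, Function.update_of_ne h'.ne]
          exact hR.2 a b h h'
        · subst h'
          simp only [Function.update_of_ne h.ne, Function.update_self]
          rw [map_smul, inner_smul_right, horth a h, mul_zero, if_neg h.ne]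
        · simp only [Function.update_of_ne h'.ne, Function.update_self]
          rw [map_smul, inner_smul_left, ← inner_conj_symm, horth b h', map_zero, mul_zero,
            if_neg h'.ne']
        · subst h'
          simp only [Function.update_self]
          rw [map_smul, inner_self_eq_norm_sq_to_K, norm_smul, Complex.norm_real, norm_inv,
            norm_norm, inv_mul_cancel₀ hpos']
          simp
    · intro a ha
      rcases Nat.lt_succ_iff_lt_or_eq.mp ha with h | rfl
      · simp only [Function.update_of_ne h.ne]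
        exact hP2 a h
      · simp only [Function.update_self, map_smul]
        simpa using hn2.smul hy1
    · intro a ha
      rcases Nat.lt_succ_iff_lt_or_eq.mp ha with h | rfl
      · simp only [Function.update_of_ne h.ne]
        exact hP3 a h
      · simp only [Function.update_self, eval_smul, smul_eq_mul]
        simpa using hn2.mul hy2

/-- Evaluation map into the Hilbert space. -/
noncomputable def ev (ε : ℕ → K) (N : ℕ) (x : ℕ → ℝ) (γ : ℕ → ℂ) : ℂ[X] →ₗ[ℂ] K :=
  ∑ i ∈ range N, (Polynomial.leval (x i : ℂ)).smulRight (γ i • ε i)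

theorem ev_apply (ε : ℕ → K) (N : ℕ) (x : ℕ → ℝ) (γ : ℕ → ℂ) (q : ℂ[X]) :
    ev ε N x γ q = ∑ i ∈ range N, (q.eval (x i : ℂ) * γ i) • ε i := by
  simp [ev, smul_smul]

theorem ev_update (ε : ℕ → K) (N : ℕ) (x : ℕ → ℝ) (γ : ℕ → ℂ) (R : ℝ) (g : ℂ) (q : ℂ[X]) :
    ev ε (N + 1) (Function.update x N R) (Function.update γ N g) q =
      ev ε N x γ q + (q.eval (R : ℂ) * g) • ε N := by
  rw [ev_apply, ev_apply, sum_range_succ, Function.update_self, Function.update_self]
  congr 1
  refine sum_congr rfl (fun a ha => ?_)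
  rw [Function.update_of_ne (mem_range.mp ha).ne, Function.update_of_ne (mem_range.mp ha).ne]

theorem ev_supp (ε : HilbertBasis ℕ ℂ K) (N : ℕ) (x : ℕ → ℝ) (γ : ℕ → ℂ) (q : ℂ[X]) {j : ℕ}
    (hj : N ≤ j) : ⟪ε j, ev ε N x γ q⟫_ℂ = 0 := by
  rw [ev_apply, inner_sum]
  refine sum_eq_zero (fun i hi => ?_)
  rw [inner_smul_right, basis_supp ε (mem_range.mp hi) j hj, mul_zero]

/-- Target vectors after splitting the cell `k`. -/
noncomputable def tg (p : ℕ → K) (k : ℕ) (c : ℂ) (e : K) (a : ℕ) : K :=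
  if a < k then p a else if a = k then t0 (p k) c e else if a = k + 1 then t1 (p k) c e
    else p (a - 1)

/-- Target values at zero. -/
noncomputable def tz (z : ℕ → ℂ) (k : ℕ) (c : ℂ) (a : ℕ) : ℂ :=
  if a < k then z a else if a = k then nu c * z k else if a = k + 1 then
    nu c * (starRingEnd ℂ) c * z k else z (a - 1)

theorem tg_on {p : ℕ → K} {N k : ℕ} (hp : ONr p N) (hk : k < N) (c : ℂ) {e : K}
    (he : ⟪e, e⟫_ℂ = 1) (hpe : ∀ a < N, ⟪e, p a⟫_ℂ = 0) : ONr (tg p k c e) (N + 1) := by
  have hep : ∀ a < N, ⟪p a, e⟫_ℂ = 0 := fun a ha => by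
    rw [← inner_conj_symm, hpe a ha, map_zero]
  have h1 := nu_sq' c
  have a0 : ∀ a < N, a ≠ k → ⟪t0 (p k) c e, p a⟫_ℂ = 0 := fun a ha hne => by
    rw [inner_t0 _ _ (hpe a ha), hp k a hk ha, if_neg hne.symm, mul_zero]
  have a1 : ∀ a < N, a ≠ k → ⟪t1 (p k) c e, p a⟫_ℂ = 0 := fun a ha hne => by
    rw [inner_t1 _ _ (hpe a ha), hp k a hk ha, if_neg hne.symm, mul_zero, mul_zero]
  have b0 : ∀ a < N, a ≠ k → ⟪p a, t0 (p k) c e⟫_ℂ = 0 := fun a ha hne => by
    rw [← inner_conj_symm, a0 a ha hne, map_zero]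
  have b1 : ∀ a < N, a ≠ k → ⟪p a, t1 (p k) c e⟫_ℂ = 0 := fun a ha hne => by
    rw [← inner_conj_symm, a1 a ha hne, map_zero]
  have hkk : ⟪p k, p k⟫_ℂ = 1 := by rw [hp k k hk hk, if_pos rfl]
  have c00 : ⟪t0 (p k) c e, t0 (p k) c e⟫_ℂ = 1 := by
    simp only [t0, inner_smul_left, inner_smul_right, inner_add_left, inner_add_right, hkk, he,
      hpe k hk, hep k hk, Complex.conj_ofReal]
    linear_combination h1
  have c11 : ⟪t1 (p k) c e, t1 (p k) c e⟫_ℂ = 1 := by
    simp only [t1, inner_smul_left, inner_smul_right, inner_sub_left, inner_sub_right, hkk, he,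
      hpe k hk, hep k hk, Complex.conj_ofReal, Complex.conj_conj]
    linear_combination h1
  have c01 : ⟪t0 (p k) c e, t1 (p k) c e⟫_ℂ = 0 := by
    simp only [t0, t1, inner_smul_left, inner_smul_right, inner_sub_right, inner_add_left, hkk, he,
      hpe k hk, hep k hk, Complex.conj_ofReal]
    ring
  have c10 : ⟪t1 (p k) c e, t0 (p k) c e⟫_ℂ = 0 := by
    rw [← inner_conj_symm, c01, map_zero]
  intro a b ha hb
  unfold tg
  split_ifs
  all_goals first
    | omega
    | exact c00
    | exact c11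
    | exact c01
    | exact c10
    | exact a0 _ (by omega) (by omega)
    | exact a1 _ (by omega) (by omega)
    | exact b0 _ (by omega) (by omega)
    | exact b1 _ (by omega) (by omega)
    | rw [hp _ _ (by omega) (by omega), if_pos (by omega)]
    | rw [hp _ _ (by omega) (by omega), if_neg (by omega)]

theorem sum_split {M : Type*} [AddCommMonoid M] (F G : ℕ → M) {k N : ℕ} (hk : k < N)
    (h1 : ∀ a < k, F a = G a) (h2 : F k + F (k + 1) = G k) (h3 : ∀ a, k < a → F (a + 1) = G a) :
    ∑ a ∈ range (N + 1), F a = ∑ a ∈ range N, G a := by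
  induction N, hk using Nat.le_induction with
  | base =>
    rw [sum_range_succ, sum_range_succ, sum_range_succ, add_assoc, h2]
    congr 1
    exact sum_congr rfl (fun a ha => h1 a (mem_range.mp ha))
  | succ n hn ih => rw [sum_range_succ, ih, sum_range_succ, h3 n hn]

theorem tg_sum (p : ℕ → K) (z : ℕ → ℂ) {N k : ℕ} (hk : k < N) (c : ℂ) (e : K) :
    ∑ a ∈ range (N + 1), (starRingEnd ℂ) (tz z k c a) • tg p k c e a =
      ∑ a ∈ range N, (starRingEnd ℂ) (z a) • p a := by
  apply sum_split _ _ hk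
  · intro a ha
    simp only [tz, tg, if_pos ha]
  · have h1 := nu_sq' c
    have h2 : (starRingEnd ℂ) (z k) • p k = ((starRingEnd ℂ) (z k) *
        ((nu c : ℂ) * nu c * (1 + c * (starRingEnd ℂ) c))) • p k := by rw [h1, mul_one]
    have h3 : ¬ k + 1 < k := by omega
    have h4 : ¬ k + 1 = k := by omega
    simp only [tz, tg, lt_irrefl, if_false, if_true, h3, h4, map_mul, Complex.conj_ofReal,
      Complex.conj_conj, t0, t1]
    rw [h2]
    module
  · intro a ha
    have h3 : ¬ a + 1 < k := by omega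
    have h4 : ¬ a + 1 = k := by omega
    have h5 : ¬ a + 1 = k + 1 := by omega
    simp only [tz, tg, h3, h4, h5, if_false, Nat.add_sub_cancel]

theorem step_sys (ε : HilbertBasis ℕ ℂ K) {N k : ℕ} (hk : k < N) (x : ℕ → ℝ) (γ : ℕ → ℂ)
    {P : ℕ → ℂ[X]} (hdeg : ∀ a < N, (P a).degree = a) (hon : ONr (fun a => ev ε N x γ (P a)) N)
    {g : ℝ → ℂ} {c : ℂ} (hc : c ≠ 0)
    (hg : Tendsto (fun R : ℝ => (P k).eval (R : ℂ) * g R) atTop (𝓝 c))
    (hg0 : ∀ a < k, Tendsto (fun R : ℝ => (P a).eval (R : ℂ) * g R) atTop (𝓝 0)) :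
    ∃ Q : ℝ → ℕ → ℂ[X], (∀ᶠ R in atTop, (∀ a < N + 1, (Q R a).degree = a) ∧
      ONr (fun a => ev ε (N + 1) (Function.update x N R) (Function.update γ N (g R)) (Q R a))
        (N + 1)) ∧
      (∀ a < N + 1, Tendsto (fun R => ev ε (N + 1) (Function.update x N R)
        (Function.update γ N (g R)) (Q R a)) atTop
          (𝓝 (tg (fun a => ev ε N x γ (P a)) k c (ε N) a))) ∧
      (∀ a < N + 1, Tendsto (fun R => (Q R a).eval 0) atTop
        (𝓝 (tz (fun a => (P a).eval 0) k c a))) := by
  let w : ℝ → ℕ → ℂ[X] := fun R a => P a - (R : ℂ)⁻¹ • (P a * X)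
  let α : ℂ := nu c * (starRingEnd ℂ) c + nu c / c
  have hnu : (nu c : ℂ) ≠ 0 := by exact_mod_cast (nu_pos c).ne'
  have hα : α ≠ 0 := by
    intro h0
    have h1 := nu_sq' c
    have h2 : α * c * nu c = 1 := by
      simp only [α]
      rw [← h1]
      field_simp
      ring
    rw [h0, zero_mul, zero_mul] at h2
    exact zero_ne_one h2
  have hw1 : ∀ R : ℝ, R ≠ 0 → ∀ a < N, (w R a).degree = ((a + 1 : ℕ) : WithBot ℕ) := by
    intro R hR a ha
    have h1 : ((R : ℂ)⁻¹ • (P a * X)).degree = ((a + 1 : ℕ) : WithBot ℕ) := by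
      rw [smul_eq_C_mul, degree_C_mul (by simpa using hR), degree_mul, degree_X, hdeg a ha]
      rfl
    simp only [w]
    rw [degree_sub_eq_right_of_degree_lt (by
      rw [h1, hdeg a ha]; exact_mod_cast Nat.lt_succ_self a), h1]
  have hw2 : ∀ a, Tendsto (fun R : ℝ => ev ε (N + 1) (Function.update x N R)
      (Function.update γ N (g R)) (w R a)) atTop (𝓝 (ev ε N x γ (P a))) := by
    intro a
    have h1 : Tendsto (fun R : ℝ => (R : ℂ)⁻¹) atTop (𝓝 0) :=
      tendsto_inv₀_cobounded.comp (RCLike.tendsto_ofReal_atTop_cobounded ℂ)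
    have h2 := (h1.smul_const (ev ε N x γ (P a * X))).const_sub (ev ε N x γ (P a))
    rw [zero_smul, sub_zero] at h2
    refine h2.congr' ?_
    filter_upwards [eventually_gt_atTop 0] with R hR
    have h3 : (R : ℂ) ≠ 0 := by exact_mod_cast hR.ne'
    have h4 : (w R a).eval (R : ℂ) = 0 := by
      simp only [w, eval_sub, eval_smul, eval_mul, eval_X, smul_eq_mul]
      field_simp
      ring
    rw [ev_update, h4, zero_mul, zero_smul, add_zero]
    simp only [w, map_sub, map_smul]
  have hw3 : ∀ R a, (w R a).eval 0 = (P a).eval 0 := by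
    intro R a
    simp [w]
  have hw4 : Tendsto (fun R : ℝ => ev ε (N + 1) (Function.update x N R)
      (Function.update γ N (g R)) (P k)) atTop (𝓝 (ev ε N x γ (P k) + c • ε N)) := by
    simp only [ev_update]
    exact (hg.smul_const _).const_add _
  apply approx_gs (fun R => ev ε (N + 1) (Function.update x N R) (Function.update γ N (g R)))
    (fun R a => if a < k then P a else if a = k then (nu c : ℂ) • P k else if a = k + 1 then
      α • w R k - (nu c / c) • P k else w R (a - 1))
  · exact tg_on hon hk c (by rw [basis_inner, if_pos rfl]) (fun a _ => ev_supp ε N x γ _ le_rfl)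
  · filter_upwards [eventually_gt_atTop 0] with R hR a ha
    split_ifs with h1 h2 h3
    · exact hdeg a (by omega)
    · rw [smul_eq_C_mul, degree_C_mul hnu, hdeg k hk, h2]
    · have h4 : (α • w R k).degree = ((k + 1 : ℕ) : WithBot ℕ) := by
        rw [smul_eq_C_mul, degree_C_mul hα, hw1 R hR.ne' k hk]
      rw [degree_sub_eq_left_of_degree_lt, h4, h3]
      rw [h4]
      refine (degree_smul_le _ _).trans_lt ?_
      rw [hdeg k hk]
      exact_mod_cast Nat.lt_succ_self k
    · rw [hw1 R hR.ne' (a - 1) (by omega)]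
      congr 1
      omega
  · intro a ha
    unfold tg
    split_ifs with h1 h2 h3
    · simp only [ev_update]
      simpa using ((hg0 a h1).smul_const (ε N)).const_add (ev ε N x γ (P a))
    · simp only [map_smul]
      exact hw4.const_smul _
    · simp only [map_sub, map_smul]
      have h4 := ((hw2 k).const_smul α).sub (hw4.const_smul (nu c / c))
      have h5 : α • ev ε N x γ (P k) - (nu c / c) • (ev ε N x γ (P k) + c • ε N) =
          t1 (ev ε N x γ (P k)) c (ε N) := by
        have h6 : (nu c : ℂ) = nu c / c * c := by field_simp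
        simp only [t1, α]
        rw [smul_add, smul_smul, ← h6]
        module
      rwa [h5] at h4
    · exact hw2 _
  · intro a ha
    unfold tz
    split_ifs with h1 h2 h3
    · exact tendsto_const_nhds
    · simp only [eval_smul, smul_eq_mul]
      exact tendsto_const_nhds
    · simp only [eval_sub, eval_smul, smul_eq_mul, hw3]
      have : α * eval 0 (P k) - nu c / c * eval 0 (P k) =
          nu c * (starRingEnd ℂ) c * eval 0 (P k) := by
        simp only [α]
        ring
      rw [this]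
      exact tendsto_const_nhds
    · simp only [hw3]
      exact tendsto_const_nhds

end Pool.Agent.Lib.MP_690138_an.KS
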