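import Pool.Agent.Lib.MP_690138_an.Corner

set_option autoImplicit false
set_option linter.unusedSectionVars false
set_option linter.deprecated false

open scoped InnerProductSpace
open Filter Topology InnerProductSpace

namespace Pool.Agent.Lib.MP_690138_an.KS

variable {H : Type*} [NormedAddCommGroup H] [InnerProductSpace ℂ H] [CompleteSpace H]
variable {T : Subalgebra ℂ (H →L[ℂ] H)} [hT : IsTri T]

theorem coe_star' (d : dg T) : ((star d : dg T) : H →L[ℂ] H) = star (d : H →L[ℂ] H) := rfl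

theorem coe_smul' (c : ℂ) (d : dg T) : ((c • d : dg T) : H →L[ℂ] H) = c • (d : H →L[ℂ] H) := rfl

theorem coe_sum' {ι : Type*} (s : Finset ι) (f : ι → dg T) :
    ((∑ i ∈ s, f i : dg T) : H →L[ℂ] H) = ∑ i ∈ s, (f i : H →L[ℂ] H) :=
  AddSubmonoidClass.coe_finset_sum f s

/-- Rank one operator with kernel `x ⊗ y`. -/
noncomputable def opL (T : Subalgebra ℂ (H →L[ℂ] H)) (ω : H) :
    dg T →ₗ[ℂ] dg T →ₗ[ℂ] (H →L[ℂ] H) :=
  LinearMap.mk₂ ℂ (fun x y => rankOne ℂ ((x : H →L[ℂ] H) ω) (star (y : H →L[ℂ] H) ω))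
    (fun a b c => by simp) (fun a b c => by simp)
    (fun a b c => by simp) (fun a b c => by simp)

theorem opL_apply (ω : H) (x y : dg T) :
    opL T ω x y = rankOne ℂ ((x : H →L[ℂ] H) ω) (star (y : H →L[ℂ] H) ω) := rfl

/-- Two-sided multiplication. -/
noncomputable def sch (T : Subalgebra ℂ (H →L[ℂ] H)) (W : H →L[ℂ] H) :
    dg T →ₗ[ℂ] dg T →ₗ[ℂ] (H →L[ℂ] H) :=
  LinearMap.mk₂ ℂ (fun x y => (x : H →L[ℂ] H) * W * y)
    (fun a b c => by simp [add_mul]) (fun a b c => by simp)
    (fun a b c => by simp [mul_add]) (fun a b c => by simp)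

theorem sch_apply (W : H →L[ℂ] H) (x y : dg T) : sch T W x y = (x : H →L[ℂ] H) * W * y := rfl

theorem sch_opL (ω : H) (x y a b : dg T) :
    sch T (opL T ω x y) a b = opL T ω (a * x) (y * b) := by
  rw [sch_apply, opL_apply, opL_apply, mul_rankOne, rankOne_mul]
  simp

theorem sch_mem {p : dg T} {W : H →L[ℂ] H} (hW : W ∈ Jm p) (x y : dg T) : sch T W x y ∈ Jm p :=
  Jm_right (Jm_left x hW) y

theorem sch_cp {W : H →L[ℂ] H} (hW : W ∈ Cp H) (x y : dg T) : sch T W x y ∈ Cp H :=
  Cp_mul_right (Cp_mul_left _ hW) _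

theorem bil_reduce {D M ι : Type*} [AddCommGroup D] [Module ℂ D] [AddCommGroup M] [Module ℂ M]
    [DecidableEq ι] (Φ : D →ₗ[ℂ] D →ₗ[ℂ] M) (s : Finset ι) (a b : ι → D) (g : ι → ℂ) {j : ι}
    (hj : j ∈ s) (hg : g j ≠ 0) (h : ∑ i ∈ s, g i • a i = 0) :
    ∑ i ∈ s.erase j, Φ (a i) (b i - (g i / g j) • b j) = ∑ i ∈ s, Φ (a i) (b i) := by
  rw [← Finset.add_sum_erase s _ hj] at h
  rw [← Finset.add_sum_erase s _ hj]
  have h1 : a j = -∑ i ∈ s.erase j, (g i / g j) • a i := by
    have h2 : g j • a j = -∑ i ∈ s.erase j, g i • a i := eq_neg_of_add_eq_zero_left h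
    have h3 : a j = (g j)⁻¹ • (g j • a j) := by rw [smul_smul, inv_mul_cancel₀ hg, one_smul]
    rw [h3, h2, smul_neg, Finset.smul_sum]
    congr 1
    refine Finset.sum_congr rfl (fun i _ => ?_)
    rw [smul_smul, div_eq_inv_mul]
  conv_rhs => rw [h1]
  simp only [map_sub, map_smul, map_neg, map_sum, LinearMap.neg_apply, LinearMap.sum_apply,
    LinearMap.smul_apply, Finset.sum_sub_distrib]
  abel

/-- Operators with a bounded kernel. -/
def Ker (T : Subalgebra ℂ (H →L[ℂ] H)) [IsTri T] (ω : H) (W : H →L[ℂ] H) : Prop :=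
  ∃ β : H → dg T, (∀ ξ, W ξ = (β ξ : H →L[ℂ] H) ω) ∧
    ∀ χ : WeakDual.characterSpace ℂ (dg T), ∃ e : dg T, ∀ ξ,
      χ (β ξ) = ⟪(e : H →L[ℂ] H) ω, ξ⟫_ℂ

variable {ω : H} {p : dg T}

theorem final_zero (hω : Cyc T ω) (hp : NoFin p) {ι : Type*} (s : Finset ι) :
    ∀ (α β : ι → dg T) (w w' : H →L[ℂ] H), w ∈ Jm p → w' ∈ Jm p → w ∈ Cp H →
      Ker T ω (star w) → w - star w' = ∑ j ∈ s, opL T ω (α j) (β j) →
      ∑ j ∈ s, sch T w (α j) (β j) = 0 → w = 0 := by
  classical
  induction s using Finset.strongInduction with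
  | H s ih =>
  intro α β w w' hw hw' hc hK hδ h0
  obtain ⟨b, hb, hχ⟩ := hK
  have key : ∀ j ∈ s, ∀ η, β j * b η = 0 := by
    intro j hj η
    apply eq_zero_of_chars
    intro χ
    rw [map_mul]
    by_cases hg : χ (β j) = 0
    · rw [hg, zero_mul]
    obtain ⟨e, he⟩ := hχ χ
    have h1 : ∀ η, ∑ i ∈ s, star (β i) * b (star (α i : H →L[ℂ] H) η) = 0 := by
      intro η
      apply hω.sep
      have h2 := congrArg (fun X : H →L[ℂ] H => star X η) h0
      simp only [star_sum, sch_apply, star_mul, star_zero, ContinuousLinearMap.sum_apply,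
        ContinuousLinearMap.mul_apply, ContinuousLinearMap.zero_apply, hb] at h2
      simpa [coe_sum'] using h2
    have h3 : ∑ i ∈ s, χ (β i) • (e * α i) = 0 := by
      apply hω.sep
      apply eq_zero_of_inner_left
      intro η
      have h4 := congrArg χ (h1 η)
      simp only [map_sum, map_mul, map_star, he, map_zero, inner_star_right] at h4
      rw [← h4]
      simp only [coe_sum', coe_smul', ContinuousLinearMap.sum_apply,
        ContinuousLinearMap.smul_apply, sum_inner, inner_smul_left, MulMemClass.coe_mul,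
        ContinuousLinearMap.mul_apply, dg_comm_apply e]
      rfl
    have h5 : (e : H →L[ℂ] H) * w = 0 := by
      apply ih (s.erase j) (Finset.erase_ssubset hj) (fun i => e * α i)
        (fun i => β i - (χ (β i) / χ (β j)) • β j) _ (w' * (star e : dg T)) (Jm_left e hw)
        (Jm_right hw' _) (Cp_mul_left _ hc)
      · refine ⟨fun η => b (star (e : H →L[ℂ] H) η), fun η => ?_, fun χ' => ?_⟩
        · rw [star_mul, ContinuousLinearMap.mul_apply, hb]
        · obtain ⟨e', he'⟩ := hχ χ'
          refine ⟨e * e', fun η => ?_⟩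
          rw [he', inner_star_right]
          rfl
      · rw [bil_reduce _ s _ _ _ hj hg h3, star_mul, coe_star', star_star, ← mul_sub, hδ,
          Finset.mul_sum]
        refine Finset.sum_congr rfl (fun i _ => ?_)
        rw [opL_apply, opL_apply, mul_rankOne]
        rfl
      · rw [bil_reduce _ s _ _ _ hj hg h3]
        have h6 : ∀ i, sch T ((e : H →L[ℂ] H) * w) (e * α i) (β i) =
            (e : H →L[ℂ] H) * e * sch T w (α i) (β i) := by
          intro i
          simp only [sch_apply, MulMemClass.coe_mul, mul_assoc]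
          rw [← mul_assoc (α i : H →L[ℂ] H), dg_comm (α i) e, mul_assoc]
        simp only [h6]
        rw [← Finset.mul_sum, h0, mul_zero]
    have h7 : (e : H →L[ℂ] H) ((e : H →L[ℂ] H) ω) = 0 := by
      apply eq_zero_of_inner_left
      intro η
      have h8 : b (star (e : H →L[ℂ] H) η) = 0 := by
        apply hω.sep
        rw [← hb, ← ContinuousLinearMap.mul_apply, ← star_mul, h5, star_zero]
        rfl
      rw [← inner_star_right, ← he, h8, map_zero]
    have h9 : (e : H →L[ℂ] H) ω = 0 := by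
      have h10 := star_apply_eq_zero h7
      rw [← inner_self_eq_zero (𝕜 := ℂ), ← inner_star_right, ← coe_star', h10, inner_zero_right]
    rw [he, h9, inner_zero_left, mul_zero]
  have h1 : (w - star w') * star w = 0 := by
    rw [hδ, Finset.sum_mul]
    apply Finset.sum_eq_zero
    intro j hj
    ext η
    rw [ContinuousLinearMap.mul_apply, opL_apply, rankOne_apply, inner_star_left, hb,
      ← ContinuousLinearMap.mul_apply, ← MulMemClass.coe_mul, key j hj]
    simp
  have h2 : w * star w = w * w' := by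
    rw [sub_mul, sub_eq_zero] at h1
    have h3 := congrArg star h1
    simpa using h3
  have h3 : w * star w = 0 := by
    apply compact_zero hp
    · rw [h2]; exact Jm_mul hw hw'
    · rw [star_mul, star_star, h2]; exact Jm_mul hw hw'
    · exact Cp_mul_right hc _
  exact (CStarRing.mul_star_self_eq_zero_iff w).mp h3

theorem cross (hp : NoFin p) {ι κ : Type*} [Fintype ι] [Fintype κ] {α β : ι → dg T}
    {α' β' : κ → dg T} {w w' Y Y' : H →L[ℂ] H} (hw : w ∈ Jm p) (hw' : w' ∈ Jm p)
    (hY : Y ∈ Jm p) (hY' : Y' ∈ Jm p) (cw : w ∈ Cp H) (cY : Y ∈ Cp H)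
    (δw : w - star w' = ∑ j, opL T ω (α j) (β j))
    (δY : Y - star Y' = ∑ j, opL T ω (α' j) (β' j)) :
    ∑ j, sch T Y (α j) (β j) = ∑ j, sch T w (α' j) (β' j) := by
  rw [← sub_eq_zero]
  apply compact_zero hp
  · exact Submodule.sub_mem _ (Submodule.sum_mem _ (fun j _ => sch_mem hY _ _))
      (Submodule.sum_mem _ (fun j _ => sch_mem hw _ _))
  · have h1 : ∑ j, sch T (Y - star Y') (α j) (β j) = ∑ j, sch T (w - star w') (α' j) (β' j) := by
      rw [δw, δY]
      simp only [sch_apply, Finset.mul_sum, Finset.sum_mul]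
      simp only [← sch_apply, sch_opL]
      rw [Finset.sum_comm]
      refine Finset.sum_congr rfl (fun i _ => Finset.sum_congr rfl (fun j _ => ?_))
      rw [mul_comm (α j), mul_comm (β' i)]
    have h2 : ∑ j, sch T Y (α j) (β j) - ∑ j, sch T w (α' j) (β' j) =
        ∑ j, sch T (star Y') (α j) (β j) - ∑ j, sch T (star w') (α' j) (β' j) := by
      simp only [sch_apply, mul_sub, sub_mul, Finset.sum_sub_distrib] at h1 ⊢
      rw [sub_eq_sub_iff_sub_eq_sub]
      exact h1
    rw [h2, star_sub, star_sum, star_sum]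
    refine Submodule.sub_mem _ (Submodule.sum_mem _ (fun j _ => ?_))
      (Submodule.sum_mem _ (fun j _ => ?_))
    · rw [sch_apply, star_mul, star_mul, star_star, ← mul_assoc]
      exact sch_mem hY' (star (β j)) (star (α j))
    · rw [sch_apply, star_mul, star_mul, star_star, ← mul_assoc]
      exact sch_mem hw' (star (β' j)) (star (α' j))
  · exact Submodule.sub_mem _ (Submodule.sum_mem _ (fun j _ => sch_cp cY _ _))
      (Submodule.sum_mem _ (fun j _ => sch_cp cw _ _))

end Pool.Agent.Lib.MP_690138_an.KS
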