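import Pool.Agent.Lib.MP_690138_an.Poly

set_option autoImplicit false
set_option linter.unusedSectionVars false
set_option linter.deprecated false

open scoped InnerProductSpace
open Filter Topology InnerProductSpace Finset Polynomial

namespace Pool.Agent.Lib.MP_690138_an.KS

variable {K : Type} [NormedAddCommGroup K] [InnerProductSpace ℂ K] [CompleteSpace K]

/-- A finite stage of the construction. -/
structure St where
  x : ℕ → ℝ
  γ : Bool → ℕ → ℂ
  P : Bool → ℕ → ℂ[X]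

/-- The orthonormal vectors of a stage. -/
noncomputable def St.u (σ : St) (ε : ℕ → K) (N : ℕ) (b : Bool) (a : ℕ) : K :=
  ev ε N σ.x (σ.γ b) (σ.P b a)

/-- The operator data of a stage. -/
noncomputable def St.trip (σ : St) (ε : ℕ → K) (N : ℕ) : (K →L[ℂ] K) × K × K :=
  (∑ i ∈ range N, ((σ.x i : ℂ))⁻¹ • rankOne ℂ (ε i) (ε i),
    ∑ i ∈ range N, (σ.γ false i / σ.x i) • ε i,
    ∑ a ∈ range N, (starRingEnd ℂ) ((σ.P false a).eval 0) • σ.u ε N false a)

/-- Good stages. -/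
structure St.Good (σ : St) (ε : ℕ → K) (N : ℕ) : Prop where
  x : ∀ i < N, 8 ^ i ≤ σ.x i
  s : ∀ i < N, σ.γ true i = σ.γ false i ∨ σ.γ true i = 4 * σ.γ false i
  deg : ∀ b, ∀ a < N, (σ.P b a).degree = a
  on : ∀ b, ONr (σ.u ε N b) N

/-- Later stages keep the data. -/
def St.Ext (σ σ' : St) (N : ℕ) : Prop :=
  ∀ i < N, σ'.x i = σ.x i ∧ ∀ b, σ'.γ b i = σ.γ b i

/-- The splitting coefficients. -/
def Coef (c : Bool → ℂ) : Prop := c false = 1 ∧ (2 ≤ ‖c true‖ ∨ ‖c true‖ ≤ 1 / 2)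

theorem step (ε : HilbertBasis ℕ ℂ K) {σ : St} {N k : ℕ} (h : σ.Good ε N) (hk : k < N) {δ : ℝ}
    (hδ : 0 < δ) : ∃ (σ' : St) (c : Bool → ℂ), σ'.Good ε (N + 1) ∧ σ.Ext σ' N ∧ Coef c ∧
      dist (σ'.trip ε (N + 1)) (σ.trip ε N) ≤ δ ∧
      ∀ b, ∀ a < N + 1, ‖σ'.u ε (N + 1) b a - tg (σ.u ε N b) k (c b) (ε N) a‖ ≤ δ := by
  set ρ : ℂ := (σ.P true k).coeff k / (σ.P false k).coeff k with hρ
  have hρ0 : ρ ≠ 0 := div_ne_zero (coeff_ne_zero_of_eq_degree (h.deg true k hk))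
    (coeff_ne_zero_of_eq_degree (h.deg false k hk))
  obtain ⟨s, hs1, hs2⟩ : ∃ s : ℂ, (s = 1 ∨ s = 4) ∧ (2 ≤ ‖ρ * s‖ ∨ ‖ρ * s‖ ≤ 1 / 2) := by
    by_cases h1 : ‖ρ‖ ≤ 1 / 2
    · exact ⟨1, Or.inl rfl, Or.inr (by rwa [mul_one])⟩
    · refine ⟨4, Or.inr rfl, Or.inl ?_⟩
      rw [norm_mul, Complex.norm_ofNat]
      linarith
  have hs0 : s ≠ 0 := by rcases hs1 with rfl | rfl <;> norm_num
  let sb : Bool → ℂ := fun b => if b then s else 1
  let c : Bool → ℂ := fun b => if b then ρ * s else 1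
  let g : Bool → ℝ → ℂ := fun b R => ((σ.P false k).eval (R : ℂ))⁻¹ * sb b
  have hsys : ∀ b, ∃ Q : ℝ → ℕ → ℂ[X], (∀ᶠ R in atTop, (∀ a < N + 1, (Q R a).degree = a) ∧
      ONr (fun a => ev ε (N + 1) (Function.update σ.x N R) (Function.update (σ.γ b) N (g b R))
        (Q R a)) (N + 1)) ∧
      (∀ a < N + 1, Tendsto (fun R => ev ε (N + 1) (Function.update σ.x N R)
        (Function.update (σ.γ b) N (g b R)) (Q R a)) atTop
          (𝓝 (tg (σ.u ε N b) k (c b) (ε N) a))) ∧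
      (∀ a < N + 1, Tendsto (fun R => (Q R a).eval 0) atTop
        (𝓝 (tz (fun a => (σ.P b a).eval 0) k (c b) a))) := by
    intro b
    apply step_sys ε hk σ.x (σ.γ b) (h.deg b) (h.on b)
    · cases b
      · exact one_ne_zero
      · exact mul_ne_zero hρ0 hs0
    · have h1 := (ratio_lead (h.deg b k hk) (h.deg false k hk)).mul_const (sb b)
      have h2 : (σ.P b k).coeff k / (σ.P false k).coeff k * sb b = c b := by
        cases b
        · simp [sb, c, coeff_ne_zero_of_eq_degree (h.deg false k hk)]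
        · rfl
      rw [h2] at h1
      simpa only [g, div_eq_mul_inv, mul_assoc] using h1
    · intro a ha
      have h1 := (ratio_zero (q := σ.P b a) (P := σ.P false k) (by
        rw [h.deg b a (by omega), h.deg false k hk]; exact_mod_cast ha)).mul_const (sb b)
      simpa only [g, div_eq_mul_inv, mul_assoc, zero_mul] using h1
  choose Q hQ1 hQ2 hQ3 using hsys
  let τ : ℝ → St := fun R => ⟨Function.update σ.x N R,
    fun b => Function.update (σ.γ b) N (g b R), fun b => Q b R⟩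
  have htrip : Tendsto (fun R => (τ R).trip ε (N + 1)) atTop (𝓝 (σ.trip ε N)) := by
    have h1 : Tendsto (fun R : ℝ => (R : ℂ)⁻¹) atTop (𝓝 0) :=
      tendsto_inv₀_cobounded.comp (RCLike.tendsto_ofReal_atTop_cobounded ℂ)
    refine Tendsto.prodMk_nhds ?_ (Tendsto.prodMk_nhds ?_ ?_)
    · have h2 := (h1.smul_const (rankOne ℂ (ε N) (ε N))).const_add
        (∑ i ∈ range N, ((σ.x i : ℂ))⁻¹ • rankOne ℂ (ε i) (ε i))
      rw [zero_smul, add_zero] at h2
      refine h2.congr (fun R => ?_)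
      simp only [τ, sum_range_succ, Function.update_self]
      congr 1
      exact sum_congr rfl (fun a ha => by rw [Function.update_of_ne (mem_range.mp ha).ne])
    · have h2 := ((ratio_zero (degree_one_lt (ne_zero_of_degree (h.deg false k hk)))).smul_const
        (ε N)).const_add (∑ i ∈ range N, (σ.γ false i / σ.x i) • ε i)
      rw [zero_smul, add_zero] at h2
      refine h2.congr (fun R => ?_)
      simp only [τ, sum_range_succ, Function.update_self]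
      congr 1
      · exact sum_congr rfl (fun a ha => by
          rw [Function.update_of_ne (mem_range.mp ha).ne,
            Function.update_of_ne (mem_range.mp ha).ne])
      · simp [g, sb, div_eq_mul_inv]
    · rw [← tg_sum (σ.u ε N false) (fun a => (σ.P false a).eval 0) hk (c false) (ε N)]
      exact tendsto_finset_sum _ (fun a ha =>
        ((Complex.continuous_conj.tendsto _).comp (hQ3 false a (mem_range.mp ha))).smul
          (hQ2 false a (mem_range.mp ha)))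
  have hall : ∀ᶠ R in atTop, ∀ b, ∀ a ∈ range (N + 1),
      ‖(τ R).u ε (N + 1) b a - tg (σ.u ε N b) k (c b) (ε N) a‖ ≤ δ := by
    rw [eventually_all]
    intro b
    rw [eventually_all_finset]
    intro a ha
    have h1 := Metric.tendsto_nhds.mp (hQ2 b a (mem_range.mp ha)) δ hδ
    exact h1.mono (fun R hR => by rw [dist_eq_norm] at hR; exact hR.le)
  obtain ⟨R, ⟨⟨h1, h2⟩, h3⟩, h4⟩ := ((((eventually_all.mpr hQ1).and hall).and
    (Metric.tendsto_nhds.mp htrip δ hδ)).and (eventually_ge_atTop ((8 : ℝ) ^ N))).exists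
  refine ⟨τ R, c, ⟨fun i hi => ?_, fun i hi => ?_, fun b => (h1 b).1, fun b => (h1 b).2⟩,
    fun i hi => ?_, ⟨rfl, hs2⟩, h3.le, fun b a ha => h2 b a (mem_range.mpr ha)⟩
  · rcases Nat.lt_succ_iff_lt_or_eq.mp hi with h5 | rfl
    · simp only [τ, Function.update_of_ne h5.ne]
      exact h.x i h5
    · simpa only [τ, Function.update_self] using h4
  · rcases Nat.lt_succ_iff_lt_or_eq.mp hi with h5 | rfl
    · simp only [τ, Function.update_of_ne h5.ne]
      exact h.s i h5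
    · simp only [τ, Function.update_self, g, sb]
      rcases hs1 with rfl | rfl
      · left; simp
      · right; simp [mul_comm]
  · simp only [τ, Function.update_of_ne hi.ne, implies_true, and_self]

theorem t0_lip (p p' : K) (c : ℂ) (e : K) : ‖t0 p c e - t0 p' c e‖ ≤ ‖p - p'‖ := by
  rw [t0, t0, ← smul_sub, add_sub_add_right_eq_sub, norm_smul, Complex.norm_real,
    Real.norm_of_nonneg (nu_pos c).le]
  apply mul_le_of_le_one_left (norm_nonneg _)
  have h1 := nu_sq c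
  have h2 := nu_pos c
  nlinarith [sq_nonneg (nu c * ‖c‖)]

theorem t1_lip (p p' : K) (c : ℂ) (e : K) : ‖t1 p c e - t1 p' c e‖ ≤ ‖p - p'‖ := by
  rw [t1, t1, ← smul_sub, sub_sub_sub_cancel_right, ← smul_sub, norm_smul, norm_smul,
    Complex.norm_real, Real.norm_of_nonneg (nu_pos c).le, Complex.norm_conj, ← mul_assoc]
  apply mul_le_of_le_one_left (norm_nonneg _)
  have h1 := nu_sq c
  have h2 := nu_pos c
  have h3 : 0 ≤ nu c * ‖c‖ := by positivity
  nlinarith [sq_nonneg (nu c)]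

theorem tri {x y z : K} {a b : ℝ} (h1 : ‖x - y‖ ≤ a) (h2 : ‖y - z‖ ≤ b) : ‖x - z‖ ≤ b + a :=
  (norm_sub_le_norm_sub_add_norm_sub x y z).trans (by linarith)

theorem sweep_aux (ε : HilbertBasis ℕ ℂ K) {σ : St} {N : ℕ} (h : σ.Good ε N) {δ : ℝ}
    (hδ : 0 < δ) : ∀ j ≤ N, ∃ (σ' : St) (c : ℕ → Bool → ℂ), σ'.Good ε (N + j) ∧ σ.Ext σ' N ∧
      (∀ a < j, Coef (c a)) ∧ dist (σ'.trip ε (N + j)) (σ.trip ε N) ≤ j * δ ∧
      (∀ b, ∀ a < j,
        ‖σ'.u ε (N + j) b (2 * a) - t0 (σ.u ε N b a) (c a b) (ε (N + a))‖ ≤ j * δ ∧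
        ‖σ'.u ε (N + j) b (2 * a + 1) - t1 (σ.u ε N b a) (c a b) (ε (N + a))‖ ≤ j * δ) ∧
      ∀ b a, j ≤ a → a < N → ‖σ'.u ε (N + j) b (a + j) - σ.u ε N b a‖ ≤ j * δ := by
  intro j
  induction j with
  | zero =>
    intro _
    exact ⟨σ, fun _ _ => 0, h, fun i _ => ⟨rfl, fun _ => rfl⟩,
      fun a ha => absurd ha (Nat.not_lt_zero a), by simp,
      fun b a ha => absurd ha (Nat.not_lt_zero a), fun b a _ _ => by simp⟩
  | succ j ih =>
    intro hj
    obtain ⟨σ1, c, h1, h2, h3, h4, h5, h6⟩ := ih (by omega)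
    obtain ⟨σ2, c', g1, g2, g3, g4, g5⟩ := step ε h1 (k := 2 * j) (by omega) hδ
    have hcast : ((j + 1 : ℕ) : ℝ) * δ = j * δ + δ := by push_cast; ring
    rw [hcast]
    refine ⟨σ2, Function.update c j c', g1, fun i hi => ?_, fun a ha => ?_, ?_,
      fun b a ha => ?_, fun b a ha ha' => ?_⟩
    · exact ⟨(g2 i (by omega)).1.trans (h2 i hi).1,
        fun b => ((g2 i (by omega)).2 b).trans ((h2 i hi).2 b)⟩
    · rcases Nat.lt_succ_iff_lt_or_eq.mp ha with h7 | rfl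
      · rw [Function.update_of_ne h7.ne]
        exact h3 a h7
      · rwa [Function.update_self]
    · exact (dist_triangle _ (σ1.trip ε (N + j)) _).trans (by
        have : dist (σ2.trip ε (N + (j + 1))) (σ1.trip ε (N + j)) ≤ δ := g4
        linarith)
    · rcases Nat.lt_succ_iff_lt_or_eq.mp ha with h7 | rfl
      · rw [Function.update_of_ne h7.ne]
        have e1 := g5 b (2 * a) (by omega)
        have e2 := g5 b (2 * a + 1) (by omega)
        rw [tg, if_pos (by omega)] at e1 e2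
        exact ⟨tri e1 (h5 b a h7).1, tri e2 (h5 b a h7).2⟩
      · rw [Function.update_self]
        have e1 := g5 b (2 * a) (by omega)
        have e2 := g5 b (2 * a + 1) (by omega)
        rw [tg, if_neg (by omega), if_pos rfl] at e1
        rw [tg, if_neg (by omega), if_neg (by omega), if_pos rfl] at e2
        have e3 := h6 b a le_rfl (by omega)
        rw [← two_mul] at e3
        exact ⟨tri e1 ((t0_lip _ _ _ _).trans e3), tri e2 ((t1_lip _ _ _ _).trans e3)⟩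
    · have e1 := g5 b (a + (j + 1)) (by omega)
      rw [tg, if_neg (by omega), if_neg (by omega), if_neg (by omega)] at e1
      exact tri e1 (h6 b a (by omega) ha')

theorem sweep (ε : HilbertBasis ℕ ℂ K) {σ : St} {n : ℕ} (h : σ.Good ε (2 ^ n)) {δ : ℝ}
    (hδ : 0 < δ) : ∃ (σ' : St) (c : ℕ → Bool → ℂ), σ'.Good ε (2 ^ (n + 1)) ∧ σ.Ext σ' (2 ^ n) ∧
      (∀ a < 2 ^ n, Coef (c a)) ∧ dist (σ'.trip ε (2 ^ (n + 1))) (σ.trip ε (2 ^ n)) ≤ δ ∧
      ∀ b, ∀ a < 2 ^ n,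
        ‖σ'.u ε (2 ^ (n + 1)) b (2 * a) - t0 (σ.u ε (2 ^ n) b a) (c a b) (ε (2 ^ n + a))‖ ≤ δ ∧
        ‖σ'.u ε (2 ^ (n + 1)) b (2 * a + 1) -
          t1 (σ.u ε (2 ^ n) b a) (c a b) (ε (2 ^ n + a))‖ ≤ δ := by
  obtain ⟨σ', c, h1, h2, h3, h4, h5, -⟩ := sweep_aux ε h (δ := δ / 2 ^ n) (by positivity)
    (2 ^ n) le_rfl
  have e1 : 2 ^ n + 2 ^ n = 2 ^ (n + 1) := by ring
  have e2 : ((2 ^ n : ℕ) : ℝ) * (δ / 2 ^ n) = δ := by
    push_cast
    field_simp
  rw [e1, e2] at h4 h5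
  rw [e1] at h1
  exact ⟨σ', c, h1, h2, h3, h4, h5⟩

theorem good_init (ε : HilbertBasis ℕ ℂ K) :
    St.Good ⟨fun _ => 1, fun _ _ => 1, fun _ _ => 1⟩ ε (2 ^ 0) := by
  refine ⟨fun i hi => ?_, fun i _ => Or.inl rfl, fun b a ha => ?_, fun b a a' ha ha' => ?_⟩
  · obtain rfl : i = 0 := by omega
    simp
  · obtain rfl : a = 0 := by omega
    simp
  · obtain rfl : a = 0 := by omega
    obtain rfl : a' = 0 := by omega
    simp [St.u, ev_apply, ε.orthonormal.1 0]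

theorem exists_seq' {α : Type*} (G : ℕ → α → Prop) (Rel : ℕ → α → α → Prop) {a0 : α}
    (h0 : G 0 a0) (hstep : ∀ n a, G n a → ∃ b, G (n + 1) b ∧ Rel n a b) :
    ∃ f : ℕ → α, ∀ n, G n (f n) ∧ Rel n (f n) (f (n + 1)) := by
  choose nx h1 h2 using hstep
  let f : (n : ℕ) → {a // G n a} := fun n =>
    Nat.rec ⟨a0, h0⟩ (fun n a => ⟨nx n a.1 a.2, h1 n a.1 a.2⟩) n
  exact ⟨fun n => (f n).1, fun n => ⟨(f n).2, h2 n (f n).1 (f n).2⟩⟩

/-- The rank one perturbation. -/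
noncomputable def pert (y : (K →L[ℂ] K) × K × K) : K →L[ℂ] K := y.1 - rankOne ℂ y.2.1 y.2.2

theorem pert_cont : Continuous (pert : (K →L[ℂ] K) × K × K → K →L[ℂ] K) := by
  unfold pert
  refine continuous_fst.sub ?_
  have h1 : Continuous (fun y : (K →L[ℂ] K) × K × K =>
      ContinuousLinearMap.toSpanSingleton ℂ y.2.1) := by
    have := (ContinuousLinearMap.toSpanSingletonLIE ℂ K).continuous
    exact this.comp (by fun_prop)
  have h2 : Continuous (fun y : (K →L[ℂ] K) × K × K => innerSL ℂ y.2.2) :=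
    (innerSL ℂ).continuous.comp (by fun_prop)
  exact h1.clm_comp h2

variable {ε : HilbertBasis ℕ ℂ K} {σ : St} {N : ℕ}

theorem St.Good.fix (h : σ.Good ε N) (b : Bool) {d : ℕ} (hd : d ≤ N) {q : ℂ[X]}
    (hq : q.degree < d) : Ep (σ.u ε N b) d (ev ε N σ.x (σ.γ b) q) = ev ε N σ.x (σ.γ b) q := by
  obtain ⟨μ, rfl⟩ := exists_expand (h.deg b) d hd q hq
  simp only [map_sum, map_smul]
  exact sum_congr rfl (fun a ha => congrArg _ (Ep_self (h.on b) hd (mem_range.mp ha)))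

theorem St.Good.full (h : σ.Good ε N) (b : Bool) {i : ℕ} (hi : i < N) :
    Ep (σ.u ε N b) N (ε i) = ε i := by
  have hε : ONr ε N := fun a b _ _ => basis_inner ε a b
  have hE := Ep_norm (h.on b) le_rfl
  have h1 : ∀ j, ‖Ep (σ.u ε N b) N (ε j)‖ ^ 2 = ∑ a ∈ range N, ‖⟪σ.u ε N b a, ε j⟫_ℂ‖ ^ 2 := by
    intro j
    rw [Ep_apply, (h.on b).normsq]
  have h2 : ∀ a < N, ∑ j ∈ range N, ‖⟪σ.u ε N b a, ε j⟫_ℂ‖ ^ 2 = 1 := by
    intro a ha
    have h3 := hε.normsq (fun j => ((σ.P b a).eval (σ.x j : ℂ) * σ.γ b j))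
    rw [← ev_apply] at h3
    have h4 : ‖σ.u ε N b a‖ ^ 2 = 1 := by rw [(h.on b).norm ha, one_pow]
    rw [← h4, St.u, h3]
    refine sum_congr rfl (fun j hj => ?_)
    rw [norm_inner_symm, ev_apply, hε.inner_sum le_rfl (mem_range.mp hj), if_pos (mem_range.mp hj)]
  have h3 : ∑ j ∈ range N, ‖Ep (σ.u ε N b) N (ε j)‖ ^ 2 = ∑ j ∈ range N, (1 : ℝ) := by
    simp only [h1]
    rw [sum_comm]
    exact sum_congr rfl (fun a ha => h2 a (mem_range.mp ha))
  have h4 : ∀ j ∈ range N, ‖Ep (σ.u ε N b) N (ε j)‖ ^ 2 ≤ 1 := by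
    intro j _
    have h5 := (Ep (σ.u ε N b) N).le_of_opNorm_le hE (ε j)
    rw [ε.orthonormal.1 j, mul_one] at h5
    exact pow_le_one₀ (norm_nonneg _) h5
  have h5 := (sum_eq_sum_iff_of_le h4).mp h3 i (mem_range.mpr hi)
  set E := Ep (σ.u ε N b) N with hEdef
  have h6 : ⟪E (ε i), ε i⟫_ℂ = ⟪E (ε i), E (ε i)⟫_ℂ := by
    have h7 : E (E (ε i)) = E (ε i) :=
      Ep_fix (X := 1) (fun a ha => Ep_self (h.on b) le_rfl ha) (ε i)
    rw [← inner_star_left E (E (ε i)), hEdef, Ep_star, ← hEdef, h7]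
  have h7 := @norm_sub_sq ℂ K _ _ _ (E (ε i)) (ε i)
  rw [h6, inner_self_eq_norm_sq, h5, ε.orthonormal.1 i] at h7
  rw [← sub_eq_zero, ← norm_eq_zero, ← pow_eq_zero_iff two_ne_zero, h7]
  norm_num

theorem St.Good.pert_ev (h : σ.Good ε N) {q : ℂ[X]} (hq : q.degree < N) :
    pert (σ.trip ε N) (ev ε N σ.x (σ.γ false) q) = ev ε N σ.x (σ.γ false) q.divX := by
  have hε : ONr ε N := fun a b _ _ => basis_inner ε a b
  have h1 : ⟪(σ.trip ε N).2.2, ev ε N σ.x (σ.γ false) q⟫_ℂ = q.eval 0 := by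
    obtain ⟨μ, rfl⟩ := exists_expand (h.deg false) N le_rfl q hq
    simp only [St.trip, sum_inner, inner_smul_left, Complex.conj_conj, map_sum, map_smul,
      eval_finset_sum, eval_smul, smul_eq_mul]
    refine sum_congr rfl (fun a ha => ?_)
    have h2 := (h.on false).inner_sum le_rfl (mem_range.mp ha) μ
    rw [if_pos (mem_range.mp ha)] at h2
    rw [mul_comm]
    congr 1
  rw [pert, ContinuousLinearMap.sub_apply, rankOne_apply, h1]
  simp only [St.trip, ContinuousLinearMap.sum_apply, ContinuousLinearMap.smul_apply,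
    rankOne_apply]
  rw [smul_sum, ← sum_sub_distrib, ev_apply ε N σ.x (σ.γ false) q.divX]
  refine sum_congr rfl (fun i hi => ?_)
  rw [ev_apply, hε.inner_sum le_rfl (mem_range.mp hi), if_pos (mem_range.mp hi), smul_smul,
    smul_smul, ← sub_smul]
  congr 1
  have h2 : (σ.x i : ℂ) ≠ 0 := by
    have := h.x i (mem_range.mp hi)
    have h3 : (0 : ℝ) < 8 ^ i := by positivity
    exact_mod_cast (by linarith : σ.x i ≠ 0)
  have h3 := congrArg (eval (σ.x i : ℂ)) (divX_mul_X_add q)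
  rw [eval_add, eval_mul, eval_X, eval_C, coeff_zero_eq_eval_zero] at h3
  rw [← h3]
  field_simp
  ring

theorem degree_divX_lt' {q : ℂ[X]} {d : ℕ} (hq : q.degree < ((d + 1 : ℕ) : WithBot ℕ)) :
    q.divX.degree < d := by
  rw [degree_lt_iff_coeff_zero] at hq ⊢
  intro m hm
  rw [coeff_divX]
  exact hq _ (by omega)

theorem St.Good.nilp (h : σ.Good ε N) (hN : 0 < N) : pert (σ.trip ε N) ^ N = 0 := by
  have h1 : ∀ k ≤ N, ∀ q : ℂ[X], q.degree < k →
      (pert (σ.trip ε N) ^ k) (ev ε N σ.x (σ.γ false) q) = 0 := by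
    intro k
    induction k with
    | zero =>
      intro _ q hq
      have : q = 0 := by simpa using hq
      simp [this]
    | succ k ih =>
      intro hk q hq
      rw [pow_succ, ContinuousLinearMap.mul_apply,
        h.pert_ev (hq.trans_le (by exact_mod_cast hk))]
      exact ih (by omega) _ (degree_divX_lt' hq)
  apply ext_basis ε
  intro i
  by_cases hi : i < N
  · rw [← h.full false hi, Ep_apply, map_sum]
    refine sum_eq_zero (fun a ha => ?_)
    rw [map_smul, St.u, h1 N le_rfl _ (by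
      rw [h.deg false a (mem_range.mp ha)]; exact_mod_cast mem_range.mp ha), smul_zero]
  · obtain ⟨M, rfl⟩ : ∃ M, N = M + 1 := ⟨N - 1, by omega⟩
    have h2 : pert (σ.trip ε (M + 1)) (ε i) = 0 := by
      simp only [pert, St.trip, ContinuousLinearMap.sub_apply, ContinuousLinearMap.sum_apply,
        ContinuousLinearMap.smul_apply, rankOne_apply, sum_inner, inner_smul_left]
      rw [sum_eq_zero, sum_eq_zero, zero_smul, sub_zero]
      · intro a _
        rw [← inner_conj_symm, St.u, ev_supp ε _ _ _ _ (not_lt.mp hi), map_zero, mul_zero]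
      · intro a ha
        have := mem_range.mp ha
        rw [basis_inner, if_neg (by omega), zero_smul, smul_zero]
    rw [pow_succ, ContinuousLinearMap.mul_apply, h2, map_zero]
    rfl

theorem exists_tol (h : σ.Good ε N) (hN : 0 < N) : ∃ θ > 0, ∀ y, dist y (σ.trip ε N) ≤ θ →
    ‖pert y ^ N‖ * 4 ^ (100 * N * N) ≤ 1 := by
  have h1 : Continuous (fun y : (K →L[ℂ] K) × K × K => ‖pert y ^ N‖ * 4 ^ (100 * N * N)) :=
    (pert_cont.pow N).norm.mul continuous_const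
  have h2 := (h1.tendsto (σ.trip ε N)).eventually (gt_mem_nhds (a := (1 : ℝ)) (by
    rw [h.nilp hN]; simp))
  obtain ⟨θ, hθ, h3⟩ := Metric.eventually_nhds_iff.mp h2
  exact ⟨θ / 2, by positivity, fun y hy => (h3 (by linarith)).le⟩

theorem exists_stages (ε : HilbertBasis ℕ ℂ K) :
    ∃ (σ : ℕ → St) (τ : ℕ → ℝ) (c : ℕ → ℕ → Bool → ℂ), ∀ n,
      (σ n).Good ε (2 ^ n) ∧ (σ n).Ext (σ (n + 1)) (2 ^ n) ∧ (∀ a < 2 ^ n, Coef (c n a)) ∧
      0 < τ n ∧ τ (n + 1) ≤ τ n / 2 ∧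
      (∀ y, dist y ((σ n).trip ε (2 ^ n)) ≤ 2 * τ n →
        ‖pert y ^ (2 ^ n)‖ * 4 ^ (100 * 2 ^ n * 2 ^ n) ≤ 1) ∧
      dist ((σ (n + 1)).trip ε (2 ^ (n + 1))) ((σ n).trip ε (2 ^ n)) ≤ τ n ∧
      ∀ b, ∀ a < 2 ^ n,
        ‖(σ (n + 1)).u ε (2 ^ (n + 1)) b (2 * a) -
          t0 ((σ n).u ε (2 ^ n) b a) (c n a b) (ε (2 ^ n + a))‖ ≤ (1 / 8) ^ n / 100 ∧
        ‖(σ (n + 1)).u ε (2 ^ (n + 1)) b (2 * a + 1) -
          t1 ((σ n).u ε (2 ^ n) b a) (c n a b) (ε (2 ^ n + a))‖ ≤ (1 / 8) ^ n / 100 := by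
  obtain ⟨θ0, hθ0, h0⟩ := exists_tol (good_init ε) (by norm_num)
  obtain ⟨f, hf⟩ := exists_seq' (α := St × ℝ)
    (fun n z => z.1.Good ε (2 ^ n) ∧ 0 < z.2 ∧ ∀ y, dist y (z.1.trip ε (2 ^ n)) ≤ 2 * z.2 →
      ‖pert y ^ (2 ^ n)‖ * 4 ^ (100 * 2 ^ n * 2 ^ n) ≤ 1)
    (fun n z z' => ∃ c : ℕ → Bool → ℂ, z.1.Ext z'.1 (2 ^ n) ∧ (∀ a < 2 ^ n, Coef (c a)) ∧
      z'.2 ≤ z.2 / 2 ∧ dist (z'.1.trip ε (2 ^ (n + 1))) (z.1.trip ε (2 ^ n)) ≤ z.2 ∧
      ∀ b, ∀ a < 2 ^ n,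
        ‖z'.1.u ε (2 ^ (n + 1)) b (2 * a) -
          t0 (z.1.u ε (2 ^ n) b a) (c a b) (ε (2 ^ n + a))‖ ≤ (1 / 8) ^ n / 100 ∧
        ‖z'.1.u ε (2 ^ (n + 1)) b (2 * a + 1) -
          t1 (z.1.u ε (2 ^ n) b a) (c a b) (ε (2 ^ n + a))‖ ≤ (1 / 8) ^ n / 100)
    (a0 := (⟨fun _ => 1, fun _ _ => 1, fun _ _ => 1⟩, θ0 / 2))
    ⟨good_init ε, by positivity, fun y hy => h0 y (hy.trans (le_of_eq (by ring)))⟩ (by
      rintro n ⟨σ, τ⟩ ⟨h1, h2, -⟩
      obtain ⟨σ', c, g1, g2, g3, g4, g5⟩ := sweep ε h1 (δ := min τ ((1 / 8) ^ n / 100))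
        (lt_min h2 (by positivity))
      obtain ⟨θ, hθ, g6⟩ := exists_tol g1 (by positivity)
      refine ⟨(σ', min (τ / 2) (θ / 2)), ⟨g1, lt_min (half_pos h2) (half_pos hθ),
        fun y hy => g6 y (hy.trans ?_)⟩, c, g2, g3, min_le_left _ _, g4.trans (min_le_left _ _),
        fun b a ha => ⟨(g5 b a ha).1.trans (min_le_right _ _),
          (g5 b a ha).2.trans (min_le_right _ _)⟩⟩
      have := min_le_right (τ / 2) (θ / 2)
      linarith)
  choose c hc using fun n => (hf n).2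
  exact ⟨fun n => (f n).1, fun n => (f n).2, c, fun n => ⟨(hf n).1.1, (hc n).1, (hc n).2.1,
    (hf n).1.2.1, (hc n).2.2.1, (hf n).1.2.2, (hc n).2.2.2.1, (hc n).2.2.2.2⟩⟩

end Pool.Agent.Lib.MP_690138_an.KS
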