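import Pool.Agent.Lib.MP_690138_an.Build
import Pool.Agent.Lib.MP_690138_an.Frame

set_option autoImplicit false
set_option linter.unusedSectionVars false
set_option linter.deprecated false

open scoped InnerProductSpace
open Filter Topology

namespace Pool.Agent.Lib.MP_690138_an.KS

variable {H : Type} [NormedAddCommGroup H] [InnerProductSpace ℂ H] [CompleteSpace H]

theorem exists_nat_basis [TopologicalSpace.SeparableSpace H] (h : ¬ FiniteDimensional ℂ H) :
    Nonempty (HilbertBasis ℕ ℂ H) := by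
  obtain ⟨w, b, -⟩ := exists_hilbertBasis ℂ H
  have hc : Countable w := countable_of_orthonormal b.orthonormal
  have hi : Infinite w := by
    by_contra h1
    rw [not_infinite_iff_finite] at h1
    have := Fintype.ofFinite w
    exact h (Module.Finite.of_basis b.toOrthonormalBasis.toBasis)
  obtain ⟨e⟩ : Nonempty (ℕ ≃ w) := nonempty_equiv_of_countable
  refine ⟨HilbertBasis.mk (b.orthonormal.comp e e.injective) ?_⟩
  rw [Set.range_comp, e.range_eq_univ, Set.image_univ, b.dense_span]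

theorem exists_not_tri [TopologicalSpace.SeparableSpace H] (h : ¬ FiniteDimensional ℂ H) :
    ∃ A : H →L[ℂ] H, ∀ T : Subalgebra ℂ (H →L[ℂ] H), IsTri T → A ∉ T := by
  obtain ⟨b⟩ := exists_nat_basis h
  obtain ⟨m⟩ := exists_model b
  have h4 : ¬ FiniteDimensional ℂ (H4 H) := fun h1 =>
    h (Module.Finite.of_surjective ((pr 0 : H4 H →L[ℂ] H) : H4 H →ₗ[ℂ] H)
      (fun v => ⟨inj 0 v, by simp [pr_apply, inj_apply]⟩))
  have hs : TopologicalSpace.SeparableSpace (H4 H) :=
    (PiLp.continuousLinearEquiv 2 ℂ (fun _ : Fin 4 => H)).symm.surjective.denseRange.separableSpace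
      (PiLp.continuousLinearEquiv 2 ℂ (fun _ : Fin 4 => H)).symm.continuous
  obtain ⟨b4⟩ := exists_nat_basis h4
  let Φ := (b4.repr.trans b.repr.symm).conjStarAlgEquiv
  refine ⟨Φ (m.Aop m.S), fun T hT hA => ?_⟩
  let T' : Subalgebra ℂ (H4 H →L[ℂ] H4 H) := T.comap (Φ : (H4 H →L[ℂ] H4 H) →ₐ[ℂ] (H →L[ℂ] H))
  have hm : ∀ x, x ∈ T' ↔ Φ x ∈ T := fun x => Iff.rfl
  have hT' : IsTri T' := by
    refine ⟨Set.ext (fun x => ?_)⟩
    have h1 := Set.ext_iff.mp hT.eq (Φ x)
    simp only [Set.mem_setOf_eq, hm, map_star, Set.mem_centralizer_iff] at h1 ⊢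
    rw [h1]
    constructor
    · intro h2 y hy
      apply Φ.injective
      rw [map_mul, map_mul]
      exact h2 _ hy
    · intro h2 y hy
      obtain ⟨y', rfl⟩ : ∃ y', Φ y' = y := Φ.surjective y
      rw [← map_mul, ← map_mul, h2 y' hy]
  exact m.not_mem (T := T') hA

theorem centralizer_of_max {T : NonUnitalSubalgebra ℂ (H →L[ℂ] H)}
    (h1 : ∀ x ∈ {x : H →L[ℂ] H | x ∈ T ∧ star x ∈ T},
      ∀ y ∈ {x : H →L[ℂ] H | x ∈ T ∧ star x ∈ T}, x * y = y * x)
    (h2 : ∀ E : NonUnitalStarSubalgebra ℂ (H →L[ℂ] H), (∀ x ∈ E, ∀ y ∈ E, x * y = y * x) →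
      {x : H →L[ℂ] H | x ∈ T ∧ star x ∈ T} ⊆ E →
      (E : Set (H →L[ℂ] H)) = {x : H →L[ℂ] H | x ∈ T ∧ star x ∈ T}) :
    {x : H →L[ℂ] H | x ∈ T ∧ star x ∈ T} =
      Set.centralizer {x : H →L[ℂ] H | x ∈ T ∧ star x ∈ T} := by
  set D := {x : H →L[ℂ] H | x ∈ T ∧ star x ∈ T} with hD
  have hst : ∀ x ∈ D, star x ∈ D := fun x hx => ⟨hx.2, by rw [star_star]; exact hx.1⟩
  have key : ∀ z, star z = z → (∀ d ∈ D, d * z = z * d) → z ∈ T := by
    intro z hz hc
    let s : Set (H →L[ℂ] H) := insert z D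
    have hs : ∀ a ∈ s, ∀ b ∈ s, a * b = b * a := by
      rintro a (rfl | ha) b (rfl | hb)
      · rfl
      · exact (hc b hb).symm
      · exact hc a ha
      · exact h1 a ha b hb
    have hss : ∀ a ∈ s, star a ∈ s := by
      rintro a (rfl | ha)
      · exact Or.inl hz
      · exact Or.inr (hst a ha)
    let E := NonUnitalStarSubalgebra.centralizer ℂ
      (NonUnitalStarSubalgebra.centralizer ℂ s : Set (H →L[ℂ] H))
    have hsub : ∀ a ∈ s, a ∈ NonUnitalStarSubalgebra.centralizer ℂ s := by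
      intro a ha
      rw [NonUnitalStarSubalgebra.mem_centralizer_iff]
      exact fun g hg => ⟨hs g hg a ha, hs _ (hss g hg) a ha⟩
    have hsE : ∀ a ∈ s, a ∈ E := by
      intro a ha
      rw [NonUnitalStarSubalgebra.mem_centralizer_iff]
      intro g hg
      have hg' := star_mem hg
      rw [SetLike.mem_coe, NonUnitalStarSubalgebra.mem_centralizer_iff] at hg
      rw [NonUnitalStarSubalgebra.mem_centralizer_iff] at hg'
      exact ⟨(hg a ha).1.symm, (hg' a ha).1.symm⟩
    have hEc : ∀ x ∈ E, x ∈ NonUnitalStarSubalgebra.centralizer ℂ s := by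
      intro x hx
      rw [NonUnitalStarSubalgebra.mem_centralizer_iff] at hx ⊢
      exact fun g hg => hx g (hsub g hg)
    have h3 := h2 E (fun x hx y hy => by
      rw [NonUnitalStarSubalgebra.mem_centralizer_iff] at hy
      exact (hy x (hEc x hx)).1) (fun d hd => hsE d (Or.inr hd))
    have h4 : z ∈ (E : Set (H →L[ℂ] H)) := hsE z (Or.inl rfl)
    rw [h3] at h4
    exact h4.1
  refine Set.Subset.antisymm (fun x hx d hd => h1 d hd x hx) (fun x hx => ?_)
  have hx' : ∀ d ∈ D, d * star x = star x * d := by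
    intro d hd
    have := congrArg star (hx _ (hst d hd))
    simpa using this.symm
  have a1 := key (x + star x) (by rw [star_add, star_star, add_comm])
    (fun d hd => by rw [mul_add, add_mul, hx d hd, hx' d hd])
  have a2 := key (Complex.I • (x - star x))
    (by rw [star_smul, star_sub, star_star, Complex.star_def, Complex.conj_I, neg_smul,
      ← smul_neg, neg_sub])
    (fun d hd => by rw [mul_smul_comm, smul_mul_assoc, mul_sub, sub_mul, hx d hd, hx' d hd])
  have a3 : x - star x ∈ T := by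
    have h5 := T.smul_mem (-Complex.I) a2
    rwa [smul_smul, neg_mul, Complex.I_mul_I, neg_neg, one_smul] at h5
  constructor
  · have h5 := T.smul_mem (1 / 2 : ℂ) (T.add_mem a1 a3)
    have h6 : (1 / 2 : ℂ) • (x + star x + (x - star x)) = x := by module
    rwa [h6] at h5
  · have h5 := T.smul_mem (1 / 2 : ℂ) (sub_mem a1 a3)
    have h6 : (1 / 2 : ℂ) • (x + star x - (x - star x)) = star x := by module
    rwa [h6] at h5

end Pool.Agent.Lib.MP_690138_an.KS
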