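import Pool.Agent.Lib.MP_690138_an.Final

set_option autoImplicit false
set_option linter.unusedSectionVars false
set_option linter.deprecated false

open scoped InnerProductSpace
open Filter Topology InnerProductSpace Finset

namespace Pool.Agent.Lib.MP_690138_an.KS

variable {K : Type} [NormedAddCommGroup K] [InnerProductSpace ℂ K] [CompleteSpace K]

theorem dense_tendsto (ε : HilbertBasis ℕ ℂ K) {α F : Type*} [NormedAddCommGroup F]
    [NormedSpace ℂ F] {l : Filter α} (X : α → K →L[ℂ] F) {C : ℝ} (hC : ∀ k, ‖X k‖ ≤ C)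
    (h : ∀ i, Tendsto (fun k => X k (ε i)) l (𝓝 0)) (x : K) :
    Tendsto (fun k => X k x) l (𝓝 0) := by
  rw [Metric.tendsto_nhds]
  intro δ hδ
  obtain ⟨s, hs⟩ := (Metric.tendsto_nhds.mp (ε.hasSum_repr x) (δ / (2 * (|C| + 1)))
    (by positivity)).exists
  have h1 : Tendsto (fun k => X k (∑ i ∈ s, ε.repr x i • ε i)) l (𝓝 0) := by
    simp only [map_sum, map_smul]
    have := tendsto_finset_sum s (fun i _ => (h i).const_smul (ε.repr x i))
    simpa using this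
  filter_upwards [Metric.tendsto_nhds.mp h1 (δ / 2) (by positivity)] with k hk
  rw [dist_zero_right] at hk ⊢
  rw [dist_eq_norm'] at hs
  have h2 : X k x = X k (x - ∑ i ∈ s, ε.repr x i • ε i) + X k (∑ i ∈ s, ε.repr x i • ε i) := by
    rw [map_sub, sub_add_cancel]
  have h3 := (X k).le_of_opNorm_le ((hC k).trans ((le_abs_self C).trans
    (by linarith : |C| ≤ |C| + 1))) (x - ∑ i ∈ s, ε.repr x i • ε i)
  have h4 := mul_le_mul_of_nonneg_left hs.le (by positivity : 0 ≤ |C| + 1)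
  have h5 : (|C| + 1) * (δ / (2 * (|C| + 1))) = δ / 2 := by field_simp
  rw [h2]
  refine (norm_add_le _ _).trans_lt ?_
  linarith

theorem exists_strong_limit (ε : HilbertBasis ℕ ℂ K) (X : ℕ → K →L[ℂ] K) (hC : ∀ k, ‖X k‖ ≤ 1)
    (h : ∀ i, CauchySeq (fun k => X k (ε i))) :
    ∃ P : K →L[ℂ] K, ∀ x, Tendsto (fun k => X k x) atTop (𝓝 (P x)) := by
  have h1 : ∀ x, CauchySeq (fun k => X k x) := by
    intro x
    rw [cauchySeq_iff_tendsto_dist_atTop_0]
    simp only [dist_eq_norm]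
    rw [← tendsto_zero_iff_norm_tendsto_zero]
    apply dense_tendsto ε (fun n : ℕ × ℕ => X n.1 - X n.2) (C := 2)
    · intro k
      exact (norm_sub_le _ _).trans (by linarith [hC k.1, hC k.2])
    · intro i
      have h2 := cauchySeq_iff_tendsto_dist_atTop_0.mp (h i)
      simp only [dist_eq_norm] at h2
      exact tendsto_zero_iff_norm_tendsto_zero.mpr h2
  choose f hf using fun x => cauchySeq_tendsto_of_complete (h1 x)
  exact ⟨continuousLinearMapOfTendsto X (tendsto_pi_nhds.mpr hf), hf⟩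

/-- Orthonormality of an initial segment. -/
def ONr (v : ℕ → K) (N : ℕ) : Prop :=
  ∀ a b, a < N → b < N → ⟪v a, v b⟫_ℂ = if a = b then 1 else 0

theorem ONr.norm {v : ℕ → K} {N : ℕ} (h : ONr v N) {a : ℕ} (ha : a < N) : ‖v a‖ = 1 := by
  have h1 := h a a ha ha
  rw [if_pos rfl] at h1
  have h2 : ‖v a‖ ^ 2 = 1 := by
    rw [← inner_self_eq_norm_sq (𝕜 := ℂ), h1]
    simp
  exact (pow_eq_one_iff_of_nonneg (norm_nonneg _) two_ne_zero).mp h2

theorem ONr.inner_sum {v : ℕ → K} {N : ℕ} (h : ONr v N) {d b : ℕ} (hd : d ≤ N) (hb : b < N)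
    (β : ℕ → ℂ) : ⟪v b, ∑ a ∈ range d, β a • v a⟫_ℂ = if b < d then β b else 0 := by
  rw [_root_.inner_sum]
  have : ∀ a ∈ range d, ⟪v b, β a • v a⟫_ℂ = if b = a then β a else 0 := by
    intro a ha
    rw [inner_smul_right, h b a hb (lt_of_lt_of_le (mem_range.mp ha) hd)]
    split_ifs <;> simp
  rw [sum_congr rfl this, sum_ite_eq]
  simp only [mem_range]

theorem ONr.normsq {v : ℕ → K} {N : ℕ} (h : ONr v N) (β : ℕ → ℂ) :
    ‖∑ a ∈ range N, β a • v a‖ ^ 2 = ∑ a ∈ range N, ‖β a‖ ^ 2 := by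
  have h1 : ⟪∑ a ∈ range N, β a • v a, ∑ a ∈ range N, β a • v a⟫_ℂ =
      ∑ a ∈ range N, ((‖β a‖ ^ 2 : ℝ) : ℂ) := by
    rw [sum_inner]
    refine sum_congr rfl (fun a ha => ?_)
    rw [inner_smul_left, h.inner_sum le_rfl (mem_range.mp ha), if_pos (mem_range.mp ha),
      Complex.conj_mul']
    simp
  rw [inner_self_eq_norm_sq_to_K] at h1
  have h2 : ((‖∑ a ∈ range N, β a • v a‖ ^ 2 : ℝ) : ℂ) = ((∑ a ∈ range N, ‖β a‖ ^ 2 : ℝ) : ℂ) := by
    push_cast at h1 ⊢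
    exact h1
  exact_mod_cast h2

/-- Projection onto the span of an initial segment. -/
noncomputable def Ep (v : ℕ → K) (d : ℕ) : K →L[ℂ] K := ∑ a ∈ range d, rankOne ℂ (v a) (v a)

theorem Ep_apply (v : ℕ → K) (d : ℕ) (x : K) :
    Ep v d x = ∑ a ∈ range d, ⟪v a, x⟫_ℂ • v a := by
  simp [Ep]

theorem Ep_star (v : ℕ → K) (d : ℕ) : star (Ep v d) = Ep v d := by
  simp only [Ep, star_sum, star_rankOne]

theorem Ep_self {v : ℕ → K} {N : ℕ} (h : ONr v N) {d a : ℕ} (hd : d ≤ N) (ha : a < d) :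
    Ep v d (v a) = v a := by
  rw [Ep_apply, sum_eq_single a]
  · rw [h a a (by omega) (by omega), if_pos rfl, one_smul]
  · intro b hb hne
    rw [h b a (by have := mem_range.mp hb; omega) (by omega), if_neg hne, zero_smul]
  · intro h1
    exact absurd (mem_range.mpr ha) h1

theorem Ep_fix {v : ℕ → K} {d : ℕ} {X : K →L[ℂ] K} {E : K →L[ℂ] K}
    (h : ∀ a < d, E (X (v a)) = X (v a)) (x : K) : E (X (Ep v d x)) = X (Ep v d x) := by
  simp only [Ep_apply, map_sum, map_smul]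
  exact sum_congr rfl (fun a ha => by rw [h a (mem_range.mp ha)])

theorem Ep_norm {v : ℕ → K} {N : ℕ} (h : ONr v N) {d : ℕ} (hd : d ≤ N) : ‖Ep v d‖ ≤ 1 := by
  apply IsStarProjection.norm_le
  refine ⟨?_, Ep_star v d⟩
  ext x
  exact Ep_fix (X := 1) (fun a ha => Ep_self h hd ha) x

theorem Ep_succ (v : ℕ → K) (d : ℕ) (x : K) :
    Ep v (d + 1) x - Ep v d x = ⟪v d, x⟫_ℂ • v d := by
  rw [Ep_apply, Ep_apply, sum_range_succ, add_sub_cancel_left]

/-- Normalising constant. -/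
noncomputable def nu (c : ℂ) : ℝ := (Real.sqrt (1 + ‖c‖ ^ 2))⁻¹

theorem nu_pos (c : ℂ) : 0 < nu c := inv_pos.mpr (Real.sqrt_pos.mpr (by positivity))

theorem nu_sq (c : ℂ) : nu c ^ 2 * (1 + ‖c‖ ^ 2) = 1 := by
  rw [nu, inv_pow, Real.sq_sqrt (by positivity), inv_mul_cancel₀ (by positivity)]

theorem nu_sq' (c : ℂ) : (nu c : ℂ) * nu c * (1 + c * (starRingEnd ℂ) c) = 1 := by
  rw [Complex.mul_conj']
  have := nu_sq c
  rw [sq] at this
  exact_mod_cast this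

/-- First child. -/
noncomputable def t0 (p : K) (c : ℂ) (e : K) : K := (nu c : ℂ) • (p + c • e)

/-- Second child. -/
noncomputable def t1 (p : K) (c : ℂ) (e : K) : K := (nu c : ℂ) • ((starRingEnd ℂ) c • p - e)

theorem inner_t0 (p : K) (c : ℂ) {e z : K} (h : ⟪e, z⟫_ℂ = 0) :
    ⟪t0 p c e, z⟫_ℂ = nu c * ⟪p, z⟫_ℂ := by
  simp [t0, h]

theorem inner_t1 (p : K) (c : ℂ) {e z : K} (h : ⟪e, z⟫_ℂ = 0) :
    ⟪t1 p c e, z⟫_ℂ = nu c * (c * ⟪p, z⟫_ℂ) := by
  rw [t1, inner_smul_left, inner_sub_left, inner_smul_left, h, Complex.conj_ofReal,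
    Complex.conj_conj, sub_zero]

theorem ideal_add (p : K) (c : ℂ) {e z : K} (h : ⟪e, z⟫_ℂ = 0) :
    ⟪t0 p c e, z⟫_ℂ • t0 p c e + ⟪t1 p c e, z⟫_ℂ • t1 p c e = ⟪p, z⟫_ℂ • p := by
  rw [inner_t0 p c h, inner_t1 p c h, t0, t1]
  have h1 := nu_sq' c
  have h2 : ⟪p, z⟫_ℂ • p = (⟪p, z⟫_ℂ * ((nu c : ℂ) * nu c * (1 + c * (starRingEnd ℂ) c))) • p := by
    rw [h1, mul_one]
  rw [h2]
  module

theorem ideal_sub (p : K) (c : ℂ) {e z : K} (h : ⟪e, z⟫_ℂ = 0) :
    ⟪t0 p c e, z⟫_ℂ • t0 p c e - ⟪t1 p c e, z⟫_ℂ • t1 p c e =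
      (⟪p, z⟫_ℂ * ((nu c : ℂ) * nu c * (1 - c * (starRingEnd ℂ) c))) • p +
        (⟪p, z⟫_ℂ * (nu c * nu c * (2 * c))) • e := by
  rw [inner_t0 p c h, inner_t1 p c h, t0, t1]
  module

theorem pair_est {u t : K} {η : ℝ} (hu : ‖u‖ = 1) (h : ‖u - t‖ ≤ η) (hη : η ≤ 1) (z : K) :
    ‖⟪u, z⟫_ℂ • u - ⟪t, z⟫_ℂ • t‖ ≤ 3 * η * ‖z‖ := by
  have h1 : ⟪u, z⟫_ℂ • u - ⟪t, z⟫_ℂ • t = ⟪u - t, z⟫_ℂ • u + ⟪t, z⟫_ℂ • (u - t) := by
    rw [inner_sub_left]
    module
  have h2 : ‖t‖ ≤ 2 := by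
    have := norm_sub_norm_le t u
    rw [norm_sub_rev] at this
    linarith
  have h0 : 0 ≤ η := (norm_nonneg _).trans h
  rw [h1]
  refine (norm_add_le _ _).trans ?_
  rw [norm_smul, norm_smul, hu, mul_one]
  have h3 := (norm_inner_le_norm (𝕜 := ℂ) (u - t) z).trans
    (mul_le_mul_of_nonneg_right h (norm_nonneg _))
  have h4 := (norm_inner_le_norm (𝕜 := ℂ) t z).trans
    (mul_le_mul_of_nonneg_right h2 (norm_nonneg _))
  have h5 := mul_le_mul h4 h (norm_nonneg _) (by positivity)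
  linarith

theorem sum_range_two_mul {M : Type*} [AddCommMonoid M] (f : ℕ → M) (d : ℕ) :
    ∑ i ∈ range (2 * d), f i = ∑ a ∈ range d, (f (2 * a) + f (2 * a + 1)) := by
  induction d with
  | zero => simp
  | succ d ih => rw [mul_add, mul_one, sum_range_succ, sum_range_succ, ih, sum_range_succ, add_assoc]

/-- An approximately refining system of orthonormal bases. -/
structure Tree (ε : ℕ → K) (u : ℕ → ℕ → K) (c : ℕ → ℕ → ℂ) : Prop where
  on : ∀ n, ONr (u n) (2 ^ n)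
  supp : ∀ n a j, a < 2 ^ n → 2 ^ n ≤ j → ⟪ε j, u n a⟫_ℂ = 0
  full : ∀ n i, i < 2 ^ n → Ep (u n) (2 ^ n) (ε i) = ε i
  c0 : ∀ n a, a < 2 ^ n →
    ‖u (n + 1) (2 * a) - t0 (u n a) (c n a) (ε (2 ^ n + a))‖ ≤ (1 / 8) ^ n / 100
  c1 : ∀ n a, a < 2 ^ n →
    ‖u (n + 1) (2 * a + 1) - t1 (u n a) (c n a) (ε (2 ^ n + a))‖ ≤ (1 / 8) ^ n / 100

/-- Limit projections. -/
def Lim (u : ℕ → ℕ → K) (P : ℕ → ℕ → K →L[ℂ] K) : Prop :=
  ∀ n d, d ≤ 2 ^ n → ∀ x, Tendsto (fun k => Ep (u (n + k)) (d * 2 ^ k) x) atTop (𝓝 (P n d x))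

theorem le_pow_add {n d : ℕ} (h : d ≤ 2 ^ n) (k : ℕ) : d * 2 ^ k ≤ 2 ^ (n + k) := by
  rw [pow_add]
  exact Nat.mul_le_mul_right _ h

theorem eta_le (n : ℕ) : (1 / 8 : ℝ) ^ n / 100 ≤ 1 := by
  have : (1 / 8 : ℝ) ^ n ≤ 1 := pow_le_one₀ (by norm_num) (by norm_num)
  linarith

theorem basis_inner (ε : HilbertBasis ℕ ℂ K) (i j : ℕ) :
    ⟪ε i, ε j⟫_ℂ = if i = j then 1 else 0 := orthonormal_iff_ite.mp ε.orthonormal i j

theorem basis_supp (ε : HilbertBasis ℕ ℂ K) {i N : ℕ} (hi : i < N) :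
    ∀ j, N ≤ j → ⟪ε j, ε i⟫_ℂ = 0 := fun j hj => by
  rw [basis_inner, if_neg (by omega)]

variable {ε : HilbertBasis ℕ ℂ K} {u u' : ℕ → ℕ → K} {c : ℕ → ℕ → ℂ}
  {P P' : ℕ → ℕ → K →L[ℂ] K}

theorem Tree.step (h : Tree ε u c) {n d : ℕ} (hd : d ≤ 2 ^ n) {z : K}
    (hz : ∀ j, 2 ^ n ≤ j → ⟪ε j, z⟫_ℂ = 0) :
    ‖Ep (u n) d z - Ep (u (n + 1)) (2 * d) z‖ ≤ 6 / 100 * ‖z‖ * (1 / 4) ^ n := by
  rw [norm_sub_rev, Ep_apply, Ep_apply, sum_range_two_mul, ← sum_sub_distrib]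
  refine (norm_sum_le _ _).trans ?_
  have h1 : ∀ a ∈ range d, ‖⟪u (n + 1) (2 * a), z⟫_ℂ • u (n + 1) (2 * a) +
      ⟪u (n + 1) (2 * a + 1), z⟫_ℂ • u (n + 1) (2 * a + 1) - ⟪u n a, z⟫_ℂ • u n a‖ ≤
      6 * ((1 / 8) ^ n / 100) * ‖z‖ := by
    intro a ha
    have ha' : a < 2 ^ n := lt_of_lt_of_le (mem_range.mp ha) hd
    have h2 : 2 ^ (n + 1) = 2 * 2 ^ n := by ring
    rw [← ideal_add (u n a) (c n a) (hz (2 ^ n + a) (Nat.le_add_right _ _)), add_sub_add_comm]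
    refine (norm_add_le _ _).trans ?_
    have h3 := pair_est ((h.on (n + 1)).norm (by omega)) (h.c0 n a ha') (eta_le n) z
    have h4 := pair_est ((h.on (n + 1)).norm (by omega)) (h.c1 n a ha') (eta_le n) z
    linarith
  refine (sum_le_sum h1).trans ?_
  rw [sum_const, card_range, nsmul_eq_mul]
  have h5 : (d : ℝ) ≤ 2 ^ n := by exact_mod_cast hd
  have h6 : (2 : ℝ) ^ n * (1 / 8) ^ n = (1 / 4) ^ n := by rw [← mul_pow]; norm_num
  calc (d : ℝ) * (6 * ((1 / 8) ^ n / 100) * ‖z‖) ≤ 2 ^ n * (6 * ((1 / 8) ^ n / 100) * ‖z‖) :=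
        mul_le_mul_of_nonneg_right h5 (by positivity)
    _ = _ := by rw [← h6]; ring

theorem Tree.geom (h : Tree ε u c) {n d : ℕ} (hd : d ≤ 2 ^ n) {z : K}
    (hz : ∀ j, 2 ^ n ≤ j → ⟪ε j, z⟫_ℂ = 0) (k : ℕ) :
    dist (Ep (u (n + k)) (d * 2 ^ k) z) (Ep (u (n + (k + 1))) (d * 2 ^ (k + 1)) z) ≤
      6 / 100 * ‖z‖ * (1 / 4) ^ n * (1 / 4) ^ k := by
  have h1 := h.step (le_pow_add hd k) (z := z) (fun j hj => hz j
    ((Nat.pow_le_pow_right (by norm_num) (Nat.le_add_right n k)).trans hj))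
  rw [dist_eq_norm, mul_assoc, ← pow_add, show d * 2 ^ (k + 1) = 2 * (d * 2 ^ k) by ring]
  exact h1

theorem Tree.exists_lim (h : Tree ε u c) : ∃ P, Lim u P := by
  have h1 : ∀ n d, ∃ P : K →L[ℂ] K, d ≤ 2 ^ n →
      ∀ x, Tendsto (fun k => Ep (u (n + k)) (d * 2 ^ k) x) atTop (𝓝 (P x)) := by
    intro n d
    by_cases hd : d ≤ 2 ^ n
    · obtain ⟨P, hP⟩ := exists_strong_limit ε (fun k => Ep (u (n + k)) (d * 2 ^ k))
        (fun k => Ep_norm (h.on _) (le_pow_add hd k)) (by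
          intro i
          rw [← cauchySeq_shift i]
          have h2 : i < 2 ^ (n + i) :=
            lt_of_lt_of_le Nat.lt_two_pow_self (Nat.pow_le_pow_right (by norm_num) (by omega))
          have h3 := cauchySeq_of_le_geometric (1 / 4) _ (by norm_num)
            (h.geom (le_pow_add hd i) (basis_supp ε h2))
          have h4 : ∀ k, Ep (u (n + (k + i))) (d * 2 ^ (k + i)) (ε i) =
              Ep (u (n + i + k)) (d * 2 ^ i * 2 ^ k) (ε i) := by
            intro k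
            rw [show n + (k + i) = n + i + k by ring,
              show d * 2 ^ (k + i) = d * 2 ^ i * 2 ^ k by ring]
          simp only [h4]
          exact h3)
      exact ⟨P, fun _ => hP⟩
    · exact ⟨0, fun h => absurd h hd⟩
  choose P hP using h1
  exact ⟨P, hP⟩

theorem Tree.close (h : Tree ε u c) (hP : Lim u P) {n d : ℕ} (hd : d ≤ 2 ^ n) {z : K}
    (hz : ∀ j, 2 ^ n ≤ j → ⟪ε j, z⟫_ℂ = 0) :
    ‖P n d z - Ep (u n) d z‖ ≤ 8 / 100 * ‖z‖ * (1 / 4) ^ n := by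
  have h1 := dist_le_of_le_geometric_of_tendsto₀ (1 / 4) _ (by norm_num) (h.geom hd hz)
    (hP n d hd z)
  rw [dist_eq_norm'] at h1
  simp only [add_zero, pow_zero, mul_one] at h1
  refine h1.trans (le_of_eq ?_)
  ring

theorem Lim.star_eq (hP : Lim u P) {n d : ℕ} (hd : d ≤ 2 ^ n) : star (P n d) = P n d := by
  apply op_ext_inner
  intro x y
  rw [inner_star_right]
  have h1 := (hP n d hd y).inner (𝕜 := ℂ) (tendsto_const_nhds (x := x))
  have h2 := (tendsto_const_nhds (x := y)).inner (𝕜 := ℂ) (hP n d hd x)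
  refine tendsto_nhds_unique h1 (h2.congr (fun k => ?_))
  rw [← inner_star_right, Ep_star]

theorem Lim.refine (hP : Lim u P) {n d : ℕ} (hd : d ≤ 2 ^ n) : P (n + 1) (2 * d) = P n d := by
  ext x
  have h1 := hP (n + 1) (2 * d) (by rw [pow_succ]; omega) x
  have h2 := (tendsto_add_atTop_iff_nat 1).mpr (hP n d hd x)
  refine tendsto_nhds_unique h1 (h2.congr (fun k => ?_))
  rw [show n + (k + 1) = n + 1 + k by ring, show d * 2 ^ (k + 1) = 2 * d * 2 ^ k by ring]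

theorem Lim.inter (hP : Lim u P) (hP' : Lim u' P') (hon : ∀ n, ONr (u' n) (2 ^ n)) {n d d' : ℕ}
    (hd : d ≤ 2 ^ n) (hd' : d' ≤ 2 ^ n) {X : ℕ → K →L[ℂ] K} {Y : K →L[ℂ] K}
    (hX : Tendsto X atTop (𝓝 Y))
    (h : ∀ k a, a < d * 2 ^ k → Ep (u' (n + k)) (d' * 2 ^ k) (X (n + k) (u (n + k) a)) =
      X (n + k) (u (n + k) a)) : P' n d' * (Y * P n d) = Y * P n d := by
  ext x
  have hX' : Tendsto (fun k => X (n + k)) atTop (𝓝 Y) :=
    hX.comp (tendsto_atTop_mono (fun k => Nat.le_add_left k n) tendsto_id)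
  have h1 : Tendsto (fun k => X (n + k) (Ep (u (n + k)) (d * 2 ^ k) x)) atTop
      (𝓝 (Y (P n d x))) :=
    ((continuous_fst.clm_apply continuous_snd).tendsto (Y, P n d x)).comp
      (hX'.prodMk_nhds (hP n d hd x))
  have h2 : Tendsto (fun k => Ep (u' (n + k)) (d' * 2 ^ k) (Y (P n d x)) -
      X (n + k) (Ep (u (n + k)) (d * 2 ^ k) x)) atTop (𝓝 0) := by
    have h3 := (tendsto_iff_norm_sub_tendsto_zero.mp h1)
    refine squeeze_zero_norm (fun k => ?_) h3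
    have h5 := (Ep (u' (n + k)) (d' * 2 ^ k)).le_of_opNorm_le
      (Ep_norm (hon _) (le_pow_add hd' k))
      (Y (P n d x) - X (n + k) (Ep (u (n + k)) (d * 2 ^ k) x))
    rwa [map_sub, Ep_fix (h k) x, one_mul, norm_sub_rev (Y _)] at h5
  have h4 := h2.add h1
  simp only [sub_add_cancel, zero_add] at h4
  exact tendsto_nhds_unique (hP' n d' hd' _) h4

theorem Tree.mono (h : Tree ε u c) (hP : Lim u P) {n d d' : ℕ} (hd : d ≤ d') (hd' : d' ≤ 2 ^ n) :
    P n d' * P n d = P n d := by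
  have h1 := hP.inter hP h.on (hd.trans hd') hd' (X := fun _ => 1) tendsto_const_nhds
    (fun k a ha => Ep_self (h.on _) (le_pow_add hd' k)
      (lt_of_lt_of_le ha (Nat.mul_le_mul_right _ hd)))
  simpa using h1

theorem ext_basis (ε : HilbertBasis ℕ ℂ K) {X Y : K →L[ℂ] K} (h : ∀ i, X (ε i) = Y (ε i)) :
    X = Y := by
  ext x
  have h1 := dense_tendsto ε (l := atTop) (fun _ : ℕ => X - Y) (fun _ => le_rfl)
    (fun i => by simp [h i]) x
  exact sub_eq_zero.mp (tendsto_nhds_unique tendsto_const_nhds h1)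

theorem total_basis (ε : HilbertBasis ℕ ℂ K) (η : K) (h : ∀ i, ⟪η, ε i⟫_ℂ = 0) : η = 0 := by
  have h1 := ε.hasSum_inner_mul_inner η η
  simp only [h, zero_mul] at h1
  exact inner_self_eq_zero.mp (h1.unique hasSum_zero)

theorem Tree.top (h : Tree ε u c) (hP : Lim u P) (n : ℕ) : P n (2 ^ n) = 1 := by
  apply ext_basis ε
  intro i
  refine tendsto_nhds_unique (hP n _ le_rfl (ε i)) (tendsto_const_nhds.congr' ?_)
  filter_upwards [eventually_ge_atTop i] with k hk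
  rw [← pow_add, h.full]
  · rfl
  · exact lt_of_lt_of_le Nat.lt_two_pow_self (Nat.pow_le_pow_right (by norm_num) (by omega))

theorem Tree.cell (h : Tree ε u c) (hP : Lim u P) {n d : ℕ} (hd : d < 2 ^ n) {z : K}
    (hz : ∀ j, 2 ^ n ≤ j → ⟪ε j, z⟫_ℂ = 0) :
    ‖P n (d + 1) z - P n d z - ⟪u n d, z⟫_ℂ • u n d‖ ≤ 16 / 100 * ‖z‖ * (1 / 4) ^ n := by
  rw [← Ep_succ, sub_sub_sub_comm]
  have h1 := h.close hP (d := d + 1) hd hz
  have h2 := h.close hP hd.le hz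
  refine (norm_sub_le _ _).trans ?_
  linarith

theorem Tree.strict (h : Tree ε u c) (hP : Lim u P) {n d : ℕ} (hd : d < 2 ^ n) :
    P n (d + 1) ≠ P n d := by
  intro h0
  have h1 := h.cell hP hd (z := u n d) (fun j hj => h.supp n d j hd hj)
  rw [h0, sub_self, zero_sub, norm_neg, h.on n d d hd hd, if_pos rfl, one_smul,
    (h.on n).norm hd] at h1
  have : (1 / 4 : ℝ) ^ n ≤ 1 := pow_le_one₀ (by norm_num) (by norm_num)
  linarith

theorem Tree.cont (h : Tree ε u c) (hc : ∀ n a, c n a = 1) (hP : Lim u P) {n d : ℕ}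
    (hd : d < 2 ^ n) (y : K) (hy : ∀ k, P (n + k) (d * 2 ^ k + 1) y = y) : P n d y = y := by
  rw [← sub_eq_zero]
  apply total_basis ε
  intro i
  have hlt : ∀ k, d * 2 ^ k < 2 ^ (n + k) := fun k => by
    rw [pow_add]
    exact Nat.mul_lt_mul_of_lt_of_le hd le_rfl (by positivity)
  have hi : ∀ k, i < 2 ^ (n + (i + k)) := fun k =>
    lt_of_lt_of_le Nat.lt_two_pow_self (Nat.pow_le_pow_right (by norm_num) (by omega))
  have hε : ∀ j, ‖ε j‖ = 1 := ε.orthonormal.1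
  have hnu : nu 1 ≤ 0.71 := by
    have h1 := nu_sq 1
    have h2 := nu_pos 1
    rw [norm_one] at h1
    nlinarith
  have h1 : ∀ k, ‖⟪u (n + (i + k)) (d * 2 ^ (i + k)), ε i⟫_ℂ‖ ≤ (3 / 4) ^ k := by
    intro k
    induction k with
    | zero =>
      refine (norm_inner_le_norm _ _).trans ?_
      rw [(h.on _).norm (hlt _), hε]
      norm_num
    | succ k ih =>
      have h2 := h.c0 (n + (i + k)) _ (hlt (i + k))
      rw [show 2 * (d * 2 ^ (i + k)) = d * 2 ^ (i + (k + 1)) by ring, hc] at h2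
      have h3 := inner_t0 (u (n + (i + k)) (d * 2 ^ (i + k))) 1
        (basis_supp ε (hi k) (2 ^ (n + (i + k)) + d * 2 ^ (i + k)) (Nat.le_add_right _ _))
      have h4 := (norm_inner_le_norm (𝕜 := ℂ) _ (ε i)).trans
        (mul_le_mul_of_nonneg_right h2 (norm_nonneg _))
      rw [inner_sub_left, h3, hε, mul_one] at h4
      have h5 := norm_le_norm_sub_add (⟪u (n + (i + k) + 1) (d * 2 ^ (i + (k + 1))), ε i⟫_ℂ)
        ((nu 1 : ℂ) * ⟪u (n + (i + k)) (d * 2 ^ (i + k)), ε i⟫_ℂ)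
      rw [norm_mul, Complex.norm_real, Real.norm_of_nonneg (nu_pos 1).le] at h5
      have h6 := mul_le_mul hnu ih (norm_nonneg _) (by norm_num)
      have h7 : (1 / 8 : ℝ) ^ (n + (i + k)) ≤ (3 / 4) ^ k :=
        (pow_le_pow_of_le_one (by norm_num) (by norm_num) (by omega)).trans
          (pow_le_pow_left₀ (by norm_num) (by norm_num) k)
      have h8 : (0 : ℝ) ≤ (3 / 4) ^ k := by positivity
      rw [pow_succ (3 / 4 : ℝ)]
      show ‖⟪u (n + (i + k) + 1) (d * 2 ^ (i + (k + 1))), ε i⟫_ℂ‖ ≤ _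
      linarith
  have hr : ∀ k, P (n + k) (d * 2 ^ k) = P n d := by
    intro k
    induction k with
    | zero => simp
    | succ k ih =>
      rw [← ih, ← hP.refine (le_pow_add hd.le k)]
      congr 1
      ring
  have h2 : ∀ k, ‖⟪P n d y - y, ε i⟫_ℂ‖ ≤ ‖y‖ * 2 * (3 / 4) ^ k := by
    intro k
    have h3 := h.cell hP (hlt (i + k)) (basis_supp ε (hi k))
    have h4 : ⟪P n d y - y, ε i⟫_ℂ = -⟪y, P (n + (i + k)) (d * 2 ^ (i + k) + 1) (ε i) -
        P (n + (i + k)) (d * 2 ^ (i + k)) (ε i)⟫_ℂ := by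
      rw [inner_sub_right, ← inner_star_left, ← inner_star_left, hP.star_eq (hlt _),
        hP.star_eq (hlt _).le, hy, hr, inner_sub_left, neg_sub]
    rw [h4, norm_neg, mul_assoc]
    refine (norm_inner_le_norm _ _).trans (mul_le_mul_of_nonneg_left ?_ (norm_nonneg _))
    refine (norm_le_norm_sub_add _ (⟪u (n + (i + k)) (d * 2 ^ (i + k)), ε i⟫_ℂ •
      u (n + (i + k)) (d * 2 ^ (i + k)))).trans ?_
    rw [norm_smul, (h.on _).norm (hlt _), mul_one]
    rw [hε] at h3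
    have h7 : (1 / 4 : ℝ) ^ (n + (i + k)) ≤ (3 / 4) ^ k :=
      (pow_le_pow_of_le_one (by norm_num) (by norm_num) (by omega)).trans
        (pow_le_pow_left₀ (by norm_num) (by norm_num) k)
    have h8 : (0 : ℝ) ≤ (3 / 4) ^ k := by positivity
    linarith [h1 k]
  have h3 : Tendsto (fun k : ℕ => ‖y‖ * 2 * (3 / 4 : ℝ) ^ k) atTop (𝓝 0) := by
    simpa using (tendsto_pow_atTop_nhds_zero_of_lt_one (r := (3 / 4 : ℝ)) (by norm_num)
      (by norm_num)).const_mul (‖y‖ * 2)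
  exact norm_le_zero_iff.mp (ge_of_tendsto' h3 h2)

theorem Tree.weak (h : Tree ε u c) (hP : Lim u P) {lam : ℕ → ℕ → ℝ} {μ : ℝ}
    (hl : ∀ n a, a < 2 ^ n → |lam n a| ≤ 2 ∧
      lam n a * (1 - ‖c n a‖ ^ 2) = μ * (1 + ‖c n a‖ ^ 2)) (i : ℕ) (ζ : K) :
    Tendsto (fun n => ⟪ζ, comb lam P n (ε i)⟫_ℂ) atTop (𝓝 (μ * ⟪ζ, ε i⟫_ℂ)) := by
  have hε : ∀ j, ‖ε j‖ = 1 := ε.orthonormal.1
  let β : ℕ → ℕ → ℂ := fun n a =>
    lam n a * (⟪u n a, ε i⟫_ℂ * (nu (c n a) * nu (c n a) * (2 * c n a)))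
  let r : ℕ → K := fun n => ∑ a ∈ range (2 ^ n), β n a • ε (2 ^ n + a)
  have hon : ∀ n, ONr (fun a => ε (2 ^ n + a)) (2 ^ n) := fun n a b _ _ => by
    simp only [basis_inner, Nat.add_left_cancel_iff]
  have hr : ∀ n, ‖r n‖ ≤ 2 := by
    intro n
    refine (pow_le_pow_iff_left₀ (norm_nonneg _) (by positivity) two_ne_zero).mp ?_
    have h1 : ∑ a ∈ range (2 ^ n), ‖⟪u n a, ε i⟫_ℂ‖ ^ 2 ≤ 1 := by
      rw [← (h.on n).normsq, ← Ep_apply]
      have h2 := (Ep (u n) (2 ^ n)).le_of_opNorm_le (Ep_norm (h.on n) le_rfl) (ε i)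
      rw [hε, mul_one] at h2
      exact pow_le_one₀ (norm_nonneg _) h2
    simp only [r]
    rw [(hon n).normsq]
    refine le_trans (sum_le_sum (g := fun a => 2 ^ 2 * ‖⟪u n a, ε i⟫_ℂ‖ ^ 2) (fun a ha => ?_)) ?_
    · rw [← mul_pow]
      apply pow_le_pow_left₀ (norm_nonneg _)
      simp only [β, norm_mul, Complex.norm_real, Real.norm_eq_abs, abs_of_pos (nu_pos _),
        Complex.norm_ofNat]
      apply mul_le_mul (hl n a (mem_range.mp ha)).1 _ (by have := nu_pos (c n a); positivity)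
        (by norm_num)
      apply mul_le_of_le_one_right (norm_nonneg _)
      have h3 := nu_sq (c n a)
      have h4 : 0 ≤ nu (c n a) ^ 2 * (1 - ‖c n a‖) ^ 2 := by positivity
      nlinarith
    · rw [← mul_sum]
      linarith
  have hr0 : Tendsto (fun n => ⟪ζ, r n⟫_ℂ) atTop (𝓝 0) := by
    have h1 := dense_tendsto ε (l := atTop) (fun n => innerSL ℂ (r n)) (C := 2)
      (fun n => by rw [innerSL_apply_norm]; exact hr n) (by
        intro j
        refine tendsto_const_nhds.congr' ?_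
        filter_upwards [eventually_ge_atTop j] with n hn
        have hj : j < 2 ^ n :=
          lt_of_lt_of_le Nat.lt_two_pow_self (Nat.pow_le_pow_right (by norm_num) hn)
        simp only [r, innerSL_apply_apply, sum_inner, inner_smul_left]
        symm
        refine sum_eq_zero (fun a _ => ?_)
        rw [basis_supp ε hj _ (Nat.le_add_right _ _), mul_zero]) ζ
    have h2 := h1.star
    simpa only [innerSL_apply_apply, RCLike.star_def, inner_conj_symm, map_zero] using h2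
  have herr : ∀ n, i < 2 ^ n →
      ‖comb lam P n (ε i) - ((μ : ℂ) • ε i + r n)‖ ≤ 2 * (1 / 2) ^ n := by
    intro n hi
    have h2n : 2 ^ (n + 1) = 2 * 2 ^ n := by ring
    have h1 : (μ : ℂ) • ε i + r n = ∑ a ∈ range (2 ^ n), (lam n a : ℂ) •
        (⟪t0 (u n a) (c n a) (ε (2 ^ n + a)), ε i⟫_ℂ • t0 (u n a) (c n a) (ε (2 ^ n + a)) -
          ⟪t1 (u n a) (c n a) (ε (2 ^ n + a)), ε i⟫_ℂ • t1 (u n a) (c n a) (ε (2 ^ n + a))) := by
      conv_lhs => rw [← h.full n i hi, Ep_apply, smul_sum]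
      simp only [r]
      rw [← sum_add_distrib]
      refine sum_congr rfl (fun a ha => ?_)
      rw [ideal_sub _ _ (basis_supp ε hi _ (Nat.le_add_right _ _)), smul_add, smul_smul,
        smul_smul, smul_smul]
      congr 2
      have h2 := (hl n a (mem_range.mp ha)).2
      have h3 : (lam n a : ℂ) * (1 - c n a * (starRingEnd ℂ) (c n a)) =
          μ * (1 + c n a * (starRingEnd ℂ) (c n a)) := by
        rw [Complex.mul_conj']
        exact_mod_cast h2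
      have h4 := nu_sq' (c n a)
      linear_combination (-(μ : ℂ) * ⟪u n a, ε i⟫_ℂ) * h4 -
        (⟪u n a, ε i⟫_ℂ * nu (c n a) * nu (c n a)) * h3
    rw [h1, comb, ContinuousLinearMap.sum_apply, ← sum_sub_distrib]
    refine (norm_sum_le _ _).trans ((sum_le_sum (g := fun _ => 2 * (1 / 4 : ℝ) ^ n)
      (fun a ha => ?_)).trans ?_)
    · have ha' := mem_range.mp ha
      rw [ContinuousLinearMap.smul_apply, ← smul_sub, norm_smul, Complex.norm_real,
        Real.norm_eq_abs]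
      apply mul_le_mul (hl n a ha').1 _ (norm_nonneg _) (by norm_num)
      have hz := basis_supp ε (N := 2 ^ (n + 1)) (i := i) (by omega)
      have e1 := h.cell hP (n := n + 1) (d := 2 * a) (by omega) hz
      have e2 := h.cell hP (n := n + 1) (d := 2 * a + 1) (by omega) hz
      have e3 := pair_est ((h.on (n + 1)).norm (by omega)) (h.c0 n a ha') (eta_le n) (ε i)
      have e4 := pair_est ((h.on (n + 1)).norm (by omega)) (h.c1 n a ha') (eta_le n) (ε i)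
      rw [hε] at e1 e2 e3 e4
      have h7 : (1 / 8 : ℝ) ^ n ≤ (1 / 4) ^ n := pow_le_pow_left₀ (by norm_num) (by norm_num) n
      have h8 : (0 : ℝ) ≤ (1 / 4) ^ n := by positivity
      rw [pow_succ] at e1 e2
      have key : ∀ A B C D E F : K, ‖(A - B) - (C - D)‖ ≤
          ‖A - E‖ + ‖B - F‖ + ‖E - C‖ + ‖F - D‖ := by
        intro A B C D E F
        have : (A - B) - (C - D) = ((A - E) - (B - F)) + (E - C) - (F - D) := by abel
        rw [this]
        exact (norm_sub_le _ _).trans (add_le_add ((norm_add_le _ _).trans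
          (add_le_add (norm_sub_le _ _) le_rfl)) le_rfl)
      refine (key _ _ _ _ (⟪u (n + 1) (2 * a), ε i⟫_ℂ • u (n + 1) (2 * a))
        (⟪u (n + 1) (2 * a + 1), ε i⟫_ℂ • u (n + 1) (2 * a + 1))).trans ?_
      refine (add_le_add (add_le_add (add_le_add e1 e2) e3) e4).trans ?_
      linarith
    · rw [sum_const, card_range, nsmul_eq_mul]
      have h6 : (2 : ℝ) ^ n * (1 / 4) ^ n = (1 / 2) ^ n := by rw [← mul_pow]; norm_num
      push_cast
      rw [← h6]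
      exact le_of_eq (by ring)
  have h1 : Tendsto (fun n => comb lam P n (ε i) - ((μ : ℂ) • ε i + r n)) atTop (𝓝 0) := by
    have h3 : Tendsto (fun k : ℕ => 2 * (1 / 2 : ℝ) ^ k) atTop (𝓝 0) := by
      simpa using (tendsto_pow_atTop_nhds_zero_of_lt_one (r := (1 / 2 : ℝ)) (by norm_num)
        (by norm_num)).const_mul 2
    refine squeeze_zero_norm' ?_ h3
    filter_upwards [eventually_ge_atTop i] with n hn
    exact herr n (lt_of_lt_of_le Nat.lt_two_pow_self (Nat.pow_le_pow_right (by norm_num) hn))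
  have h2 := (((tendsto_const_nhds (x := ζ)).inner (𝕜 := ℂ) h1).add hr0).add_const
    (μ * ⟪ζ, ε i⟫_ℂ)
  simp only [inner_zero_right, zero_add] at h2
  refine h2.congr (fun n => ?_)
  rw [inner_sub_right, inner_add_right, inner_smul_right]
  ring

end Pool.Agent.Lib.MP_690138_an.KS
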