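import Pool.Agent.Lib.MP_690138_an.Laurent

set_option autoImplicit false
set_option linter.unusedSectionVars false
set_option linter.deprecated false

open scoped InnerProductSpace
open Filter Topology

namespace Pool.Agent.Lib.MP_690138_an

variable {H : Type*} [NormedAddCommGroup H] [InnerProductSpace ℂ H] [CompleteSpace H]

/-- The value `d₀ T j₁ d₁ ⋯ T j_L d_L` of a word. -/
noncomputable def val (T : ℕ → H →L[ℂ] H) :
    (H →L[ℂ] H) → List (ℕ × (H →L[ℂ] H)) → (H →L[ℂ] H)
  | d, [] => d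
  | d, p :: w => d * T p.1 * val T p.2 w

/-- The free-product coefficient of a word at an orbit and a position. -/
noncomputable def coef (ε : HilbertBasis ℤ ℂ H) (β : ℕ → ℕ → ℂ) :
    (H →L[ℂ] H) → List (ℕ × (H →L[ℂ] H)) → List (ℤ × ℕ) → ℤ → ℂ
  | d, [], [], γ => hat ε d γ
  | _, [], _ :: _, _ => 0
  | _, _ :: _, [], _ => 0
  | d, p :: w, q :: o, γ => hat ε d γ * β p.1 q.2 * coef ε β p.2 w o q.1

/-- Words with inner diagonal entries centred and letters in `J`. -/
def Normal (ε : HilbertBasis ℤ ℂ H) (J : Set ℕ) : List (ℕ × (H →L[ℂ] H)) → Prop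
  | [] => True
  | p :: w => p.1 ∈ J ∧ p.2 ∈ diag ε ∧ (w ≠ [] → hat ε p.2 0 = 0) ∧ Normal ε J w

theorem Normal.mono {ε : HilbertBasis ℤ ℂ H} {J J' : Set ℕ} (h : J ⊆ J') :
    ∀ {w : List (ℕ × (H →L[ℂ] H))}, Normal ε J w → Normal ε J' w
  | [], _ => trivial
  | _ :: _, ⟨h1, h2, h3, h4⟩ => ⟨h h1, h2, h3, Normal.mono h h4⟩

/-- Independence of the rows of `β`. -/
def RowIndep (β : ℕ → ℕ → ℂ) : Prop :=
  ∀ (t : Finset ℕ) (a : ℕ → ℂ), (∀ i, ∑ j ∈ t, a j * β j i = 0) → ∀ j ∈ t, a j = 0

theorem RowIndep.fiber {β : ℕ → ℕ → ℂ} (hβ : RowIndep β) {ι : Type*} (s : Finset ι)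
    (x : ι → ℂ) (j : ι → ℕ) (h : ∀ i, ∑ a ∈ s, x a * β (j a) i = 0) (j0 : ℕ) :
    ∑ a ∈ s.filter (fun a => j a = j0), x a = 0 := by
  classical
  by_cases hj : j0 ∈ s.image j
  · refine hβ (s.image j) (fun j1 => ∑ a ∈ s.filter (fun a => j a = j1), x a) ?_ j0 hj
    intro i
    rw [← h i, ← Finset.sum_fiberwise_of_maps_to (s := s) (t := s.image j) (g := j)
      (fun a ha => Finset.mem_image_of_mem j ha)]
    refine Finset.sum_congr rfl fun j1 _ => ?_
    rw [Finset.sum_mul]
    refine Finset.sum_congr rfl fun a ha => ?_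
    rw [(Finset.mem_filter.mp ha).2]
  · apply Finset.sum_eq_zero
    intro a ha
    exfalso
    obtain ⟨h1, h2⟩ := Finset.mem_filter.mp ha
    exact hj (Finset.mem_image.mpr ⟨a, h1, h2⟩)

theorem hat_sum_smul (ε : HilbertBasis ℤ ℂ H) {ι : Type*} (s : Finset ι) (c : ι → ℂ)
    (d : ι → H →L[ℂ] H) (γ : ℤ) :
    hat ε (∑ a ∈ s, c a • d a) γ = ∑ a ∈ s, c a * hat ε (d a) γ := by
  unfold hat
  simp [ContinuousLinearMap.sum_apply, inner_sum, inner_smul_right]

theorem diag_eq_zero {ε : HilbertBasis ℤ ℂ H} {d : H →L[ℂ] H} (hd : d ∈ diag ε)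
    (h : ∀ γ, hat ε d γ = 0) : d = 0 := by
  apply op_ext' ε
  intro m n
  rw [inner_diag hd, h]
  simp

/-- A linear relation between the coefficients of words holds between their values, whatever the
letters are. -/
theorem val_rel {ε : HilbertBasis ℤ ℂ H} {β : ℕ → ℕ → ℂ} (hβ : RowIndep β)
    (T : ℕ → H →L[ℂ] H) (L : ℕ) :
    ∀ {ι : Type} (s : Finset ι) (c : ι → ℂ) (d : ι → H →L[ℂ] H)
      (w : ι → List (ℕ × (H →L[ℂ] H))), (∀ a ∈ s, d a ∈ diag ε) →
      (∀ a ∈ s, Normal ε Set.univ (w a)) → (∀ a ∈ s, (w a).length ≤ L) →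
      (∀ o γ, ∑ a ∈ s, c a * coef ε β (d a) (w a) o γ = 0) →
      ∑ a ∈ s, c a • val T (d a) (w a) = 0 := by
  classical
  have key : ∀ {ι : Type} (s : Finset ι) (c : ι → ℂ) (d : ι → H →L[ℂ] H)
      (w : ι → List (ℕ × (H →L[ℂ] H))), (∀ a ∈ s, d a ∈ diag ε) →
      (∀ o γ, ∑ a ∈ s, c a * coef ε β (d a) (w a) o γ = 0) →
      ∑ a ∈ s.filter (fun a => w a = []), c a • val T (d a) (w a) = 0 := by
    intro ι s c d w hd h
    have h1 : ∑ a ∈ s.filter (fun a => w a = []), c a • val T (d a) (w a) =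
        ∑ a ∈ s.filter (fun a => w a = []), c a • d a := by
      refine Finset.sum_congr rfl fun a ha => ?_
      rw [(Finset.mem_filter.mp ha).2]
      rfl
    rw [h1]
    apply diag_eq_zero (ε := ε)
    · exact Subalgebra.sum_mem _ fun a ha =>
        Subalgebra.smul_mem _ (hd a (Finset.mem_filter.mp ha).1) _
    · intro γ
      rw [hat_sum_smul, ← h [] γ, Finset.sum_filter]
      refine Finset.sum_congr rfl fun a _ => ?_
      cases hw : w a with
      | nil => simp [coef]
      | cons p w' => simp [coef]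
  induction L with
  | zero =>
    intro ι s c d w hd _ hL h
    rw [← key s c d w hd h]
    congr 1
    symm
    apply Finset.filter_true_of_mem
    intro a ha
    exact List.length_eq_zero_iff.mp (Nat.le_zero.mp (hL a ha))
  | succ L ih =>
    intro ι s c d w hd hN hL h
    rw [← Finset.sum_filter_add_sum_filter_not s (fun a => w a = []), key s c d w hd h, zero_add]
    set s1 := s.filter (fun a => ¬ w a = []) with hs1
    let hd' : ι → ℕ × (H →L[ℂ] H) := fun a => (w a).headD (0, 0)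
    let tl : ι → List (ℕ × (H →L[ℂ] H)) := fun a => (w a).tail
    have hw : ∀ a ∈ s1, w a = hd' a :: tl a := by
      intro a ha
      have := (Finset.mem_filter.mp ha).2
      cases hwa : w a with
      | nil => exact absurd hwa this
      | cons p w' => simp [hd', tl, hwa]
    have hN' : ∀ a ∈ s1, (hd' a).2 ∈ diag ε ∧ Normal ε Set.univ (tl a) := by
      intro a ha
      have := hN a (Finset.mem_filter.mp ha).1
      rw [hw a ha] at this
      exact ⟨this.2.1, this.2.2.2⟩
    have hL' : ∀ a ∈ s1, (tl a).length ≤ L := by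
      intro a ha
      have := hL a (Finset.mem_filter.mp ha).1
      rw [hw a ha, List.length_cons] at this
      omega
    have h1 : ∀ γ o σ i, ∑ a ∈ s1, (c a * hat ε (d a) γ * coef ε β (hd' a).2 (tl a) o σ) *
        β (hd' a).1 i = 0 := by
      intro γ o σ i
      rw [← h ((σ, i) :: o) γ,
        ← Finset.sum_filter_add_sum_filter_not s (fun a => w a = [])]
      have h0 : ∑ a ∈ s.filter (fun a => w a = []),
          c a * coef ε β (d a) (w a) ((σ, i) :: o) γ = 0 := by
        apply Finset.sum_eq_zero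
        intro a ha
        rw [(Finset.mem_filter.mp ha).2]
        simp [coef]
      rw [h0, zero_add]
      refine Finset.sum_congr rfl fun a ha => ?_
      rw [hw a ha]
      simp only [coef]
      ring
    have h2 : ∀ γ j0, ∑ a ∈ s1.filter (fun a => (hd' a).1 = j0),
        (c a * hat ε (d a) γ) • val T (hd' a).2 (tl a) = 0 := by
      intro γ j0
      apply ih
      · intro a ha
        exact (hN' a (Finset.mem_filter.mp ha).1).1
      · intro a ha
        exact (hN' a (Finset.mem_filter.mp ha).1).2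
      · intro a ha
        exact hL' a (Finset.mem_filter.mp ha).1
      · intro o σ
        exact hβ.fiber s1 _ (fun a => (hd' a).1) (h1 γ o σ) j0
    have h3 : ∑ a ∈ s1, c a • val T (d a) (w a) =
        ∑ a ∈ s1, d a * (c a • (T (hd' a).1 * val T (hd' a).2 (tl a))) := by
      refine Finset.sum_congr rfl fun a ha => ?_
      rw [hw a ha]
      simp only [val]
      rw [mul_smul_comm, mul_assoc]
    rw [h3]
    apply diag_tensor (ε := ε)
    · intro a ha
      exact hd a (Finset.mem_filter.mp ha).1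
    · intro γ
      rw [← Finset.sum_fiberwise_of_maps_to (s := s1) (t := s1.image (fun a => (hd' a).1))
        (g := fun a => (hd' a).1) (fun a ha => Finset.mem_image_of_mem _ ha)]
      apply Finset.sum_eq_zero
      intro j0 _
      have h4 := congrArg (fun Z => T j0 * Z) (h2 γ j0)
      simp only [mul_zero, Finset.mul_sum] at h4
      rw [← h4]
      refine Finset.sum_congr rfl fun a ha => ?_
      rw [(Finset.mem_filter.mp ha).2, mul_smul_comm, smul_smul, mul_comm]

/-- The span of the normal words. -/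
noncomputable def nspan (ε : HilbertBasis ℤ ℂ H) (b : ℕ → H →L[ℂ] H) (J : Set ℕ) :
    Submodule ℂ (H →L[ℂ] H) :=
  Submodule.span ℂ {x | ∃ d w, d ∈ diag ε ∧ Normal ε J w ∧ x = val b d w}

theorem val_mem_nspan {ε : HilbertBasis ℤ ℂ H} {b : ℕ → H →L[ℂ] H} {J : Set ℕ}
    {d : H →L[ℂ] H} {w : List (ℕ × (H →L[ℂ] H))} (hd : d ∈ diag ε) (hw : Normal ε J w) :
    val b d w ∈ nspan ε b J :=
  Submodule.subset_span ⟨d, w, hd, hw, rfl⟩

theorem mul_val (b : ℕ → H →L[ℂ] H) (e d : H →L[ℂ] H) (w : List (ℕ × (H →L[ℂ] H))) :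
    e * val b d w = val b (e * d) w := by
  cases w with
  | nil => rfl
  | cons p w => simp only [val, mul_assoc]

theorem mul_mem_nspan {ε : HilbertBasis ℤ ℂ H} {b : ℕ → H →L[ℂ] H} {J : Set ℕ}
    {e : H →L[ℂ] H} (he : ∀ d w, d ∈ diag ε → Normal ε J w → e * val b d w ∈ nspan ε b J)
    {x : H →L[ℂ] H} (hx : x ∈ nspan ε b J) : e * x ∈ nspan ε b J := by
  induction hx using Submodule.span_induction with
  | mem x hx =>
    obtain ⟨d, w, hd, hw, rfl⟩ := hx
    exact he d w hd hw
  | zero => simp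
  | add x y _ _ hx hy => rw [mul_add]; exact Submodule.add_mem _ hx hy
  | smul a x _ hx => rw [mul_smul_comm]; exact Submodule.smul_mem _ _ hx

theorem hat_sub_smul_one (ε : HilbertBasis ℤ ℂ H) (d : H →L[ℂ] H) :
    hat ε (d - hat ε d 0 • (1 : H →L[ℂ] H)) 0 = 0 := by
  have h1 := hat_one ε
  unfold hat at h1 ⊢
  rw [ContinuousLinearMap.sub_apply, inner_sub_right, ContinuousLinearMap.smul_apply,
    inner_smul_right, h1]
  ring

theorem adjoin_le_nspan {ε : HilbertBasis ℤ ℂ H} {b : ℕ → H →L[ℂ] H} (B : H →L[ℂ] H)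
    (ν : ℕ → ℕ) (ψ : ℕ → ℂ) (hb : ∀ m, b (ν m) = B ^ (m + 1) - ψ m • (1 : H →L[ℂ] H))
    {x : H →L[ℂ] H} (hx : x ∈ Algebra.adjoin ℂ (insert B (diag ε : Set (H →L[ℂ] H)))) :
    x ∈ nspan ε b (Set.range ν) := by
  have hB : B = b (ν 0) + ψ 0 • (1 : H →L[ℂ] H) := by
    rw [hb 0]
    simp
  have hmulD : ∀ e ∈ diag ε, ∀ y ∈ nspan ε b (Set.range ν), e * y ∈ nspan ε b (Set.range ν) := by
    intro e he y hy
    refine mul_mem_nspan ?_ hy
    intro d w hd hw
    rw [mul_val]
    exact val_mem_nspan (Subalgebra.mul_mem _ he hd) hw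
  have hone : (1 : H →L[ℂ] H) ∈ diag ε := Subalgebra.one_mem _
  have hcent : ∀ d w, d ∈ diag ε → Normal ε (Set.range ν) w → (w ≠ [] → hat ε d 0 = 0) →
      B * val b d w ∈ nspan ε b (Set.range ν) := by
    intro d w hd hw h0
    have h1 : B * val b d w = val b 1 ((ν 0, d) :: w) + ψ 0 • val b d w := by
      simp only [val, one_mul]
      rw [hB, add_mul, smul_mul_assoc, one_mul]
    rw [h1]
    refine Submodule.add_mem _ (val_mem_nspan hone ?_)
      (Submodule.smul_mem _ _ (val_mem_nspan hd hw))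
    exact ⟨⟨0, rfl⟩, hd, h0, hw⟩
  have hmulB : ∀ y ∈ nspan ε b (Set.range ν), B * y ∈ nspan ε b (Set.range ν) := by
    intro y hy
    refine mul_mem_nspan ?_ hy
    intro d w hd hw
    cases w with
    | nil => exact hcent d [] hd hw (fun h => absurd rfl h)
    | cons p w =>
      obtain ⟨⟨m, hm⟩, hp, hp0, hw'⟩ := hw
      have hw : Normal ε (Set.range ν) (p :: w) := ⟨⟨m, hm⟩, hp, hp0, hw'⟩
      have hd0 : d - hat ε d 0 • (1 : H →L[ℂ] H) ∈ diag ε :=
        Subalgebra.sub_mem _ hd (Subalgebra.smul_mem _ hone _)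
      have h1 : B * val b d (p :: w) =
          B * val b (d - hat ε d 0 • (1 : H →L[ℂ] H)) (p :: w) +
            hat ε d 0 • (val b 1 ((ν (m + 1), p.2) :: w) + ψ (m + 1) • val b p.2 w
              - ψ m • val b 1 ((ν 0, p.2) :: w) - (ψ m * ψ 0) • val b p.2 w) := by
        simp only [val, one_mul]
        rw [← hm, hb m, hb (m + 1), hb 0]
        simp only [sub_mul, mul_sub, smul_mul_assoc, mul_smul_comm, one_mul, mul_one, zero_add,
          pow_one, pow_succ' B (m + 1), mul_assoc, smul_sub, smul_add, smul_smul]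
        module
      rw [h1]
      refine Submodule.add_mem _ (hcent _ _ hd0 hw fun _ => hat_sub_smul_one ε d) ?_
      refine Submodule.smul_mem _ _ ?_
      refine Submodule.sub_mem _ (Submodule.sub_mem _ (Submodule.add_mem _ ?_ ?_) ?_) ?_
      · exact val_mem_nspan hone ⟨⟨m + 1, rfl⟩, hp, hp0, hw'⟩
      · exact Submodule.smul_mem _ _ (val_mem_nspan hp hw')
      · exact Submodule.smul_mem _ _ (val_mem_nspan hone ⟨⟨0, rfl⟩, hp, hp0, hw'⟩)
      · exact Submodule.smul_mem _ _ (val_mem_nspan hp hw')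
  have hall : ∀ y ∈ nspan ε b (Set.range ν), x * y ∈ nspan ε b (Set.range ν) := by
    induction hx using Algebra.adjoin_induction with
    | mem x hx =>
      rcases hx with rfl | hx
      · exact hmulB
      · exact hmulD x hx
    | algebraMap r =>
      intro y hy
      rw [← Algebra.smul_def]
      exact Submodule.smul_mem _ _ hy
    | add x z _ _ hx hz =>
      intro y hy
      rw [add_mul]
      exact Submodule.add_mem _ (hx y hy) (hz y hy)
    | mul x z _ _ hx hz =>
      intro y hy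
      rw [mul_assoc]
      exact hx _ (hz y hy)
  have := hall 1 (val_mem_nspan (b := b) (w := []) hone trivial)
  rwa [mul_one] at this

end Pool.Agent.Lib.MP_690138_an
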